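import Pool.Agent.Lib.MP_d8fb5e_lc.Poincare

namespace Pool.Agent.Lib.MP_d8fb5e_lc

open Finset

set_option linter.unusedSectionVars false

variable {E : Type} [Fintype E] [DecidableEq E]

theorem sdiff_card_comm_aux {x z : Finset E} (h : x.card = z.card) :
    (x \ z).card = (z \ x).card := by
  have h1 := Finset.card_sdiff_add_card_inter x z
  have h2 := Finset.card_sdiff_add_card_inter z x
  rw [Finset.inter_comm z x] at h2
  omega

/-- degree bound in the exchange graph -/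
theorem degree_bound_aux (𝓑 : Finset (Finset E)) (r : ℕ) (hr : ∀ B ∈ 𝓑, B.card = r)
    (z : Finset E) (hz : z ∈ 𝓑) :
    4 * (𝓑.filter fun x => (x \ z).card = 1).card ≤ Fintype.card E ^ 2 := by
  classical
  have h1 : (𝓑.filter fun x => (x \ z).card = 1).card ≤ (z ×ˢ zᶜ).card := by
    have hsub : (𝓑.filter fun x => (x \ z).card = 1) ⊆
        (z ×ˢ zᶜ).image (fun p : E × E => insert p.2 (z.erase p.1)) := by
      intro x hx
      rw [mem_filter] at hx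
      obtain ⟨hxB, hx1⟩ := hx
      obtain ⟨f, hf⟩ := Finset.card_eq_one.1 hx1
      have hx2 : (z \ x).card = 1 := by
        rw [← sdiff_card_comm_aux ((hr x hxB).trans (hr z hz).symm)]; exact hx1
      obtain ⟨e, he⟩ := Finset.card_eq_one.1 hx2
      rw [mem_image]
      refine ⟨(e, f), ?_, ?_⟩
      · rw [mem_product]
        have hf' : f ∈ x \ z := by rw [hf]; exact mem_singleton_self f
        have he' : e ∈ z \ x := by rw [he]; exact mem_singleton_self e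
        rw [mem_sdiff] at hf' he'
        exact ⟨he'.1, mem_compl.2 hf'.2⟩
      · ext y
        simp only [mem_insert, mem_erase]
        constructor
        · rintro (rfl | ⟨h1, h2⟩)
          · have : y ∈ x \ z := by rw [hf]; exact mem_singleton_self y
            exact (mem_sdiff.1 this).1
          · by_contra h3
            have : y ∈ z \ x := mem_sdiff.2 ⟨h2, h3⟩
            rw [he, mem_singleton] at this
            exact h1 this
        · intro hy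
          by_cases hyz : y ∈ z
          · right
            refine ⟨?_, hyz⟩
            rintro rfl
            have : y ∈ z \ x := by rw [he]; exact mem_singleton_self y
            exact (mem_sdiff.1 this).2 hy
          · left
            have : y ∈ x \ z := mem_sdiff.2 ⟨hy, hyz⟩
            rw [hf, mem_singleton] at this
            exact this
    exact (Finset.card_le_card hsub).trans Finset.card_image_le
  rw [card_product, card_compl] at h1
  have h2 : z.card ≤ Fintype.card E := Finset.card_le_univ z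
  obtain ⟨d, hd⟩ := Nat.exists_eq_add_of_le h2
  rw [hd, Nat.add_sub_cancel_left] at h1
  rw [hd]
  nlinarith [sq_nonneg ((z.card : ℤ) - d), h1, two_mul_le_add_sq (z.card : ℤ) d,
    four_mul_le_sq_add z.card d]

/-- one step contraction -/
theorem step_aux (𝓑 : Finset (Finset E))
    (hex : ∀ A ∈ 𝓑, ∀ B ∈ 𝓑, ∀ e ∈ A \ B, ∃ f ∈ B \ A, insert f (A.erase e) ∈ 𝓑)
    (r : ℕ) (hr : ∀ B ∈ 𝓑, B.card = r)
    (K : ℝ) (hK : (Fintype.card E : ℝ) ≤ K) (φ ψ : Finset E → ℝ) (h0 : ∑ z ∈ 𝓑, φ z = 0)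
    (hs : ∀ z ∈ 𝓑, ψ z = K ^ 2 * φ z +
      ∑ x ∈ 𝓑, if (x \ z).card = 1 then φ x - φ z else 0) :
    ∑ z ∈ 𝓑, ψ z ^ 2 ≤ (K ^ 4 - 3 * K ^ 2) * ∑ z ∈ 𝓑, φ z ^ 2 := by
  classical
  have hP := basisGraph_poincare 𝓑 hex φ h0
  set En := ∑ B ∈ 𝓑, ∑ B' ∈ 𝓑, (if (B \ B').card = 1 then (φ B - φ B') ^ 2 else 0) with hEn
  have hsymm : ∀ x ∈ 𝓑, ∀ z ∈ 𝓑, (x \ z).card = (z \ x).card := fun x hx z hz =>
    sdiff_card_comm_aux ((hr x hx).trans (hr z hz).symm)
  set Lf : Finset E → ℝ := fun z => ∑ x ∈ 𝓑, (if (x \ z).card = 1 then φ x - φ z else 0) with hL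
  -- energy identity
  have hEn2 : En = ∑ z ∈ 𝓑, ∑ x ∈ 𝓑, (if (x \ z).card = 1 then (φ x - φ z) ^ 2 else 0) := by
    rw [hEn]
    refine Finset.sum_congr rfl fun B hB => Finset.sum_congr rfl fun B' hB' => ?_
    rw [hsymm B hB B' hB']
    split_ifs <;> ring
  have hcross : ∑ z ∈ 𝓑, φ z * Lf z = - (1 / 2) * En := by
    have h1 : ∑ z ∈ 𝓑, φ z * Lf z =
        ∑ z ∈ 𝓑, ∑ x ∈ 𝓑, (if (x \ z).card = 1 then φ z * (φ x - φ z) else 0) := by
      refine Finset.sum_congr rfl fun z hz => ?_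
      rw [hL, Finset.mul_sum]
      refine Finset.sum_congr rfl fun x hx => ?_
      split_ifs <;> ring
    have h2 : ∑ z ∈ 𝓑, φ z * Lf z =
        ∑ z ∈ 𝓑, ∑ x ∈ 𝓑, (if (x \ z).card = 1 then φ x * (φ z - φ x) else 0) := by
      rw [h1, Finset.sum_comm]
      refine Finset.sum_congr rfl fun z hz => Finset.sum_congr rfl fun x hx => ?_
      rw [hsymm z hz x hx]
    have h3 : ∑ z ∈ 𝓑, φ z * Lf z + ∑ z ∈ 𝓑, φ z * Lf z = - En := by
      nth_rewrite 1 [h1]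
      rw [h2, hEn2, ← Finset.sum_add_distrib, ← Finset.sum_neg_distrib]
      refine Finset.sum_congr rfl fun z hz => ?_
      rw [← Finset.sum_add_distrib, ← Finset.sum_neg_distrib]
      refine Finset.sum_congr rfl fun x hx => ?_
      split_ifs <;> ring
    linarith
  have hLsq : ∑ z ∈ 𝓑, Lf z ^ 2 ≤ K ^ 2 / 4 * En := by
    rw [hEn2, Finset.mul_sum]
    refine Finset.sum_le_sum fun z hz => ?_
    have hdeg := degree_bound_aux 𝓑 r hr z hz
    have hLz : Lf z = ∑ x ∈ 𝓑.filter (fun x => (x \ z).card = 1), (φ x - φ z) := by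
      rw [hL, Finset.sum_filter]
    have hEz : (∑ x ∈ 𝓑, if (x \ z).card = 1 then (φ x - φ z) ^ 2 else 0) =
        ∑ x ∈ 𝓑.filter (fun x => (x \ z).card = 1), (φ x - φ z) ^ 2 := by
      rw [Finset.sum_filter]
    rw [hLz, hEz]
    have hcs := sq_sum_le_card_mul_sum_sq (s := 𝓑.filter (fun x => (x \ z).card = 1))
      (f := fun x => φ x - φ z)
    refine hcs.trans ?_
    refine mul_le_mul_of_nonneg_right ?_ (Finset.sum_nonneg fun _ _ => sq_nonneg _)
    have hdeg' : (4 : ℝ) * ((𝓑.filter fun x => (x \ z).card = 1).card : ℝ) ≤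
        (Fintype.card E : ℝ) ^ 2 := by exact_mod_cast hdeg
    have hK2 : (Fintype.card E : ℝ) ^ 2 ≤ K ^ 2 :=
      pow_le_pow_left₀ (Nat.cast_nonneg _) hK 2
    linarith
  have hexp : ∑ z ∈ 𝓑, ψ z ^ 2 = K ^ 4 * ∑ z ∈ 𝓑, φ z ^ 2 + 2 * K ^ 2 * ∑ z ∈ 𝓑, φ z * Lf z +
      ∑ z ∈ 𝓑, Lf z ^ 2 := by
    rw [Finset.mul_sum, Finset.mul_sum, ← Finset.sum_add_distrib, ← Finset.sum_add_distrib]
    refine Finset.sum_congr rfl fun z hz => ?_
    rw [hs z hz]
    ring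
  rw [hexp, hcross]
  nlinarith [mul_le_mul_of_nonneg_left hP (by positivity : (0 : ℝ) ≤ 3 / 4 * K ^ 2)]

theorem exp_aux (K : ℕ) (hK : 2 ≤ K) :
    (1 - 3 / ((K ^ 2 : ℕ) : ℝ)) ^ (K ^ 2) ≤ 1 / 16 := by
  have h4 : (4 : ℕ) ≤ K ^ 2 := by nlinarith
  have h4' : (4 : ℝ) ≤ ((K ^ 2 : ℕ) : ℝ) := by exact_mod_cast h4
  have h := Real.one_sub_div_pow_le_exp_neg (n := K ^ 2) (t := 3) (by linarith)
  refine h.trans ?_
  have he : (2.7 : ℝ) ≤ Real.exp 1 := by
    have := Real.exp_one_gt_d9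
    linarith
  have h3 : Real.exp 3 = Real.exp 1 ^ 3 := by
    rw [← Real.exp_nat_mul]; norm_num
  have h16 : (16 : ℝ) ≤ Real.exp 3 := by
    rw [h3]
    calc (16 : ℝ) ≤ 2.7 ^ 3 := by norm_num
      _ ≤ _ := pow_le_pow_left₀ (by norm_num) he 3
  rw [Real.exp_neg, one_div]
  exact inv_anti₀ (by norm_num) h16

theorem chain_count_bound {E : Type} [Fintype E] [DecidableEq E] (𝓑 : Finset (Finset E))
    (hex : ∀ A ∈ 𝓑, ∀ B ∈ 𝓑, ∀ e ∈ A \ B, ∃ f ∈ B \ A, insert f (A.erase e) ∈ 𝓑)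
    (K : ℕ) (hK : Fintype.card E ≤ K) (B₀ : Finset E) (hB₀ : B₀ ∈ 𝓑) (c : ℕ → Finset E → ℝ)
    (h0 : ∀ z ∈ 𝓑, c 0 z = if z = B₀ then 1 else 0)
    (hs : ∀ t, ∀ z ∈ 𝓑, c (t + 1) z = (K : ℝ) ^ 2 * c t z +
      ∑ x ∈ 𝓑, if (x \ z).card = 1 then c t x - c t z else 0) :
    ∀ z ∈ 𝓑, (𝓑.card : ℝ) * c (Fintype.card E * K ^ 2) z * (2 ^ Fintype.card E - 1) ≤
      2 ^ Fintype.card E * ((K : ℝ) ^ 2) ^ (Fintype.card E * K ^ 2) := by
  classical
  intro z hz
  have hr : ∀ B ∈ 𝓑, B.card = B₀.card := fun B hB => card_eq_aux 𝓑 hex _ B hB B₀ hB₀ rfl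
  have hsymm : ∀ x ∈ 𝓑, ∀ z ∈ 𝓑, (x \ z).card = (z \ x).card := fun x hx z hz =>
    sdiff_card_comm_aux ((hr x hx).trans (hr z hz).symm)
  set m : ℝ := (𝓑.card : ℝ) with hm
  have hm1 : 1 ≤ m := by
    rw [hm]; exact_mod_cast Finset.card_pos.2 ⟨B₀, hB₀⟩
  -- mass conservation
  have hmass : ∀ t, ∑ z ∈ 𝓑, c t z = ((K : ℝ) ^ 2) ^ t := by
    intro t
    induction t with
    | zero =>
      rw [pow_zero, Finset.sum_congr rfl h0]
      simp [hB₀]
    | succ t ih =>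
      rw [Finset.sum_congr rfl (hs t), Finset.sum_add_distrib, ← Finset.mul_sum, ih]
      have h1 : ∑ z ∈ 𝓑, ∑ x ∈ 𝓑, (if (x \ z).card = 1 then c t x - c t z else 0) =
          ∑ z ∈ 𝓑, ∑ x ∈ 𝓑, (if (x \ z).card = 1 then c t z - c t x else 0) := by
        rw [Finset.sum_comm]
        refine Finset.sum_congr rfl fun z hz => Finset.sum_congr rfl fun x hx => ?_
        rw [hsymm z hz x hx]
      have h2 : ∑ z ∈ 𝓑, ∑ x ∈ 𝓑, (if (x \ z).card = 1 then c t x - c t z else 0) +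
          ∑ z ∈ 𝓑, ∑ x ∈ 𝓑, (if (x \ z).card = 1 then c t z - c t x else 0) = 0 := by
        rw [← Finset.sum_add_distrib]
        refine Finset.sum_eq_zero fun z hz => ?_
        rw [← Finset.sum_add_distrib]
        refine Finset.sum_eq_zero fun x hx => ?_
        split_ifs <;> ring
      rw [← h1] at h2
      have h3 : ∑ z ∈ 𝓑, ∑ x ∈ 𝓑, (if (x \ z).card = 1 then c t x - c t z else 0) = 0 := by
        linarith
      rw [h3]
      ring
  set ψ : ℕ → Finset E → ℝ := fun t z => m * c t z - ((K : ℝ) ^ 2) ^ t with hψ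
  have hψ0 : ∀ t, ∑ z ∈ 𝓑, ψ t z = 0 := by
    intro t
    rw [hψ]
    simp only [Finset.sum_sub_distrib, ← Finset.mul_sum, hmass t, Finset.sum_const, nsmul_eq_mul]
    rw [← hm]; ring
  have hψs : ∀ t, ∀ z ∈ 𝓑, ψ (t + 1) z = (K : ℝ) ^ 2 * ψ t z +
      ∑ x ∈ 𝓑, if (x \ z).card = 1 then ψ t x - ψ t z else 0 := by
    intro t z hz
    have h1 : ∑ x ∈ 𝓑, (if (x \ z).card = 1 then ψ t x - ψ t z else 0) =
        m * ∑ x ∈ 𝓑, (if (x \ z).card = 1 then c t x - c t z else 0) := by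
      rw [Finset.mul_sum]
      refine Finset.sum_congr rfl fun x hx => ?_
      rw [hψ]
      split_ifs <;> ring
    rw [h1, hψ]
    simp only
    rw [hs t z hz]
    ring
  have hstep : ∀ t, ∑ z ∈ 𝓑, ψ (t + 1) z ^ 2 ≤
      ((K : ℝ) ^ 4 - 3 * (K : ℝ) ^ 2) * ∑ z ∈ 𝓑, ψ t z ^ 2 := fun t =>
    step_aux 𝓑 hex B₀.card hr K (by exact_mod_cast hK) (ψ t) (ψ (t + 1)) (hψ0 t) (hψs t)
  rcases Nat.eq_zero_or_pos (Fintype.card E) with hN | hN
  · rw [hN]; simp
  set N := Fintype.card E with hNdef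
  have hKpos : 1 ≤ K := lt_of_lt_of_le hN hK
  have hsq0 : ∑ z ∈ 𝓑, ψ 0 z ^ 2 ≤ m ^ 2 := by
    have h1 : ∑ z ∈ 𝓑, ψ 0 z ^ 2 = ∑ z ∈ 𝓑, (m ^ 2 * (if z = B₀ then 1 else 0) -
        2 * m * (if z = B₀ then 1 else 0) + 1) := by
      refine Finset.sum_congr rfl fun z hz => ?_
      rw [hψ]
      simp only [pow_zero]
      rw [h0 z hz]
      split_ifs <;> ring
    rw [h1, Finset.sum_add_distrib, Finset.sum_sub_distrib, ← Finset.mul_sum, ← Finset.mul_sum]
    simp only [Finset.sum_ite_eq', hB₀, if_true, Finset.sum_const, nsmul_eq_mul, mul_one]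
    rw [← hm]
    linarith
  have hmle : m ≤ 2 ^ N := by
    rw [hm]
    have : 𝓑.card ≤ 2 ^ Fintype.card E := by
      have := Finset.card_le_univ 𝓑
      rwa [Fintype.card_finset] at this
    exact_mod_cast this
  -- key bound
  have key : |ψ (N * K ^ 2) z| ≤ ((K : ℝ) ^ 2) ^ (N * K ^ 2) / 2 ^ N := by
    rcases Nat.lt_or_ge K 2 with hK2 | hK2
    · have hK1 : K = 1 := by omega
      have hN1 : N = 1 := by omega
      subst hK1
      have h1 := hstep 0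
      have h2 : 0 ≤ ∑ z ∈ 𝓑, ψ 0 z ^ 2 := Finset.sum_nonneg fun _ _ => sq_nonneg _
      have h3 : ∑ z ∈ 𝓑, ψ (0 + 1) z ^ 2 ≤ 0 := by
        refine h1.trans ?_
        norm_num
        linarith
      have h4 : ψ (0 + 1) z ^ 2 ≤ 0 :=
        (Finset.single_le_sum (f := fun z => ψ (0 + 1) z ^ 2) (fun _ _ => sq_nonneg _) hz).trans h3
      have h5 : ψ (0 + 1) z = 0 := by
        have := le_antisymm h4 (sq_nonneg _)
        exact pow_eq_zero_iff (two_ne_zero) |>.1 this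
      rw [hN1]
      have h6 : ψ (1 * 1 ^ 2) z = 0 := by simpa using h5
      rw [h6]
      norm_num
    · have hK2' : (2 : ℝ) ≤ K := by exact_mod_cast hK2
      have hKr : (0 : ℝ) < (K : ℝ) ^ 2 := by positivity
      have hKr4 : (4 : ℝ) ≤ (K : ℝ) ^ 2 := by nlinarith
      have hfac : 0 ≤ (K : ℝ) ^ 4 - 3 * (K : ℝ) ^ 2 := by nlinarith
      have hiter : ∀ t, ∑ z ∈ 𝓑, ψ t z ^ 2 ≤ ((K : ℝ) ^ 4 - 3 * (K : ℝ) ^ 2) ^ t * m ^ 2 := by
        intro t
        induction t with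
        | zero => simpa using hsq0
        | succ t ih =>
          calc ∑ z ∈ 𝓑, ψ (t + 1) z ^ 2 ≤ _ := hstep t
            _ ≤ ((K : ℝ) ^ 4 - 3 * (K : ℝ) ^ 2) *
                (((K : ℝ) ^ 4 - 3 * (K : ℝ) ^ 2) ^ t * m ^ 2) :=
              mul_le_mul_of_nonneg_left ih hfac
            _ = _ := by ring
      have h1 := hiter (N * K ^ 2)
      have hfe : (K : ℝ) ^ 4 - 3 * (K : ℝ) ^ 2 =
          ((K : ℝ) ^ 2) ^ 2 * (1 - 3 / ((K ^ 2 : ℕ) : ℝ)) := by
        push_cast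
        field_simp
      have h2 : ((K : ℝ) ^ 4 - 3 * (K : ℝ) ^ 2) ^ (N * K ^ 2) ≤
          (((K : ℝ) ^ 2) ^ (N * K ^ 2)) ^ 2 * (1 / 16) ^ N := by
        rw [hfe, mul_pow]
        refine mul_le_mul (le_of_eq ?_) ?_ ?_ (by positivity)
        · rw [← pow_mul, ← pow_mul, ← pow_mul]; ring_nf
        · rw [mul_comm N, pow_mul]
          refine pow_le_pow_left₀ ?_ (exp_aux K hK2) N
          refine pow_nonneg ?_ _
          push_cast
          rw [sub_nonneg, div_le_one hKr]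
          linarith
        · refine pow_nonneg ?_ _
          push_cast
          rw [sub_nonneg, div_le_one hKr]
          linarith
      have h3 : ψ (N * K ^ 2) z ^ 2 ≤
          (((K : ℝ) ^ 2) ^ (N * K ^ 2)) ^ 2 * (1 / 16) ^ N * m ^ 2 :=
        ((Finset.single_le_sum (f := fun z => ψ (N * K ^ 2) z ^ 2) (fun _ _ => sq_nonneg _)
          hz).trans h1).trans (mul_le_mul_of_nonneg_right h2 (sq_nonneg _))
      have h4 : (((K : ℝ) ^ 2) ^ (N * K ^ 2)) ^ 2 * (1 / 16) ^ N * m ^ 2 ≤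
          (((K : ℝ) ^ 2) ^ (N * K ^ 2) / 2 ^ N) ^ 2 := by
        have h5 : m ^ 2 ≤ (2 ^ N) ^ 2 := pow_le_pow_left₀ (by linarith) hmle 2
        have h6 : ((1 : ℝ) / 16) ^ N * (2 ^ N) ^ 2 = 1 / (2 ^ N) ^ 2 := by
          have h16 : ((1 : ℝ) / 16) ^ N = 1 / (2 ^ N) ^ 4 := by
            rw [one_div_pow, ← pow_mul, mul_comm N 4, pow_mul]
            norm_num
          rw [h16]
          field_simp
        calc (((K : ℝ) ^ 2) ^ (N * K ^ 2)) ^ 2 * (1 / 16) ^ N * m ^ 2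
            ≤ (((K : ℝ) ^ 2) ^ (N * K ^ 2)) ^ 2 * (1 / 16) ^ N * (2 ^ N) ^ 2 :=
              mul_le_mul_of_nonneg_left h5 (by positivity)
          _ = (((K : ℝ) ^ 2) ^ (N * K ^ 2)) ^ 2 * ((1 / 16) ^ N * (2 ^ N) ^ 2) := by ring
          _ = _ := by rw [h6, div_pow]; ring
      exact abs_le_of_sq_le_sq (h3.trans h4) (by positivity)
  have h7 : m * c (N * K ^ 2) z ≤ ((K : ℝ) ^ 2) ^ (N * K ^ 2) * (1 + 1 / 2 ^ N) := by
    have := (abs_le.1 key).2
    rw [hψ] at this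
    simp only at this
    rw [mul_add, mul_one, mul_one_div]
    linarith
  have h8 : (0 : ℝ) ≤ 2 ^ N - 1 := by
    have : (1 : ℝ) ≤ 2 ^ N := one_le_pow₀ (by norm_num)
    linarith
  calc m * c (N * K ^ 2) z * (2 ^ N - 1)
      ≤ ((K : ℝ) ^ 2) ^ (N * K ^ 2) * (1 + 1 / 2 ^ N) * (2 ^ N - 1) :=
        mul_le_mul_of_nonneg_right h7 h8
    _ = ((K : ℝ) ^ 2) ^ (N * K ^ 2) * ((1 + 1 / 2 ^ N) * (2 ^ N - 1)) := by ring
    _ ≤ ((K : ℝ) ^ 2) ^ (N * K ^ 2) * 2 ^ N := by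
        refine mul_le_mul_of_nonneg_left ?_ (by positivity)
        have h9 : (0 : ℝ) < 2 ^ N := by positivity
        have h10 : (1 + 1 / (2 : ℝ) ^ N) * (2 ^ N - 1) = 2 ^ N - 1 / 2 ^ N := by
          field_simp
          ring
        rw [h10]
        have : (0 : ℝ) < 1 / 2 ^ N := by positivity
        linarith
    _ = _ := by ring

end Pool.Agent.Lib.MP_d8fb5e_lc
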