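import Mathlib

/-!
Fraction-free elimination: correctness and size bound.
-/

namespace Pool.Agent.Lib.MP_d8fb5e_lc

open Matrix Finset

/-- state of the fraction-free elimination: tableau, common denominator, used rows, success flag -/
structure PSt where
  P : ℕ → ℕ → ℤ
  D : ℤ
  used : ℕ → Bool
  ok : Bool

def findRow (M : ℕ) (s : PSt) (j : ℕ) : Option ℕ :=
  (List.range M).find? fun g => !s.used g && decide (s.P g j ≠ 0)

def stepCol (M : ℕ) (s : PSt) (j : ℕ) : PSt :=
  match findRow M s j with
  | none => { s with ok := false }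
  | some g =>
    { P := fun g' h => if g' = g then s.P g' h
        else (s.P g' h * s.P g j - s.P g' j * s.P g h) / s.D
      D := s.P g j
      used := Function.update s.used g true
      ok := s.ok }

/-- process the columns `j < n` with `x j = true` of the matrix `A` with `M` rows -/
def runCols (M : ℕ) (A : ℕ → ℕ → ℤ) (x : ℕ → Bool) : ℕ → PSt
  | 0 => ⟨A, 1, fun _ => false, true⟩
  | n + 1 => if x n then stepCol M (runCols M A x n) n else runCols M A x n

section det

variable {m : Type} [Fintype m] [DecidableEq m]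

/-- two column replacement identity -/
theorem det_two_cols (B : Matrix m m ℤ) (u v : m → ℤ) {g g' : m} (hg : g' ≠ g) :
    B.det * ((B.updateCol g u).updateCol g' v).det =
      (B.updateCol g' v).det * (B.updateCol g u).det -
        (B.updateCol g' u).det * (B.updateCol g v).det := by
  set C := B.updateCol g u with hC
  have h1 : B.det * (C.updateCol g' v).det = cramer C (B.det • v) g' := by
    rw [map_smul, Pi.smul_apply, smul_eq_mul, cramer_apply]
  rw [h1, ← mulVec_cramer B v]
  have h2 : B *ᵥ (cramer B v) = ∑ k, (cramer B v k) • (fun i => B i k) := by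
    ext i
    simp [mulVec, dotProduct, Finset.sum_apply, mul_comm]
  rw [h2, map_sum, Finset.sum_apply]
  have h3 : ∀ k, (cramer C ((cramer B v k) • (fun i => B i k))) g' =
      (cramer B v k) * (C.updateCol g' (fun i => B i k)).det := by
    intro k
    rw [map_smul, Pi.smul_apply, smul_eq_mul, cramer_apply C]
  simp only [h3]
  have hk0 : ∀ k, k ≠ g' → k ≠ g →
      (C.updateCol g' (fun i => B i k)).det = 0 := by
    intro k hk1 hk2
    apply det_zero_of_column_eq hk1
    intro i
    simp [hC, hk1, hk2]
  have hkg' : (C.updateCol g' (fun i => B i g')).det = C.det := by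
    congr 1
    ext i j
    by_cases hj : j = g'
    · subst hj
      simp [hC, hg]
    · simp [hj]
  have hkg : (C.updateCol g' (fun i => B i g)).det = -(B.updateCol g' u).det := by
    have : C.updateCol g' (fun i => B i g) =
        (B.updateCol g' u).submatrix id (Equiv.swap g g') := by
      ext i j
      by_cases hj : j = g'
      · subst hj
        simp [hg.symm]
      · by_cases hj2 : j = g
        · subst hj2
          simp [hC, hj]
        · simp [hC, hj, hj2, Equiv.swap_apply_of_ne_of_ne hj2 hj]
    rw [this, det_permute']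
    simp [Equiv.Perm.sign_swap hg.symm]
  rw [← Finset.add_sum_erase _ _ (Finset.mem_univ g'),
    ← Finset.add_sum_erase _ _ (Finset.mem_erase.2 ⟨hg.symm, Finset.mem_univ g⟩)]
  rw [Finset.sum_eq_zero, hkg', hkg, cramer_apply, cramer_apply]
  · ring
  · intro k hk
    simp only [Finset.mem_erase, Finset.mem_univ, and_true] at hk
    rw [hk0 k hk.2 hk.1, mul_zero]

end det

/-- columns of `A` as rational vectors -/
def colQ (M : ℕ) (A : ℕ → ℕ → ℤ) (j : ℕ) : Fin M → ℚ := fun i => (A i j : ℚ)

/-- used rows -/
def usedSet (M : ℕ) (s : PSt) : Finset (Fin M) := univ.filter fun g => s.used g = true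

theorem mem_usedSet {M : ℕ} {s : PSt} {g : Fin M} : g ∈ usedSet M s ↔ s.used g = true := by
  simp [usedSet]

/-- selected columns -/
def selSet (x : ℕ → Bool) (n : ℕ) : Finset ℕ := (range n).filter fun j => x j = true

theorem mem_selSet {x : ℕ → Bool} {n j : ℕ} : j ∈ selSet x n ↔ j < n ∧ x j = true := by
  simp [selSet]

/-- the invariant of the elimination -/
structure Inv (M : ℕ) (A : ℕ → ℕ → ℤ) (x : ℕ → Bool) (n : ℕ) (s : PSt)
    (B : Matrix (Fin M) (Fin M) ℤ) : Prop where
  hD : s.D ≠ 0
  hdet : B.det = s.D
  hP : ∀ (g : Fin M) (h : ℕ), s.P g h = (B.updateCol g (fun i => A i h)).det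
  hcol : ∀ g : Fin M, (∀ i, B i g = if i = g then 1 else 0) ∨ ∃ j < n, ∀ i, B i g = A i j
  hspan : Submodule.span ℚ (colQ M A '' (selSet x n : Set ℕ)) =
    Submodule.span ℚ ((fun (g i : Fin M) => (B i g : ℚ)) '' (usedSet M s : Set (Fin M)))
  hle : (usedSet M s).card ≤ (selSet x n).card
  hok : s.ok = true ↔ (usedSet M s).card = (selSet x n).card

theorem findRow_some {M : ℕ} {s : PSt} {j g : ℕ} (h : findRow M s j = some g) :
    g < M ∧ s.used g = false ∧ s.P g j ≠ 0 := by
  unfold findRow at h
  have h1 := List.find?_some h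
  have h2 := List.mem_of_find?_eq_some h
  simp only [Bool.and_eq_true, Bool.not_eq_true', decide_eq_true_eq] at h1
  exact ⟨List.mem_range.1 h2, h1.1, h1.2⟩

theorem findRow_none {M : ℕ} {s : PSt} {j : ℕ} (h : findRow M s j = none) :
    ∀ g < M, s.used g = false → s.P g j = 0 := by
  unfold findRow at h
  rw [List.find?_eq_none] at h
  intro g hg hu
  have := h g (List.mem_range.2 hg)
  simpa [hu] using this

theorem selSet_succ_true {x : ℕ → Bool} {n : ℕ} (hx : x n = true) :
    selSet x (n + 1) = insert n (selSet x n) := by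
  unfold selSet
  rw [Finset.range_add_one, Finset.filter_insert, if_pos hx]

theorem selSet_succ_false {x : ℕ → Bool} {n : ℕ} (hx : x n ≠ true) :
    selSet x (n + 1) = selSet x n := by
  unfold selSet
  rw [Finset.range_add_one, Finset.filter_insert, if_neg hx]

theorem not_mem_selSet {x : ℕ → Bool} {n : ℕ} : n ∉ selSet x n := by
  simp [selSet]

theorem Inv.init (M : ℕ) (A : ℕ → ℕ → ℤ) (x : ℕ → Bool) :
    Inv M A x 0 (runCols M A x 0) 1 where
  hD := by simp [runCols]
  hdet := by simp [runCols]
  hP := by
    intro g h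
    simp only [runCols]
    rw [← cramer_apply, cramer_one]
    simp
  hcol := by
    intro g
    left
    intro i
    rw [Matrix.one_apply]
  hspan := by
    simp [selSet, usedSet, runCols]
  hle := by simp [selSet, usedSet, runCols]
  hok := by simp [selSet, usedSet, runCols]

theorem Inv.step_none {M : ℕ} {A : ℕ → ℕ → ℤ} {x : ℕ → Bool} {n : ℕ} {s : PSt}
    {B : Matrix (Fin M) (Fin M) ℤ} (hI : Inv M A x n s B) (hx : x n = true)
    (hf : findRow M s n = none) : Inv M A x (n + 1) { s with ok := false } B where
  hD := hI.hD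
  hdet := hI.hdet
  hP := hI.hP
  hcol := by
    intro g
    rcases hI.hcol g with h | ⟨j, hj, h⟩
    · exact Or.inl h
    · exact Or.inr ⟨j, by omega, h⟩
  hspan := by
    rw [selSet_succ_true hx, Finset.coe_insert, Set.image_insert_eq, Submodule.span_insert]
    rw [show usedSet M { s with ok := false } = usedSet M s from rfl, ← hI.hspan]
    rw [sup_eq_right, Submodule.span_singleton_le_iff_mem, hI.hspan]
    have h0 := findRow_none hf
    have hmul := mulVec_cramer B (fun i => A i n)
    have hD : (s.D : ℚ) ≠ 0 := by exact_mod_cast hI.hD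
    have key : colQ M A n = ∑ g ∈ usedSet M s,
        ((s.P g n : ℚ) / s.D) • (fun (i : Fin M) => (B i g : ℚ)) := by
      ext i
      have h1 := congrFun hmul i
      rw [Pi.smul_apply, smul_eq_mul, hI.hdet] at h1
      have h2 : (∑ g, (B i g : ℤ) * s.P g n) = s.D * A i n := by
        rw [← h1]
        simp only [mulVec, dotProduct]
        refine Finset.sum_congr rfl fun g _ => ?_
        rw [hI.hP g n, cramer_apply]
      have h3 : (∑ g, (B i g : ℚ) * (s.P g n : ℚ)) = s.D * A i n := by exact_mod_cast h2
      have h4 : (∑ g, (B i g : ℚ) * (s.P g n : ℚ)) =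
          ∑ g ∈ usedSet M s, (B i g : ℚ) * (s.P g n : ℚ) := by
        symm
        apply Finset.sum_subset (Finset.subset_univ _)
        intro g _ hg
        have : s.used g = false := by
          simpa [usedSet] using hg
        rw [h0 g g.2 this]
        simp
      rw [Finset.sum_apply]
      simp only [Pi.smul_apply, smul_eq_mul, colQ]
      have h5 : (A i n : ℚ) = (∑ g ∈ usedSet M s, (B i g : ℚ) * (s.P g n : ℚ)) / s.D := by
        rw [← h4, h3]
        field_simp
      rw [h5, Finset.sum_div]
      refine Finset.sum_congr rfl fun g _ => ?_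
      ring
    rw [key]
    apply Submodule.sum_mem
    intro g hg
    apply Submodule.smul_mem
    apply Submodule.subset_span
    exact ⟨g, hg, rfl⟩
  hle := by
    rw [selSet_succ_true hx, Finset.card_insert_of_notMem not_mem_selSet]
    exact (hI.hle).trans (Nat.le_succ _)
  hok := by
    rw [selSet_succ_true hx, Finset.card_insert_of_notMem not_mem_selSet]
    have := hI.hle
    constructor
    · intro h
      simp at h
    · intro h
      have h' : (usedSet M s).card = (selSet x n).card + 1 := h
      omega

/-- the state after a pivot on row `g` and column `j` -/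
def nextSt (s : PSt) (g j : ℕ) : PSt where
  P := fun g' h => if g' = g then s.P g' h
    else (s.P g' h * s.P g j - s.P g' j * s.P g h) / s.D
  D := s.P g j
  used := Function.update s.used g true
  ok := s.ok

theorem usedSet_nextSt {M : ℕ} (s : PSt) (g : Fin M) (j : ℕ) :
    usedSet M (nextSt s g j) = insert g (usedSet M s) := by
  ext g'
  rw [mem_usedSet, Finset.mem_insert, mem_usedSet]
  unfold nextSt
  by_cases hg : g' = g
  · subst hg; simp
  · have hg' : (g' : ℕ) ≠ g := fun h => hg (Fin.ext h)
    simp only [Function.update_of_ne hg', hg, false_or]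

theorem Inv.step_some {M : ℕ} {A : ℕ → ℕ → ℤ} {x : ℕ → Bool} {n : ℕ} {s : PSt}
    {B : Matrix (Fin M) (Fin M) ℤ} (hI : Inv M A x n s B) (hx : x n = true) {g : Fin M}
    (hu : s.used g = false) (hp : s.P g n ≠ 0) :
    Inv M A x (n + 1) (nextSt s g n) (B.updateCol g (fun i => A i n)) where
  hD := hp
  hdet := (hI.hP g n).symm
  hP := by
    intro g' h
    by_cases hg : g' = g
    · subst hg
      simp only [nextSt, if_true]
      rw [hI.hP g' h]
      congr 1
      ext i j
      by_cases hj : j = g'
      · subst hj; simp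
      · simp [hj]
    · have hg' : (g' : ℕ) ≠ g := fun h => hg (Fin.ext h)
      simp only [nextSt, if_neg hg']
      have := det_two_cols B (fun i => A i n) (fun i => A i h) hg
      rw [hI.hP g' h, hI.hP g n, hI.hP g' n, hI.hP g h, ← this, hI.hdet]
      exact Int.mul_ediv_cancel_left _ hI.hD
  hcol := by
    intro g'
    by_cases hg : g' = g
    · subst hg
      right
      exact ⟨n, by omega, fun i => by simp⟩
    · rcases hI.hcol g' with h | ⟨j, hj, h⟩
      · left
        intro i
        simp [hg, h]
      · right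
        exact ⟨j, by omega, fun i => by simp [hg, h]⟩
  hspan := by
    rw [usedSet_nextSt, selSet_succ_true hx, Finset.coe_insert, Finset.coe_insert,
      Set.image_insert_eq, Set.image_insert_eq, Submodule.span_insert, Submodule.span_insert,
      hI.hspan]
    congr 2
    · congr 1
      ext i
      simp [colQ]
    · apply Set.image_congr
      intro g' hg'
      have hne : g' ≠ g := by
        rintro rfl
        simp [usedSet, hu] at hg'
      ext i
      simp [hne]
  hle := by
    rw [usedSet_nextSt, selSet_succ_true hx, Finset.card_insert_of_notMem not_mem_selSet,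
      Finset.card_insert_of_notMem (by simp [usedSet, hu])]
    exact Nat.succ_le_succ hI.hle
  hok := by
    rw [usedSet_nextSt, selSet_succ_true hx, Finset.card_insert_of_notMem not_mem_selSet,
      Finset.card_insert_of_notMem (by simp [usedSet, hu])]
    simpa [nextSt] using hI.hok

theorem exists_inv (M : ℕ) (A : ℕ → ℕ → ℤ) (x : ℕ → Bool) (n : ℕ) :
    ∃ B, Inv M A x n (runCols M A x n) B := by
  induction n with
  | zero => exact ⟨1, Inv.init M A x⟩
  | succ n ih =>
    obtain ⟨B, hB⟩ := ih
    by_cases hx : x n = true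
    · have hr : runCols M A x (n + 1) = stepCol M (runCols M A x n) n := by
        simp [runCols, hx]
      rw [hr]
      unfold stepCol
      cases hf : findRow M (runCols M A x n) n with
      | none => exact ⟨B, hB.step_none hx hf⟩
      | some g =>
        obtain ⟨h1, h2, h3⟩ := findRow_some hf
        exact ⟨_, hB.step_some hx (g := ⟨g, h1⟩) h2 h3⟩
    · have hr : runCols M A x (n + 1) = runCols M A x n := by
        simp [runCols, hx]
      rw [hr]
      refine ⟨B, hB.hD, hB.hdet, hB.hP, ?_, ?_, ?_, ?_⟩
      · intro g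
        rcases hB.hcol g with h | ⟨j, hj, h⟩
        · exact Or.inl h
        · exact Or.inr ⟨j, by omega, h⟩
      · rw [selSet_succ_false hx]; exact hB.hspan
      · rw [selSet_succ_false hx]; exact hB.hle
      · rw [selSet_succ_false hx]; exact hB.hok

/-- Task B, correctness. -/
theorem runCols_ok_iff (M N : ℕ) (A : ℕ → ℕ → ℤ) (x : ℕ → Bool) :
    (runCols M A x N).ok = true ↔
      LinearIndependent ℚ (fun (j : {j : Fin N // x j = true}) (i : Fin M) => (A i j.1 : ℚ)) := by
  obtain ⟨B, hB⟩ := exists_inv M A x N
  set s := runCols M A x N with hs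
  rw [hB.hok]
  -- columns of B are linearly independent
  have hli : LinearIndependent ℚ (fun (g i : Fin M) => (B i g : ℚ)) := by
    have hdet : (B.map (Int.cast : ℤ → ℚ)).det ≠ 0 := by
      have : (B.map (Int.cast : ℤ → ℚ)).det = (B.det : ℚ) := by
        rw [show (Int.cast : ℤ → ℚ) = (Int.castRingHom ℚ) from rfl, ← RingHom.mapMatrix_apply,
          ← RingHom.map_det]
      rw [this, hB.hdet]
      exact_mod_cast hB.hD
    have h2 := Matrix.linearIndependent_cols_iff_isUnit.2
      ((Matrix.isUnit_iff_isUnit_det _).2 (isUnit_iff_ne_zero.2 hdet))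
    exact h2
  have hliU : LinearIndependent ℚ (fun (g : usedSet M s) (i : Fin M) => (B i g.1 : ℚ)) :=
    hli.comp (fun g : usedSet M s => g.1) Subtype.val_injective
  have hfr : (Set.range (fun (g : usedSet M s) (i : Fin M) => (B i g.1 : ℚ))).finrank ℚ =
      (usedSet M s).card := by
    rw [Set.finrank, finrank_span_eq_card hliU, Fintype.card_coe]
  rw [linearIndependent_iff_card_eq_finrank_span]
  have hcard : Fintype.card {j : Fin N // x j = true} = (selSet x N).card := by
    rw [← Fintype.card_coe]
    apply Fintype.card_congr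
    exact
      { toFun := fun j => ⟨(j.1 : ℕ), mem_selSet.2 ⟨j.1.2, j.2⟩⟩
        invFun := fun j => ⟨⟨j.1, (mem_selSet.1 j.2).1⟩, (mem_selSet.1 j.2).2⟩
        left_inv := fun j => rfl
        right_inv := fun j => rfl }
  have hrange : (Set.range (fun (j : {j : Fin N // x j = true}) (i : Fin M) =>
      (A i j.1 : ℚ))) = colQ M A '' (selSet x N : Set ℕ) := by
    ext v
    constructor
    · rintro ⟨j, rfl⟩
      exact ⟨(j.1 : ℕ), mem_selSet.2 ⟨j.1.2, j.2⟩, rfl⟩
    · rintro ⟨j, hj, rfl⟩
      have hj' := mem_selSet.1 hj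
      exact ⟨⟨⟨j, hj'.1⟩, hj'.2⟩, rfl⟩
  have hrange2 : (Set.range (fun (g : usedSet M s) (i : Fin M) => (B i g.1 : ℚ))) =
      (fun (g i : Fin M) => (B i g : ℚ)) '' (usedSet M s : Set (Fin M)) := by
    ext v
    constructor
    · rintro ⟨g, rfl⟩
      exact ⟨g.1, g.2, rfl⟩
    · rintro ⟨g, hg, rfl⟩
      exact ⟨⟨g, hg⟩, rfl⟩
  rw [hcard, hrange]
  have : (colQ M A '' (selSet x N : Set ℕ)).finrank ℚ = (usedSet M s).card := by
    rw [← hfr, hrange2, Set.finrank, Set.finrank, hB.hspan]
  rw [this]
  exact eq_comm

theorem abs_det_le {M : ℕ} (C : Matrix (Fin M) (Fin M) ℤ) (hC : ∀ i j, |C i j| ≤ 1) :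
    |C.det| ≤ (M.factorial : ℤ) := by
  have h := Matrix.det_le (A := C) (abv := AbsoluteValue.abs) (x := 1) (fun i j => hC i j)
  simpa using h

/-- Task B, size bound. -/
theorem runCols_bound (M N : ℕ) (A : ℕ → ℕ → ℤ) (x : ℕ → Bool)
    (hA : ∀ i < M, ∀ j < N, |A i j| ≤ 1) (n : ℕ) (hn : n ≤ N) :
    (runCols M A x n).D ≠ 0 ∧ |(runCols M A x n).D| ≤ (M.factorial : ℤ) ∧
      ∀ g < M, ∀ h < N, |(runCols M A x n).P g h| ≤ (M.factorial : ℤ) := by
  obtain ⟨B, hB⟩ := exists_inv M A x n
  have hBb : ∀ i j, |B i j| ≤ 1 := by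
    intro i j
    rcases hB.hcol j with h | ⟨k, hk, h⟩
    · rw [h i]
      split_ifs <;> simp
    · rw [h i]
      exact hA i i.2 k (by omega)
  refine ⟨hB.hD, ?_, ?_⟩
  · rw [← hB.hdet]
    exact abs_det_le B hBb
  · intro g hg h hh
    have := hB.hP ⟨g, hg⟩ h
    simp only at this
    rw [this]
    apply abs_det_le
    intro i j
    rw [updateCol_apply]
    split_ifs
    · exact hA i i.2 h hh
    · exact hBb i j

end Pool.Agent.Lib.MP_d8fb5e_lc
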