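import Pool.Agent.Lib.MP_d8fb5e_lc.Defs
import Pool.Agent.Lib.MP_d8fb5e_lc.Pivot
import Pool.Agent.Lib.MP_d8fb5e_lc.ChainBound

namespace Pool.Agent.Lib.MP_d8fb5e_lc

/-! Sets of columns of an `n × n` matrix `A` are coded by masks `z < 2 ^ n`. -/

section model

variable (n : ℕ) (A : ℕ → ℕ → ℤ)

/-- number of elements of the set coded by `z` -/
def pop (z : ℕ) : ℕ := ((List.range n).filter fun j => z.testBit j).length

/-- independence of the columns in `z` -/
def indepM (z : ℕ) : Bool := (runCols n A z.testBit n).ok

/-- greedy independent set in the first `j` columns -/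
def greedy : ℕ → ℕ
  | 0 => 0
  | j + 1 => if indepM n A (greedy j + 2 ^ j) then greedy j + 2 ^ j else greedy j

def base0 : ℕ := greedy n A n

def isBasis (z : ℕ) : Bool := indepM n A z && (pop n z == pop n (base0 n A))

/-- exchange `e = p % K` against `f = p / K` if this leads to an independent set -/
def move (K x p : ℕ) : ℕ :=
  if p % K < n ∧ p / K < n ∧ x.testBit (p % K) = true ∧ x.testBit (p / K) = false ∧
    indepM n A (x - 2 ^ (p % K) + 2 ^ (p / K)) = true then x - 2 ^ (p % K) + 2 ^ (p / K) else x

/-- the state after `i` steps of the chain driven by the digits of `r` in base `K * K` -/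
def chain (K r : ℕ) : ℕ → ℕ
  | 0 => base0 n A
  | i + 1 => move n A K (chain K r i) (r / (K * K) ^ i % (K * K))

/-- number of `r < (K * K) ^ i` leading to `z` in `i` steps, by dynamic programming -/
def dp (K : ℕ) : ℕ → ℕ → ℕ
  | 0, z => if z = base0 n A then 1 else 0
  | i + 1, z => ∑ x ∈ Finset.range (2 ^ n), ∑ p ∈ Finset.range (K * K),
      if move n A K x p = z then dp K i x else 0

/-- number of steps -/
def steps (K : ℕ) : ℕ := n * (K * K)

/-- number of runs of the chain -/
def rng (K : ℕ) : ℕ := (K * K) ^ steps n K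

/-- number of bases -/
def numT : ℕ := ((Finset.range (2 ^ n)).filter fun z => isBasis n A z = true).card

/-- weight of the basis `z` in the correction step -/
def wt (K z : ℕ) : ℤ :=
  2 ^ n * (rng n K : ℤ) - (2 ^ n - 1) * (dp n A K (steps n K) z : ℤ) * (numT n A : ℤ)

/-- search of the basis belonging to `v` by cumulative weights -/
def search (K : ℕ) (v : ℤ) : ℕ → ℤ × ℕ
  | 0 => (v, 0)
  | z + 1 => if isBasis n A z = true ∧ 0 ≤ (search K v z).1 then
      ((search K v z).1 - wt n A K z, z) else search K v z

/-- the basis belonging to `v < numT * rng` in the correction step -/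
def pick (K : ℕ) (v : ℕ) : ℕ := (search n A K v (2 ^ n)).2

end model

/-- the number with binary digits `β`, most significant digit first -/
def val (β : List Bool) : ℕ := β.foldl (fun r b => 2 * r + (if b then 1 else 0)) 0

/-- boundary matrix, with zero columns except for the `d`-faces; rows and columns are numbered by
the list of faces -/
def SComplex.mat (Δ : SComplex) (d : ℕ) (g h : ℕ) : ℤ :=
  if hh : g < Δ.faces.length ∧ h < Δ.faces.length then
    if (Δ.faces[h]'hh.2).card = d + 1 then
      ∑ v ∈ Δ.faces[h]'hh.2, if (Δ.faces[h]'hh.2).erase v = Δ.faces[g]'hh.1 then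
        (-1) ^ ((Δ.faces[h]'hh.2).filter (· < v)).card else 0
    else 0
  else 0

/-- mask of the faces of dimension less than `d` -/
def SComplex.low (Δ : SComplex) (d : ℕ) : ℕ :=
  ∑ i : Fin Δ.faces.length, if Δ.faces[i].card ≤ d then 2 ^ (i : ℕ) else 0

end Pool.Agent.Lib.MP_d8fb5e_lc
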