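import Pool.Agent.Lib.PRam.Rules
import Pool.Agent.Lib.MP_d8fb5e_lc.Model

namespace Pool.Agent.Lib.MP_d8fb5e_lc

open Pool.Agent.Lib.PRam

variable {W : ℕ} {σ : St}

/-- `for r = 0, …, reg ℓ - 1 do body` -/
def forDo (r ℓ : ℕ) (body : Cmd) : Cmd :=
  .seq (.assign r (.lit 0)) (.loop (.sub (.var ℓ) (.var r)) (.seq body
    (.assign r (.add (.var r) (.lit 1)))))

def forT (N B : ℕ) : ℕ := N * (B + 13) + 9

theorem forT_mono {N N' B B' : ℕ} (h : N ≤ N') (h' : B ≤ B') : forT N B ≤ forT N' B' := by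
  unfold forT
  have := Nat.mul_le_mul h (show B + 13 ≤ B' + 13 by omega)
  omega

theorem Run.forC {r ℓ N N' B : ℕ} {body : Cmd} (I : ℕ → St → Prop) (hNW : N + 1 ≤ W)
    (hN : N ≤ N') (h0 : I 0 (σ.set r 0))
    (hI : ∀ i ≤ N, ∀ σ', I i σ' → σ'.reg ℓ = N ∧ σ'.reg r = i)
    (hs : ∀ i < N, ∀ σ', I i σ' → Run W body σ' [] B
      (fun σ'' => σ''.reg r = i ∧ I (i + 1) (σ''.set r ((i + 1 : ℕ) : ℤ)))) :
    Run W (forDo r ℓ body) σ [] (forT N' B) (I N) := by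
  refine Run.mono (T := forT N B) (Q := I N) ?_ (forT_mono hN le_rfl) fun _ h => h
  refine Run.seqL (T₁ := 3) (T₂ := N * (5 + 2 + (B + 6)) + 6)
    (Term.run (Term.assign (e := .lit 0) (by show (0 : ℤ).natAbs ≤ W; omega) ?_) trivial) ?_
  · refine (Run.loop (fun k σ' => ∃ i, i + k = N ∧ I i σ') (B + 6) N ⟨0, by omega, h0⟩ ?_
      ?_).mono le_rfl ?_
    · rintro k σ' ⟨i, hik, hi⟩
      obtain ⟨h1, h2⟩ := hI i (by omega) σ' hi
      refine ⟨trivial, trivial, ?_⟩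
      simp only [Expr.eval, h1, h2]; omega
    · rintro k σ' ⟨i, hik, hi⟩ hne
      obtain ⟨h1, h2⟩ := hI i (by omega) σ' hi
      have hne : σ'.reg ℓ - σ'.reg r ≠ 0 := hne
      rw [h1, h2] at hne
      obtain ⟨k, rfl⟩ : ∃ k', k = k' + 1 := ⟨k - 1, by omega⟩
      refine ⟨k, rfl, ?_⟩
      refine Run.seqL (T₁ := B) (T₂ := 6) ((hs i (by omega) σ' hi).mono le_rfl ?_) le_rfl
      rintro σ₂ ⟨hr, hI₂⟩
      refine Term.run (Term.assign (e := .add (.var r) (.lit 1)) ⟨trivial, ?_, ?_⟩ ?_) trivial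
      · show (1 : ℤ).natAbs ≤ W; omega
      · simp only [Expr.eval, hr]; omega
      · refine ⟨i + 1, by omega, ?_⟩
        have : (Expr.add (.var r) (.lit 1)).eval σ₂ = ((i + 1 : ℕ) : ℤ) := by
          simp only [Expr.eval, hr]; push_cast; rfl
        rw [this]
        exact hI₂
    · rintro σ' ⟨h0, k, i, hik, hi⟩
      obtain ⟨h1, h2⟩ := hI i (by omega) σ' hi
      have h0 : σ'.reg ℓ - σ'.reg r = 0 := h0
      rw [h1, h2] at h0
      obtain rfl : i = N := by omega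
      exact hi
  · unfold forT
    have : 5 + 2 + (B + 6) = B + 13 := by omega
    rw [this]
    omega

/-- fill the memory block `[b, b + N)` with the values of `f` -/
theorem Run.fill {r ℓ b N N' B : ℕ} {body : Cmd} (f : ℕ → ℤ) (hℓ : ℓ ≠ r)
    (hNr : σ.reg ℓ = N) (hNW : N + 1 ≤ W) (hN : N ≤ N')
    (hbody : ∀ q < N, ∀ σ' : St, (∀ r', r' ≠ r → σ'.reg r' = σ.reg r') → σ'.reg r = q →
      (∀ a, (a < b ∨ b + N ≤ a) → σ'.mem a = σ.mem a) → Run W body σ' [] B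
        (fun σ'' => σ''.reg = σ'.reg ∧ σ''.mem = Function.update σ'.mem (b + q) (f q))) :
    Run W (forDo r ℓ body) σ [] (forT N' B) (fun σ' => (∀ r', r' ≠ r → σ'.reg r' = σ.reg r') ∧
      (∀ q < N, σ'.mem (b + q) = f q) ∧ ∀ a, (a < b ∨ b + N ≤ a) → σ'.mem a = σ.mem a) := by
  refine (Run.forC (fun i σ' => σ'.reg r = i ∧ (∀ r', r' ≠ r → σ'.reg r' = σ.reg r') ∧
    (∀ q < i, σ'.mem (b + q) = f q) ∧ ∀ a, (a < b ∨ b + N ≤ a) → σ'.mem a = σ.mem a)
    hNW hN ?_ ?_ ?_).mono le_rfl ?_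
  · refine ⟨by simp, fun r' hr' => by simp [hr'], fun q hq => absurd hq (Nat.not_lt_zero q),
      fun _ _ => rfl⟩
  · rintro i hi σ' ⟨h1, h2, -, -⟩
    exact ⟨(h2 ℓ hℓ).trans hNr, h1⟩
  · rintro i hi σ' ⟨h1, h2, h3, h4⟩
    refine (hbody i hi σ' h2 h1 h4).mono le_rfl ?_
    rintro σ₂ ⟨e1, e2⟩
    refine ⟨by rw [e1, h1], by simp, ?_, ?_, ?_⟩
    · intro r' hr'
      simp only [St.set_reg, if_neg hr', e1]
      exact h2 r' hr'
    · intro q hq
      simp only [St.set_mem, e2, Function.update_apply]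
      by_cases hqi : q = i
      · rw [if_pos (by omega), hqi]
      · rw [if_neg (by omega)]
        exact h3 q (by omega)
    · intro a ha
      simp only [St.set_mem, e2, Function.update_apply]
      rw [if_neg (by omega)]
      exact h4 a ha
  · rintro σ' ⟨-, h2, h3, h4⟩
    exact ⟨h2, h3, h4⟩

/-- one store -/
theorem Run.store {a v : Expr} {m : ℕ} {z : ℤ} (ha : a.ok W σ) (hv : v.ok W σ)
    (hm : a.eval σ = m) (hz : v.eval σ = z) :
    Run W (.store a v) σ [] (a.size + v.size + 1)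
      (fun σ' => σ'.reg = σ.reg ∧ σ'.mem = Function.update σ.mem m z) := by
  refine Term.run (Term.store ha hv ⟨rfl, ?_⟩) trivial
  simp only [St.put, hm, hz, Int.toNat_natCast]

end Pool.Agent.Lib.MP_d8fb5e_lc
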