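import Pool.Agent.Lib.MP_d8fb5e_lc.ChainCount

namespace Pool.Agent.Lib.MP_d8fb5e_lc

open scoped ENNReal

section
variable (n : ℕ) (A : ℕ → ℕ → ℤ)

theorem sum_dp (K i : ℕ) (hK : 0 < K) :
    ∑ z ∈ Finset.range (2 ^ n), dp n A K i z = (K * K) ^ i := by
  have h1 : ∀ r ∈ Finset.range ((K * K) ^ i), chain n A K r i ∈ Finset.range (2 ^ n) :=
    fun r _ => Finset.mem_range.2 (chain_lt n A K r i)
  have h2 := Finset.card_eq_sum_card_fiberwise h1
  rw [Finset.card_range] at h2
  rw [h2]
  exact Finset.sum_congr rfl fun z _ => dp_eq_card n A K i z hK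

/-- cumulative weights -/
def cum (K m : ℕ) : ℤ := ∑ z ∈ Finset.range m, if isBasis n A z = true then wt n A K z else 0

theorem cum_succ (K m : ℕ) :
    cum n A K (m + 1) = cum n A K m + if isBasis n A m = true then wt n A K m else 0 := by
  simp [cum, Finset.sum_range_succ]

theorem cum_mono (K : ℕ) (hn : 0 < n) (hK : n ≤ K) {a b : ℕ} (hab : a ≤ b) (hb : b ≤ 2 ^ n) :
    cum n A K a ≤ cum n A K b := by
  refine Finset.sum_le_sum_of_subset_of_nonneg (Finset.range_subset_range.2 hab) ?_
  intro z hz _
  have hz' : z < 2 ^ n := lt_of_lt_of_le (Finset.mem_range.1 hz) hb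
  split_ifs with h
  · exact wt_nonneg n A K hn hK z hz' h
  · exact le_rfl

theorem rng_pos (K : ℕ) (hK : 0 < K) : 0 < rng n K := by
  unfold rng; positivity

theorem cum_total (K : ℕ) (hK : 0 < K) :
    cum n A K (2 ^ n) = (numT n A : ℤ) * (rng n K : ℤ) := by
  have hs : ∑ z ∈ (Finset.range (2 ^ n)).filter (fun z => isBasis n A z = true),
      (dp n A K (steps n K) z : ℤ) = (rng n K : ℤ) := by
    rw [Finset.sum_filter]
    have : ∀ z ∈ Finset.range (2 ^ n), (if isBasis n A z = true then
        (dp n A K (steps n K) z : ℤ) else 0) = (dp n A K (steps n K) z : ℤ) := by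
      intro z _
      split_ifs with h
      · rfl
      · rw [dp_eq_zero n A K _ z (by simpa using h)]; rfl
    rw [Finset.sum_congr rfl this]
    have := sum_dp n A K (steps n K) hK
    rw [rng, ← this]; push_cast; rfl
  unfold cum
  rw [← Finset.sum_filter]
  simp only [wt]
  have e2 : ∑ x ∈ (Finset.range (2 ^ n)).filter (fun z => isBasis n A z = true),
      ((2 ^ n - 1) * (dp n A K (steps n K) x : ℤ) * (numT n A : ℤ)) =
      (2 ^ n - 1) * (rng n K : ℤ) * (numT n A : ℤ) := by
    rw [← Finset.sum_mul, ← Finset.mul_sum, hs]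
  rw [Finset.sum_sub_distrib, e2, Finset.sum_const, nsmul_eq_mul]
  change (numT n A : ℤ) * _ - _ = _
  ring

theorem search_inv (K v : ℕ) (m : ℕ) :
    ((search n A K v m).1 = v - cum n A K m ∧ 0 ≤ (search n A K v m).1) ∨
    ((search n A K v m).1 < 0 ∧ (search n A K v m).2 < m ∧
      isBasis n A (search n A K v m).2 = true ∧ cum n A K (search n A K v m).2 ≤ v ∧
      (v : ℤ) < cum n A K ((search n A K v m).2 + 1)) := by
  induction m with
  | zero => left; simp [search, cum]
  | succ m ih =>
    rcases ih with ⟨h1, h2⟩ | ⟨h1, h2, h3, h4, h5⟩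
    · by_cases hb : isBasis n A m = true
      · have hs : search n A K v (m + 1) = ((search n A K v m).1 - wt n A K m, m) := by
          simp [search, hb, h2]
        have hc : cum n A K (m + 1) = cum n A K m + wt n A K m := by
          rw [cum_succ]; simp [hb]
        rw [hs]
        by_cases h0 : 0 ≤ (search n A K v m).1 - wt n A K m
        · left
          refine ⟨?_, h0⟩
          simp only
          rw [h1, hc]; ring
        · right
          refine ⟨by simpa using h0, Nat.lt_succ_self m, hb, by linarith, ?_⟩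
          simp only
          rw [hc]; rw [not_le] at h0; linarith
      · left
        have hs : search n A K v (m + 1) = search n A K v m := by
          simp [search, hb]
        have hc : cum n A K (m + 1) = cum n A K m := by
          rw [cum_succ]; simp [hb]
        rw [hs, hc]; exact ⟨h1, h2⟩
    · right
      have hs : search n A K v (m + 1) = search n A K v m := by
        have : ¬ (0 ≤ (search n A K v m).1) := by omega
        simp [search, this]
      rw [hs]
      exact ⟨h1, by omega, h3, h4, h5⟩

theorem pick_spec (K : ℕ) (hK : 0 < K) (v : ℕ) (hv : v < numT n A * rng n K) :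
    pick n A K v < 2 ^ n ∧ isBasis n A (pick n A K v) = true ∧
      cum n A K (pick n A K v) ≤ v ∧ (v : ℤ) < cum n A K (pick n A K v + 1) := by
  rcases search_inv n A K v (2 ^ n) with ⟨h1, h2⟩ | ⟨_, h2, h3, h4, h5⟩
  · rw [cum_total n A K hK] at h1
    have : (v : ℤ) < (numT n A : ℤ) * (rng n K : ℤ) := by exact_mod_cast hv
    omega
  · exact ⟨h2, h3, h4, h5⟩

theorem search_lt (K v m : ℕ) : (search n A K v m).2 < m ∨ (search n A K v m).2 = 0 := by
  induction m with
  | zero => right; simp [search]
  | succ m ih =>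
    simp only [search]
    split_ifs
    · left; exact Nat.lt_succ_self m
    · rcases ih with h | h
      · left; omega
      · right; exact h

theorem pick_lt (K v : ℕ) : pick n A K v < 2 ^ n := by
  rcases search_lt n A K v (2 ^ n) with h | h
  · exact h
  · unfold pick; rw [h]; positivity

theorem pick_card (K : ℕ) (hn : 0 < n) (hK : n ≤ K) (z : ℕ) (hz : z < 2 ^ n) :
    ((((Finset.range (numT n A * rng n K)).filter fun v => pick n A K v = z).card : ℕ) : ℤ) =
      if isBasis n A z = true then wt n A K z else 0 := by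
  have hK0 : 0 < K := by omega
  split_ifs with hb
  · have hc : cum n A K (z + 1) = cum n A K z + wt n A K z := by
      rw [cum_succ]; simp [hb]
    have h0 : 0 ≤ cum n A K z := by
      have := cum_mono n A K hn hK (Nat.zero_le z) hz.le
      simpa [cum] using this
    have hw : 0 ≤ wt n A K z := wt_nonneg n A K hn hK z hz hb
    have ht : cum n A K (z + 1) ≤ (numT n A : ℤ) * (rng n K : ℤ) := by
      rw [← cum_total n A K hK0]
      exact cum_mono n A K hn hK hz le_rfl
    have hset : (Finset.range (numT n A * rng n K)).filter (fun v => pick n A K v = z) =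
        Finset.Ico (cum n A K z).toNat (cum n A K (z + 1)).toNat := by
      ext v
      rw [Finset.mem_filter, Finset.mem_range, Finset.mem_Ico]
      constructor
      · rintro ⟨hv, hp⟩
        obtain ⟨_, _, h4, h5⟩ := pick_spec n A K hK0 v hv
        rw [hp] at h4 h5
        omega
      · rintro ⟨h4, h5⟩
        have h4' : cum n A K z ≤ v := by omega
        have h5' : (v : ℤ) < cum n A K (z + 1) := by omega
        have hv : v < numT n A * rng n K := by
          have : (v : ℤ) < (numT n A : ℤ) * (rng n K : ℤ) := lt_of_lt_of_le h5' ht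
          exact_mod_cast this
        refine ⟨hv, ?_⟩
        obtain ⟨h1, _, h6, h7⟩ := pick_spec n A K hK0 v hv
        rcases lt_trichotomy (pick n A K v) z with h | h | h
        · have := cum_mono n A K hn hK (Nat.succ_le_of_lt h) hz.le
          simp only [Nat.succ_eq_add_one] at this
          linarith
        · exact h
        · have := cum_mono n A K hn hK (Nat.succ_le_of_lt h) h1.le
          simp only [Nat.succ_eq_add_one] at this
          linarith
    rw [hset, Nat.card_Ico]
    omega
  · have : (Finset.range (numT n A * rng n K)).filter (fun v => pick n A K v = z) = ∅ := by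
      rw [Finset.filter_eq_empty_iff]
      intro v hv hp
      obtain ⟨_, h, _, _⟩ := pick_spec n A K hK0 v (Finset.mem_range.1 hv)
      rw [hp] at h
      exact hb h
    rw [this]; rfl

/-- number of fast runs leading to `z` -/
theorem fast_card (K : ℕ) (hK : 0 < K) (z : ℕ) :
    ((Finset.range (2 ^ n * rng n K)).filter fun u =>
        rng n K ≤ u ∧ chain n A K (u % rng n K) (steps n K) = z).card =
      (2 ^ n - 1) * dp n A K (steps n K) z := by
  have hr := rng_pos n K hK
  rw [dp_eq_card n A K (steps n K) z hK, ← Finset.card_range (2 ^ n - 1), ← Finset.card_product]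
  symm
  refine Finset.card_bij (fun q _ => (q.1 + 1) * rng n K + q.2) ?_ ?_ ?_
  · rintro ⟨q, r⟩ h
    simp only [Finset.mem_product, Finset.mem_range, Finset.mem_filter] at h
    obtain ⟨h1, h2, h3⟩ := h
    have h2' : r < rng n K := h2
    simp only [Finset.mem_filter, Finset.mem_range]
    refine ⟨?_, ?_, ?_⟩
    · calc (q + 1) * rng n K + r < (q + 1) * rng n K + rng n K := by omega
        _ = (q + 2) * rng n K := by ring
        _ ≤ 2 ^ n * rng n K := Nat.mul_le_mul_right _ (by omega)
    · nlinarith
    · rw [Nat.mul_comm (q + 1), Nat.mul_add_mod, Nat.mod_eq_of_lt h2']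
      exact h3
  · rintro ⟨q, r⟩ h ⟨q', r'⟩ h' he
    simp only [Finset.mem_product, Finset.mem_range, Finset.mem_filter] at h h'
    have h2 : r < rng n K := h.2.1
    have h2' : r' < rng n K := h'.2.1
    simp only at he
    have e1 : ((q + 1) * rng n K + r) % rng n K = ((q' + 1) * rng n K + r') % rng n K := by rw [he]
    rw [Nat.mul_comm (q + 1), Nat.mul_comm (q' + 1), Nat.mul_add_mod, Nat.mul_add_mod,
      Nat.mod_eq_of_lt h2, Nat.mod_eq_of_lt h2'] at e1
    subst e1
    have e2 : (q + 1) * rng n K = (q' + 1) * rng n K := by omega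
    have e3 := Nat.eq_of_mul_eq_mul_right hr e2
    have e4 : q = q' := Nat.succ_injective e3
    rw [e4]
  · intro u hu
    simp only [Finset.mem_filter, Finset.mem_range] at hu
    obtain ⟨h1, h2, h3⟩ := hu
    have hq : 1 ≤ u / rng n K := (Nat.one_le_div_iff hr).2 h2
    have hq2 : u / rng n K < 2 ^ n := Nat.div_lt_of_lt_mul (by rwa [Nat.mul_comm])
    refine ⟨(u / rng n K - 1, u % rng n K), ?_, ?_⟩
    · simp only [Finset.mem_product, Finset.mem_range, Finset.mem_filter]
      exact ⟨by omega, Nat.mod_lt _ hr, h3⟩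
    · simp only
      rw [Nat.sub_add_cancel hq, Nat.mul_comm]
      exact Nat.div_add_mod u (rng n K)

/-- the output law is exactly uniform on bases -/
theorem exact (K : ℕ) (hn : 0 < n) (hK : n ≤ K) (z : ℕ) (hz : isBasis n A z = true)
    (hz2 : z < 2 ^ n) :
    ((((Finset.range (2 ^ n * rng n K)).filter fun u =>
        rng n K ≤ u ∧ chain n A K (u % rng n K) (steps n K) = z).card : ℝ≥0∞) +
      (rng n K : ℝ≥0∞) / (numT n A * rng n K : ℕ) *
        ((Finset.range (numT n A * rng n K)).filter fun v => pick n A K v = z).card) /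
      (2 ^ n * rng n K : ℕ) = 1 / numT n A := by
  have hK0 : 0 < K := by omega
  have hr := rng_pos n K hK0
  have hT := numT_pos n A
  have hc := pick_card n A K hn hK z hz2
  rw [if_pos hz] at hc
  rw [fast_card n A K hK0 z]
  set c := ((Finset.range (numT n A * rng n K)).filter fun v => pick n A K v = z).card with hcdef
  have key : c + (2 ^ n - 1) * dp n A K (steps n K) z * numT n A = 2 ^ n * rng n K := by
    have h1 : (1 : ℕ) ≤ 2 ^ n := Nat.one_le_two_pow
    zify [h1]
    rw [hc, wt]
    ring
  have hrR : (0 : ℝ) < (rng n K : ℝ) := by exact_mod_cast hr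
  have hTR : (0 : ℝ) < (numT n A : ℝ) := by exact_mod_cast hT
  have hp : (0 : ℝ) < ((2 ^ n * rng n K : ℕ) : ℝ) := by
    have : 0 < 2 ^ n * rng n K := by positivity
    exact_mod_cast this
  have keyR : (c : ℝ) + (((2 ^ n - 1) * dp n A K (steps n K) z : ℕ) : ℝ) * (numT n A : ℝ) =
      ((2 ^ n * rng n K : ℕ) : ℝ) := by exact_mod_cast key
  set D : ℕ := (2 ^ n - 1) * dp n A K (steps n K) z with hD
  set W : ℕ := 2 ^ n * rng n K with hW
  have e1 : ((rng n K : ℝ≥0∞) / (numT n A * rng n K : ℕ)) =
      ENNReal.ofReal ((rng n K : ℝ) / ((numT n A : ℝ) * (rng n K : ℝ))) := by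
    rw [ENNReal.ofReal_div_of_pos (by positivity), ← Nat.cast_mul, ENNReal.ofReal_natCast,
      ENNReal.ofReal_natCast]
  rw [e1, ← ENNReal.ofReal_natCast D, ← ENNReal.ofReal_natCast c,
    ← ENNReal.ofReal_mul (by positivity), ← ENNReal.ofReal_add (by positivity) (by positivity),
    ← ENNReal.ofReal_natCast W, ← ENNReal.ofReal_div_of_pos hp, ← ENNReal.ofReal_natCast (numT n A),
    ← ENNReal.ofReal_one, ← ENNReal.ofReal_div_of_pos hTR]
  congr 1
  have : (rng n K : ℝ) / ((numT n A : ℝ) * (rng n K : ℝ)) = 1 / (numT n A : ℝ) := by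
    field_simp
  rw [this, ← keyR]
  rw [← keyR] at hp
  field_simp
  ring

end

end Pool.Agent.Lib.MP_d8fb5e_lc
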