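import Pool.Agent.Lib.MP_d8fb5e_lc.Search
import Pool.Agent.Lib.MP_d8fb5e_lc.Exact

namespace Pool.Agent.Lib.MP_d8fb5e_lc

open Pool.Agent.Lib.PRam

variable {W : ℕ} {σ : St}

/-! ### drawing a number below `reg 16 = 2 ^ ℓ` -/

def drawBody : Cmd :=
  .seq (.coin 29) (.seq (.assign 23 (.add (.mul (.lit 2) (.var 23)) (.var 29)))
    (.assign 24 (.mul (.lit 2) (.var 24))))

def drawC : Cmd :=
  .seq (.assign 23 (.lit 0)) (.seq (.assign 24 (.lit 1))
    (.whilepos (.sub (.var 16) (.var 24)) drawBody))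

theorem val_append (α : List Bool) (b : Bool) :
    val (α ++ [b]) = 2 * val α + (if b then 1 else 0) := by
  unfold val
  rw [List.foldl_append]
  rfl

theorem val_lt (α : List Bool) : val α < 2 ^ α.length := by
  induction α using List.reverseRecOn with
  | nil => simp [val]
  | append_singleton α b ih =>
    rw [val_append, List.length_append, List.length_singleton, pow_succ]
    split_ifs <;> omega

def tDraw (ℓ : ℕ) : ℕ := 30 + ℓ * 30

theorem draw_run {ℓ : ℕ} {β : List Bool} (hβ : β.length = ℓ) (h16 : σ.reg 16 = (2 ^ ℓ : ℕ))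
    (hW : 2 * 2 ^ ℓ ≤ W) :
    Run W drawC σ β (tDraw ℓ) (fun σ' => Fr 23 0 0 σ σ' ∧ σ'.reg 23 = val β) := by
  have hW1 : 1 ≤ W := by
    have : 1 ≤ 2 ^ ℓ := Nat.one_le_two_pow
    omega
  have l1 : ∀ σ : St, (Expr.lit 1).eval σ = 1 := fun _ => rfl
  have l0 : ∀ σ : St, (Expr.lit 0).eval σ = 0 := fun _ => rfl
  refine Run.seqL (T₁ := 3) (T₂ := 27 + ℓ * 30) (Run.assign (e := .lit 0)
    (by show (0 : ℤ).natAbs ≤ W; omega) ?_) (by simp only [tDraw]; omega)
  refine Run.seqL (T₁ := 3) (T₂ := 24 + ℓ * 30) (Run.assign (e := .lit 1)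
    (by show (1 : ℤ).natAbs ≤ W; omega) ?_) (by omega)
  rw [l0, l1]
  have hcost : drawBody.cost = 16 := by
    simp only [drawBody, Cmd.cost, Expr.size]
  refine (Run.whileposC (fun k γ σ' => k = γ.length ∧ Fr 23 0 0 σ σ' ∧ ∃ α, β = α ++ γ ∧
    σ'.reg 23 = val α ∧ σ'.reg 24 = ((2 ^ α.length : ℕ) : ℤ)) 16 ℓ ?_ ?_ ?_ ?_).mono ?_ ?_
  · refine ⟨hβ.symm, ((Fr.refl σ).set (by omega)).set (by omega), [], by simp, by simp [val],
      by simp⟩
  · rintro k γ σ' ⟨hk, hfr, α, hα, h23, h24⟩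
    refine ⟨trivial, trivial, ?_⟩
    have h16' : σ'.reg 16 = (2 ^ ℓ : ℕ) := (hfr.1 16 (by omega)).trans h16
    have hle : 2 ^ α.length ≤ 2 ^ ℓ := Nat.pow_le_pow_right (by omega) (by
      rw [← hβ, hα, List.length_append]; omega)
    simp only [Expr.eval, h16', h24]
    exact natAbs_sub_le (by omega) (by omega)
  · rintro k γ σ' ⟨hk, hfr, α, hα, h23, h24⟩ hle
    have h16' : σ'.reg 16 = (2 ^ ℓ : ℕ) := (hfr.1 16 (by omega)).trans h16
    have hle : σ'.reg 16 - σ'.reg 24 ≤ 0 := hle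
    rw [h16', h24] at hle
    have hle' : 2 ^ ℓ ≤ 2 ^ α.length := by omega
    have := (Nat.pow_le_pow_iff_right (a := 2) (by omega)).mp hle'
    have hlen : β.length = α.length + γ.length := by rw [hα, List.length_append]
    exact List.length_eq_zero_iff.mp (by omega)
  · rintro k γ σ' ⟨hk, hfr, α, hα, h23, h24⟩ hlt
    have h16' : σ'.reg 16 = (2 ^ ℓ : ℕ) := (hfr.1 16 (by omega)).trans h16
    have hlt : 0 < σ'.reg 16 - σ'.reg 24 := hlt
    rw [h16', h24] at hlt
    have hlt' : 2 ^ α.length < 2 ^ ℓ := by omega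
    have hlt2 := (Nat.pow_lt_pow_iff_right (a := 2) (by omega)).mp hlt'
    have hlen : β.length = α.length + γ.length := by rw [hα, List.length_append]
    rcases γ with _ | ⟨b, γ⟩
    · simp at hlen; omega
    refine ⟨γ.length, [b], γ, by simpa using hk, rfl, ?_⟩
    rw [← hcost]
    have hv := val_lt α
    have hvb : val (α ++ [b]) < 2 * 2 ^ α.length := by
      have := val_lt (α ++ [b])
      rw [List.length_append, List.length_singleton, pow_succ] at this
      omega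
    refine Term.run ?_ ⟨trivial, trivial, trivial⟩
    refine Term.seqR (Term.coin ?_)
    set σ₁ := σ'.set 29 (if b then 1 else 0) with hσ₁
    have e23 : σ₁.reg 23 = val α := by simp [hσ₁, h23]
    have e24 : σ₁.reg 24 = ((2 ^ α.length : ℕ) : ℤ) := by simp [hσ₁, h24]
    have e29 : σ₁.reg 29 = if b then 1 else 0 := by simp [hσ₁]
    have hev : (Expr.add (.mul (.lit 2) (.var 23)) (.var 29)).eval σ₁ = val (α ++ [b]) := by
      simp only [Expr.eval, e23, e29, val_append]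
      cases b <;> simp
    refine Term.seqL (Term.assign ⟨⟨by show (2 : ℤ).natAbs ≤ W; omega, trivial, ?_⟩, trivial, ?_⟩ ?_)
    · simp only [Expr.eval, e23]
      omega
    · have : (Expr.mul (.lit 2) (.var 23)).eval σ₁ + (Expr.var 29).eval σ₁ =
        ((val (α ++ [b]) : ℕ) : ℤ) := hev
      rw [this, Int.natAbs_natCast]; omega
    rw [hev]
    have hev2 : (Expr.mul (.lit 2) (.var 24)).eval (σ₁.set 23 (val (α ++ [b]) : ℤ)) =
        ((2 ^ (α ++ [b]).length : ℕ) : ℤ) := by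
      simp only [Expr.eval, St.set_reg]
      rw [if_neg (by omega), e24, List.length_append, List.length_singleton, pow_succ]
      push_cast; ring
    refine Term.assign ⟨by show (2 : ℤ).natAbs ≤ W; omega, trivial, ?_⟩ ?_
    · have : (Expr.lit 2).eval (σ₁.set 23 (val (α ++ [b]) : ℤ)) *
        (Expr.var 24).eval (σ₁.set 23 (val (α ++ [b]) : ℤ)) =
        ((2 ^ (α ++ [b]).length : ℕ) : ℤ) := hev2
      rw [this, Int.natAbs_natCast, List.length_append, List.length_singleton, pow_succ]; omega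
    rw [hev2]
    refine ⟨by rfl, ?_, α ++ [b], by rw [hα]; simp, ?_, ?_⟩
    · exact ((hfr.set (by omega)).set (by omega)).set (by omega)
    · simp
    · simp
  · simp only [Expr.size]; omega
  · rintro σ' ⟨hle, k, hk, hfr, α, hα, h23, h24⟩
    rw [List.append_nil] at hα
    exact ⟨hfr, by rw [h23, hα]⟩

/-! ### the part of the program after the set-up -/

def fastC : Cmd := .seq (.assign 31 (modE 23 14)) (.seq chainC (.assign 0 (.add (.var 17) (.var 30))))

def slowC : Cmd :=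
  .seq dpC (.seq countC (.seq (.assign 22 (.mul (.var 21) (.var 14)))
    (.seq (.assign 23 (.var 22)) (.seq (.whilepos (.sub (.add (.var 23) (.lit 1)) (.var 22)) drawC)
      (.seq searchC (.assign 0 (.add (.var 17) (.var 28))))))))

def tailC : Cmd := .seq drawC (.ifpos (.sub (.add (.var 23) (.lit 1)) (.var 14)) fastC slowC)

/-- the state after the set-up phase -/
structure Ready (n : ℕ) (A : ℕ → ℕ → ℤ) (K low bA bW bS ℓ W : ℕ) (σ : St) : Prop where
  hE : Env n A bA bW bS σ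
  hE2 : Env2 n A K (bS + 2 * (n * n) + n) σ
  hWk : WOk2 n K bS W
  hA : ∀ g < n, ∀ h < n, |A g h| ≤ 1
  hn : 0 < n
  hK : n ≤ K
  hK2 : K ≤ 2 * n
  hℓ : 2 ^ n * rng n K = 2 ^ ℓ
  r17 : σ.reg 17 = low
  hlow : low ≤ 2 ^ n

def tFast (n ℓ : ℕ) : ℕ := tDraw ℓ + tChain n + 50

theorem fast_run {n K low bA bW bS ℓ : ℕ} {A : ℕ → ℕ → ℤ} (h : Ready n A K low bA bW bS ℓ W σ)
    (β : List Bool) (hβ : β.length = ℓ) (hR : rng n K ≤ val β) :
    Run W tailC σ β (tFast n ℓ) (fun σ' =>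
      σ'.reg 0 = ((low + chain n A K (val β % rng n K) (steps n K) : ℕ) : ℤ)) := by
  have hN1 := h.hWk.N1_le
  have h16 : σ.reg 16 = (2 ^ ℓ : ℕ) := by rw [h.hE2.r16, h.hℓ]
  rw [h.hℓ] at hN1
  have hvl := val_lt β
  rw [hβ] at hvl
  have hrW := h.hWk.rng_le
  refine Run.seqR (T₁ := tDraw ℓ) (T₂ := tChain n + 50)
    ((draw_run hβ h16 (by omega)).mono le_rfl ?_) (by simp only [tFast]; omega)
  rintro σ₁ ⟨f1, f2⟩
  have hE21 := h.hE2.of_fr f1 (by omega)
  have hfr0 : Fr 23 bS bS σ σ₁ := ⟨f1.1, fun a _ => f1.2 a (by omega)⟩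
  have hE1 := h.hE.of_fr hfr0 (by omega)
  refine Run.ifpos (T' := tChain n + 30) ⟨⟨trivial, by show (1 : ℤ).natAbs ≤ W; omega, ?_⟩,
    trivial, ?_⟩ (fun hp => ?_) (fun hp => ?_) (by simp only [Expr.size]; omega)
  · simp only [Expr.eval, f2]; omega
  · simp only [Expr.eval, f2, hE21.r14]; omega
  swap
  · have hp : σ₁.reg 23 + 1 - σ₁.reg 14 ≤ 0 := hp
    rw [f2, hE21.r14] at hp; omega
  refine Run.seqL (T₁ := 13) (T₂ := tChain n + 17) ((Run.assign (e := modE 23 14)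
    (modE_ok f2 hE21.r14 (by omega)) ?_).mono (by simp only [modE, Expr.size]; omega)
    (fun _ h => h)) (by omega)
  rw [modE_eval f2 hE21.r14]
  have hfr2 : Fr 23 bS bS σ (σ₁.set 31 ((val β % rng n K : ℕ) : ℤ)) := hfr0.set (by omega)
  refine Run.seqL (T₁ := tChain n) (T₂ := 17) ((chain_run (r := val β % rng n K)
    (h.hE.of_fr hfr2 (by omega)) (h.hE2.of_fr hfr2 (by omega)) h.hWk h.hA h.hK2
    (fun i => chain_lt n A K _ i) (by simp) ?_).mono le_rfl ?_) (by omega)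
  · have := Nat.mod_le (val β) (rng n K); omega
  rintro σ₂ ⟨g1, g2⟩
  have e17 : σ₂.reg 17 = low := by
    rw [g1.1 17 (by omega), hfr2.1 17 (by omega)]; exact h.r17
  have hcl := chain_lt n A K (val β % rng n K) (steps n K)
  have h3 := h.hWk.h.h3
  have hlow := h.hlow
  refine (Run.assign (e := .add (.var 17) (.var 30)) ⟨trivial, trivial, ?_⟩ ?_).mono
    (by show 7 ≤ _; omega) (fun _ h => h)
  · simp only [Expr.eval, e17, g2]
    rw [← Nat.cast_add, Int.natAbs_natCast]; omega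
  · simp only [Expr.eval, e17, g2, St.set_reg, if_true]
    push_cast; rfl

def tSlow (n : ℕ) : ℕ := tDp n + tCount n + tSearch n + 100

theorem slow_run {n K low bA bW bS ℓ : ℕ} {A : ℕ → ℕ → ℤ} (h : Ready n A K low bA bW bS ℓ W σ)
    (β : List Bool) (hβ : β.length = ℓ) (hR : val β < rng n K) (rej : List (List Bool))
    (hrej : ∀ γ ∈ rej, γ.length = ℓ ∧ numT n A * rng n K ≤ val γ) (fin : List Bool)
    (hfin : fin.length = ℓ) (hfin2 : val fin < numT n A * rng n K) :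
    Run W tailC σ (β ++ (rej.flatten ++ fin))
      (tSlow n + (rej.length + 1) * (tDraw ℓ + 20) + tDraw ℓ)
      (fun σ' => σ'.reg 0 = ((low + pick n A K (val fin) : ℕ) : ℤ)) := by
  have hN1 := h.hWk.N1_le
  have h16 : σ.reg 16 = (2 ^ ℓ : ℕ) := by rw [h.hE2.r16, h.hℓ]
  rw [h.hℓ] at hN1
  have hvl := val_lt β
  rw [hβ] at hvl
  have hrW := h.hWk.rng_le
  have hTle := numT_le n A
  have hMle : numT n A * rng n K ≤ 2 ^ ℓ := by
    rw [← h.hℓ]; exact Nat.mul_le_mul_right _ hTle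
  refine Run.seq (T₁ := tDraw ℓ) (T₂ := tSlow n + (rej.length + 1) * (tDraw ℓ + 20))
    ((draw_run hβ h16 (by omega)).mono le_rfl ?_) (by omega)
  rintro σ₁ ⟨f1, f2⟩
  have hE21 := h.hE2.of_fr f1 (by omega)
  have hfr0 : Fr 23 bS (bS + 2 * (n * n) + n + 2 * 2 ^ n) σ σ₁ :=
    ⟨f1.1, fun a _ => f1.2 a (by omega)⟩
  have hE1 := h.hE.of_fr hfr0 (by omega)
  refine Run.ifpos (T' := tSlow n - 20 + (rej.length + 1) * (tDraw ℓ + 20))
    ⟨⟨trivial, by show (1 : ℤ).natAbs ≤ W; omega, ?_⟩,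
    trivial, ?_⟩ (fun hp => ?_) (fun hp => ?_) (by simp only [Expr.size, tSlow]; omega)
  · simp only [Expr.eval, f2]; omega
  · simp only [Expr.eval, f2, hE21.r14]; omega
  · have hp : 0 < σ₁.reg 23 + 1 - σ₁.reg 14 := hp
    rw [f2, hE21.r14] at hp; omega
  have hKpos : 0 < K := h.hWk.h8
  have hdpb : ∀ i ≤ steps n K, ∀ z, dp n A K i z ≤ rng n K := by
    intro i hi z
    rw [dp_eq_card n A K i z hKpos]
    refine (Finset.card_filter_le _ _).trans ?_
    rw [Finset.card_range]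
    exact Nat.pow_le_pow_right (Nat.mul_pos hKpos hKpos) hi
  -- the preparations
  refine Run.seqL (T₁ := tDp n) (T₂ := tCount n + tSearch n + 70 +
    (rej.length + 1) * (tDraw ℓ + 20)) ((dp_run hE1 hE21 h.hWk h.hA h.hK2
    (fun x p hx => move_lt n A K x p hx) (base0_lt n A) hdpb).mono le_rfl ?_)
    (by simp only [tSlow]; omega)
  rintro σ₂ ⟨g1, g2⟩
  have hfr2 : Fr 23 bS (bS + 2 * (n * n) + n + 2 * 2 ^ n) σ σ₂ :=
    hfr0.trans (g1.mono (by omega) le_rfl le_rfl)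
  refine Run.seqL (T₁ := tCount n) (T₂ := tSearch n + 70 +
    (rej.length + 1) * (tDraw ℓ + 20)) ((count_run (h.hE.of_fr hfr2 (by omega))
    (h.hE2.of_fr hfr2 (by omega)) h.hWk.h h.hA).mono le_rfl ?_) (by omega)
  rintro σ₃ ⟨k1, k2⟩
  have hfr3 : Fr 21 bS (bS + 2 * (n * n) + n + 2 * 2 ^ n) σ σ₃ :=
    (hfr2.mono (by omega) le_rfl le_rfl).trans (k1.mono le_rfl le_rfl (by omega))
  have hE23 := h.hE2.of_fr hfr3 (by omega)
  have hArr3 : ∀ z < 2 ^ n, σ₃.mem (bS + 2 * (n * n) + n + z) = dp n A K (steps n K) z := by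
    intro z hz
    rw [k1.2 _ (by omega)]
    exact g2 z hz
  have hM : (Expr.mul (.var 21) (.var 14)).eval σ₃ = ((numT n A * rng n K : ℕ) : ℤ) := by
    simp only [Expr.eval, k2, hE23.r14]; push_cast; rfl
  refine Run.seqL (T₁ := 7) (T₂ := tSearch n + 60 + (rej.length + 1) * (tDraw ℓ + 20))
    (Run.assign (e := .mul (.var 21) (.var 14)) ⟨trivial, trivial, ?_⟩ ?_) (by omega)
  · have : (Expr.var 21).eval σ₃ * (Expr.var 14).eval σ₃ = ((numT n A * rng n K : ℕ) : ℤ) := hM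
    rw [this, Int.natAbs_natCast]; omega
  rw [hM]
  refine Run.seqL (T₁ := 4) (T₂ := tSearch n + 50 + (rej.length + 1) * (tDraw ℓ + 20))
    (Run.assign (e := .var 22) trivial ?_) (by omega)
  have e22 : (Expr.var 22).eval (σ₃.set 22 ((numT n A * rng n K : ℕ) : ℤ)) =
      ((numT n A * rng n K : ℕ) : ℤ) := by simp [Expr.eval]
  rw [e22]
  set M := numT n A * rng n K with hMdef
  set σ₄ := (σ₃.set 22 (M : ℤ)).set 23 (M : ℤ) with hσ₄
  have hfr4 : Fr 21 bS (bS + 2 * (n * n) + n + 2 * 2 ^ n) σ σ₄ :=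
    (hfr3.set (by omega)).set (by omega)
  have q21 : σ₄.reg 21 = numT n A := by simp [hσ₄, k2]
  have q22 : σ₄.reg 22 = M := by simp [hσ₄]
  have q23 : σ₄.reg 23 = M := by simp [hσ₄]
  -- the rejection loop
  have hflat : rej.flatten ++ fin = (rej ++ [fin]).flatten := by simp
  rw [hflat]
  have hlast : ∀ pre b bs, rej ++ [fin] = pre ++ b :: bs → bs ≠ [] → b ∈ rej := by
    intro pre b bs hp hbs
    have hdl := congrArg List.dropLast hp
    rw [List.dropLast_concat, List.dropLast_append_of_ne_nil (by simp),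
      List.dropLast_cons_of_ne_nil hbs] at hdl
    rw [hdl]; simp
  have hlast2 : ∀ pre b, rej ++ [fin] = pre ++ [b] → b = fin := by
    intro pre b hp
    have := congrArg List.getLast? hp
    simpa using this.symm
  refine Run.seqR (T₁ := (rej.length + 1) * (tDraw ℓ + 20) + 20) (T₂ := tSearch n + 20)
    ((Run.whileposBlocks (fun bs σ' => (∃ pre, rej ++ [fin] = pre ++ bs) ∧ Fr 23 0 0 σ₄ σ' ∧
      (bs = [] → σ'.reg 23 = val fin) ∧ (bs ≠ [] → (M : ℤ) ≤ σ'.reg 23) ∧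
      0 ≤ σ'.reg 23 ∧ σ'.reg 23 ≤ (2 ^ ℓ : ℕ)) (tDraw ℓ) (rej ++ [fin]) ?_ ?_ ?_ ?_).mono ?_ ?_)
    (by omega)
  · refine ⟨⟨[], by simp⟩, Fr.refl _, fun hc => absurd hc (by simp), fun _ => by rw [q23], ?_, ?_⟩
    · rw [q23]; omega
    · rw [q23]; exact_mod_cast hMle
  · rintro bs σ' ⟨-, hfr, -, -, h0, h1⟩
    have p22 : σ'.reg 22 = M := (hfr.1 22 (by omega)).trans q22
    refine ⟨⟨trivial, by show (1 : ℤ).natAbs ≤ W; omega, ?_⟩, trivial, ?_⟩
    · simp only [Expr.eval]; omega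
    · simp only [Expr.eval, p22]; omega
  · rintro bs σ' ⟨hpre, hfr, ha, hb, h0, h1⟩
    have p22 : σ'.reg 22 = M := (hfr.1 22 (by omega)).trans q22
    have hev : (Expr.sub (.add (.var 23) (.lit 1)) (.var 22)).eval σ' =
        σ'.reg 23 + 1 - M := by simp only [Expr.eval, p22]
    rw [hev]
    constructor
    · intro hle
      by_contra hne
      have := hb hne
      omega
    · intro hnil
      have := ha hnil
      omega
  · rintro b bs σ' ⟨⟨pre, hpre⟩, hfr, ha, hb, h0, h1⟩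
    have hbl : b.length = ℓ := by
      have : b ∈ rej ++ [fin] := by rw [hpre]; simp
      rcases List.mem_append.mp this with h | h
      · exact (hrej b h).1
      · rw [List.mem_singleton.mp h]; exact hfin
    have h16' : σ'.reg 16 = (2 ^ ℓ : ℕ) := by
      rw [hfr.1 16 (by omega), hfr4.1 16 (by omega)]; exact h16
    refine (draw_run hbl h16' (by omega)).mono le_rfl ?_
    rintro σ'' ⟨m1, m2⟩
    have hvb := val_lt b
    rw [hbl] at hvb
    refine ⟨⟨pre ++ [b], by rw [hpre]; simp⟩, hfr.trans m1, ?_, ?_, ?_, ?_⟩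
    · intro hbs
      rw [m2, hlast2 pre b (by rw [hpre, hbs])]
    · intro hbs
      rw [m2]
      exact_mod_cast (hrej b (hlast pre b bs hpre hbs)).2
    · rw [m2]; omega
    · rw [m2]; exact_mod_cast hvb.le
  · rw [List.length_append, List.length_singleton]
    simp only [Expr.size]
    have : 2 + 1 + 1 + 2 + 1 + 3 + tDraw ℓ ≤ tDraw ℓ + 20 := by omega
    have := Nat.mul_le_mul_left (rej.length + 1) this
    omega
  rintro σ₅ ⟨-, -, hfr5, ha, -, -, -⟩
  have v23 : σ₅.reg 23 = val fin := ha rfl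
  have hfr5' : Fr 21 bS (bS + 2 * (n * n) + n + 2 * 2 ^ n) σ σ₅ :=
    hfr4.trans ⟨fun r hr => hfr5.1 r (by omega), fun a _ => hfr5.2 a (by omega)⟩
  have hMN : M ≤ 2 ^ n * rng n K := Nat.mul_le_mul_right _ hTle
  refine Run.seqL (T₁ := tSearch n) (T₂ := 20) ((search_run (v := val fin)
    (h.hE.of_fr hfr5' (by omega)) (h.hE2.of_fr hfr5' (by omega)) h.hWk h.hA
    (fun z hz hb => wt_nonneg n A K h.hn h.hK z hz hb) (hdpb _ le_rfl) ?_
    ((hfr5.1 21 (by omega)).trans q21) v23 (by omega)).mono le_rfl ?_) (by omega)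
  · intro z hz
    rw [hfr5.2 _ (by omega)]
    exact hArr3 z hz
  rintro σ₆ ⟨s1, s2⟩
  have e17 : σ₆.reg 17 = low := by
    rw [s1.1 17 (by omega), hfr5'.1 17 (by omega)]; exact h.r17
  have hpl := pick_lt n A K (val fin)
  have h3 := h.hWk.h.h3
  have hlow := h.hlow
  refine (Run.assign (e := .add (.var 17) (.var 28)) ⟨trivial, trivial, ?_⟩ ?_).mono
    (by show 7 ≤ _; omega) (fun _ h => h)
  · simp only [Expr.eval, e17, s2]
    rw [← Nat.cast_add, Int.natAbs_natCast]; omega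
  · simp only [Expr.eval, e17, s2, St.set_reg, if_true]
    push_cast; rfl

end Pool.Agent.Lib.MP_d8fb5e_lc
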