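import Pool.Agent.Lib.MP_d8fb5e_lc.Setup5
import Pool.Agent.Lib.MP_d8fb5e_lc.Tail

namespace Pool.Agent.Lib.MP_d8fb5e_lc

open Pool.Agent.Lib.PRam

/-! ### polynomially bounded functions -/

def PB (f : ℕ → ℕ) : Prop := ∃ C : ℕ, ∀ n, f n ≤ C * (n + 1) ^ C

theorem PB.mono {f g : ℕ → ℕ} (hg : PB g) (h : ∀ n, f n ≤ g n) : PB f := by
  obtain ⟨C, hC⟩ := hg
  exact ⟨C, fun n => (h n).trans (hC n)⟩

theorem PB.const (c : ℕ) : PB fun _ => c :=
  ⟨c, fun n => Nat.le_mul_of_pos_right _ (by positivity)⟩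

theorem PB.id : PB fun n => n := ⟨1, fun n => by simp⟩

theorem PB.add {f g : ℕ → ℕ} (hf : PB f) (hg : PB g) : PB fun n => f n + g n := by
  obtain ⟨C, hC⟩ := hf
  obtain ⟨D, hD⟩ := hg
  refine ⟨C + D, fun n => ?_⟩
  have h1 : (n + 1) ^ C ≤ (n + 1) ^ (C + D) := Nat.pow_le_pow_right (by omega) (by omega)
  have h2 : (n + 1) ^ D ≤ (n + 1) ^ (C + D) := Nat.pow_le_pow_right (by omega) (by omega)
  calc f n + g n ≤ C * (n + 1) ^ C + D * (n + 1) ^ D := Nat.add_le_add (hC n) (hD n)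
    _ ≤ C * (n + 1) ^ (C + D) + D * (n + 1) ^ (C + D) :=
      Nat.add_le_add (Nat.mul_le_mul_left _ h1) (Nat.mul_le_mul_left _ h2)
    _ = (C + D) * (n + 1) ^ (C + D) := by ring

theorem PB.mul {f g : ℕ → ℕ} (hf : PB f) (hg : PB g) : PB fun n => f n * g n := by
  obtain ⟨C, hC⟩ := hf
  obtain ⟨D, hD⟩ := hg
  refine ⟨C * D + C + D, fun n => ?_⟩
  calc f n * g n ≤ (C * (n + 1) ^ C) * (D * (n + 1) ^ D) := Nat.mul_le_mul (hC n) (hD n)
    _ = (C * D) * (n + 1) ^ (C + D) := by ring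
    _ ≤ (C * D + C + D) * (n + 1) ^ (C * D + C + D) :=
      Nat.mul_le_mul (by omega) (Nat.pow_le_pow_right (by omega) (by omega))

theorem PB.forT {f g : ℕ → ℕ} (hf : PB f) (hg : PB g) :
    PB fun n => MP_d8fb5e_lc.forT (f n) (g n) :=
  (hf.mul (hg.add (PB.const 13))).add (PB.const 9)

/-- bounded by `2 ^ n` times a polynomial -/
def EB (f : ℕ → ℕ) : Prop := ∃ g, PB g ∧ ∀ n, f n ≤ 2 ^ n * g n

theorem PB.eb {f : ℕ → ℕ} (h : PB f) : EB f :=
  ⟨f, h, fun n => Nat.le_mul_of_pos_left _ (by positivity)⟩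

theorem EB.pow : EB fun n => 2 ^ n := ⟨fun _ => 1, PB.const 1, fun n => by simp⟩

theorem EB.add {f g : ℕ → ℕ} (hf : EB f) (hg : EB g) : EB fun n => f n + g n := by
  obtain ⟨f', h1, h2⟩ := hf
  obtain ⟨g', h3, h4⟩ := hg
  exact ⟨_, h1.add h3, fun n => by rw [mul_add]; exact Nat.add_le_add (h2 n) (h4 n)⟩

theorem EB.mul {f g : ℕ → ℕ} (hf : EB f) (hg : PB g) : EB fun n => f n * g n := by
  obtain ⟨f', h1, h2⟩ := hf
  exact ⟨_, h1.mul hg, fun n => by rw [← mul_assoc]; exact Nat.mul_le_mul_right _ (h2 n)⟩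

theorem EB.mul' {f g : ℕ → ℕ} (hf : PB f) (hg : EB g) : EB fun n => f n * g n := by
  simp only [Nat.mul_comm (f _)]
  exact hg.mul hf

theorem EB.forT {f g : ℕ → ℕ} (hf : EB f) (hg : PB g) :
    EB fun n => MP_d8fb5e_lc.forT (f n) (g n) :=
  (hf.mul (hg.add (PB.const 13))).add (PB.const 9).eb

theorem EB.forT' {f g : ℕ → ℕ} (hf : PB f) (hg : EB g) :
    EB fun n => MP_d8fb5e_lc.forT (f n) (g n) :=
  (EB.mul' hf (hg.add (PB.const 13).eb)).add (PB.const 9).eb

/-! ### the running times -/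

theorem PB.stepsB : PB stepsB := PB.id.mul (((PB.const 2).mul PB.id).mul ((PB.const 2).mul PB.id))

theorem PB.nn : PB fun n => n * n := PB.id.mul PB.id

theorem pb_tFind : PB tFind := (PB.const 4).add (PB.id.forT (PB.const 40))

theorem pb_tPivot : PB tPivot :=
  ((PB.const 50).add (PB.nn.forT (PB.const 90))).add (PB.nn.forT (PB.const 20))

theorem pb_tCol : PB tCol := ((PB.const 60).add pb_tFind).add pb_tPivot

theorem pb_tElim : PB tElim :=
  (((PB.nn.forT (PB.const 20)).add (PB.id.forT (PB.const 20))).add (PB.const 20)).add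
    (PB.id.forT pb_tCol)

theorem pb_tMove : PB tMove := pb_tElim.add (PB.const 150)

theorem pb_tChain : PB tChain :=
  (PB.const 4).add (PB.stepsB.forT (pb_tMove.add (PB.const 40)))

theorem pb_tTest : PB tTest := pb_tElim.add (PB.const 30)

theorem eb_tCount : EB tCount := (PB.const 3).eb.add (EB.pow.forT (pb_tTest.add (PB.const 10)))

theorem eb_tSearch : EB tSearch := (PB.const 3).eb.add (EB.pow.forT (pb_tTest.add (PB.const 60)))

theorem pb_tAdd : PB tAdd := pb_tMove.add (PB.const 40)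

theorem eb_tDpStep : EB tDpStep :=
  (EB.pow.forT (PB.const 20)).add ((EB.pow.forT
    ((((PB.const 2).mul PB.id).mul ((PB.const 2).mul PB.id)).forT pb_tAdd)).add
      (EB.pow.forT (PB.const 20)))

theorem eb_tDp : EB tDp :=
  (EB.pow.forT (PB.const 20)).add ((PB.const 20).eb.add (EB.forT' PB.stepsB eb_tDpStep))

theorem eb_tSlow : EB tSlow :=
  ((eb_tDp.add eb_tCount).add eb_tSearch).add (PB.const 100).eb

theorem pb_ellF : PB ellF := by
  refine (PB.id.add ((PB.const 2).mul (PB.id.mul PB.stepsB))).mono fun n => ?_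
  unfold ellF
  rcases Nat.eq_zero_or_pos n with h | h
  · subst h; simp
  · have h1 := clog_le (n := n)
    have h2 := steps_le (n := n) (Kof_le h)
    have := Nat.mul_le_mul h1 h2
    omega

theorem pb_tDraw : PB fun n => tDraw (ellF n) :=
  (PB.const 30).add (pb_ellF.mul (PB.const 30))

theorem pb_tFast : PB fun n => tFast n (ellF n) := (pb_tDraw.add pb_tChain).add (PB.const 50)

theorem pb_tCard : PB tCard := (PB.const 3).add (PB.id.forT (PB.const 20))

theorem pb_tEnt : PB tEnt := (PB.const 100).add (PB.id.forT (PB.const 120))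

theorem pb_t2 : PB t2 := (PB.const 60).add (PB.id.forT (PB.const 30))

theorem pb_t3 : PB t3 := (PB.const 3).add (PB.id.forT (pb_tCard.add (PB.const 20)))

theorem pb_t4 : PB t4 := (PB.const 3).add (PB.id.forT (pb_tCard.add (PB.const 30)))

theorem pb_t5 : PB t5 := PB.nn.forT pb_tEnt

theorem pb_t6 : PB t6 := (PB.const 30).add (PB.id.mul (PB.const 20))

theorem pb_t7 : PB t7 := (PB.const 20).add (PB.stepsB.forT (PB.const 7))

theorem pb_t8 : PB t8 :=
  ((PB.const 30).add (PB.id.forT (pb_tElim.add (PB.const 50)))).add pb_tElim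

theorem pb_tSetup : PB tSetup :=
  (((((((PB.const 100).add pb_t2).add pb_t3).add pb_t4).add pb_t5).add pb_t6).add pb_t7).add pb_t8

/-! ### the word size -/

/-- number of binary digits of the numbers used -/
def wF (n : ℕ) : ℕ := ellF n + n + 4 + (n * ((2 * n) * (2 * n)) + 10 * (n * n) + 20 * n + 20)

theorem pb_wF : PB wF :=
  ((pb_ellF.add PB.id).add (PB.const 4)).add
    (((PB.stepsB.add ((PB.const 10).mul PB.nn)).add ((PB.const 20).mul PB.id)).add (PB.const 20))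

theorem two_pow_add_le {a b c : ℕ} (h : a + b + 1 ≤ c) : 2 ^ a + 2 ^ b ≤ 2 ^ c := by
  have h1 : 2 ^ a ≤ 2 ^ (a + b) := Nat.pow_le_pow_right (by omega) (by omega)
  have h2 : 2 ^ b ≤ 2 ^ (a + b) := Nat.pow_le_pow_right (by omega) (by omega)
  have h3 : 2 ^ (a + b + 1) ≤ 2 ^ c := Nat.pow_le_pow_right (by omega) h
  rw [pow_succ] at h3
  omega

theorem wall {V n : ℕ} (hV : V ≤ n) (hn : 0 < n) : WAll V n (2 ^ wF n) := by
  have hVn : n * V ≤ n * n := Nat.mul_le_mul_left _ hV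
  have haS : aS V n = 2 + n * V + n * n + n + 1 := rfl
  set q := n * ((2 * n) * (2 * n)) + 10 * (n * n) + 20 * n + 20 with hq
  have hw : wF n = ellF n + n + 4 + q := rfl
  have hq2 : q < 2 ^ q := Nat.lt_two_pow_self
  have hqW : q ≤ 2 ^ wF n := by
    have : 2 ^ q ≤ 2 ^ wF n := Nat.pow_le_pow_right (by omega) (by omega)
    omega
  have hn1 : 2 * 2 ^ n + q ≤ 2 ^ wF n := by
    have h1 : 2 ^ (n + 1) + 2 ^ q ≤ 2 ^ wF n := two_pow_add_le (by omega)
    rw [pow_succ] at h1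
    omega
  have hK := Kof_le hn
  have hKK : Kof n * Kof n ≤ (2 * n) * (2 * n) := Nat.mul_le_mul hK hK
  have hKK2 : (2 * n) * (2 * n) ≤ n * ((2 * n) * (2 * n)) := Nat.le_mul_of_pos_left _ hn
  have hst : steps n (Kof n) ≤ n * ((2 * n) * (2 * n)) := steps_le hK
  refine ⟨⟨⟨?_, ?_, ?_⟩, ?_, ?_, ?_, ?_, Kof_pos n⟩, ?_⟩
  · omega
  · have h1 : n.factorial ≤ 2 ^ (n * n) := by
      refine (Nat.factorial_le_pow n).trans ?_
      rw [pow_mul]
      exact Nat.pow_le_pow_left Nat.lt_two_pow_self.le n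
    have h2 : 2 * (n.factorial * n.factorial) ≤ 2 ^ (1 + n * n + n * n) := by
      rw [pow_add, pow_add, mul_assoc]
      exact Nat.mul_le_mul (by norm_num) (Nat.mul_le_mul h1 h1)
    exact h2.trans (Nat.pow_le_pow_right (by omega) (by omega))
  · omega
  · rw [ellF_eq]
    have : 4 * (2 ^ n * 2 ^ ellF n) = 2 ^ (2 + n + ellF n) := by
      rw [pow_add, pow_add, mul_assoc]; norm_num
    rw [this]
    exact Nat.pow_le_pow_right (by omega) (by omega)
  · omega
  · omega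
  · omega
  · omega

theorem wF_pos (n : ℕ) : 1 ≤ 2 ^ wF n := Nat.one_le_two_pow

theorem input_le {V n : ℕ} (hV : V ≤ n) : 2 + n * V ≤ 2 ^ wF n ∧ V + n + 1 ≤ 2 ^ wF n := by
  have hVn : n * V ≤ n * n := Nat.mul_le_mul_left _ hV
  have hw : wF n = ellF n + n + 4 + (n * ((2 * n) * (2 * n)) + 10 * (n * n) + 20 * n + 20) := rfl
  have h := Nat.lt_two_pow_self (n := wF n)
  constructor <;> omega

theorem size_wF (n : ℕ) : Nat.size (2 ^ wF n) = wF n + 1 := Nat.size_pow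

end Pool.Agent.Lib.MP_d8fb5e_lc
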