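import Pool.Agent.Lib.MP_d8fb5e_lc.Move

namespace Pool.Agent.Lib.MP_d8fb5e_lc

open Pool.Agent.Lib.PRam

variable {W : ℕ} {σ : St}

/-- the constants computed in the set-up phase -/
structure Env2 (n : ℕ) (A : ℕ → ℕ → ℤ) (K bC : ℕ) (σ : St) : Prop where
  r9 : σ.reg 9 = bC
  r10 : σ.reg 10 = (bC + 2 ^ n : ℕ)
  r11 : σ.reg 11 = K
  r12 : σ.reg 12 = (K * K : ℕ)
  r13 : σ.reg 13 = (steps n K : ℕ)
  r14 : σ.reg 14 = (rng n K : ℕ)
  r15 : σ.reg 15 = (2 ^ n : ℕ)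
  r16 : σ.reg 16 = (2 ^ n * rng n K : ℕ)
  r18 : σ.reg 18 = (base0 n A : ℕ)
  r19 : σ.reg 19 = (pop n (base0 n A) : ℕ)

theorem Env2.of_fr {n K bC ℓ lo hi : ℕ} {A : ℕ → ℕ → ℤ} {σ σ' : St} (hE : Env2 n A K bC σ)
    (h : Fr ℓ lo hi σ σ') (hℓ : 20 ≤ ℓ) : Env2 n A K bC σ' :=
  ⟨by rw [h.1 9 (by omega)]; exact hE.r9, by rw [h.1 10 (by omega)]; exact hE.r10,
    by rw [h.1 11 (by omega)]; exact hE.r11, by rw [h.1 12 (by omega)]; exact hE.r12,
    by rw [h.1 13 (by omega)]; exact hE.r13, by rw [h.1 14 (by omega)]; exact hE.r14,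
    by rw [h.1 15 (by omega)]; exact hE.r15, by rw [h.1 16 (by omega)]; exact hE.r16,
    by rw [h.1 18 (by omega)]; exact hE.r18, by rw [h.1 19 (by omega)]; exact hE.r19⟩

/-- all assumptions about the word size -/
structure WOk2 (n K bS W : ℕ) : Prop where
  h : WOk n bS W
  h4 : 4 * (2 ^ n * (2 ^ n * rng n K)) ≤ W
  h5 : K * K + 1 ≤ W
  h6 : steps n K + 1 ≤ W
  h7 : bS + 2 * (n * n) + n + 2 * 2 ^ n + 1 ≤ W
  h8 : 0 < K

theorem rng_pos' {n K : ℕ} (hK : 0 < K) : 0 < rng n K := by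
  unfold rng; positivity

theorem WOk2.rng_le {n K bS W : ℕ} (h : WOk2 n K bS W) : rng n K ≤ W := by
  have h1 : 1 * (1 * rng n K) ≤ 2 ^ n * (2 ^ n * rng n K) :=
    Nat.mul_le_mul Nat.one_le_two_pow (Nat.mul_le_mul_right _ Nat.one_le_two_pow)
  have := h.h4
  omega

theorem WOk2.N1_le {n K bS W : ℕ} (h : WOk2 n K bS W) : 4 * (2 ^ n * rng n K) ≤ W := by
  have h1 : 1 * (2 ^ n * rng n K) ≤ 2 ^ n * (2 ^ n * rng n K) :=
    Nat.mul_le_mul_right _ Nat.one_le_two_pow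
  have := h.h4
  omega

/-- `reg r mod reg m` -/
def modE (r m : ℕ) : Expr := .sub (.var r) (.mul (.div (.var r) (.var m)) (.var m))

theorem modE_eval {r m a b : ℕ} (ha : σ.reg r = a) (hb : σ.reg m = b) :
    (modE r m).eval σ = ((a % b : ℕ) : ℤ) := by
  have hdm : a / b * b + a % b = a := Nat.div_add_mod' a b
  have : (a : ℤ) / (b : ℤ) * (b : ℤ) = ((a / b * b : ℕ) : ℤ) := by push_cast; rfl
  simp only [modE, Expr.eval, ha, hb, this]; omega

theorem modE_ok {r m a b : ℕ} (ha : σ.reg r = a) (hb : σ.reg m = b) (hW : a ≤ W) :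
    (modE r m).ok W σ := by
  have hdm : a / b * b + a % b = a := Nat.div_add_mod' a b
  have : (a : ℤ) / (b : ℤ) * (b : ℤ) = ((a / b * b : ℕ) : ℤ) := by push_cast; rfl
  refine ⟨trivial, ⟨⟨trivial, trivial⟩, trivial, ?_⟩, ?_⟩
  · simp only [Expr.eval, ha, hb, this]; omega
  · simp only [Expr.eval, ha, hb, this]; omega

def chainBody : Cmd :=
  .seq (.assign 33 (.var 30)) (.seq (.assign 34 (modE 31 12))
    (.seq (.assign 31 (.div (.var 31) (.var 12))) (.seq moveC (.assign 30 (.var 35)))))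

def chainC : Cmd := .seq (.assign 30 (.var 18)) (forDo 32 13 chainBody)

/-- upper bounds for the constants as functions of `n`: `K ≤ 2 n` -/
def stepsB (n : ℕ) : ℕ := n * ((2 * n) * (2 * n))

theorem steps_le {n K : ℕ} (hK : K ≤ 2 * n) : steps n K ≤ stepsB n :=
  Nat.mul_le_mul_left _ (Nat.mul_le_mul hK hK)

def tChain (n : ℕ) : ℕ := 4 + forT (stepsB n) (tMove n + 40)

theorem chain_run {n bA bW bS K r : ℕ} {A : ℕ → ℕ → ℤ} (hE : Env n A bA bW bS σ)
    (hE2 : Env2 n A K (bS + 2 * (n * n) + n) σ) (hWk : WOk2 n K bS W)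
    (hA : ∀ g < n, ∀ h < n, |A g h| ≤ 1) (hK : K ≤ 2 * n)
    (hlt : ∀ i, chain n A K r i < 2 ^ n) (hr : σ.reg 31 = r) (hrW : r ≤ W) :
    Run W chainC σ [] (tChain n) (fun σ' => Fr 30 bS (bS + 2 * (n * n) + n) σ σ' ∧
      σ'.reg 30 = chain n A K r (steps n K)) := by
  refine Run.seqL (T₁ := 4) (T₂ := forT (stepsB n) (tMove n + 40))
    (Run.assign (e := .var 18) trivial ?_) le_rfl
  have e0 : (Expr.var 18).eval σ = base0 n A := hE2.r18
  rw [e0]
  refine (Run.forC (N := steps n K) (B := tMove n + 40) (fun i σ' => σ'.reg 32 = i ∧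
    Fr 30 bS (bS + 2 * (n * n) + n) σ σ' ∧ σ'.reg 30 = chain n A K r i ∧
    σ'.reg 31 = ((r / (K * K) ^ i : ℕ) : ℤ)) hWk.h6 (steps_le hK) ?_ ?_ ?_).mono le_rfl ?_
  · refine ⟨by simp, ((Fr.refl σ).set (by omega)).set (by omega), by simp [chain], ?_⟩
    simp [hr]
  · rintro i hi σ' ⟨h1, h2, h3, h4⟩
    exact ⟨(h2.1 13 (by omega)).trans hE2.r13, h1⟩
  · rintro i hi σ' ⟨h1, h2, h3, h4⟩
    have hE' := hE.of_fr h2 (by omega)
    have hE2' := hE2.of_fr h2 (by omega)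
    have hri : r / (K * K) ^ i ≤ r := Nat.div_le_self _ _
    obtain ⟨ri, hrie⟩ : ∃ ri, r / (K * K) ^ i = ri := ⟨_, rfl⟩
    rw [hrie] at h4 hri
    refine Run.seqL (T₁ := 4) (T₂ := tMove n + 36) (Run.assign (e := .var 30) trivial ?_) (by omega)
    have e1 : (Expr.var 30).eval σ' = chain n A K r i := h3
    rw [e1]
    set σ₁ := σ'.set 33 (chain n A K r i : ℤ) with hσ₁
    have a31 : σ₁.reg 31 = ri := by simp [hσ₁, h4]
    have a12 : σ₁.reg 12 = (K * K : ℕ) := by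
      simp only [hσ₁, St.set_reg]; rw [if_neg (by omega)]; exact hE2'.r12
    refine Run.seqL (T₁ := 13) (T₂ := tMove n + 22) ((Run.assign (e := modE 31 12)
      (modE_ok a31 a12 (by omega)) ?_).mono (by simp only [modE, Expr.size]; omega)
      (fun _ h => h)) (by omega)
    rw [modE_eval a31 a12]
    refine Run.seqL (T₁ := 7) (T₂ := tMove n + 15) (Run.assign (e := .div (.var 31) (.var 12))
      ⟨trivial, trivial⟩ ?_) (by omega)
    have e2 : (Expr.div (.var 31) (.var 12)).eval (σ₁.set 34 ((ri % (K * K) : ℕ) : ℤ)) =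
        ((r / (K * K) ^ (i + 1) : ℕ) : ℤ) := by
      simp only [Expr.eval, St.set_reg]
      rw [if_neg (by omega), if_neg (by omega), a31, a12, pow_succ, ← Nat.div_div_eq_div_mul, hrie]
      push_cast; rfl
    rw [e2]
    set σ₂ := (σ₁.set 34 ((ri % (K * K) : ℕ) : ℤ)).set 31
      ((r / (K * K) ^ (i + 1) : ℕ) : ℤ) with hσ₂
    have hfr2 : Fr 30 bS (bS + 2 * (n * n) + n) σ σ₂ :=
      (((h2.set (by omega)).set (by omega)).set (by omega))
    have hE3 := hE.of_fr hfr2 (by omega)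
    have hE23 := hE2.of_fr hfr2 (by omega)
    refine Run.seqL (T₁ := tMove n) (T₂ := 4) ((move_run (x := chain n A K r i)
      (p := ri % (K * K)) hE3 hWk.h hA hE23.r11 (by simp [hσ₂, hσ₁]) (by simp [hσ₂])
      (hlt i) ?_).mono le_rfl ?_) (by omega)
    · have := Nat.mod_le ri (K * K); omega
    · rintro σ₃ ⟨f1, f2⟩
      refine Run.assign (e := .var 35) trivial ?_
      have e3 : (Expr.var 35).eval σ₃ = chain n A K r (i + 1) := by
        have : (Expr.var 35).eval σ₃ = σ₃.reg 35 := rfl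
        rw [this, f2]
        simp only [chain, hrie]
      rw [e3]
      have hfr3 : Fr 30 bS (bS + 2 * (n * n) + n) σ σ₃ :=
        hfr2.trans (f1.mono (by omega) le_rfl le_rfl)
      refine ⟨?_, by simp, (hfr3.set (by omega)).set (by omega), by simp, ?_⟩
      · simp only [St.set_reg]
        rw [if_neg (by omega), f1.1 32 (by omega)]
        simp [hσ₂, hσ₁, h1]
      · simp only [St.set_reg]
        rw [if_neg (by omega), if_neg (by omega), f1.1 31 (by omega)]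
        simp [hσ₂]
  · rintro σ' ⟨-, h2, h3, -⟩
    exact ⟨h2, h3⟩

end Pool.Agent.Lib.MP_d8fb5e_lc
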