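import Pool.Agent.Lib.MP_d8fb5e_lc.Model

/-!
Counting the runs of the exchange chain.
-/

namespace Pool.Agent.Lib.MP_d8fb5e_lc

open Finset

/-! ### Bits -/

theorem testBit_add_bit (x f : ℕ) (hf : x.testBit f = false) (j : ℕ) :
    (x + 2 ^ f).testBit j = if j = f then true else x.testBit j := by
  induction f generalizing x j with
  | zero =>
    have h0 : x % 2 = 0 := by
      rw [Nat.testBit_zero] at hf
      simp only [decide_eq_false_iff_not] at hf
      omega
    cases j with
    | zero =>
      rw [if_pos rfl, Nat.testBit_zero]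
      simp only [decide_eq_true_eq]
      omega
    | succ j =>
      rw [if_neg (by omega), Nat.testBit_succ, Nat.testBit_succ]
      congr 1
      omega
  | succ f ih =>
    have h1 : (x / 2).testBit f = false := by rwa [Nat.testBit_succ] at hf
    have h2 : (x + 2 ^ (f + 1)) / 2 = x / 2 + 2 ^ f := by
      rw [pow_succ]
      omega
    cases j with
    | zero =>
      rw [if_neg (by omega), Nat.testBit_zero, Nat.testBit_zero, pow_succ]
      congr 2
      omega
    | succ j =>
      rw [Nat.testBit_succ, Nat.testBit_succ, h2, ih _ h1]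
      simp only [Nat.add_right_cancel_iff]

theorem sub_bit (x e : ℕ) (he : x.testBit e = true) :
    ∃ y, x = y + 2 ^ e ∧ y.testBit e = false := by
  induction e generalizing x with
  | zero =>
    rw [Nat.testBit_zero] at he
    simp only [decide_eq_true_eq] at he
    refine ⟨x - 1, by omega, ?_⟩
    rw [Nat.testBit_zero]
    simp only [decide_eq_false_iff_not]
    omega
  | succ e ih =>
    rw [Nat.testBit_succ] at he
    obtain ⟨y, hy, hy'⟩ := ih _ he
    refine ⟨2 * y + x % 2, ?_, ?_⟩
    · rw [pow_succ]
      omega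
    · rw [Nat.testBit_succ]
      have : (2 * y + x % 2) / 2 = y := by omega
      rwa [this]

theorem testBit_sub_bit (x e : ℕ) (he : x.testBit e = true) (j : ℕ) :
    (x - 2 ^ e).testBit j = if j = e then false else x.testBit j := by
  obtain ⟨y, hy, hy'⟩ := sub_bit x e he
  have h1 : x - 2 ^ e = y := by omega
  rw [h1]
  have h2 := testBit_add_bit y e hy' j
  rw [← hy] at h2
  rw [h2]
  split_ifs with h
  · rw [h]
    exact hy'
  · rfl

theorem testBit_exch (x e f : ℕ) (he : x.testBit e = true) (hf : x.testBit f = false) (j : ℕ) :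
    (x - 2 ^ e + 2 ^ f).testBit j =
      if j = f then true else if j = e then false else x.testBit j := by
  have hne : f ≠ e := by
    rintro rfl
    rw [he] at hf
    exact Bool.noConfusion hf
  rw [testBit_add_bit]
  · congr 1
    exact testBit_sub_bit x e he j
  · rw [testBit_sub_bit x e he, if_neg hne]
    exact hf

/-- the set of the positions of the ones -/
def cset (n z : ℕ) : Finset (Fin n) := univ.filter fun j => z.testBit j = true

theorem mem_cset {n z : ℕ} {j : Fin n} : j ∈ cset n z ↔ z.testBit j = true := by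
  simp [cset]

theorem cset_inj {n x y : ℕ} (hx : x < 2 ^ n) (hy : y < 2 ^ n) (h : cset n x = cset n y) :
    x = y := by
  apply Nat.eq_of_testBit_eq
  intro i
  by_cases hi : i < n
  · have h1 : (⟨i, hi⟩ : Fin n) ∈ cset n x ↔ (⟨i, hi⟩ : Fin n) ∈ cset n y := by rw [h]
    rw [mem_cset, mem_cset] at h1
    simp only at h1
    exact Bool.eq_iff_iff.mpr h1
  · have h1 : 2 ^ n ≤ 2 ^ i := Nat.pow_le_pow_right (by norm_num) (by omega)
    rw [Nat.testBit_lt_two_pow (lt_of_lt_of_le hx h1), Nat.testBit_lt_two_pow (lt_of_lt_of_le hy h1)]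

theorem exists_mask {n : ℕ} (s : Finset (Fin n)) : ∃ z < 2 ^ n, cset n z = s := by
  induction s using Finset.induction_on with
  | empty =>
    refine ⟨0, Nat.two_pow_pos n, ?_⟩
    ext j
    rw [mem_cset]
    simp
  | insert a s ha ih =>
    obtain ⟨z, hz, hzs⟩ := ih
    have h1 : z.testBit a = false := by
      have : ¬ (z.testBit a = true) := by
        rw [← mem_cset, hzs]
        exact ha
      simpa using this
    refine ⟨z + 2 ^ (a : ℕ), ?_, ?_⟩
    · apply Nat.lt_pow_two_of_testBit
      intro i hi
      rw [testBit_add_bit z a h1, if_neg (by omega)]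
      exact Nat.testBit_lt_two_pow (lt_of_lt_of_le hz (Nat.pow_le_pow_right (by norm_num) hi))
    · ext j
      rw [mem_cset, testBit_add_bit z a h1, Finset.mem_insert, ← hzs, mem_cset]
      by_cases hj : j = a
      · simp [hj]
      · have : (j : ℕ) ≠ a := fun h => hj (Fin.ext h)
        simp [hj, this]

theorem exch_lt {n x e f : ℕ} (hx : x < 2 ^ n) (hf' : f < n)
    (he : x.testBit e = true) (hf : x.testBit f = false) : x - 2 ^ e + 2 ^ f < 2 ^ n := by
  apply Nat.lt_pow_two_of_testBit
  intro i hi
  rw [testBit_exch x e f he hf, if_neg (by omega)]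
  split_ifs
  · rfl
  · exact Nat.testBit_lt_two_pow (lt_of_lt_of_le hx (Nat.pow_le_pow_right (by norm_num) hi))

theorem cset_exch {n x : ℕ} {e f : Fin n} (he : x.testBit e = true) (hf : x.testBit f = false) :
    cset n (x - 2 ^ (e : ℕ) + 2 ^ (f : ℕ)) = insert f ((cset n x).erase e) := by
  ext j
  rw [mem_cset, testBit_exch x e f he hf, Finset.mem_insert, Finset.mem_erase, mem_cset]
  by_cases h1 : j = f
  · simp [h1]
  · have h1' : (j : ℕ) ≠ f := fun h => h1 (Fin.ext h)
    by_cases h2 : j = e
    · have h3 : (e : ℕ) ≠ f := by rw [← h2]; exact h1'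
      have h4 : e ≠ f := by rw [← h2]; exact h1
      simp [h2, h3, h4]
    · have h2' : (j : ℕ) ≠ e := fun h => h2 (Fin.ext h)
      simp [h1, h1', h2, h2']

theorem pop_eq (n z : ℕ) : pop n z = (cset n z).card := by
  have h1 : pop n z = ((range n).filter fun j => z.testBit j = true).card := by
    unfold pop
    have h2 : ((range n).filter fun j => z.testBit j = true) =
        ((List.range n).filter fun j => z.testBit j).toFinset := by
      ext j
      simp
    rw [h2, List.toFinset_card_of_nodup]
    exact (List.nodup_range).filter _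
  rw [h1]
  symm
  apply Finset.card_bij (fun (j : Fin n) _ => (j : ℕ))
  · intro j hj
    rw [mem_cset] at hj
    simp [hj]
  · intro a _ b _ h
    exact Fin.ext h
  · intro b hb
    rw [Finset.mem_filter, Finset.mem_range] at hb
    exact ⟨⟨b, hb.1⟩, mem_cset.mpr hb.2, rfl⟩

section
variable (n : ℕ) (A : ℕ → ℕ → ℤ)

/-- the columns -/
def colF (j : Fin n) : Fin n → ℚ := fun i => (A i j : ℚ)

theorem indepM_iff (z : ℕ) : indepM n A z = true ↔
    LinearIndepOn ℚ (colF n A) (cset n z : Set (Fin n)) := by
  unfold indepM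
  rw [runCols_ok_iff]
  let e : (cset n z : Set (Fin n)) ≃ {j : Fin n // z.testBit j = true} :=
    Equiv.subtypeEquivRight (fun j => by rw [Finset.mem_coe, mem_cset])
  exact (linearIndependent_equiv e (f := fun (j : {j : Fin n // z.testBit j = true})
    (i : Fin n) => (A i j.1 : ℚ))).symm

theorem augment {I J : Finset (Fin n)} (hI : LinearIndepOn ℚ (colF n A) (I : Set (Fin n)))
    (hJ : LinearIndepOn ℚ (colF n A) (J : Set (Fin n))) (h : I.card < J.card) :
    ∃ f ∈ J, f ∉ I ∧ LinearIndepOn ℚ (colF n A) ((insert f I : Finset (Fin n)) : Set (Fin n)) := by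
  by_contra hcon
  push Not at hcon
  have h1 : ∀ f ∈ J, colF n A f ∈ Submodule.span ℚ (colF n A '' (I : Set (Fin n))) := by
    intro f hf
    by_contra hn
    have h2 : f ∉ I := fun hfI => hn (Submodule.subset_span ⟨f, hfI, rfl⟩)
    apply hcon f hf h2
    rw [Finset.coe_insert]
    exact hI.insert hn
  have h2 : Submodule.span ℚ (colF n A '' (J : Set (Fin n))) ≤
      Submodule.span ℚ (colF n A '' (I : Set (Fin n))) := by
    rw [Submodule.span_le]
    rintro _ ⟨f, hf, rfl⟩
    exact h1 f hf
  have h3 : Module.finrank ℚ (Submodule.span ℚ (colF n A '' (J : Set (Fin n)))) = J.card := by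
    have h6 := finrank_span_eq_card hJ
    have h7 : Set.range (fun x : (J : Set (Fin n)) => colF n A x) =
        colF n A '' (J : Set (Fin n)) := by
      rw [Set.image_eq_range]
    rw [h7] at h6
    rw [h6]
    exact Fintype.card_coe _
  have h4 : Module.finrank ℚ (Submodule.span ℚ (colF n A '' (I : Set (Fin n)))) = I.card := by
    have h6 := finrank_span_eq_card hI
    have h7 : Set.range (fun x : (I : Set (Fin n)) => colF n A x) =
        colF n A '' (I : Set (Fin n)) := by
      rw [Set.image_eq_range]
    rw [h7] at h6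
    rw [h6]
    exact Fintype.card_coe _
  have h5 := Submodule.finrank_mono h2
  omega

theorem greedy_lt (j : ℕ) : greedy n A j < 2 ^ j := by
  induction j with
  | zero => simp [greedy]
  | succ j ih =>
    rw [greedy]
    split_ifs
    · rw [pow_succ]; omega
    · rw [pow_succ]; omega

theorem greedy_indep (j : ℕ) : indepM n A (greedy n A j) = true := by
  induction j with
  | zero =>
    rw [indepM_iff]
    have : (cset n (greedy n A 0) : Set (Fin n)) = ∅ := by
      ext j
      rw [Finset.mem_coe, mem_cset]
      simp [greedy]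
    rw [this]
    exact linearIndepOn_empty _ _
  | succ j ih =>
    rw [greedy]
    split_ifs with h
    · exact h
    · exact ih

theorem base0_lt : base0 n A < 2 ^ n := greedy_lt n A n

theorem base0_isBasis : isBasis n A (base0 n A) = true := by
  unfold isBasis
  rw [Bool.and_eq_true]
  exact ⟨greedy_indep n A n, by simp⟩

theorem isBasis_iff (z : ℕ) : isBasis n A z = true ↔
    indepM n A z = true ∧ (cset n z).card = (cset n (base0 n A)).card := by
  unfold isBasis
  rw [Bool.and_eq_true, beq_iff_eq, pop_eq, pop_eq]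

theorem move_lt (K x p : ℕ) (hx : x < 2 ^ n) : move n A K x p < 2 ^ n := by
  unfold move
  split_ifs with h
  · exact exch_lt hx h.2.1 h.2.2.1 h.2.2.2.1
  · exact hx

theorem move_isBasis (K x p : ℕ) (hx : isBasis n A x = true) :
    isBasis n A (move n A K x p) = true := by
  unfold move
  split_ifs with h
  · obtain ⟨h1, h2, h3, h4, h5⟩ := h
    rw [isBasis_iff] at hx ⊢
    refine ⟨h5, ?_⟩
    have h6 := cset_exch (n := n) (x := x) (e := ⟨p % K, h1⟩) (f := ⟨p / K, h2⟩) h3 h4
    simp only at h6
    have hmem : (⟨p % K, h1⟩ : Fin n) ∈ cset n x := mem_cset.mpr h3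
    have hnot : (⟨p / K, h2⟩ : Fin n) ∉ (cset n x).erase ⟨p % K, h1⟩ := by
      intro h7
      have h8 := mem_cset.mp (Finset.mem_of_mem_erase h7)
      simp only at h8
      rw [h4] at h8
      exact Bool.noConfusion h8
    rw [h6, Finset.card_insert_of_notMem hnot, Finset.card_erase_add_one hmem]
    exact hx.2
  · exact hx

theorem chain_lt (K r i : ℕ) : chain n A K r i < 2 ^ n := by
  induction i with
  | zero => exact base0_lt n A
  | succ i ih => exact move_lt n A K _ _ ih

theorem chain_isBasis (K r i : ℕ) : isBasis n A (chain n A K r i) = true := by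
  induction i with
  | zero => exact base0_isBasis n A
  | succ i ih => exact move_isBasis n A K _ _ ih

theorem chain_add (K i r p j : ℕ) (hK : 0 < K) (hj : j ≤ i) :
    chain n A K (r + (K * K) ^ i * p) j = chain n A K r j := by
  induction j with
  | zero => rfl
  | succ j ih =>
    rw [chain, chain, ih (by omega)]
    congr 1
    obtain ⟨k, rfl⟩ : ∃ k, i = j + (k + 1) := ⟨i - j - 1, by omega⟩
    have hpos : 0 < (K * K) ^ j := by positivity
    have h1 : (K * K) ^ (j + (k + 1)) * p = (K * K) ^ j * ((K * K) * ((K * K) ^ k * p)) := by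
      rw [pow_add, pow_succ]
      ring
    rw [h1, Nat.add_mul_div_left _ _ hpos, Nat.add_mul_mod_self_left]

theorem dp_eq_card (K i z : ℕ) (hK : 0 < K) : dp n A K i z =
    ((Finset.range ((K * K) ^ i)).filter fun r => chain n A K r i = z).card := by
  induction i generalizing z with
  | zero =>
    rw [dp, pow_zero]
    split_ifs with h
    · subst h
      simp [chain]
    · rw [eq_comm, Finset.card_eq_zero]
      ext r
      simp [chain, Ne.symm h]
  | succ i ih =>
    have hpos : 0 < (K * K) ^ i := by positivity
    have hKK : 0 < K * K := by positivity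
    have h1 : ((Finset.range ((K * K) ^ (i + 1))).filter fun r => chain n A K r (i + 1) = z).card =
        (((Finset.range ((K * K) ^ i)) ×ˢ (Finset.range (K * K))).filter
          fun q => move n A K (chain n A K q.1 i) q.2 = z).card := by
      symm
      apply Finset.card_bij (fun q _ => q.1 + (K * K) ^ i * q.2)
      · rintro ⟨r, p⟩ hq
        simp only [Finset.mem_filter, Finset.mem_product, Finset.mem_range] at hq ⊢
        obtain ⟨⟨hr, hp⟩, hm⟩ := hq
        constructor
        · calc r + (K * K) ^ i * p < (K * K) ^ i + (K * K) ^ i * p := by omega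
            _ = (K * K) ^ i * (p + 1) := by ring
            _ ≤ (K * K) ^ i * (K * K) := Nat.mul_le_mul_left _ hp
            _ = (K * K) ^ (i + 1) := by rw [pow_succ]
        · rw [chain, chain_add n A K i r p i hK le_rfl, Nat.add_mul_div_left _ _ hpos,
            Nat.div_eq_of_lt hr, zero_add, Nat.mod_eq_of_lt hp]
          exact hm
      · rintro ⟨r, p⟩ hq ⟨r', p'⟩ hq' h
        simp only [Finset.mem_filter, Finset.mem_product, Finset.mem_range] at hq hq' h
        have e1 : r = r' := by
          have := congrArg (· % (K * K) ^ i) h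
          simp only [Nat.add_mul_mod_self_left, Nat.mod_eq_of_lt hq.1.1,
            Nat.mod_eq_of_lt hq'.1.1] at this
          exact this
        subst e1
        have e2 : (K * K) ^ i * p = (K * K) ^ i * p' := by omega
        rw [Nat.eq_of_mul_eq_mul_left hpos e2]
      · intro r hr
        simp only [Finset.mem_filter, Finset.mem_range] at hr
        obtain ⟨hr1, hr2⟩ := hr
        have hd : r / (K * K) ^ i < K * K := by
          rw [Nat.div_lt_iff_lt_mul hpos, ← pow_succ']
          exact hr1
        refine ⟨(r % (K * K) ^ i, r / (K * K) ^ i), ?_, Nat.mod_add_div _ _⟩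
        simp only [Finset.mem_filter, Finset.mem_product, Finset.mem_range]
        refine ⟨⟨Nat.mod_lt _ hpos, hd⟩, ?_⟩
        rw [chain, Nat.mod_eq_of_lt hd] at hr2
        have h3 := chain_add n A K i (r % (K * K) ^ i) (r / (K * K) ^ i) i hK le_rfl
        rw [Nat.mod_add_div] at h3
        rw [← h3]
        exact hr2
    rw [h1, dp]
    have h2 : ∀ x ∈ Finset.range (2 ^ n), ∑ p ∈ Finset.range (K * K),
        (if move n A K x p = z then dp n A K i x else 0) =
        (((Finset.range ((K * K) ^ i)) ×ˢ (Finset.range (K * K))).filter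
          fun q => move n A K (chain n A K q.1 i) q.2 = z ∧ chain n A K q.1 i = x).card := by
      intro x _
      rw [Finset.card_filter, Finset.sum_product_right]
      refine Finset.sum_congr rfl fun p _ => ?_
      rw [ih x]
      split_ifs with h
      · rw [Finset.card_filter]
        refine Finset.sum_congr rfl fun r _ => ?_
        by_cases h3 : chain n A K r i = x
        · simp [h3, h]
        · simp [h3]
      · symm
        apply Finset.sum_eq_zero
        intro r _
        rw [if_neg]
        rintro ⟨h3, h4⟩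
        rw [h4] at h3
        exact h h3
    rw [Finset.sum_congr rfl h2]
    rw [Finset.card_eq_sum_card_fiberwise (f := fun q : ℕ × ℕ => chain n A K q.1 i)
      (t := Finset.range (2 ^ n))]
    · refine Finset.sum_congr rfl fun x _ => ?_
      rw [Finset.filter_filter]
    · intro q _
      exact Finset.mem_coe.mpr (Finset.mem_range.mpr (chain_lt n A K _ _))

theorem dp_eq_zero (K i z : ℕ) (hz : isBasis n A z = false) : dp n A K i z = 0 := by
  induction i generalizing z with
  | zero =>
    rw [dp, if_neg]
    rintro rfl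
    rw [base0_isBasis] at hz
    exact Bool.noConfusion hz
  | succ i ih =>
    rw [dp]
    apply Finset.sum_eq_zero
    intro x _
    apply Finset.sum_eq_zero
    intro p _
    split_ifs with h
    · apply ih
      by_contra hb
      rw [Bool.not_eq_false] at hb
      have := move_isBasis n A K x p hb
      rw [h, hz] at this
      exact Bool.noConfusion this
    · rfl

theorem numT_pos : 0 < numT n A := by
  unfold numT
  rw [Finset.card_pos]
  exact ⟨base0 n A, by
    rw [Finset.mem_filter, Finset.mem_range]
    exact ⟨base0_lt n A, base0_isBasis n A⟩⟩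

/-! ### The exchange graph -/

/-- the family of bases -/
def bases : Finset (Finset (Fin n)) :=
  ((Finset.range (2 ^ n)).filter fun z => isBasis n A z = true).image (cset n)

theorem mem_bases {s : Finset (Fin n)} : s ∈ bases n A ↔
    LinearIndepOn ℚ (colF n A) (s : Set (Fin n)) ∧ s.card = (cset n (base0 n A)).card := by
  unfold bases
  rw [Finset.mem_image]
  constructor
  · rintro ⟨z, hz, rfl⟩
    rw [Finset.mem_filter, isBasis_iff, indepM_iff] at hz
    exact hz.2
  · intro h
    obtain ⟨z, hz, rfl⟩ := exists_mask s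
    refine ⟨z, ?_, rfl⟩
    rw [Finset.mem_filter, isBasis_iff, indepM_iff, Finset.mem_range]
    exact ⟨hz, h⟩

theorem exchange (X : Finset (Fin n)) (hX : X ∈ bases n A) (Y : Finset (Fin n))
    (hY : Y ∈ bases n A) (e : Fin n) (he : e ∈ X \ Y) :
    ∃ f ∈ Y \ X, insert f (X.erase e) ∈ bases n A := by
  rw [mem_bases] at hX hY
  rw [Finset.mem_sdiff] at he
  have h1 : LinearIndepOn ℚ (colF n A) ((X.erase e : Finset (Fin n)) : Set (Fin n)) :=
    hX.1.mono (by
      intro j hj
      exact Finset.mem_coe.mpr (Finset.mem_of_mem_erase (Finset.mem_coe.mp hj)))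
  have h2 := Finset.card_erase_add_one he.1
  obtain ⟨f, hf1, hf2, hf3⟩ := augment n A h1 hY.1 (by omega)
  have hfe : f ≠ e := by
    rintro rfl
    exact he.2 hf1
  refine ⟨f, ?_, ?_⟩
  · rw [Finset.mem_sdiff]
    refine ⟨hf1, fun hfX => hf2 (Finset.mem_erase.mpr ⟨hfe, hfX⟩)⟩
  · rw [mem_bases]
    refine ⟨hf3, ?_⟩
    rw [Finset.card_insert_of_notMem hf2, h2]
    exact hX.2

/-- the number of moves between two different bases -/
theorem count_move (K : ℕ) (hK : n ≤ K) {x z : ℕ} (hx : x < 2 ^ n) (hz : z < 2 ^ n)
    (hxb : isBasis n A x = true) (hzb : isBasis n A z = true) (hne : x ≠ z) :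
    ((Finset.range (K * K)).filter fun p => move n A K x p = z).card =
      if (cset n x \ cset n z).card = 1 then 1 else 0 := by
  have hcard : (cset n x).card = (cset n z).card := by
    rw [isBasis_iff] at hxb hzb
    rw [hxb.2, hzb.2]
  -- what a successful move looks like
  have key : ∀ p, move n A K x p = z → ∃ (h1 : p % K < n) (h2 : p / K < n),
      cset n x \ cset n z = {⟨p % K, h1⟩} ∧ cset n z \ cset n x = {⟨p / K, h2⟩} := by
    intro p hp
    unfold move at hp
    split_ifs at hp with h
    · obtain ⟨h1, h2, h3, h4, h5⟩ := h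
      refine ⟨h1, h2, ?_, ?_⟩
      · ext j
        rw [Finset.mem_sdiff, mem_cset, mem_cset, ← hp, testBit_exch x _ _ h3 h4,
          Finset.mem_singleton, Fin.ext_iff]
        constructor
        · rintro ⟨h6, h7⟩
          by_contra h8
          split_ifs at h7 with h9
          · exact h7 rfl
          · exact h7 h6
        · intro h6
          rw [h6]
          refine ⟨h3, ?_⟩
          have h7 : p % K ≠ p / K := by
            intro h7
            rw [h7, h4] at h3
            exact Bool.noConfusion h3
          rw [if_neg h7, if_pos rfl]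
          exact fun h => Bool.noConfusion h
      · ext j
        rw [Finset.mem_sdiff, mem_cset, mem_cset, ← hp, testBit_exch x _ _ h3 h4,
          Finset.mem_singleton, Fin.ext_iff]
        constructor
        · rintro ⟨h6, h7⟩
          by_contra h8
          rw [if_neg h8] at h6
          split_ifs at h6 with h9
          exact h7 h6
        · intro h6
          rw [h6]
          rw [if_pos rfl, h4]
          exact ⟨rfl, fun h => Bool.noConfusion h⟩
    · exact absurd hp hne
  split_ifs with hc
  · rw [Finset.card_eq_one]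
    obtain ⟨e, he⟩ := Finset.card_eq_one.mp hc
    have hc' : (cset n z \ cset n x).card = 1 := by
      rw [← Finset.card_sdiff_comm hcard, hc]
    obtain ⟨f, hf⟩ := Finset.card_eq_one.mp hc'
    have he1 : x.testBit e = true := by
      have : e ∈ cset n x \ cset n z := by rw [he]; exact Finset.mem_singleton_self e
      exact mem_cset.mp (Finset.mem_sdiff.mp this).1
    have hf1 : x.testBit f = false := by
      have : f ∈ cset n z \ cset n x := by rw [hf]; exact Finset.mem_singleton_self f
      have h1 := (Finset.mem_sdiff.mp this).2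
      rw [mem_cset, Bool.not_eq_true] at h1
      exact h1
    have hzx : x - 2 ^ (e : ℕ) + 2 ^ (f : ℕ) = z := by
      apply cset_inj (exch_lt hx f.2 he1 hf1) hz
      rw [cset_exch he1 hf1]
      ext j
      have hj1 : j ∈ cset n x \ cset n z ↔ j = e := by rw [he, Finset.mem_singleton]
      have hj2 : j ∈ cset n z \ cset n x ↔ j = f := by rw [hf, Finset.mem_singleton]
      rw [Finset.mem_sdiff] at hj1 hj2
      rw [Finset.mem_insert, Finset.mem_erase]
      by_cases hj : j = e
      · have h1 := hj1.mpr hj
        have h2 : j ≠ f := fun h => (hj2.mpr h).2 h1.1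
        tauto
      · tauto
    refine ⟨e + K * f, ?_⟩
    have hKpos : 0 < K := lt_of_lt_of_le (Fin.pos e) hK
    have hem : (e + K * f : ℕ) % K = e := by
      rw [Nat.add_mul_mod_self_left, Nat.mod_eq_of_lt (lt_of_lt_of_le e.2 hK)]
    have hed : (e + K * f : ℕ) / K = f := by
      rw [Nat.add_mul_div_left _ _ hKpos, Nat.div_eq_of_lt (lt_of_lt_of_le e.2 hK), zero_add]
    ext p
    rw [Finset.mem_filter, Finset.mem_range, Finset.mem_singleton]
    constructor
    · rintro ⟨_, hp⟩
      obtain ⟨h1, h2, h3, h4⟩ := key p hp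
      rw [he, Finset.singleton_inj] at h3
      rw [hf, Finset.singleton_inj] at h4
      rw [h3, h4]
      exact (Nat.mod_add_div p K).symm
    · rintro rfl
      constructor
      · have h1 : (e : ℕ) < K := lt_of_lt_of_le e.2 hK
        have h2 : (f : ℕ) + 1 ≤ K := lt_of_lt_of_le f.2 hK
        calc (e : ℕ) + K * f < K + K * f := by omega
          _ = K * (f + 1) := by ring
          _ ≤ K * K := Nat.mul_le_mul_left _ h2
      · unfold move
        rw [hem, hed, hzx, if_pos]
        exact ⟨e.2, f.2, he1, hf1, ((isBasis_iff n A z).mp hzb).1⟩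
  · rw [Finset.card_eq_zero, Finset.filter_eq_empty_iff]
    intro p _ hp
    obtain ⟨h1, h2, h3, h4⟩ := key p hp
    apply hc
    rw [h3, Finset.card_singleton]

theorem dp_succ (K : ℕ) (hK : n ≤ K) (t z : ℕ) (hz : z < 2 ^ n) (hzb : isBasis n A z = true) :
    (dp n A K (t + 1) z : ℝ) = (K : ℝ) ^ 2 * dp n A K t z +
      ∑ x ∈ (Finset.range (2 ^ n)).filter (fun z => isBasis n A z = true),
        if (cset n x \ cset n z).card = 1 then (dp n A K t x : ℝ) - dp n A K t z else 0 := by
  classical
  set 𝓑 := (Finset.range (2 ^ n)).filter (fun z => isBasis n A z = true) with h𝓑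
  have hmem : ∀ x ∈ 𝓑, x < 2 ^ n ∧ isBasis n A x = true := by
    intro x hx
    rw [h𝓑, Finset.mem_filter, Finset.mem_range] at hx
    exact hx
  have hz𝓑 : z ∈ 𝓑 := by
    rw [h𝓑, Finset.mem_filter, Finset.mem_range]
    exact ⟨hz, hzb⟩
  let N : ℕ → ℕ → ℕ := fun x z => ((Finset.range (K * K)).filter fun p => move n A K x p = z).card
  have h1 : dp n A K (t + 1) z = ∑ x ∈ 𝓑, N x z * dp n A K t x := by
    rw [dp]
    have h2 : ∀ x ∈ Finset.range (2 ^ n), ∑ p ∈ Finset.range (K * K),
        (if move n A K x p = z then dp n A K t x else 0) = N x z * dp n A K t x := by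
      intro x _
      rw [← Finset.sum_filter, Finset.sum_const, smul_eq_mul]
    rw [Finset.sum_congr rfl h2, h𝓑, Finset.sum_filter]
    refine Finset.sum_congr rfl fun x _ => ?_
    split_ifs with h
    · rfl
    · rw [dp_eq_zero n A K t x (by simpa using h), mul_zero]
  have hN : ∀ x ∈ 𝓑, x ≠ z → N x z = if (cset n x \ cset n z).card = 1 then 1 else 0 :=
    fun x hx hne => count_move n A K hK (hmem x hx).1 hz (hmem x hx).2 hzb hne
  have hcomm : ∀ x ∈ 𝓑, (cset n z \ cset n x).card = (cset n x \ cset n z).card := by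
    intro x hx
    apply Finset.card_sdiff_comm
    have e1 := ((isBasis_iff n A z).mp hzb).2
    have e2 := ((isBasis_iff n A x).mp (hmem x hx).2).2
    rw [e1, e2]
  -- all moves out of `z`
  have htot : ∑ y ∈ 𝓑, N z y = K * K := by
    have := Finset.card_eq_sum_card_fiberwise (s := Finset.range (K * K))
      (f := fun p => move n A K z p) (t := 𝓑) (by
        intro p _
        rw [h𝓑, Finset.mem_coe, Finset.mem_filter, Finset.mem_range]
        exact ⟨move_lt n A K z p hz, move_isBasis n A K z p hzb⟩)
    rw [Finset.card_range] at this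
    exact this.symm
  have hself : (N z z : ℝ) = (K : ℝ) ^ 2 -
      ∑ y ∈ 𝓑.erase z, if (cset n y \ cset n z).card = 1 then (1 : ℝ) else 0 := by
    rw [← Finset.add_sum_erase _ _ hz𝓑] at htot
    have h3 : (N z z : ℝ) + ∑ y ∈ 𝓑.erase z, (N z y : ℝ) = (K : ℝ) ^ 2 := by
      rw [sq]
      exact_mod_cast htot
    have h4 : ∑ y ∈ 𝓑.erase z, (N z y : ℝ) =
        ∑ y ∈ 𝓑.erase z, if (cset n y \ cset n z).card = 1 then (1 : ℝ) else 0 := by
      refine Finset.sum_congr rfl fun y hy => ?_
      obtain ⟨hyne, hy𝓑⟩ := Finset.mem_erase.mp hy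
      have h5 : N z y = if (cset n z \ cset n y).card = 1 then 1 else 0 :=
        count_move n A K hK hz (hmem y hy𝓑).1 hzb (hmem y hy𝓑).2 (Ne.symm hyne)
      rw [h5, hcomm y hy𝓑]
      split_ifs <;> simp
    rw [← h4]
    linarith
  rw [h1]
  push_cast
  rw [← Finset.add_sum_erase _ _ hz𝓑, ← Finset.add_sum_erase _ (fun x =>
    if (cset n x \ cset n z).card = 1 then (dp n A K t x : ℝ) - dp n A K t z else 0) hz𝓑, hself]
  have h5 : ∑ x ∈ 𝓑.erase z, (N x z : ℝ) * (dp n A K t x : ℝ) =
      ∑ x ∈ 𝓑.erase z, if (cset n x \ cset n z).card = 1 then (dp n A K t x : ℝ) else 0 := by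
    refine Finset.sum_congr rfl fun x hx => ?_
    obtain ⟨hxne, hx𝓑⟩ := Finset.mem_erase.mp hx
    rw [hN x hx𝓑 hxne]
    split_ifs <;> simp
  rw [h5]
  have h6 : (if (cset n z \ cset n z).card = 1 then
      (dp n A K t z : ℝ) - (dp n A K t z : ℝ) else 0) = 0 := by
    split_ifs <;> simp
  rw [h6, sub_mul, Finset.sum_mul, zero_add, sub_add, ← Finset.sum_sub_distrib, sub_eq_add_neg,
    ← Finset.sum_neg_distrib]
  congr 1
  refine Finset.sum_congr rfl fun x _ => ?_
  split_ifs <;> ring

/-- from `chain_count_bound` -/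
theorem wt_nonneg (K : ℕ) (hn : 0 < n) (hK : n ≤ K) (z : ℕ) (hz : z < 2 ^ n)
    (hb : isBasis n A z = true) : 0 ≤ wt n A K z := by
  classical
  have hmask : ∀ s : Finset (Fin n), ∃ z < 2 ^ n, cset n z = s := exists_mask
  choose mask hm1 hm2 using hmask
  have hmc : ∀ z < 2 ^ n, mask (cset n z) = z := fun z hz =>
    cset_inj (hm1 _) hz (hm2 _)
  have hinj : ∀ x ∈ (Finset.range (2 ^ n)).filter (fun z => isBasis n A z = true),
      ∀ y ∈ (Finset.range (2 ^ n)).filter (fun z => isBasis n A z = true),
      cset n x = cset n y → x = y := by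
    intro x hx y hy h
    rw [Finset.mem_filter, Finset.mem_range] at hx hy
    exact cset_inj hx.1 hy.1 h
  have hbm : ∀ s ∈ bases n A, isBasis n A (mask s) = true := by
    intro s hs
    rw [isBasis_iff, indepM_iff, hm2]
    exact (mem_bases n A).mp hs
  have hzB : cset n z ∈ bases n A := by
    rw [mem_bases, ← indepM_iff, ← isBasis_iff]
    exact hb
  have hB0 : cset n (base0 n A) ∈ bases n A := by
    rw [mem_bases, ← indepM_iff, ← isBasis_iff]
    exact base0_isBasis n A
  have h := chain_count_bound (bases n A) (fun X hX Y hY e he => exchange n A X hX Y hY e he) K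
    (by rw [Fintype.card_fin]; exact hK) (cset n (base0 n A)) hB0
    (fun t s => (dp n A K t (mask s) : ℝ)) ?_ ?_ (cset n z) hzB
  · rw [Fintype.card_fin] at h
    simp only [hmc z hz] at h
    have hcard : (bases n A).card = numT n A := by
      unfold bases numT
      exact Finset.card_image_of_injOn (fun x hx y hy hxy => hinj x hx y hy hxy)
    rw [hcard] at h
    have hst : n * K ^ 2 = steps n K := by
      unfold steps
      rw [sq]
    rw [hst] at h
    unfold wt rng
    rw [sub_nonneg]
    have h7 : (((2 : ℤ) ^ n - 1) * (dp n A K (steps n K) z : ℤ) * (numT n A : ℤ) : ℝ) ≤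
        ((2 : ℤ) ^ n * (((K * K) ^ steps n K : ℕ) : ℤ) : ℝ) := by
      push_cast
      rw [← sq]
      calc ((2 : ℝ) ^ n - 1) * (dp n A K (steps n K) z : ℝ) * (numT n A : ℝ) =
          (numT n A : ℝ) * (dp n A K (steps n K) z : ℝ) * (2 ^ n - 1) := by ring
        _ ≤ _ := h
    exact_mod_cast h7
  · intro s hs
    have h8 : (s = cset n (base0 n A)) ↔ mask s = base0 n A := by
      constructor
      · rintro rfl
        exact hmc _ (base0_lt n A)
      · intro h9
        rw [← h9, hm2]
    rw [dp]
    by_cases h9 : mask s = base0 n A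
    · rw [if_pos h9, if_pos (h8.mpr h9)]
      norm_num
    · rw [if_neg h9, if_neg (fun h => h9 (h8.mp h))]
      norm_num
  · intro t s hs
    have h9 := dp_succ n A K hK t (mask s) (hm1 s) (hbm s hs)
    rw [h9]
    congr 1
    unfold bases
    rw [Finset.sum_image hinj]
    refine Finset.sum_congr rfl fun x hx => ?_
    rw [Finset.mem_filter, Finset.mem_range] at hx
    rw [hm2, hmc x hx.1]

end

end Pool.Agent.Lib.MP_d8fb5e_lc
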