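import Pool.Agent.Lib.PRam.Defs

namespace Pool.Agent.Lib.MP_d8fb5e_lc

/-- A finite simplicial complex with vertices `0, …, V - 1`, given as the list of all its faces
(nonempty sets of vertices). -/
structure SComplex where
  V : ℕ
  faces : List (Finset (Fin V))
  nodup : faces.Nodup
  nonempty : ∀ s ∈ faces, s.Nonempty
  vertex : ∀ v, {v} ∈ faces
  down : ∀ s ∈ faces, ∀ t ⊆ s, t.Nonempty → t ∈ faces

/-- `Δ` has dimension `d`. -/
def SComplex.HasDim (Δ : SComplex) (d : ℕ) : Prop :=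
  (∃ s ∈ Δ.faces, s.card = d + 1) ∧ ∀ s ∈ Δ.faces, s.card ≤ d + 1

/-- The boundary of `s`: the sum of `(-1) ^ i` times the unit vector of `s \ {v}`, over the
vertices `v` of `s`, where `i` is the number of vertices of `s` before `v`. -/
def bdry {V : ℕ} (s : Finset (Fin V)) : Finset (Fin V) → ℚ := fun t =>
  ∑ v ∈ s, if s.erase v = t then (-1) ^ (s.filter (· < v)).card else 0

/-- `Υ` is (the set of faces of) a `d`-dimensional spanning tree of `Δ`. -/
def SComplex.IsTree (Δ : SComplex) (d : ℕ) (Υ : Finset (Finset (Fin Δ.V))) : Prop :=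
  (∀ s ∈ Υ, s ∈ Δ.faces) ∧ (∀ s ∈ Δ.faces, s.card ≤ d → s ∈ Υ) ∧
    LinearIndependent ℚ (fun s : {s : Finset (Fin Δ.V) // s ∈ Υ ∧ s.card = d + 1} => bdry s.1) ∧
    Submodule.span ℚ (bdry '' {s : Finset (Fin Δ.V) | s ∈ Υ ∧ s.card = d + 1}) =
      Submodule.span ℚ (bdry '' {s : Finset (Fin Δ.V) | s ∈ Δ.faces ∧ s.card = d + 1})

/-- The input given to the machine: the number of vertices, the number of faces, and the 0-1
incidence vector of each face. -/
def SComplex.code (Δ : SComplex) : List ℤ :=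
  (Δ.V : ℤ) :: (Δ.faces.length : ℤ) :: Δ.faces.flatMap fun s =>
    (List.finRange Δ.V).map fun v => if v ∈ s then 1 else 0

/-- The number whose `i`-th binary digit tells whether the `i`-th face is in `Υ`. -/
def SComplex.out (Δ : SComplex) (Υ : Finset (Finset (Fin Δ.V))) : ℤ :=
  ∑ i : Fin Δ.faces.length, if Δ.faces[i] ∈ Υ then 2 ^ (i : ℕ) else 0

end Pool.Agent.Lib.MP_d8fb5e_lc
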