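import Pool.Agent.Lib.MP_d8fb5e_lc.Chain

namespace Pool.Agent.Lib.MP_d8fb5e_lc

open Pool.Agent.Lib.PRam

variable {W : ℕ} {σ : St}

section acc
variable (n : ℕ) (A : ℕ → ℕ → ℤ) (K : ℕ)

/-- content of the second array during a step of the dynamic programming -/
def acc (i x p z : ℕ) : ℕ :=
  (∑ x' ∈ Finset.range x, ∑ p' ∈ Finset.range (K * K),
    if move n A K x' p' = z then dp n A K i x' else 0) +
  ∑ p' ∈ Finset.range p, if move n A K x p' = z then dp n A K i x else 0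

theorem acc_zero (i z : ℕ) : acc n A K i 0 0 z = 0 := by simp [acc]

theorem acc_next (i x p z : ℕ) : acc n A K i x (p + 1) z = acc n A K i x p z +
    if move n A K x p = z then dp n A K i x else 0 := by
  simp only [acc, Finset.sum_range_succ]; ring

theorem acc_row (i x z : ℕ) : acc n A K i (x + 1) 0 z = acc n A K i x (K * K) z := by
  simp only [acc, Finset.sum_range_succ, Finset.sum_range_zero]; ring

theorem acc_full (i z : ℕ) : acc n A K i (2 ^ n) 0 z = dp n A K (i + 1) z := by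
  simp [acc, dp]

theorem acc_le (i x p z : ℕ) (hx : x < 2 ^ n) (hp : p ≤ K * K) :
    acc n A K i x p z ≤ dp n A K (i + 1) z := by
  have h1 : acc n A K i x p z ≤ acc n A K i x (K * K) z := by
    unfold acc
    exact Nat.add_le_add_left (Finset.sum_le_sum_of_subset (Finset.range_mono hp)) _
  have h2 : acc n A K i x (K * K) z ≤ dp n A K (i + 1) z := by
    rw [← acc_row]
    unfold acc
    rw [Finset.sum_range_zero, add_zero]
    show _ ≤ ∑ x ∈ Finset.range (2 ^ n), ∑ p ∈ Finset.range (K * K),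
      if move n A K x p = z then dp n A K i x else 0
    exact Finset.sum_le_sum_of_subset (Finset.range_mono hx)
  exact h1.trans h2

end acc

/-- the two arrays -/
structure Arr (n bC : ℕ) (c c' : ℕ → ℕ) (σ : St) : Prop where
  a1 : ∀ z < 2 ^ n, σ.mem (bC + z) = c z
  a2 : ∀ z < 2 ^ n, σ.mem (bC + 2 ^ n + z) = c' z

theorem Arr.of_mem {n bC : ℕ} {c c' : ℕ → ℕ} {σ σ' : St} (h : Arr n bC c c' σ)
    (hm : ∀ a, bC ≤ a → σ'.mem a = σ.mem a) : Arr n bC c c' σ' :=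
  ⟨fun z hz => by rw [hm _ (by omega)]; exact h.a1 z hz,
    fun z hz => by rw [hm _ (by omega)]; exact h.a2 z hz⟩

def addBody : Cmd :=
  .seq (.assign 33 (.var 26)) (.seq (.assign 34 (.var 27)) (.seq moveC
    (.store (.add (.var 10) (.var 35)) (.add (.load (.add (.var 10) (.var 35)))
      (.load (.add (.var 9) (.var 26)))))))

def tAdd (n : ℕ) : ℕ := tMove n + 40

theorem add_run {n bA bW bS K i x p : ℕ} {A : ℕ → ℕ → ℤ} (hE : Env n A bA bW bS σ)
    (hE2 : Env2 n A K (bS + 2 * (n * n) + n) σ) (hWk : WOk2 n K bS W)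
    (hA : ∀ g < n, ∀ h < n, |A g h| ≤ 1)
    (hmv : ∀ x p, x < 2 ^ n → move n A K x p < 2 ^ n)
    (hdp : ∀ z, dp n A K (i + 1) z ≤ rng n K)
    (hx : x < 2 ^ n) (hp : p < K * K) (h26 : σ.reg 26 = x) (h27 : σ.reg 27 = p)
    (hArr : Arr n (bS + 2 * (n * n) + n) (dp n A K i) (acc n A K i x p) σ) :
    Run W addBody σ [] (tAdd n) (fun σ' =>
      Fr 33 bS (bS + 2 * (n * n) + n + 2 * 2 ^ n) σ σ' ∧
      Arr n (bS + 2 * (n * n) + n) (dp n A K i) (acc n A K i x (p + 1)) σ') := by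
  refine Run.seqL (T₁ := 4) (T₂ := tMove n + 36) (Run.assign (e := .var 26) trivial ?_)
    (by simp only [tAdd]; omega)
  have e1 : (Expr.var 26).eval σ = x := h26
  rw [e1]
  refine Run.seqL (T₁ := 4) (T₂ := tMove n + 32) (Run.assign (e := .var 27) trivial ?_)
    (by omega)
  have e2 : (Expr.var 27).eval (σ.set 33 x) = p := by
    simp only [Expr.eval, St.set_reg]; rw [if_neg (by omega)]; exact h27
  rw [e2]
  set σ₁ := (σ.set 33 x).set 34 p with hσ₁
  have hfr1 : Fr 33 bS (bS + 2 * (n * n) + n) σ σ₁ := ((Fr.refl σ).set (by omega)).set (by omega)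
  have hE1 := hE.of_fr hfr1 (by omega)
  have hE21 := hE2.of_fr hfr1 (by omega)
  have hpW : p ≤ W := by have := hWk.h5; omega
  refine Run.seqL (T₁ := tMove n) (T₂ := 32) ((move_run (x := x) (p := p) hE1 hWk.h hA hE21.r11
    (by simp [hσ₁]) (by simp [hσ₁]) hx hpW).mono le_rfl ?_) (by omega)
  rintro σ₂ ⟨f1, f2⟩
  obtain ⟨y, hy⟩ : ∃ y, move n A K x p = y := ⟨_, rfl⟩
  have hyn : y < 2 ^ n := hy ▸ hmv x p hx
  rw [hy] at f2
  have hfr2 : Fr 33 bS (bS + 2 * (n * n) + n) σ σ₂ := hfr1.trans (f1.mono (by omega) le_rfl le_rfl)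
  have hE22 := hE2.of_fr hfr2 (by omega)
  have hA2 : Arr n (bS + 2 * (n * n) + n) (dp n A K i) (acc n A K i x p) σ₂ :=
    hArr.of_mem fun a ha => hfr2.2 a (by omega)
  have h7 := hWk.h7
  have h26' : σ₂.reg 26 = x := (hfr2.1 26 (by omega)).trans h26
  have l1 : (Expr.load (.add (.var 10) (.var 35))).eval σ₂ = acc n A K i x p y := by
    have : (Expr.load (.add (.var 10) (.var 35))).eval σ₂ =
        σ₂.mem (((bS + 2 * (n * n) + n + 2 ^ n : ℕ) : ℤ) + (y : ℤ)).toNat := by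
      simp only [Expr.eval, hE22.r10, f2]
    rw [this, ← Nat.cast_add, Int.toNat_natCast]
    exact hA2.a2 y hyn
  have l2 : (Expr.load (.add (.var 9) (.var 26))).eval σ₂ = dp n A K i x := by
    have : (Expr.load (.add (.var 9) (.var 26))).eval σ₂ =
        σ₂.mem (((bS + 2 * (n * n) + n : ℕ) : ℤ) + (x : ℤ)).toNat := by
      simp only [Expr.eval, hE22.r9, h26']
    rw [this, ← Nat.cast_add, Int.toNat_natCast]
    exact hA2.a1 x hx
  have hsum : acc n A K i x (p + 1) y = acc n A K i x p y + dp n A K i x := by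
    rw [acc_next, if_pos hy]
  have hsumle : acc n A K i x (p + 1) y ≤ rng n K := (acc_le n A K i x (p + 1) y hx hp).trans (hdp y)
  have hrW := hWk.rng_le
  have ad : (Expr.add (.var 10) (.var 35)).ok W σ₂ := by
    refine ⟨trivial, trivial, ?_⟩
    simp only [Expr.eval, hE22.r10, f2]
    rw [← Nat.cast_add, Int.natAbs_natCast]; omega
  refine (Run.store (a := .add (.var 10) (.var 35)) (v := .add (.load (.add (.var 10) (.var 35)))
    (.load (.add (.var 9) (.var 26)))) (m := bS + 2 * (n * n) + n + 2 ^ n + y)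
    (z := ((acc n A K i x (p + 1) y : ℕ) : ℤ)) ad ⟨ad, ⟨trivial, trivial, ?_⟩, ?_⟩ ?_ ?_).mono
    (by simp only [Expr.size]; omega) ?_
  · simp only [Expr.eval, hE22.r9, h26']
    rw [← Nat.cast_add, Int.natAbs_natCast]; omega
  · rw [l1, l2, ← Nat.cast_add, Int.natAbs_natCast]; omega
  · simp only [Expr.eval, hE22.r10, f2]; rw [← Nat.cast_add]
  · show (Expr.load (.add (.var 10) (.var 35))).eval σ₂ +
      (Expr.load (.add (.var 9) (.var 26))).eval σ₂ = _
    rw [l1, l2, ← Nat.cast_add, hsum]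
  · rintro σ₃ ⟨g1, g2⟩
    refine ⟨⟨fun r hr => by rw [g1]; exact hfr2.1 r hr, fun a ha => ?_⟩, ⟨fun z hz => ?_,
      fun z hz => ?_⟩⟩
    · rw [g2, Function.update_apply, if_neg (by omega)]
      exact hfr2.2 a (by omega)
    · rw [g2, Function.update_apply, if_neg (by omega)]
      exact hA2.a1 z hz
    · rw [g2, Function.update_apply]
      by_cases hzy : z = y
      · rw [if_pos (by omega), hzy]
      · rw [if_neg (by omega), hA2.a2 z hz, acc_next, if_neg (by rw [hy]; omega), add_zero]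

def dpStep : Cmd :=
  .seq (forDo 26 15 (.store (.add (.var 10) (.var 26)) (.lit 0)))
  (.seq (forDo 26 15 (forDo 27 12 addBody))
  (forDo 26 15 (.store (.add (.var 9) (.var 26)) (.load (.add (.var 10) (.var 26))))))

def tDpStep (n : ℕ) : ℕ :=
  forT (2 ^ n) 20 + (forT (2 ^ n) (forT ((2 * n) * (2 * n)) (tAdd n)) + forT (2 ^ n) 20)

theorem dpStep_run {n bA bW bS K i : ℕ} {A : ℕ → ℕ → ℤ} (hE : Env n A bA bW bS σ)
    (hE2 : Env2 n A K (bS + 2 * (n * n) + n) σ) (hWk : WOk2 n K bS W)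
    (hA : ∀ g < n, ∀ h < n, |A g h| ≤ 1) (hK : K ≤ 2 * n)
    (hmv : ∀ x p, x < 2 ^ n → move n A K x p < 2 ^ n)
    (hdp : ∀ z, dp n A K (i + 1) z ≤ rng n K)
    (hArr : ∀ z < 2 ^ n, σ.mem (bS + 2 * (n * n) + n + z) = dp n A K i z) :
    Run W dpStep σ [] (tDpStep n) (fun σ' =>
      Fr 26 bS (bS + 2 * (n * n) + n + 2 * 2 ^ n) σ σ' ∧
      ∀ z < 2 ^ n, σ'.mem (bS + 2 * (n * n) + n + z) = dp n A K (i + 1) z) := by
  have h7 := hWk.h7
  have h2 : (2 : ℕ) ^ n + 1 ≤ W := by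
    have : 1 ≤ 2 ^ n := Nat.one_le_two_pow
    omega
  -- clear the second array
  refine Run.seqL (T₁ := forT (2 ^ n) 20) ((Run.fill (b := bS + 2 * (n * n) + n + 2 ^ n)
    (N := 2 ^ n) (B := 20) (fun _ => 0) (by omega) hE2.r15 h2 le_rfl ?_).mono le_rfl ?_) le_rfl
  · intro q hq σ' hr h26 hm
    have h10 : σ'.reg 10 = (bS + 2 * (n * n) + n + 2 ^ n : ℕ) := (hr 10 (by omega)).trans hE2.r10
    refine (Run.store (a := .add (.var 10) (.var 26)) (v := .lit 0)
      (m := bS + 2 * (n * n) + n + 2 ^ n + q) (z := 0) ?_ (by show (0 : ℤ).natAbs ≤ W; omega) ?_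
      rfl).mono (by simp only [Expr.size]; omega) (fun σ'' h => h)
    · refine ⟨trivial, trivial, ?_⟩
      simp only [Expr.eval, h10, h26]
      rw [← Nat.cast_add, Int.natAbs_natCast]; omega
    · simp only [Expr.eval, h10, h26]; rw [← Nat.cast_add]
  rintro σ₁ ⟨a1, a2, a3⟩
  have hf1 : Fr 26 bS (bS + 2 * (n * n) + n + 2 * 2 ^ n) σ σ₁ :=
    ⟨fun r hr => a1 r (by omega), fun a ha => a3 a (by omega)⟩
  -- main double loop
  refine Run.seqL (T₁ := forT (2 ^ n) (forT ((2 * n) * (2 * n)) (tAdd n)))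
    ((Run.forC (N := 2 ^ n) (B := forT ((2 * n) * (2 * n)) (tAdd n)) (fun x σ' => σ'.reg 26 = x ∧
    Fr 26 bS (bS + 2 * (n * n) + n + 2 * 2 ^ n) σ σ' ∧
    Arr n (bS + 2 * (n * n) + n) (dp n A K i) (acc n A K i x 0) σ') h2 le_rfl ?_ ?_ ?_).mono
    le_rfl ?_) le_rfl
  · refine ⟨by simp, hf1.set (by omega), ⟨fun z hz => ?_, fun z hz => ?_⟩⟩
    · have : (σ₁.set 26 0).mem (bS + 2 * (n * n) + n + z) = σ₁.mem (bS + 2 * (n * n) + n + z) := rfl
      rw [this, a3 _ (by omega)]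
      exact hArr z hz
    · rw [acc_zero]; exact a2 z hz
  · rintro x hx σ' ⟨h1, h2, h3⟩
    exact ⟨(h2.1 15 (by omega)).trans hE2.r15, h1⟩
  · rintro x hx σ' ⟨g1, g2, g3⟩
    have hE2' := hE2.of_fr g2 (by omega)
    refine (Run.forC (N := K * K) (B := tAdd n) (fun p σ'' => σ''.reg 27 = p ∧
      Fr 27 bS (bS + 2 * (n * n) + n + 2 * 2 ^ n) σ' σ'' ∧
      Arr n (bS + 2 * (n * n) + n) (dp n A K i) (acc n A K i x p) σ'') hWk.h5
      (Nat.mul_le_mul hK hK) ?_ ?_ ?_).mono le_rfl ?_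
    · exact ⟨by simp, (Fr.refl σ').set (by omega), ⟨g3.a1, g3.a2⟩⟩
    · rintro p hp σ'' ⟨k1, k2, k3⟩
      exact ⟨(k2.1 12 (by omega)).trans hE2'.r12, k1⟩
    · rintro p hp σ'' ⟨k1, k2, k3⟩
      have hfr : Fr 26 bS (bS + 2 * (n * n) + n + 2 * 2 ^ n) σ σ'' :=
        g2.trans (k2.mono (by omega) le_rfl le_rfl)
      refine (add_run (hE.of_fr hfr (by omega)) (hE2.of_fr hfr (by omega)) hWk hA hmv hdp hx hp
        ((k2.1 26 (by omega)).trans g1) k1 k3).mono le_rfl ?_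
      rintro σ₃ ⟨m1, m2⟩
      refine ⟨(m1.1 27 (by omega)).trans k1, by simp,
        (k2.trans (m1.mono (by omega) le_rfl le_rfl)).set (by omega), ⟨m2.a1, m2.a2⟩⟩
    · rintro σ'' ⟨k1, k2, k3⟩
      refine ⟨(k2.1 26 (by omega)).trans g1, by simp,
        (g2.trans (k2.mono (by omega) le_rfl le_rfl)).set (by omega), ⟨k3.a1, fun z hz => ?_⟩⟩
      rw [acc_row]
      exact k3.a2 z hz
  -- copy back
  rintro σ₂ ⟨b1, b2, b3⟩
  have hE22 := hE2.of_fr b2 (by omega)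
  refine (Run.fill (b := bS + 2 * (n * n) + n) (N := 2 ^ n) (B := 20)
    (fun z => (dp n A K (i + 1) z : ℤ)) (by omega) hE22.r15 h2 le_rfl ?_).mono le_rfl ?_
  · intro q hq σ' hr h26 hm
    have h9 : σ'.reg 9 = (bS + 2 * (n * n) + n : ℕ) := (hr 9 (by omega)).trans hE22.r9
    have h10 : σ'.reg 10 = (bS + 2 * (n * n) + n + 2 ^ n : ℕ) := (hr 10 (by omega)).trans hE22.r10
    refine (Run.store (a := .add (.var 9) (.var 26)) (v := .load (.add (.var 10) (.var 26)))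
      (m := bS + 2 * (n * n) + n + q) (z := dp n A K (i + 1) q) ?_ ?_ ?_ ?_).mono
      (by simp only [Expr.size]; omega) (fun σ'' h => h)
    · refine ⟨trivial, trivial, ?_⟩
      simp only [Expr.eval, h9, h26]
      rw [← Nat.cast_add, Int.natAbs_natCast]; omega
    · refine ⟨trivial, trivial, ?_⟩
      simp only [Expr.eval, h10, h26]
      rw [← Nat.cast_add, Int.natAbs_natCast]; omega
    · simp only [Expr.eval, h9, h26]; rw [← Nat.cast_add]
    · have : (Expr.load (.add (.var 10) (.var 26))).eval σ' =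
          σ'.mem (((bS + 2 * (n * n) + n + 2 ^ n : ℕ) : ℤ) + (q : ℤ)).toNat := by
        simp only [Expr.eval, h10, h26]
      rw [this, ← Nat.cast_add, Int.toNat_natCast, hm _ (by omega), b3.a2 q hq, acc_full]
  rintro σ₃ ⟨c1, c2, c3⟩
  exact ⟨b2.trans ⟨fun r hr => c1 r (by omega), fun a ha => c3 a (by omega)⟩, c2⟩

def dpC : Cmd :=
  .seq (forDo 26 15 (.store (.add (.var 9) (.var 26)) (.lit 0)))
  (.seq (.store (.add (.var 9) (.var 18)) (.lit 1)) (forDo 25 13 dpStep))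

def tDp (n : ℕ) : ℕ := forT (2 ^ n) 20 + (20 + forT (stepsB n) (tDpStep n))

theorem dp_run {n bA bW bS K : ℕ} {A : ℕ → ℕ → ℤ} (hE : Env n A bA bW bS σ)
    (hE2 : Env2 n A K (bS + 2 * (n * n) + n) σ) (hWk : WOk2 n K bS W)
    (hA : ∀ g < n, ∀ h < n, |A g h| ≤ 1) (hK : K ≤ 2 * n)
    (hmv : ∀ x p, x < 2 ^ n → move n A K x p < 2 ^ n) (hb0 : base0 n A < 2 ^ n)
    (hdp : ∀ i ≤ steps n K, ∀ z, dp n A K i z ≤ rng n K) :
    Run W dpC σ [] (tDp n) (fun σ' =>
      Fr 25 bS (bS + 2 * (n * n) + n + 2 * 2 ^ n) σ σ' ∧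
      ∀ z < 2 ^ n, σ'.mem (bS + 2 * (n * n) + n + z) = dp n A K (steps n K) z) := by
  have h7 := hWk.h7
  have h2 : (2 : ℕ) ^ n + 1 ≤ W := by
    have : 1 ≤ 2 ^ n := Nat.one_le_two_pow
    omega
  refine Run.seqL (T₁ := forT (2 ^ n) 20) ((Run.fill (b := bS + 2 * (n * n) + n)
    (N := 2 ^ n) (B := 20) (fun _ => 0) (by omega) hE2.r15 h2 le_rfl ?_).mono le_rfl ?_) le_rfl
  · intro q hq σ' hr h26 hm
    have h9 : σ'.reg 9 = (bS + 2 * (n * n) + n : ℕ) := (hr 9 (by omega)).trans hE2.r9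
    refine (Run.store (a := .add (.var 9) (.var 26)) (v := .lit 0)
      (m := bS + 2 * (n * n) + n + q) (z := 0) ?_ (by show (0 : ℤ).natAbs ≤ W; omega) ?_
      rfl).mono (by simp only [Expr.size]; omega) (fun σ'' h => h)
    · refine ⟨trivial, trivial, ?_⟩
      simp only [Expr.eval, h9, h26]
      rw [← Nat.cast_add, Int.natAbs_natCast]; omega
    · simp only [Expr.eval, h9, h26]; rw [← Nat.cast_add]
  rintro σ₁ ⟨a1, a2, a3⟩
  have hf1 : Fr 26 bS (bS + 2 * (n * n) + n + 2 * 2 ^ n) σ σ₁ :=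
    ⟨fun r hr => a1 r (by omega), fun a ha => a3 a (by omega)⟩
  have hE21 := hE2.of_fr hf1 (by omega)
  refine Run.seqL (T₁ := 20) ((Run.store (a := .add (.var 9) (.var 18)) (v := .lit 1)
    (m := bS + 2 * (n * n) + n + base0 n A) (z := 1) ?_ (by show (1 : ℤ).natAbs ≤ W; omega) ?_
    rfl).mono (by simp only [Expr.size]; omega) ?_) le_rfl
  · refine ⟨trivial, trivial, ?_⟩
    simp only [Expr.eval, hE21.r9, hE21.r18]
    rw [← Nat.cast_add, Int.natAbs_natCast]; omega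
  · simp only [Expr.eval, hE21.r9, hE21.r18]; rw [← Nat.cast_add]
  rintro σ₂ ⟨b1, b2⟩
  have hf2 : Fr 25 bS (bS + 2 * (n * n) + n + 2 * 2 ^ n) σ σ₂ := by
    refine ⟨fun r hr => by rw [b1]; exact hf1.1 r (by omega), fun a ha => ?_⟩
    rw [b2, Function.update_apply, if_neg (by omega)]
    exact hf1.2 a ha
  refine (Run.forC (N := steps n K) (B := tDpStep n) (fun i σ' => σ'.reg 25 = i ∧
    Fr 25 bS (bS + 2 * (n * n) + n + 2 * 2 ^ n) σ σ' ∧
    ∀ z < 2 ^ n, σ'.mem (bS + 2 * (n * n) + n + z) = dp n A K i z) hWk.h6 (steps_le hK)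
    ?_ ?_ ?_).mono le_rfl ?_
  · refine ⟨by simp, hf2.set (by omega), fun z hz => ?_⟩
    have : (σ₂.set 25 0).mem (bS + 2 * (n * n) + n + z) = σ₂.mem (bS + 2 * (n * n) + n + z) := rfl
    rw [this, b2, Function.update_apply]
    by_cases hzb : z = base0 n A
    · rw [if_pos (by omega)]; simp [dp, hzb]
    · rw [if_neg (by omega), a2 z hz]; simp [dp, hzb]
  · rintro i hi σ' ⟨h1, h2, h3⟩
    exact ⟨(h2.1 13 (by omega)).trans hE2.r13, h1⟩
  · rintro i hi σ' ⟨h1, h2, h3⟩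
    refine (dpStep_run (hE.of_fr h2 (by omega)) (hE2.of_fr h2 (by omega)) hWk hA hK hmv
      (hdp (i + 1) hi) h3).mono le_rfl ?_
    rintro σ'' ⟨m1, m2⟩
    exact ⟨(m1.1 25 (by omega)).trans h1, by simp,
      (h2.trans (m1.mono (by omega) le_rfl le_rfl)).set (by omega), m2⟩
  · rintro σ' ⟨-, h2, h3⟩
    exact ⟨h2, h3⟩

end Pool.Agent.Lib.MP_d8fb5e_lc
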