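import Pool.Agent.Lib.MP_d8fb5e_lc.Base

namespace Pool.Agent.Lib.MP_d8fb5e_lc

open Pool.Agent.Lib.PRam

variable {W : ℕ} {σ : St}

/-- the fixed part of the memory and of the registers -/
structure Env (n : ℕ) (A : ℕ → ℕ → ℤ) (bA bW bS : ℕ) (σ : St) : Prop where
  r2 : σ.reg 2 = n
  r4 : σ.reg 4 = bA
  r5 : σ.reg 5 = bW
  r6 : σ.reg 6 = bS
  r7 : σ.reg 7 = (bS + n * n : ℕ)
  r8 : σ.reg 8 = (bS + 2 * (n * n) : ℕ)
  r20 : σ.reg 20 = (n * n : ℕ)
  mA : ∀ q < n * n, σ.mem (bA + q) = A (q / n) (q % n)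
  mW : ∀ j ≤ n, σ.mem (bW + j) = 2 ^ j
  hA : bA + n * n ≤ bS
  hW : bW + n + 1 ≤ bS

/-- registers below `ℓ` and memory outside `[lo, hi)` are unchanged -/
def Fr (ℓ lo hi : ℕ) (σ σ' : St) : Prop :=
  (∀ r < ℓ, σ'.reg r = σ.reg r) ∧ ∀ a, (a < lo ∨ hi ≤ a) → σ'.mem a = σ.mem a

theorem Fr.refl {ℓ lo hi : ℕ} (σ : St) : Fr ℓ lo hi σ σ := ⟨fun _ _ => rfl, fun _ _ => rfl⟩

theorem Fr.trans {ℓ lo hi : ℕ} {σ σ₁ σ₂ : St} (h₁ : Fr ℓ lo hi σ σ₁) (h₂ : Fr ℓ lo hi σ₁ σ₂) :
    Fr ℓ lo hi σ σ₂ :=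
  ⟨fun r h => (h₂.1 r h).trans (h₁.1 r h), fun a h => (h₂.2 a h).trans (h₁.2 a h)⟩

theorem Fr.mono {ℓ ℓ' lo lo' hi hi' : ℕ} {σ σ' : St} (h : Fr ℓ lo hi σ σ') (hl : ℓ' ≤ ℓ)
    (h1 : lo' ≤ lo) (h2 : hi ≤ hi') : Fr ℓ' lo' hi' σ σ' :=
  ⟨fun r hr => h.1 r (by omega), fun a ha => h.2 a (by omega)⟩

theorem Fr.set {ℓ lo hi d : ℕ} {v : ℤ} {σ σ' : St} (h : Fr ℓ lo hi σ σ') (hd : ℓ ≤ d) :
    Fr ℓ lo hi σ (σ'.set d v) :=
  ⟨fun r hr => by simp only [St.set_reg]; rw [if_neg (by omega)]; exact h.1 r hr, h.2⟩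

theorem Env.of_fr {n bA bW bS ℓ hi : ℕ} {A : ℕ → ℕ → ℤ} {σ σ' : St} (hE : Env n A bA bW bS σ)
    (h : Fr ℓ bS hi σ σ') (hℓ : 21 ≤ ℓ) : Env n A bA bW bS σ' :=
  ⟨by rw [h.1 2 (by omega)]; exact hE.r2, by rw [h.1 4 (by omega)]; exact hE.r4,
    by rw [h.1 5 (by omega)]; exact hE.r5, by rw [h.1 6 (by omega)]; exact hE.r6,
    by rw [h.1 7 (by omega)]; exact hE.r7, by rw [h.1 8 (by omega)]; exact hE.r8,
    by rw [h.1 20 (by omega)]; exact hE.r20,
    fun q hq => by rw [h.2 _ (by have := hE.hA; omega)]; exact hE.mA q hq,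
    fun j hj => by rw [h.2 _ (by have := hE.hW; omega)]; exact hE.mW j hj, hE.hA, hE.hW⟩

/-! ### binary digits -/

def pwE (rj : ℕ) : Expr := .load (.add (.var 5) (.var rj))

/-- binary digit number `reg rj` of `reg rz` -/
def bitE (rz rj : ℕ) : Expr :=
  .sub (.div (.var rz) (pwE rj)) (.mul (.lit 2) (.div (.var rz) (.mul (.lit 2) (pwE rj))))

theorem pwE_eval {n bA bW bS rj j : ℕ} {A : ℕ → ℕ → ℤ} (hE : Env n A bA bW bS σ)
    (hj : σ.reg rj = j) (hjn : j ≤ n) : (pwE rj).eval σ = 2 ^ j := by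
  have h1 : (pwE rj).eval σ = σ.mem ((bW : ℤ) + (j : ℤ)).toNat := by
    simp only [pwE, Expr.eval, hE.r5, hj]
  rw [h1, show ((bW : ℤ) + (j : ℤ)).toNat = bW + j by omega]
  exact hE.mW j hjn

theorem pwE_ok {n bA bW bS rj j : ℕ} {A : ℕ → ℕ → ℤ} (hE : Env n A bA bW bS σ)
    (hj : σ.reg rj = j) (hjn : j ≤ n) (hW : bS ≤ W) : (pwE rj).ok W σ := by
  refine ⟨trivial, trivial, ?_⟩
  simp only [Expr.eval, hE.r5, hj]
  have := hE.hW
  omega

theorem bit_val (z j : ℕ) : ((z : ℤ) / 2 ^ j - 2 * ((z : ℤ) / (2 * 2 ^ j))) =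
    if z.testBit j then 1 else 0 := by
  have h1 : ((z : ℤ) / 2 ^ j - 2 * ((z : ℤ) / (2 * 2 ^ j))) =
      ((z / 2 ^ j : ℕ) : ℤ) - 2 * ((z / (2 * 2 ^ j) : ℕ) : ℤ) := by
    push_cast; rfl
  rw [h1, Nat.mul_comm 2 (2 ^ j), ← Nat.div_div_eq_div_mul, Nat.testBit_eq_decide_div_mod_eq]
  rcases Nat.mod_two_eq_zero_or_one (z / 2 ^ j) with h | h
  · rw [h]; simp; omega
  · rw [h]; simp; omega

theorem bitE_eval {n bA bW bS rz rj z j : ℕ} {A : ℕ → ℕ → ℤ} (hE : Env n A bA bW bS σ)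
    (hz : σ.reg rz = z) (hj : σ.reg rj = j) (hjn : j ≤ n) :
    (bitE rz rj).eval σ = if z.testBit j then 1 else 0 := by
  have hp := pwE_eval hE hj hjn
  simp only [bitE, Expr.eval, hz, hp]
  exact bit_val z j

theorem bitE_ok {n bA bW bS rz rj z j : ℕ} {A : ℕ → ℕ → ℤ} (hE : Env n A bA bW bS σ)
    (hz : σ.reg rz = z) (hj : σ.reg rj = j) (hjn : j ≤ n) (hW : bS ≤ W) (hzW : z ≤ W)
    (hW2 : 2 * 2 ^ n ≤ W) : (bitE rz rj).ok W σ := by
  have hp := pwE_eval hE hj hjn
  have hpo := pwE_ok (W := W) hE hj hjn hW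
  have h2j : 2 ^ j ≤ 2 ^ n := Nat.pow_le_pow_right (by omega) hjn
  have h1 : (1 : ℕ) ≤ 2 ^ n := Nat.one_le_two_pow
  have h2 : (2 : ℤ).natAbs ≤ W := by omega
  refine ⟨⟨trivial, hpo⟩, ⟨h2, ⟨trivial, ⟨h2, hpo, ?_⟩⟩, ?_⟩, ?_⟩
  · simp only [Expr.eval, hp]
    have : ((2 : ℤ) * 2 ^ j) = ((2 * 2 ^ j : ℕ) : ℤ) := by push_cast; rfl
    rw [this, Int.natAbs_natCast]
    omega
  · simp only [Expr.eval, hp, hz]
    have : (2 : ℤ) * ((z : ℤ) / (2 * 2 ^ j)) = ((2 * (z / (2 * 2 ^ j)) : ℕ) : ℤ) := by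
      push_cast; rfl
    rw [this, Int.natAbs_natCast, ← Nat.div_div_eq_div_mul]
    have := Nat.div_le_self (z / 2) (2 ^ j)
    omega
  · simp only [Expr.eval, hp, hz]
    rw [bit_val]
    split_ifs <;> simp <;> omega

/-! ### search of the pivot row -/

def enc (n : ℕ) : Option ℕ → ℕ
  | none => n
  | some g => g

/-- entry `(reg a, reg b)` of the tableau -/
def tabE (a b : ℕ) : Expr := .load (.add (.var 6) (.add (.mul (.var a) (.var 2)) (.var b)))

/-- the state of the elimination, as registers and memory -/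
structure SR (n bS : ℕ) (s : PSt) (σ : St) : Prop where
  d : σ.reg 43 = s.D
  ok : σ.reg 40 = if s.ok then 1 else 0
  P : ∀ q < n * n, σ.mem (bS + q) = s.P (q / n) (q % n)
  u : ∀ g < n, σ.mem (bS + 2 * (n * n) + g) = if s.used g then 1 else 0

theorem SR.entry {n bS g h : ℕ} {s : PSt} (hs : SR n bS s σ) (hg : g < n) (hh : h < n) :
    σ.mem (bS + (g * n + h)) = s.P g h := by
  have h1 : g * n + h < n * n := by
    have : (g + 1) * n ≤ n * n := Nat.mul_le_mul_right _ (by omega)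
    have : (g + 1) * n = g * n + n := by ring
    omega
  have h2 : (g * n + h) / n = g := by
    rw [Nat.mul_comm, Nat.mul_add_div (by omega), Nat.div_eq_of_lt hh]; omega
  have h3 : (g * n + h) % n = h := by
    rw [Nat.mul_comm, Nat.mul_add_mod, Nat.mod_eq_of_lt hh]
  rw [hs.P _ h1, h2, h3]

theorem idx_lt {n g h : ℕ} (hg : g < n) (hh : h < n) : g * n + h < n * n := by
  have : (g + 1) * n ≤ n * n := Nat.mul_le_mul_right _ (by omega)
  have : (g + 1) * n = g * n + n := by ring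
  omega

theorem tabE_eval {n bA bW bS a b g h : ℕ} {A : ℕ → ℕ → ℤ} {s : PSt} (hE : Env n A bA bW bS σ)
    (hs : SR n bS s σ) (ha : σ.reg a = g) (hb : σ.reg b = h) (hg : g < n) (hh : h < n) :
    (tabE a b).eval σ = s.P g h := by
  have h1 : (tabE a b).eval σ = σ.mem ((bS : ℤ) + ((g : ℤ) * (n : ℤ) + (h : ℤ))).toNat := by
    simp only [tabE, Expr.eval, hE.r6, hE.r2, ha, hb]
  rw [h1, show ((bS : ℤ) + ((g : ℤ) * (n : ℤ) + (h : ℤ))) = ((bS + (g * n + h) : ℕ) : ℤ) by
    push_cast; ring, Int.toNat_natCast]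
  exact hs.entry hg hh

theorem tabE_ok {n bA bW bS a b g h : ℕ} {A : ℕ → ℕ → ℤ} (hE : Env n A bA bW bS σ)
    (ha : σ.reg a = g) (hb : σ.reg b = h) (hg : g < n) (hh : h < n)
    (hW : bS + n * n ≤ W) : (tabE a b).ok W σ := by
  have h1 := idx_lt hg hh
  have h2 : ((g : ℤ) * (n : ℤ)) = ((g * n : ℕ) : ℤ) := by push_cast; rfl
  refine ⟨trivial, ⟨⟨trivial, trivial, ?_⟩, trivial, ?_⟩, ?_⟩
  · simp only [Expr.eval, hE.r2, ha, h2]; omega
  · simp only [Expr.eval, hE.r2, ha, hb, h2]; omega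
  · simp only [Expr.eval, hE.r6, hE.r2, ha, hb, h2]; omega

def findBody : Cmd :=
  .ite (.sub (.var 46) (.var 2)) .skip (.ite (.load (.add (.var 8) (.var 45))) .skip
    (.ite (tabE 45 44) (.assign 46 (.var 45)) .skip))

def findC : Cmd := .seq (.assign 46 (.var 2)) (forDo 45 2 findBody)

def tFind (n : ℕ) : ℕ := 4 + forT n 40

theorem find_run {n bA bW bS j : ℕ} {A : ℕ → ℕ → ℤ} {s : PSt} (hE : Env n A bA bW bS σ)
    (hs : SR n bS s σ) (hj : σ.reg 44 = j) (hjn : j < n) (hW : bS + 2 * (n * n) + n + 1 ≤ W) :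
    Run W findC σ [] (tFind n) (fun σ' => σ'.reg 46 = enc n (findRow n s j) ∧ σ'.mem = σ.mem ∧
      ∀ r, r ≠ 45 → r ≠ 46 → σ'.reg r = σ.reg r) := by
  let pred : ℕ → Bool := fun g => !s.used g && decide (s.P g j ≠ 0)
  refine Run.seqL (T₁ := 4) (T₂ := forT n 40)
    (Term.run (Term.assign (e := .var 2) trivial ?_) trivial) le_rfl
  have e0 : (Expr.var 2).eval σ = n := hE.r2
  rw [e0]
  refine (Run.forC (fun i σ' => σ'.reg 45 = i ∧ σ'.reg 46 = enc n ((List.range i).find? pred) ∧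
    σ'.mem = σ.mem ∧ ∀ r, r ≠ 45 → r ≠ 46 → σ'.reg r = σ.reg r) (by omega) le_rfl
    ?_ ?_ ?_).mono le_rfl ?_
  · refine ⟨by simp, by simp [enc], rfl, fun r h1 h2 => by simp [h1, h2]⟩
  · rintro i hi σ' ⟨h1, h2, h3, h4⟩
    exact ⟨(h4 2 (by omega) (by omega)).trans hE.r2, h1⟩
  · rintro i hi σ' ⟨h1, h2, h3, h4⟩
    have hE' : Env n A bA bW bS σ' := hE.of_fr (ℓ := 21) (hi := bS)
      ⟨fun r hr => h4 r (by omega) (by omega), fun a _ => by rw [h3]⟩ le_rfl
    have hs' : SR n bS s σ' :=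
      ⟨by rw [h4 43 (by omega) (by omega)]; exact hs.d,
        by rw [h4 40 (by omega) (by omega)]; exact hs.ok,
        fun q hq => by rw [h3]; exact hs.P q hq, fun g hg => by rw [h3]; exact hs.u g hg⟩
    have hj' : σ'.reg 44 = j := (h4 44 (by omega) (by omega)).trans hj
    have hsucc : (List.range (i + 1)).find? pred =
        ((List.range i).find? pred).or (if pred i then some i else none) := by
      rw [List.range_succ, List.find?_append]
      congr 1
      simp only [List.find?_cons, List.find?_nil]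
      cases pred i <;> rfl
    have hle : ∀ g, (List.range i).find? pred = some g → g < i := fun g hg =>
      List.mem_range.mp (List.mem_of_find?_eq_some hg)
    refine (Term.run (Q := fun σ'' => σ''.reg 45 = i ∧
      σ''.reg 46 = enc n ((List.range (i + 1)).find? pred) ∧ σ''.mem = σ.mem ∧
      ∀ r, r ≠ 45 → r ≠ 46 → σ''.reg r = σ.reg r) ?_ ?_).mono ?_ ?_
    · refine Term.ite ⟨trivial, trivial, ?_⟩ (fun hne => ?_) (fun heq => ?_)
      · simp only [Expr.eval, h2, hE'.r2]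
        rcases hf : (List.range i).find? pred with _ | g
        · simp [enc]
        · have := hle g hf
          simp only [enc]; omega
      · -- already found
        have hne : σ'.reg 46 - σ'.reg 2 ≠ 0 := hne
        rw [h2, hE'.r2] at hne
        refine Term.skip ⟨h1, ?_, h3, h4⟩
        rw [hsucc, h2]
        rcases hf : (List.range i).find? pred with _ | g
        · rw [hf] at hne; simp [enc] at hne
        · rfl
      · have heq : σ'.reg 46 - σ'.reg 2 = 0 := heq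
        rw [h2, hE'.r2] at heq
        have hnone : (List.range i).find? pred = none := by
          rcases hf : (List.range i).find? pred with _ | g
          · rfl
          · have := hle g hf
            rw [hf] at heq; simp only [enc] at heq; omega
        rw [hnone, Option.none_or] at hsucc
        rw [hnone] at h2
        have hul : (Expr.load (.add (.var 8) (.var 45))).eval σ' =
            if s.used i then 1 else 0 := by
          have : (Expr.load (.add (.var 8) (.var 45))).eval σ' =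
              σ'.mem (((bS + 2 * (n * n) : ℕ) : ℤ) + (i : ℤ)).toNat := by
            simp only [Expr.eval, hE'.r8, h1]
          rw [this, ← Nat.cast_add, Int.toNat_natCast]
          exact hs'.u i hi
        refine Term.ite ⟨trivial, trivial, ?_⟩ (fun hu => ?_) (fun hu => ?_)
        · simp only [Expr.eval, hE'.r8, h1]; omega
        · rw [hul] at hu
          have hu : s.used i = true := by by_contra hc; simp [hc] at hu
          refine Term.skip ⟨h1, ?_, h3, h4⟩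
          rw [hsucc, h2]
          simp [pred, hu]
        · rw [hul] at hu
          have hu : s.used i = false := by
            cases h : s.used i
            · rfl
            · simp [h] at hu
          have ht := tabE_eval hE' hs' h1 hj' hi hjn
          refine Term.ite (tabE_ok hE' h1 hj' hi hjn (by omega)) (fun hp => ?_) (fun hp => ?_)
          · rw [ht] at hp
            refine Term.assign trivial ⟨by simp [h1], ?_, h3, fun r h5 h6 => ?_⟩
            · rw [hsucc]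
              simp [pred, hu, hp, enc, Expr.eval, h1]
            · simp only [St.set_reg, if_neg h6]
              exact h4 r h5 h6
          · rw [ht] at hp
            refine Term.skip ⟨h1, ?_, h3, h4⟩
            rw [hsucc, h2]
            simp [pred, hp]
    · exact ⟨trivial, trivial, trivial, trivial⟩
    · simp only [findBody, tabE, Cmd.cost, Expr.size]; omega
    · rintro σ'' ⟨g1, g2, g3, g4⟩
      refine ⟨g1, by simp, ?_, g3, fun r h5 h6 => ?_⟩
      · simp only [St.set_reg]; rw [if_neg (by omega)]; exact g2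
      · simp only [St.set_reg, if_neg h5]; exact g4 r h5 h6
  · rintro σ' ⟨-, h2, h3, h4⟩
    exact ⟨h2, h3, h4⟩

end Pool.Agent.Lib.MP_d8fb5e_lc
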