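import Pool.Agent.Lib.MP_d8fb5e_lc.Elim

namespace Pool.Agent.Lib.MP_d8fb5e_lc

open Pool.Agent.Lib.PRam

variable {W : ℕ} {σ : St}

theorem Run.assign {d : ℕ} {e : Expr} {Q : St → Prop} (h : e.ok W σ) (hQ : Q (σ.set d (e.eval σ))) :
    Run W (.assign d e) σ [] (e.size + 2) Q := Term.run (Term.assign h hQ) trivial

def rowE : Expr := .mul (.div (.var 45) (.var 2)) (.var 2)

/-- entry number `reg 45` -/
def curE : Expr := .load (.add (.var 6) (.var 45))
/-- entry in the same row, column `reg 44` -/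
def rowcolE : Expr := .load (.add (.var 6) (.add rowE (.var 44)))
/-- entry in row `reg 46`, same column -/
def colE : Expr := .load (.add (.var 6) (.add (.mul (.var 46) (.var 2)) (.sub (.var 45) rowE)))

def newE : Expr := .div (.sub (.mul curE (.var 48)) (.mul rowcolE colE)) (.var 43)

def bufBody : Cmd :=
  .ite (.sub (.div (.var 45) (.var 2)) (.var 46)) (.store (.add (.var 7) (.var 45)) newE)
    (.store (.add (.var 7) (.var 45)) curE)

def copyBody : Cmd := .store (.add (.var 6) (.var 45)) (.load (.add (.var 7) (.var 45)))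

def pivotC : Cmd :=
  .seq (.assign 48 (tabE 46 44)) (.seq (forDo 45 20 bufBody) (.seq (forDo 45 20 copyBody)
    (.seq (.assign 43 (.var 48)) (.store (.add (.var 8) (.var 46)) (.lit 1)))))

/-- the state after a pivot step -/
def pivSt (s : PSt) (g j : ℕ) : PSt :=
  { P := fun g' h => if g' = g then s.P g' h
      else (s.P g' h * s.P g j - s.P g' j * s.P g h) / s.D
    D := s.P g j
    used := Function.update s.used g true
    ok := s.ok }

theorem stepCol_eq (M : ℕ) (s : PSt) (j : ℕ) : stepCol M s j =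
    match findRow M s j with
    | none => { s with ok := false }
    | some g => pivSt s g j := rfl

theorem natAbs_mul_le {a b : ℤ} {F : ℕ} (ha : |a| ≤ F) (hb : |b| ≤ F) :
    (a * b).natAbs ≤ F * F := by
  rw [Int.abs_eq_natAbs] at ha hb
  rw [Int.natAbs_mul]
  exact Nat.mul_le_mul (by omega) (by omega)

theorem natAbs_sub_le {a b c : ℕ} (ha : a ≤ c) (hb : b ≤ c) :
    ((a : ℤ) - (b : ℤ)).natAbs ≤ c := by omega

def tBuf (n : ℕ) : ℕ := forT (n * n) 90
def tPivot (n : ℕ) : ℕ := 50 + forT (n * n) 90 + forT (n * n) 20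

theorem pivot_run {n bA bW bS j g F : ℕ} {A : ℕ → ℕ → ℤ} {s : PSt} (hE : Env n A bA bW bS σ)
    (hs : SR n bS s σ) (hj : σ.reg 44 = j) (hjn : j < n) (hg : σ.reg 46 = g) (hgn : g < n)
    (hF : ∀ g < n, ∀ h < n, |s.P g h| ≤ F) (hW : bS + 2 * (n * n) + n + 1 ≤ W)
    (hWF : 2 * (F * F) ≤ W) :
    Run W pivotC σ [] (tPivot n) (fun σ' => SR n bS (pivSt s g j) σ' ∧
      (∀ r, r ≠ 43 → r ≠ 45 → r ≠ 48 → σ'.reg r = σ.reg r) ∧
      ∀ a, (a < bS ∨ bS + 2 * (n * n) + n ≤ a) → σ'.mem a = σ.mem a) := by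
  have ht := tabE_eval hE hs hg hj hgn hjn
  refine Run.seqL (T₁ := (tabE 46 44).size + 2)
    (T₂ := forT (n * n) 90 + (forT (n * n) 20 + 30)) (Run.assign
    (tabE_ok hE hg hj hgn hjn (by omega)) ?_) (by simp only [tPivot, tabE, Expr.size]; omega)
  rw [ht]
  set σ₁ := σ.set 48 (s.P g j) with hσ₁
  have k1 : ∀ r, r ≠ 48 → σ₁.reg r = σ.reg r := fun r hr => by
    simp only [hσ₁, St.set_reg, if_neg hr]
  have k48 : σ₁.reg 48 = s.P g j := by simp [hσ₁]
  -- fill the buffer
  refine Run.seqL (T₁ := forT (n * n) 90) (T₂ := forT (n * n) 20 + 30)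
    ((Run.fill (b := bS + n * n) (N := n * n) (B := 90)
    (fun q => (pivSt s g j).P (q / n) (q % n)) (by omega)
    ((k1 20 (by omega)).trans hE.r20) (by omega) le_rfl ?_).mono le_rfl ?_) le_rfl
  · intro q hq σ' hr h45 hm
    have hn0 : 0 < n := by omega
    have hqn : q / n < n := by rw [Nat.div_lt_iff_lt_mul hn0]; exact hq
    have hqm : q % n < n := Nat.mod_lt _ hn0
    have hdm : q / n * n + q % n = q := Nat.div_add_mod' q n
    have hr' : ∀ r, r ≠ 45 → r ≠ 48 → σ'.reg r = σ.reg r := fun r h1 h2 =>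
      (hr r h1).trans (k1 r h2)
    have hE' : Env n A bA bW bS σ' := by
      refine ⟨?_, ?_, ?_, ?_, ?_, ?_, ?_, fun q hq => ?_, fun j hj => ?_, hE.hA, hE.hW⟩
      · rw [hr' 2 (by omega) (by omega)]; exact hE.r2
      · rw [hr' 4 (by omega) (by omega)]; exact hE.r4
      · rw [hr' 5 (by omega) (by omega)]; exact hE.r5
      · rw [hr' 6 (by omega) (by omega)]; exact hE.r6
      · rw [hr' 7 (by omega) (by omega)]; exact hE.r7
      · rw [hr' 8 (by omega) (by omega)]; exact hE.r8
      · rw [hr' 20 (by omega) (by omega)]; exact hE.r20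
      · rw [hm _ (by have := hE.hA; omega)]; exact hE.mA q hq
      · rw [hm _ (by have := hE.hW; omega)]; exact hE.mW j hj
    have hs' : ∀ g' < n, ∀ h < n, σ'.mem (bS + (g' * n + h)) = s.P g' h := by
      intro g' hg' h hh
      have := idx_lt hg' hh
      rw [hm _ (by omega)]
      exact hs.entry hg' hh
    have h46 : σ'.reg 46 = g := (hr' 46 (by omega) (by omega)).trans hg
    have h44 : σ'.reg 44 = j := (hr' 44 (by omega) (by omega)).trans hj
    have h43 : σ'.reg 43 = s.D := (hr' 43 (by omega) (by omega)).trans hs.d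
    have h48 : σ'.reg 48 = s.P g j := (hr 48 (by omega)).trans k48
    have hdiv : (q : ℤ) / (n : ℤ) = ((q / n : ℕ) : ℤ) := by push_cast; rfl
    have hrow : rowE.eval σ' = ((q / n * n : ℕ) : ℤ) := by
      simp only [rowE, Expr.eval, h45, hE'.r2, hdiv]; push_cast; rfl
    have hrow_ok : rowE.ok W σ' := by
      refine ⟨⟨trivial, trivial⟩, trivial, ?_⟩
      have : (Expr.div (.var 45) (.var 2)).eval σ' * (Expr.var 2).eval σ' =
        ((q / n * n : ℕ) : ℤ) := hrow
      rw [this, Int.natAbs_natCast]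
      omega
    have hst_ok : (Expr.add (.var 7) (.var 45)).ok W σ' := by
      refine ⟨trivial, trivial, ?_⟩
      simp only [Expr.eval, hE'.r7, h45]; omega
    have hst : (Expr.add (.var 7) (.var 45)).eval σ' = ((bS + n * n + q : ℕ) : ℤ) := by
      simp only [Expr.eval, hE'.r7, h45]; push_cast; ring
    have hcur : curE.eval σ' = s.P (q / n) (q % n) := by
      have : curE.eval σ' = σ'.mem ((bS : ℤ) + (q : ℤ)).toNat := by
        simp only [curE, Expr.eval, hE'.r6, h45]
      rw [this, ← Nat.cast_add, Int.toNat_natCast, ← hdm, hs' _ hqn _ hqm, hdm]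
    have hcur_ok : curE.ok W σ' := by
      refine ⟨trivial, trivial, ?_⟩
      simp only [Expr.eval, hE'.r6, h45]; omega
    have hrc : rowcolE.eval σ' = s.P (q / n) j := by
      have : rowcolE.eval σ' = σ'.mem ((bS : ℤ) + (rowE.eval σ' + (j : ℤ))).toNat := by
        simp only [rowcolE, Expr.eval, hE'.r6, h44]
      rw [this, hrow, ← Nat.cast_add, ← Nat.cast_add, Int.toNat_natCast]
      exact hs' _ hqn _ hjn
    have hrc_ok : rowcolE.ok W σ' := by
      have := idx_lt hqn hjn
      refine ⟨trivial, ⟨hrow_ok, trivial, ?_⟩, ?_⟩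
      · simp only [Expr.eval, h44, hrow]; omega
      · simp only [Expr.eval, h44, hrow, hE'.r6]; omega
    have hcl : colE.eval σ' = s.P g (q % n) := by
      have : colE.eval σ' = σ'.mem ((bS : ℤ) + ((g : ℤ) * (n : ℤ) +
          ((q : ℤ) - rowE.eval σ'))).toNat := by
        simp only [colE, Expr.eval, hE'.r6, h46, h45, hE'.r2]
      have e : (bS : ℤ) + ((g : ℤ) * (n : ℤ) + ((q : ℤ) - ((q / n * n : ℕ) : ℤ))) =
          ((bS + (g * n + q % n) : ℕ) : ℤ) := by
        have : (q : ℤ) = ((q / n * n + q % n : ℕ) : ℤ) := by rw [hdm]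
        rw [this]
        push_cast
        ring
      rw [this, hrow, e, Int.toNat_natCast]
      exact hs' _ hgn _ hqm
    have hcl_ok : colE.ok W σ' := by
      have h5 := idx_lt hgn hqm
      have h6 : ((g : ℤ) * (n : ℤ)) = ((g * n : ℕ) : ℤ) := by push_cast; rfl
      refine ⟨trivial, ⟨⟨trivial, trivial, ?_⟩, ⟨trivial, hrow_ok, ?_⟩, ?_⟩, ?_⟩
      · simp only [Expr.eval, h46, hE'.r2, h6]; omega
      · simp only [Expr.eval, h45, hrow]; omega
      · simp only [Expr.eval, h45, hrow, h46, hE'.r2, h6]; omega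
      · simp only [Expr.eval, h45, hrow, h46, hE'.r2, h6, hE'.r6]; omega
    have m1 := natAbs_mul_le (hF _ hqn _ hqm) (hF _ hgn _ hjn)
    have m2 := natAbs_mul_le (hF _ hqn _ hjn) (hF _ hgn _ hqm)
    have hnew : newE.eval σ' = (s.P (q / n) (q % n) * s.P g j -
        s.P (q / n) j * s.P g (q % n)) / s.D := by
      simp only [newE, Expr.eval, hcur, hrc, hcl, h48, h43]
    have hnew_ok : newE.ok W σ' := by
      refine ⟨⟨⟨hcur_ok, trivial, ?_⟩, ⟨hrc_ok, hcl_ok, ?_⟩, ?_⟩, trivial⟩
      · simp only [Expr.eval, hcur, h48]; omega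
      · simp only [Expr.eval, hrc, hcl]; omega
      · simp only [Expr.eval, hcur, hrc, hcl, h48]; omega
    refine (Run.ite (T' := 60) ?_ (fun hne => ?_) (fun heq => ?_) ?_)
    · refine ⟨⟨trivial, trivial⟩, trivial, ?_⟩
      simp only [Expr.eval, h45, h46, hE'.r2, hdiv]
      exact natAbs_sub_le (by omega) (by omega)
    · have hne : (σ'.reg 45) / (σ'.reg 2) - σ'.reg 46 ≠ 0 := hne
      rw [h45, h46, hE'.r2, hdiv] at hne
      refine (Run.store hst_ok hnew_ok hst rfl).mono
        (by simp only [newE, curE, rowcolE, colE, rowE, Expr.size]; omega) ?_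
      rintro σ'' ⟨e1, e2⟩
      refine ⟨e1, ?_⟩
      rw [e2, hnew]
      congr 1
      simp only [pivSt]
      rw [if_neg (by omega)]
    · have heq : (σ'.reg 45) / (σ'.reg 2) - σ'.reg 46 = 0 := heq
      rw [h45, h46, hE'.r2, hdiv] at heq
      refine (Run.store hst_ok hcur_ok hst rfl).mono
        (by simp only [curE, Expr.size]; omega) ?_
      rintro σ'' ⟨e1, e2⟩
      refine ⟨e1, ?_⟩
      rw [e2, hcur]
      congr 1
      simp only [pivSt]
      rw [if_pos (by omega)]
    · simp only [Expr.size]; omega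
  -- copy the buffer
  rintro σ₂ ⟨f1, f2, f3⟩
  have g1 : ∀ r, r ≠ 45 → r ≠ 48 → σ₂.reg r = σ.reg r := fun r h1 h2 =>
    (f1 r h1).trans (k1 r h2)
  have e6 : σ₂.reg 6 = bS := (g1 6 (by omega) (by omega)).trans hE.r6
  have e7 : σ₂.reg 7 = (bS + n * n : ℕ) := (g1 7 (by omega) (by omega)).trans hE.r7
  refine Run.seqL (T₁ := forT (n * n) 20) (T₂ := 30)
    ((Run.fill (b := bS) (N := n * n) (B := 20)
    (fun q => (pivSt s g j).P (q / n) (q % n)) (by omega)
    ((g1 20 (by omega) (by omega)).trans hE.r20) (by omega) le_rfl ?_).mono le_rfl ?_) le_rfl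
  · intro q hq σ' hr h45 hm
    have h6 : σ'.reg 6 = bS := (hr 6 (by omega)).trans e6
    have h7 : σ'.reg 7 = (bS + n * n : ℕ) := (hr 7 (by omega)).trans e7
    refine (Run.store (m := bS + q) (z := (pivSt s g j).P (q / n) (q % n)) ?_ ?_ ?_ ?_).mono
      (by simp only [Expr.size]; omega) (fun σ'' h => h)
    · refine ⟨trivial, trivial, ?_⟩
      simp only [Expr.eval, h6, h45]; omega
    · refine ⟨trivial, trivial, ?_⟩
      simp only [Expr.eval, h7, h45]; omega
    · simp only [Expr.eval, h6, h45]; push_cast; rfl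
    · have : (Expr.load (.add (.var 7) (.var 45))).eval σ' =
          σ'.mem (((bS + n * n : ℕ) : ℤ) + (q : ℤ)).toNat := by
        simp only [Expr.eval, h7, h45]
      rw [this, ← Nat.cast_add, Int.toNat_natCast, hm _ (by omega)]
      exact f2 q hq
  rintro σ₃ ⟨p1, p2, p3⟩
  have q1 : ∀ r, r ≠ 45 → r ≠ 48 → σ₃.reg r = σ.reg r := fun r h1 h2 =>
    (p1 r h1).trans (g1 r h1 h2)
  have q48 : σ₃.reg 48 = s.P g j :=
    (p1 48 (by omega)).trans ((f1 48 (by omega)).trans k48)
  have e8 : σ₃.reg 8 = (bS + 2 * (n * n) : ℕ) := (q1 8 (by omega) (by omega)).trans hE.r8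
  have e46 : σ₃.reg 46 = g := (q1 46 (by omega) (by omega)).trans hg
  refine Run.seqL (T₁ := 4) (T₂ := 10) (Run.assign (e := .var 48) trivial ?_) (by omega)
  have e : (Expr.var 48).eval σ₃ = s.P g j := q48
  rw [e]
  refine (Run.store (a := .add (.var 8) (.var 46)) (v := .lit 1) (m := bS + 2 * (n * n) + g)
    (z := 1) ⟨trivial, trivial, ?_⟩ ?_ ?_ rfl).mono (by simp only [Expr.size]; omega) ?_
  · simp only [Expr.eval, St.set_reg]
    rw [if_neg (by omega), if_neg (by omega), e8, e46]; omega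
  · show (1 : ℤ).natAbs ≤ W; omega
  · simp only [Expr.eval, St.set_reg]
    rw [if_neg (by omega), if_neg (by omega), e8, e46]; push_cast; rfl
  · rintro σ₄ ⟨r1, r2⟩
    have hreg : ∀ r, r ≠ 43 → r ≠ 45 → r ≠ 48 → σ₄.reg r = σ.reg r := by
      intro r h1 h2 h3
      rw [r1]
      simp only [St.set_reg, if_neg h1]
      exact q1 r h2 h3
    refine ⟨⟨?_, ?_, ?_, ?_⟩, hreg, ?_⟩
    · rw [r1]; simp [pivSt]
    · rw [hreg 40 (by omega) (by omega) (by omega)]; exact hs.ok
    · intro q hq
      rw [r2, Function.update_apply, if_neg (by omega)]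
      exact p2 q hq
    · intro g' hg'
      rw [r2, Function.update_apply]
      by_cases hgg : g' = g
      · rw [if_pos (by omega), hgg]; simp [pivSt]
      · rw [if_neg (by omega), St.set_mem, p3 _ (by omega), f3 _ (by omega)]
        have : (pivSt s g j).used g' = s.used g' := by simp [pivSt, hgg]
        rw [this]
        exact hs.u g' hg'
    · intro a ha
      rw [r2, Function.update_apply, if_neg (by omega), St.set_mem, p3 _ (by omega),
        f3 _ (by omega)]
      rfl

end Pool.Agent.Lib.MP_d8fb5e_lc
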