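import Pool.Agent.Lib.MP_d8fb5e_lc.Elim2

namespace Pool.Agent.Lib.MP_d8fb5e_lc

open Pool.Agent.Lib.PRam

variable {W : ℕ} {σ : St}

def colStep : Cmd :=
  .seq (.assign 41 (.add (.var 41) (.lit 1))) (.seq findC
    (.ite (.sub (.var 46) (.var 2)) pivotC (.assign 40 (.lit 0))))

def colBody : Cmd := .ite (bitE 42 44) colStep .skip

def initTab : Cmd := forDo 45 20 (.store (.add (.var 6) (.var 45)) (.load (.add (.var 4) (.var 45))))
def initUsed : Cmd := forDo 45 2 (.store (.add (.var 8) (.var 45)) (.lit 0))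

/-- elimination on the columns in the mask in register `42`; register `40`: independent or not,
register `41`: number of columns -/
def elimC : Cmd :=
  .seq initTab (.seq initUsed (.seq (.assign 43 (.lit 1)) (.seq (.assign 40 (.lit 1))
    (.seq (.assign 41 (.lit 0)) (forDo 44 2 colBody)))))

def tCol (n : ℕ) : ℕ := 60 + tFind n + tPivot n
def tElim (n : ℕ) : ℕ := forT (n * n) 20 + forT n 20 + 20 + forT n (tCol n)

def cntUpTo (z j : ℕ) : ℕ := ((List.range j).filter fun j => z.testBit j).length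

theorem cntUpTo_succ (z j : ℕ) :
    cntUpTo z (j + 1) = cntUpTo z j + if z.testBit j then 1 else 0 := by
  unfold cntUpTo
  rw [List.range_succ, List.filter_append, List.length_append]
  congr 1
  simp only [List.filter_cons, List.filter_nil]
  split_ifs <;> rfl

theorem cntUpTo_le (z j : ℕ) : cntUpTo z j ≤ j := by
  unfold cntUpTo
  exact (List.length_filter_le _ _).trans (by simp)

/-- registers other than the listed ones and memory outside the scratch area are unchanged -/
def FrE (n bS : ℕ) (σ σ' : St) : Prop := Fr 40 bS (bS + 2 * (n * n) + n) σ σ'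

theorem elim_run {n bA bW bS z : ℕ} {A : ℕ → ℕ → ℤ} (hE : Env n A bA bW bS σ)
    (hz : σ.reg 42 = z) (hzW : z ≤ W) (hA : ∀ g < n, ∀ h < n, |A g h| ≤ 1)
    (hW : bS + 2 * (n * n) + n + 1 ≤ W) (hWF : 2 * (n.factorial * n.factorial) ≤ W)
    (hW2 : 2 * 2 ^ n ≤ W) :
    Run W elimC σ [] (tElim n) (fun σ' => Fr 40 bS (bS + 2 * (n * n) + n) σ σ' ∧
      σ'.reg 40 = (if indepM n A z then 1 else 0) ∧ σ'.reg 41 = pop n z) := by
  -- copy the matrix
  refine Run.seqL (T₁ := forT (n * n) 20) (T₂ := forT n 20 + 20 + forT n (tCol n))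
    ((Run.fill (b := bS) (N := n * n) (B := 20) (fun q => A (q / n) (q % n)) (by omega)
    hE.r20 (by omega) le_rfl ?_).mono le_rfl ?_) (by simp only [tElim]; omega)
  · intro q hq σ' hr h45 hm
    have h6 : σ'.reg 6 = bS := (hr 6 (by omega)).trans hE.r6
    have h4 : σ'.reg 4 = bA := (hr 4 (by omega)).trans hE.r4
    have hbA := hE.hA
    refine (Run.store (a := .add (.var 6) (.var 45)) (v := .load (.add (.var 4) (.var 45)))
      (m := bS + q) (z := A (q / n) (q % n)) ?_ ?_ ?_ ?_).mono
      (by simp only [Expr.size]; omega) (fun σ'' h => h)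
    · refine ⟨trivial, trivial, ?_⟩
      simp only [Expr.eval, h6, h45]; omega
    · refine ⟨trivial, trivial, ?_⟩
      simp only [Expr.eval, h4, h45]; omega
    · simp only [Expr.eval, h6, h45]; push_cast; rfl
    · have : (Expr.load (.add (.var 4) (.var 45))).eval σ' =
          σ'.mem ((bA : ℤ) + (q : ℤ)).toNat := by
        simp only [Expr.eval, h4, h45]
      rw [this, ← Nat.cast_add, Int.toNat_natCast, hm _ (by omega)]
      exact hE.mA q hq
  rintro σ₁ ⟨a1, a2, a3⟩
  have hf1 : Fr 40 bS (bS + 2 * (n * n) + n) σ σ₁ :=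
    ⟨fun r hr => a1 r (by omega), fun a ha => a3 a (by omega)⟩
  have hE1 := hE.of_fr hf1 (by omega)
  -- clear the flags
  refine Run.seqL (T₁ := forT n 20) (T₂ := 20 + forT n (tCol n))
    ((Run.fill (b := bS + 2 * (n * n)) (N := n) (B := 20) (fun _ => 0) (by omega)
    hE1.r2 (by omega) le_rfl ?_).mono le_rfl ?_) (by omega)
  · intro q hq σ' hr h45 hm
    have h8 : σ'.reg 8 = (bS + 2 * (n * n) : ℕ) := (hr 8 (by omega)).trans hE1.r8
    refine (Run.store (a := .add (.var 8) (.var 45)) (v := .lit 0)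
      (m := bS + 2 * (n * n) + q) (z := 0) ?_ (by show (0 : ℤ).natAbs ≤ W; omega) ?_ rfl).mono
      (by simp only [Expr.size]; omega) (fun σ'' h => h)
    · refine ⟨trivial, trivial, ?_⟩
      simp only [Expr.eval, h8, h45]; omega
    · simp only [Expr.eval, h8, h45]; push_cast; rfl
  rintro σ₂ ⟨b1, b2, b3⟩
  have hf2 : Fr 40 bS (bS + 2 * (n * n) + n) σ σ₂ :=
    hf1.trans ⟨fun r hr => b1 r (by omega), fun a ha => b3 a (by omega)⟩
  refine Run.seqL (T₁ := 3) (T₂ := 17 + forT n (tCol n))
    (Run.assign (e := .lit 1) (by show (1 : ℤ).natAbs ≤ W; omega) ?_) (by omega)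
  refine Run.seqL (T₁ := 3) (T₂ := 14 + forT n (tCol n))
    (Run.assign (e := .lit 1) (by show (1 : ℤ).natAbs ≤ W; omega) ?_) (by omega)
  refine Run.seqL (T₁ := 3) (T₂ := 11 + forT n (tCol n))
    (Run.assign (e := .lit 0) (by show (0 : ℤ).natAbs ≤ W; omega) ?_) (by omega)
  have l1 : ∀ σ : St, (Expr.lit 1).eval σ = 1 := fun _ => rfl
  have l0 : ∀ σ : St, (Expr.lit 0).eval σ = 0 := fun _ => rfl
  rw [l1, l1, l0]
  set σ₃ := ((σ₂.set 43 1).set 40 1).set 41 0 with hσ₃
  have c1 : ∀ r, r ≠ 40 → r ≠ 41 → r ≠ 43 → r ≠ 45 → σ₃.reg r = σ.reg r := by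
    intro r h1 h2 h3 h4
    simp only [hσ₃, St.set_reg, if_neg h1, if_neg h2, if_neg h3]
    rw [b1 r h4, a1 r h4]
  have hf3 : Fr 40 bS (bS + 2 * (n * n) + n) σ σ₃ :=
    ((hf2.set (by omega)).set (by omega)).set (by omega)
  refine (Run.forC (N := n) (B := tCol n) (fun j σ' => σ'.reg 44 = j ∧
    Fr 40 bS (bS + 2 * (n * n) + n) σ σ' ∧ SR n bS (runCols n A z.testBit j) σ' ∧
    σ'.reg 41 = cntUpTo z j ∧ σ'.reg 42 = z) (by omega) le_rfl ?_ ?_ ?_).mono (by omega) ?_
  · refine ⟨by simp, hf3.set (by omega), ⟨?_, ?_, ?_, ?_⟩, ?_, ?_⟩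
    · simp [hσ₃, runCols]
    · simp [hσ₃, runCols]
    · intro q hq
      have : ((σ₃.set 44 0).mem (bS + q)) = σ₂.mem (bS + q) := rfl
      rw [this, b3 _ (by omega)]
      exact a2 q hq
    · intro g hg
      have : ((σ₃.set 44 0).mem (bS + 2 * (n * n) + g)) = σ₂.mem (bS + 2 * (n * n) + g) := rfl
      rw [this, b2 g hg]
      simp [runCols]
    · simp [hσ₃, cntUpTo]
    · simp only [St.set_reg]
      rw [if_neg (by omega), c1 42 (by omega) (by omega) (by omega) (by omega), hz]
  · rintro j hj σ' ⟨h1, h2, h3, h4, h5⟩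
    exact ⟨(h2.1 2 (by omega)).trans hE.r2, h1⟩
  · rintro j hj σ' ⟨h1, h2, h3, h4, h5⟩
    have hE' := hE.of_fr h2 (by omega)
    have hbit := bitE_eval hE' h5 h1 hj.le
    have hcl := cntUpTo_le z j
    obtain ⟨-, -, hP⟩ := runCols_bound n n A z.testBit hA j hj.le
    refine (Run.ite (T' := 20 + tFind n + tPivot n) (Q := fun σ'' =>
      Fr 40 bS (bS + 2 * (n * n) + n) σ σ'' ∧ SR n bS (runCols n A z.testBit (j + 1)) σ'' ∧
      σ''.reg 41 = cntUpTo z (j + 1) ∧ σ''.reg 42 = z ∧ σ''.reg 44 = j)
      (bitE_ok hE' h5 h1 hj.le (by omega) hzW hW2) (fun hne => ?_) (fun heq => ?_) ?_).mono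
      le_rfl ?_
    · rw [hbit] at hne
      have hb : z.testBit j = true := by by_contra hc; simp [hc] at hne
      have hrun : runCols n A z.testBit (j + 1) = stepCol n (runCols n A z.testBit j) j := by
        simp [runCols, hb]
      refine Run.seqL (T₁ := 6) (T₂ := 14 + tFind n + tPivot n)
        (Run.assign (e := .add (.var 41) (.lit 1)) ⟨trivial, ?_, ?_⟩ ?_) (by omega)
      · show (1 : ℤ).natAbs ≤ W; omega
      · simp only [Expr.eval, h4]; omega
      have e41 : (Expr.add (.var 41) (.lit 1)).eval σ' = ((cntUpTo z (j + 1) : ℕ) : ℤ) := by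
        simp only [Expr.eval, h4, cntUpTo_succ, hb, if_true]; push_cast; rfl
      rw [e41]
      set σ₄ := σ'.set 41 ((cntUpTo z (j + 1) : ℕ) : ℤ) with hσ₄
      have d1 : ∀ r, r ≠ 41 → σ₄.reg r = σ'.reg r := fun r hr => by
        simp only [hσ₄, St.set_reg, if_neg hr]
      have hf4 : Fr 40 bS (bS + 2 * (n * n) + n) σ σ₄ := h2.set (by omega)
      have hE4 := hE.of_fr hf4 (by omega)
      have hs4 : SR n bS (runCols n A z.testBit j) σ₄ :=
        ⟨by rw [d1 43 (by omega)]; exact h3.d, by rw [d1 40 (by omega)]; exact h3.ok,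
          h3.P, h3.u⟩
      refine Run.seqL (T₁ := tFind n) (T₂ := 14 + tPivot n)
        ((find_run hE4 hs4 ((d1 44 (by omega)).trans h1) hj hW).mono le_rfl ?_) (by omega)
      rintro σ₅ ⟨f46, fm, fr⟩
      have hf5 : Fr 40 bS (bS + 2 * (n * n) + n) σ σ₅ :=
        hf4.trans ⟨fun r hr => fr r (by omega) (by omega), fun a _ => by rw [fm]⟩
      have hE5 := hE.of_fr hf5 (by omega)
      have hs5 : SR n bS (runCols n A z.testBit j) σ₅ :=
        ⟨by rw [fr 43 (by omega) (by omega)]; exact hs4.d,
          by rw [fr 40 (by omega) (by omega)]; exact hs4.ok,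
          fun q hq => by rw [fm]; exact hs4.P q hq, fun g hg => by rw [fm]; exact hs4.u g hg⟩
      have e44 : σ₅.reg 44 = j := (fr 44 (by omega) (by omega)).trans ((d1 44 (by omega)).trans h1)
      have e42 : σ₅.reg 42 = z := (fr 42 (by omega) (by omega)).trans ((d1 42 (by omega)).trans h5)
      have e41' : σ₅.reg 41 = cntUpTo z (j + 1) := by
        rw [fr 41 (by omega) (by omega)]; simp [hσ₄]
      have hle : ∀ g, findRow n (runCols n A z.testBit j) j = some g → g < n := fun g hg =>
        List.mem_range.mp (List.mem_of_find?_eq_some hg)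
      refine Run.ite (T' := tPivot n + 3) ⟨trivial, trivial, ?_⟩ (fun hne2 => ?_)
        (fun heq2 => ?_) (by simp only [Expr.size]; omega)
      · simp only [Expr.eval, f46, hE5.r2]
        rcases hf : findRow n (runCols n A z.testBit j) j with _ | g
        · simp [enc]
        · have := hle g hf
          simp only [enc]; exact natAbs_sub_le (by omega) (by omega)
      · have hne2 : σ₅.reg 46 - σ₅.reg 2 ≠ 0 := hne2
        rw [f46, hE5.r2] at hne2
        rcases hf : findRow n (runCols n A z.testBit j) j with _ | g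
        · rw [hf] at hne2; simp [enc] at hne2
        · have hgn := hle g hf
          rw [hf] at f46
          have f46 : σ₅.reg 46 = g := f46
          refine (pivot_run hE5 hs5 e44 hj f46 hgn hP hW hWF).mono (by omega) ?_
          rintro σ₆ ⟨s1, s2, s3⟩
          refine ⟨hf5.trans ⟨fun r hr => s2 r (by omega) (by omega) (by omega), s3⟩, ?_, ?_, ?_, ?_⟩
          · rw [hrun, stepCol_eq, hf]
            exact s1
          · rw [s2 41 (by omega) (by omega) (by omega)]; exact e41'
          · rw [s2 42 (by omega) (by omega) (by omega)]; exact e42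
          · rw [s2 44 (by omega) (by omega) (by omega)]; exact e44
      · have heq2 : σ₅.reg 46 - σ₅.reg 2 = 0 := heq2
        rw [f46, hE5.r2] at heq2
        rcases hf : findRow n (runCols n A z.testBit j) j with _ | g
        · refine (Run.assign (e := .lit 0) (by show (0 : ℤ).natAbs ≤ W; omega) ?_).mono
            (by show 3 ≤ _; omega) (fun _ h => h)
          rw [l0]
          refine ⟨hf5.set (by omega), ⟨?_, ?_, ?_, ?_⟩, ?_, ?_, ?_⟩
          · rw [hrun, stepCol_eq, hf]
            simp only [St.set_reg]; rw [if_neg (by omega)]; exact hs5.d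
          · rw [hrun, stepCol_eq, hf]; simp
          · rw [hrun, stepCol_eq, hf]; exact hs5.P
          · rw [hrun, stepCol_eq, hf]; exact hs5.u
          · simp only [St.set_reg]; rw [if_neg (by omega)]; exact e41'
          · simp only [St.set_reg]; rw [if_neg (by omega)]; exact e42
          · simp only [St.set_reg]; rw [if_neg (by omega)]; exact e44
        · have := hle g hf
          rw [hf] at heq2; simp only [enc] at heq2; omega
    · rw [hbit] at heq
      have hb : z.testBit j = false := by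
        cases h : z.testBit j
        · rfl
        · simp [h] at heq
      have hrun : runCols n A z.testBit (j + 1) = runCols n A z.testBit j := by
        simp [runCols, hb]
      refine Run.skip ⟨h2, by rw [hrun]; exact h3, ?_, h5, h1⟩
      rw [cntUpTo_succ, hb, h4]; simp
    · simp only [tCol, bitE, pwE, Expr.size]; omega
    · rintro σ'' ⟨g1, g2, g3, g4, g5⟩
      refine ⟨g5, by simp, g1.set (by omega), ⟨?_, ?_, g2.P, g2.u⟩, ?_, ?_⟩
      · simp only [St.set_reg]; rw [if_neg (by omega)]; exact g2.d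
      · simp only [St.set_reg]; rw [if_neg (by omega)]; exact g2.ok
      · simp only [St.set_reg]; rw [if_neg (by omega)]; exact g3
      · simp only [St.set_reg]; rw [if_neg (by omega)]; exact g4
  · rintro σ' ⟨-, h2, h3, h4, -⟩
    exact ⟨h2, h3.ok, h4⟩

end Pool.Agent.Lib.MP_d8fb5e_lc
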