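import Pool.Agent.Lib.MP_d8fb5e_lc.Model

namespace Pool.Agent.Lib.MP_d8fb5e_lc

/-- incidence of vertices and faces, with numbers -/
def SComplex.inc (Δ : SComplex) (f v : ℕ) : Bool :=
  if h : f < Δ.faces.length ∧ v < Δ.V then
    decide ((⟨v, h.2⟩ : Fin Δ.V) ∈ Δ.faces[f]'h.1) else false

/-- number of `v < m` with `I v` -/
def crd (m : ℕ) (I : ℕ → Bool) : ℕ := ∑ v ∈ Finset.range m, if I v = true then 1 else 0

/-- number of `v < m` with `I v ≠ J v` -/
def dff (m : ℕ) (I J : ℕ → Bool) : ℕ := ∑ v ∈ Finset.range m, if I v = J v then 0 else 1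

/-- signed number of `v < m` with `I v` and not `J v` -/
def sac (m : ℕ) (I J : ℕ → Bool) : ℤ :=
  ∑ v ∈ Finset.range m, if I v = true ∧ J v = false then (-1) ^ crd v I else 0

end Pool.Agent.Lib.MP_d8fb5e_lc
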