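import Pool.Agent.Lib.MP_d8fb5e_lc.Input

/-! Task G for MP_d8fb5e_lc: input decoding and boundary matrix formula. -/

namespace Pool.Agent.Lib.MP_d8fb5e_lc

variable (Δ : SComplex)

theorem flatMap_getD {α β : Type*} (g : α → List β) (m : ℕ) (d : β) :
    ∀ (L : List α), (∀ a ∈ L, (g a).length = m) → ∀ (f v : ℕ) (hf : f < L.length), v < m →
      (L.flatMap g).getD (f * m + v) d = (g (L[f]'hf)).getD v d := by
  intro L
  induction L with
  | nil => intro _ f v hf; simp at hf
  | cons a L ih =>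
    intro hL f v hf hv
    have hlen : (g a).length = m := hL a (List.mem_cons_self)
    rw [List.flatMap_cons]
    cases f with
    | zero =>
      rw [List.getD_append _ _ _ _ (by rw [hlen]; omega)]
      simp
    | succ f =>
      rw [List.getD_append_right _ _ _ _ (by rw [hlen]; nlinarith)]
      have h1 : (f + 1) * m + v - (g a).length = f * m + v := by
        rw [hlen, Nat.add_mul, one_mul]; omega
      rw [h1]
      have h2 := ih (fun a ha => hL a (List.mem_cons_of_mem _ ha)) f v (by simpa using hf) hv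
      rw [h2]
      simp

theorem code_length : Δ.code.length = 2 + Δ.faces.length * Δ.V := by
  unfold SComplex.code
  simp only [List.length_cons, List.length_flatMap, List.length_map, List.length_finRange]
  rw [List.map_const', List.sum_replicate, smul_eq_mul]
  omega

theorem code_zero : Δ.code.getD 0 0 = Δ.V := by
  simp [SComplex.code]

theorem code_one : Δ.code.getD 1 0 = Δ.faces.length := by
  simp [SComplex.code]

theorem code_inc (f v : ℕ) (hf : f < Δ.faces.length) (hv : v < Δ.V) :
    Δ.code.getD (2 + (f * Δ.V + v)) 0 = if Δ.inc f v = true then 1 else 0 := by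
  unfold SComplex.code
  rw [show 2 + (f * Δ.V + v) = (f * Δ.V + v) + 1 + 1 by omega]
  rw [List.getD_cons_succ, List.getD_cons_succ]
  rw [flatMap_getD _ Δ.V 0 Δ.faces (by simp) f v hf hv]
  rw [List.getD_eq_getElem _ _ (by simpa using hv)]
  simp [SComplex.inc, hf, hv]

theorem V_le : Δ.V ≤ Δ.faces.length := by
  classical
  have h1 : (Finset.univ.image (fun v : Fin Δ.V => ({v} : Finset (Fin Δ.V)))).card = Δ.V := by
    rw [Finset.card_image_of_injective _ Finset.singleton_injective]
    simp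
  have h2 : (Finset.univ.image (fun v : Fin Δ.V => ({v} : Finset (Fin Δ.V)))) ⊆
      Δ.faces.toFinset := by
    intro s hs
    rw [Finset.mem_image] at hs
    obtain ⟨v, _, rfl⟩ := hs
    exact List.mem_toFinset.mpr (Δ.vertex v)
  have h3 := Finset.card_le_card h2
  rw [h1] at h3
  exact h3.trans (List.toFinset_card_le _)

theorem code_le (a : ℤ) (ha : a ∈ Δ.code) : a.natAbs ≤ Δ.V + Δ.faces.length + 1 := by
  unfold SComplex.code at ha
  simp only [List.mem_cons, List.mem_flatMap, List.mem_map] at ha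
  rcases ha with rfl | rfl | ⟨s, _, v, _, rfl⟩
  · simp; omega
  · simp; omega
  · split_ifs <;> simp

/-- sums over `range m` and over `Fin m` -/
theorem sum_range_fin {M : Type*} [AddCommMonoid M] (m : ℕ) (F : ℕ → M) :
    ∑ v ∈ Finset.range m, F v = ∑ v : Fin m, F v := Finset.sum_range F

theorem sum_univ_mem {M : Type*} [AddCommMonoid M] {m : ℕ} (H : Finset (Fin m)) (F : Fin m → M) :
    ∑ v ∈ H, F v = ∑ v : Fin m, if v ∈ H then F v else 0 := by
  rw [Finset.sum_ite_mem, Finset.univ_inter]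

theorem inc_eq (f : ℕ) (hf : f < Δ.faces.length) (v : Fin Δ.V) :
    Δ.inc f v = decide (v ∈ Δ.faces[f]'hf) := by
  simp [SComplex.inc, hf, v.2]

theorem crd_inc (f : ℕ) (hf : f < Δ.faces.length) :
    crd Δ.V (Δ.inc f) = (Δ.faces[f]'hf).card := by
  unfold crd
  rw [sum_range_fin]
  have : ∀ v : Fin Δ.V, (if Δ.inc f v = true then 1 else 0) =
      if v ∈ Δ.faces[f]'hf then 1 else 0 := by
    intro v
    rw [inc_eq Δ f hf]
    simp
  rw [Finset.sum_congr rfl (fun v _ => this v)]
  simp

/-- counting below `v` -/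
theorem crd_below (f : ℕ) (hf : f < Δ.faces.length) (v : Fin Δ.V) :
    crd v (Δ.inc f) = ((Δ.faces[f]'hf).filter (· < v)).card := by
  unfold crd
  rw [Finset.card_eq_sum_ones, Finset.sum_filter]
  have h1 : ∑ w ∈ Finset.range v, (if Δ.inc f w = true then 1 else 0) =
      ∑ w ∈ Finset.range Δ.V, if w < v then (if Δ.inc f w = true then 1 else 0) else 0 := by
    rw [← Finset.sum_filter (s := Finset.range Δ.V) (p := fun w => w < (v : ℕ))
      (f := fun w => if Δ.inc f w = true then 1 else 0)]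
    apply Finset.sum_congr _ (fun _ _ => rfl)
    ext w
    simp only [Finset.mem_range, Finset.mem_filter]
    have := v.2
    constructor
    · intro h; exact ⟨h.trans this, h⟩
    · intro h; exact h.2
  rw [h1, sum_range_fin, sum_univ_mem (Δ.faces[f]'hf)]
  apply Finset.sum_congr rfl
  intro w _
  rw [inc_eq Δ f hf]
  by_cases h3 : w ∈ Δ.faces[f]'hf
  · simp only [h3, if_true, decide_true, Fin.val_fin_lt]
  · simp [h3]

theorem mat_sum (d g h : ℕ) (hg : g < Δ.faces.length) (hh : h < Δ.faces.length) :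
    Δ.mat d g h = if (Δ.faces[h]'hh).card = d + 1 then
      ∑ v ∈ Δ.faces[h]'hh, if (Δ.faces[h]'hh).erase v = Δ.faces[g]'hg then
        (-1) ^ ((Δ.faces[h]'hh).filter (· < v)).card else 0
    else 0 := by
  unfold SComplex.mat
  rw [dif_pos ⟨hg, hh⟩]

/-- the number of differences as the size of the symmetric difference -/
theorem dff_eq (g h : ℕ) (hg : g < Δ.faces.length) (hh : h < Δ.faces.length) :
    dff Δ.V (Δ.inc h) (Δ.inc g) =
      (Finset.univ.filter fun v : Fin Δ.V => ¬ (v ∈ Δ.faces[h]'hh ↔ v ∈ Δ.faces[g]'hg)).card := by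
  unfold dff
  rw [sum_range_fin, Finset.card_eq_sum_ones, Finset.sum_filter]
  apply Finset.sum_congr rfl
  intro v _
  rw [inc_eq Δ h hh, inc_eq Δ g hg]
  by_cases h1 : v ∈ Δ.faces[h]'hh <;> by_cases h2 : v ∈ Δ.faces[g]'hg <;> simp [h1, h2]

theorem sac_eq (g h : ℕ) (hg : g < Δ.faces.length) (hh : h < Δ.faces.length) :
    sac Δ.V (Δ.inc h) (Δ.inc g) = ∑ v : Fin Δ.V,
      if v ∈ Δ.faces[h]'hh ∧ v ∉ Δ.faces[g]'hg then
        (-1) ^ ((Δ.faces[h]'hh).filter (· < v)).card else 0 := by
  unfold sac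
  rw [sum_range_fin]
  apply Finset.sum_congr rfl
  intro v _
  rw [inc_eq Δ h hh, inc_eq Δ g hg, crd_below Δ h hh]
  simp

theorem mat_eq (d g h : ℕ) (hg : g < Δ.faces.length) (hh : h < Δ.faces.length) :
    Δ.mat d g h = if crd Δ.V (Δ.inc h) = d + 1 ∧ dff Δ.V (Δ.inc h) (Δ.inc g) = 1 then
      sac Δ.V (Δ.inc h) (Δ.inc g) else 0 := by
  rw [mat_sum Δ d g h hg hh, crd_inc Δ h hh]
  by_cases hcard : (Δ.faces[h]'hh).card = d + 1
  swap
  · rw [if_neg hcard, if_neg (fun hc => hcard hc.1)]
  rw [if_pos hcard]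
  rw [dff_eq Δ g h hg hh, sac_eq Δ g h hg hh]
  generalize Δ.faces[h]'hh = H at *
  generalize Δ.faces[g]'hg = G at *
  by_cases hd : (Finset.univ.filter fun v : Fin Δ.V => ¬ (v ∈ H ↔ v ∈ G)).card = 1
  · rw [if_pos ⟨hcard, hd⟩]
    obtain ⟨w, hw⟩ := Finset.card_eq_one.mp hd
    have hw' : ∀ v : Fin Δ.V, ¬ (v ∈ H ↔ v ∈ G) ↔ v = w := by
      intro v
      have := Finset.ext_iff.mp hw v
      simpa using this
    rw [sum_univ_mem]
    apply Finset.sum_congr rfl
    intro v _
    by_cases hvH : v ∈ H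
    · by_cases hvG : v ∈ G
      · have : H.erase v ≠ G := by
          intro he
          rw [← he] at hvG
          simp at hvG
        simp [hvH, hvG, this]
      · have hvw : v = w := (hw' v).mp (by tauto)
        have : H.erase v = G := by
          ext u
          rw [Finset.mem_erase]
          constructor
          · rintro ⟨hu, huH⟩
            by_contra huG
            exact hu (((hw' u).mp (by tauto)).trans hvw.symm)
          · intro huG
            have huv : u ≠ v := fun h => hvG (h ▸ huG)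
            refine ⟨huv, ?_⟩
            by_contra huH
            exact huv (((hw' u).mp (by tauto)).trans hvw.symm)
        simp [hvH, hvG, this]
    · simp [hvH]
  · rw [if_neg (fun hc => hd hc.2)]
    apply Finset.sum_eq_zero
    intro v hv
    rw [if_neg]
    intro he
    apply hd
    rw [Finset.card_eq_one]
    refine ⟨v, ?_⟩
    ext u
    simp only [Finset.mem_filter, Finset.mem_univ, true_and, Finset.mem_singleton]
    rw [← he, Finset.mem_erase]
    constructor
    · intro hu
      by_contra huv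
      exact hu ⟨fun h => ⟨huv, h⟩, fun h => h.2⟩
    · rintro rfl
      simp [hv]

theorem mat_abs_le (d g h : ℕ) : |Δ.mat d g h| ≤ 1 := by
  by_cases hgh : g < Δ.faces.length ∧ h < Δ.faces.length
  swap
  · unfold SComplex.mat
    rw [dif_neg hgh]
    simp
  obtain ⟨hg, hh⟩ := hgh
  rw [mat_sum Δ d g h hg hh]
  split_ifs with hcard
  swap
  · simp
  generalize Δ.faces[h]'hh = H at *
  generalize Δ.faces[g]'hg = G at *
  by_cases hex : ∃ v ∈ H, H.erase v = G
  · obtain ⟨v, hv, he⟩ := hex
    rw [Finset.sum_eq_single_of_mem v hv]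
    · rw [if_pos he]
      rw [abs_pow]
      simp
    · intro w hw hwv
      rw [if_neg]
      intro he'
      have h1 : w ∈ G := by
        rw [← he, Finset.mem_erase]
        exact ⟨hwv, hw⟩
      rw [← he'] at h1
      simp at h1
  · rw [Finset.sum_eq_zero]
    · simp
    · intro v hv
      rw [if_neg]
      intro he
      exact hex ⟨v, hv, he⟩

theorem low_eq (d : ℕ) : Δ.low d =
    ∑ f ∈ Finset.range Δ.faces.length, if crd Δ.V (Δ.inc f) ≤ d then 2 ^ f else 0 := by
  unfold SComplex.low
  rw [sum_range_fin]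
  apply Finset.sum_congr rfl
  intro f _
  rw [crd_inc Δ f f.2]
  rfl

theorem low_lt (d : ℕ) : Δ.low d < 2 ^ Δ.faces.length := by
  rw [low_eq]
  have h1 : ∑ f ∈ Finset.range Δ.faces.length, (if crd Δ.V (Δ.inc f) ≤ d then 2 ^ f else 0) ≤
      ∑ f ∈ Finset.range Δ.faces.length, 2 ^ f := by
    apply Finset.sum_le_sum
    intro f _
    split_ifs <;> simp
  have h2 : ∑ f ∈ Finset.range Δ.faces.length, 2 ^ f = 2 ^ Δ.faces.length - 1 := by
    have := Nat.geomSum_eq (le_refl 2) Δ.faces.length
    simpa using this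
  have h3 : 0 < 2 ^ Δ.faces.length := by positivity
  omega

theorem dim_le (d : ℕ) (hdim : Δ.HasDim d) (f : ℕ) (hf : f < Δ.faces.length) :
    crd Δ.V (Δ.inc f) ≤ d + 1 := by
  rw [crd_inc Δ f hf]
  exact hdim.2 _ (List.getElem_mem hf)

theorem dim_eq (d : ℕ) (hdim : Δ.HasDim d) :
    ∃ f < Δ.faces.length, crd Δ.V (Δ.inc f) = d + 1 := by
  obtain ⟨⟨s, hs, hcard⟩, _⟩ := hdim
  obtain ⟨f, hf, rfl⟩ := List.getElem_of_mem hs
  exact ⟨f, hf, by rw [crd_inc Δ f hf, hcard]⟩

end Pool.Agent.Lib.MP_d8fb5e_lc
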