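import Pool.Agent.Lib.MP_d8fb5e_lc.Model
import Pool.Agent.Lib.PRam.Prob

namespace Pool.Agent.Lib.MP_d8fb5e_lc

open scoped ENNReal
open Pool.Agent.Lib.PRam

namespace LawAux

/-! ### binary expansions -/

theorem foldl_val (β : List Bool) : ∀ r : ℕ,
    β.foldl (fun r b => 2 * r + (if b then 1 else 0)) r = r * 2 ^ β.length + val β := by
  induction β with
  | nil => intro r; simp [val]
  | cons b β ih =>
    intro r
    unfold val
    simp only [List.foldl_cons, List.length_cons]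
    rw [ih, ih (2 * 0 + _)]
    ring

theorem val_cons (b : Bool) (β : List Bool) :
    val (b :: β) = (if b then 1 else 0) * 2 ^ β.length + val β := by
  unfold val
  simp only [List.foldl_cons]
  rw [foldl_val]
  simp [val]

theorem val_lt (β : List Bool) : val β < 2 ^ β.length := by
  induction β with
  | nil => simp [val]
  | cons b β ih =>
    rw [val_cons, List.length_cons, pow_succ]
    cases b <;> simp <;> omega

theorem val_inj : ∀ β γ : List Bool, β.length = γ.length → val β = val γ → β = γ := by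
  intro β
  induction β with
  | nil => intro γ h _; exact (List.length_eq_zero_iff.mp h.symm).symm
  | cons b β ih =>
    intro γ h hv
    rcases γ with _ | ⟨c, γ⟩
    · simp at h
    · have hl : β.length = γ.length := by simpa using h
      rw [val_cons, val_cons, hl] at hv
      have h1 := val_lt β
      have h2 := val_lt γ
      rw [hl] at h1
      have hbc : b = c := by
        cases b <;> cases c <;> simp at hv ⊢ <;> omega
      subst hbc
      have : val β = val γ := by omega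
      rw [ih γ hl this]

theorem exists_bits (ℓ : ℕ) (u : ℕ) (hu : u < 2 ^ ℓ) :
    ∃ β : List Bool, β.length = ℓ ∧ val β = u := by
  induction ℓ generalizing u with
  | zero => exact ⟨[], rfl, by simp at hu; simp [val, hu]⟩
  | succ ℓ ih =>
    by_cases h : u < 2 ^ ℓ
    · obtain ⟨β, h1, h2⟩ := ih u h
      exact ⟨false :: β, by simp [h1], by rw [val_cons]; simp [h2]⟩
    · obtain ⟨β, h1, h2⟩ := ih (u - 2 ^ ℓ) (by rw [pow_succ] at hu; omega)
      refine ⟨true :: β, by simp [h1], ?_⟩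
      rw [val_cons, h1, h2]
      simp
      omega

open Classical in
/-- the bit string of length `ℓ` with value `u` -/
noncomputable def bits (ℓ : ℕ) (u : ℕ) : List Bool :=
  if hu : u < 2 ^ ℓ then (exists_bits ℓ u hu).choose else List.replicate ℓ false

theorem bits_length (ℓ u : ℕ) : (bits ℓ u).length = ℓ := by
  unfold bits
  split_ifs with hu
  · exact (exists_bits ℓ u hu).choose_spec.1
  · simp

theorem val_bits {ℓ u : ℕ} (hu : u < 2 ^ ℓ) : val (bits ℓ u) = u := by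
  unfold bits
  rw [dif_pos hu]
  exact (exists_bits ℓ u hu).choose_spec.2

theorem bits_inj {ℓ u v : ℕ} (hu : u < 2 ^ ℓ) (hv : v < 2 ^ ℓ) (h : bits ℓ u = bits ℓ v) :
    u = v := by
  rw [← val_bits hu, ← val_bits hv, h]

/-! ### sums over lists -/

theorem tsum_list {W : Type*} [Fintype W] (f : ℕ → ℝ≥0∞) :
    ∑' l : List W, f l.length = ∑' k : ℕ, (Fintype.card W : ℝ≥0∞) ^ k * f k := by
  rw [← (Equiv.sigmaFiberEquiv (List.length (α := W))).tsum_eq]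
  rw [ENNReal.tsum_sigma' ]
  refine tsum_congr fun k => ?_
  have : ∀ b : {x : List W // x.length = k},
      f (Equiv.sigmaFiberEquiv (List.length (α := W)) ⟨k, b⟩).length = f k := by
    intro b
    simp [Equiv.sigmaFiberEquiv, b.2]
  simp_rw [this]
  let _ : Fintype {x : List W // x.length = k} := inferInstanceAs (Fintype (List.Vector W k))
  rw [tsum_fintype, Finset.sum_const, Finset.card_univ]
  have h2 : Fintype.card {x : List W // x.length = k} = Fintype.card W ^ k := card_vector k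
  rw [h2]
  simp

theorem tsum_geom_succ (r : ℝ≥0∞) :
    ∑' k : ℕ, ((k + 1 : ℕ) : ℝ≥0∞) * r ^ k = (1 - r)⁻¹ * (1 - r)⁻¹ := by
  rw [← ENNReal.tsum_geometric]
  rw [← ENNReal.tsum_mul_right]
  simp_rw [← ENNReal.tsum_mul_left]
  rw [← ENNReal.tsum_prod (f := fun i j : ℕ => r ^ i * r ^ j)]
  rw [← Equiv.tsum_eq (Finset.HasAntidiagonal.sigmaAntidiagonalEquivProd (A := ℕ))
    (fun p : ℕ × ℕ => r ^ p.1 * r ^ p.2)]
  rw [ENNReal.tsum_sigma']
  refine tsum_congr fun k => ?_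
  rw [tsum_fintype]
  have : ∀ b : Finset.HasAntidiagonal.antidiagonal k,
      r ^ (Finset.HasAntidiagonal.sigmaAntidiagonalEquivProd (A := ℕ) ⟨k, b⟩).1 *
      r ^ (Finset.HasAntidiagonal.sigmaAntidiagonalEquivProd (A := ℕ) ⟨k, b⟩).2 = r ^ k := by
    intro b
    have hb := Finset.HasAntidiagonal.mem_antidiagonal.mp b.2
    simp only [Finset.HasAntidiagonal.sigmaAntidiagonalEquivProd_apply]
    rw [← pow_add, hb]
  simp_rw [this]
  simp

/-! ### the runs -/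

section

variable (ℓ R M : ℕ)

/-- accepted first block -/
abbrev Fast : Type := {u : Fin (2 ^ ℓ) // R ≤ (u : ℕ)}
/-- rejected first block -/
abbrev Slow : Type := {u : Fin (2 ^ ℓ) // (u : ℕ) < R}

/-- index type of the runs -/
abbrev Idx : Type := Fast ℓ R ⊕ (Slow ℓ R × List (Fast ℓ M) × Slow ℓ M)

/-- the coin flips of a run -/
noncomputable def flips : Idx ℓ R M → List Bool
  | .inl u => bits ℓ u.1
  | .inr p => bits ℓ p.1.1 ++ ((p.2.1.map fun w => bits ℓ w.1).flatten ++ bits ℓ p.2.2.1)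

theorem tail_inj : ∀ (rej rej' : List (Fast ℓ M)) (v v' : Slow ℓ M),
    (rej.map fun w => bits ℓ w.1).flatten ++ bits ℓ v.1 =
      (rej'.map fun w => bits ℓ w.1).flatten ++ bits ℓ v'.1 → rej = rej' ∧ v = v' := by
  intro rej
  induction rej with
  | nil =>
    intro rej' v v' h
    rcases rej' with _ | ⟨w, rej'⟩
    · simp only [List.map_nil, List.flatten_nil, List.nil_append] at h
      have := bits_inj v.1.2 v'.1.2 h
      exact ⟨rfl, Subtype.ext (Fin.ext this)⟩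
    · simp only [List.map_nil, List.flatten_nil, List.nil_append, List.map_cons,
        List.flatten_cons, List.append_assoc] at h
      have h1 := congrArg (List.take ℓ) h
      rw [List.take_of_length_le (by rw [bits_length]),
        List.take_append_of_le_length (by rw [bits_length]),
        List.take_of_length_le (by rw [bits_length])] at h1
      have h2 := bits_inj v.1.2 w.1.2 h1
      have h3 := v.2
      have h4 := w.2
      omega
  | cons w rej ih =>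
    intro rej' v v' h
    rcases rej' with _ | ⟨w', rej'⟩
    · simp only [List.map_nil, List.flatten_nil, List.nil_append, List.map_cons,
        List.flatten_cons, List.append_assoc] at h
      have h1 := congrArg (List.take ℓ) h
      rw [List.take_append_of_le_length (by rw [bits_length]),
        List.take_of_length_le (by rw [bits_length]),
        List.take_of_length_le (by rw [bits_length])] at h1
      have h2 := bits_inj w.1.2 v'.1.2 h1
      have h3 := v'.2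
      have h4 := w.2
      omega
    · simp only [List.map_cons, List.flatten_cons, List.append_assoc] at h
      obtain ⟨h1, h2⟩ := List.append_inj h (by rw [bits_length, bits_length])
      obtain ⟨h3, h4⟩ := ih _ _ _ h2
      have h5 := bits_inj w.1.2 w'.1.2 h1
      exact ⟨by rw [h3, Subtype.ext (Fin.ext h5)], h4⟩

theorem flips_take (i : Idx ℓ R M) : (flips ℓ R M i).take ℓ = match i with
    | .inl u => bits ℓ u.1
    | .inr p => bits ℓ p.1.1 := by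
  rcases i with u | p
  · simp only [flips]
    rw [List.take_of_length_le (by rw [bits_length])]
  · simp only [flips]
    rw [List.take_append_of_le_length (by rw [bits_length]),
      List.take_of_length_le (by rw [bits_length])]

theorem flips_inj : Function.Injective (flips ℓ R M) := by
  intro i j h
  have h1 := congrArg (List.take ℓ) h
  rw [flips_take, flips_take] at h1
  rcases i with u | ⟨u, rej, v⟩ <;> rcases j with u' | ⟨u', rej', v'⟩
  · simp only at h1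
    have h2 := bits_inj u.1.2 u'.1.2 h1
    rw [Subtype.ext (Fin.ext h2)]
  · simp only at h1
    have h2 := bits_inj u.1.2 u'.1.2 h1
    have h3 := u.2
    have h4 := u'.2
    omega
  · simp only at h1
    have h2 := bits_inj u.1.2 u'.1.2 h1
    have h3 := u.2
    have h4 := u'.2
    omega
  · simp only at h1
    have h2 := bits_inj u.1.2 u'.1.2 h1
    obtain rfl : u = u' := Subtype.ext (Fin.ext h2)
    simp only [flips] at h
    have h3 := List.append_cancel_left h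
    obtain ⟨rfl, rfl⟩ := tail_inj ℓ M _ _ _ _ h3
    rfl

theorem flips_length (i : Idx ℓ R M) : (flips ℓ R M i).length = match i with
    | .inl _ => ℓ
    | .inr p => ℓ + (p.2.1.length * ℓ + ℓ) := by
  rcases i with u | ⟨u, rej, v⟩
  · simp only [flips, bits_length]
  · simp only [flips, List.length_append, bits_length, List.length_flatten, List.map_map]
    congr 2
    have : (List.length ∘ fun w : Fast ℓ M => bits ℓ w.1) = fun _ => ℓ := by
      funext w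
      simp [bits_length]
    rw [this]
    simp

theorem card_slow (h : R ≤ 2 ^ ℓ) : Fintype.card (Slow ℓ R) = R := by
  rw [Fintype.card_subtype]
  have : (Finset.univ.filter fun u : Fin (2 ^ ℓ) => (u : ℕ) < R).card =
      (Finset.range R).card := by
    refine Finset.card_bij (fun u _ => (u : ℕ)) ?_ ?_ ?_
    · intro u hu; simpa using hu
    · intro u _ v _ h; exact Fin.ext h
    · intro u hu
      have : u < R := by simpa using hu
      exact ⟨⟨u, by omega⟩, by simpa using this, rfl⟩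
  rw [this, Finset.card_range]

theorem card_fast (h : R ≤ 2 ^ ℓ) : Fintype.card (Fast ℓ R) = 2 ^ ℓ - R := by
  have h1 := Fintype.card_subtype_compl (fun u : Fin (2 ^ ℓ) => (u : ℕ) < R)
  have h2 := card_slow ℓ R h
  rw [h2, Fintype.card_fin] at h1
  rw [← h1]
  exact Fintype.card_congr (Equiv.subtypeEquivRight fun u => by simp)

theorem q_mul : ((1 / 2 : ℝ≥0∞) ^ ℓ) * 2 ^ ℓ = 1 := by
  rw [← mul_pow, one_div, ENNReal.inv_mul_cancel (by simp) (by simp), one_pow]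

theorem q_ne_zero : ((1 / 2 : ℝ≥0∞) ^ ℓ) ≠ 0 := by
  simp

theorem q_ne_top : ((1 / 2 : ℝ≥0∞) ^ ℓ) ≠ ⊤ := by
  simp

theorem one_sub_rho (hM : M ≤ 2 ^ ℓ) :
    1 - ((2 ^ ℓ - M : ℕ) : ℝ≥0∞) * (1 / 2 : ℝ≥0∞) ^ ℓ = M * (1 / 2 : ℝ≥0∞) ^ ℓ := by
  have h1 : ((2 ^ ℓ - M : ℕ) : ℝ≥0∞) * (1 / 2 : ℝ≥0∞) ^ ℓ + M * (1 / 2 : ℝ≥0∞) ^ ℓ = 1 := by
    rw [← add_mul, ← Nat.cast_add, Nat.sub_add_cancel hM]
    push_cast
    rw [mul_comm]
    exact q_mul ℓ
  calc 1 - ((2 ^ ℓ - M : ℕ) : ℝ≥0∞) * (1 / 2 : ℝ≥0∞) ^ ℓ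
      = (((2 ^ ℓ - M : ℕ) : ℝ≥0∞) * (1 / 2 : ℝ≥0∞) ^ ℓ + M * (1 / 2 : ℝ≥0∞) ^ ℓ) -
        ((2 ^ ℓ - M : ℕ) : ℝ≥0∞) * (1 / 2 : ℝ≥0∞) ^ ℓ := by rw [h1]
    _ = _ := ENNReal.add_sub_cancel_left
        (ENNReal.mul_ne_top (ENNReal.natCast_ne_top _) (q_ne_top ℓ))

theorem tsum_idx (hR : R ≤ 2 ^ ℓ) (hM : M ≤ 2 ^ ℓ) (a : Fast ℓ R → ℝ≥0∞)
    (c : ℕ → Slow ℓ M → ℝ≥0∞) (f : Idx ℓ R M → ℝ≥0∞)
    (hl : ∀ u, f (.inl u) = a u * (1 / 2 : ℝ≥0∞) ^ ℓ)
    (hr : ∀ u rej v, f (.inr (u, rej, v)) = (1 / 2 : ℝ≥0∞) ^ ℓ * ((1 / 2 : ℝ≥0∞) ^ ℓ *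
      (c rej.length v * ((1 / 2 : ℝ≥0∞) ^ ℓ) ^ rej.length))) :
    ∑' i, f i = (∑ u, a u) * (1 / 2 : ℝ≥0∞) ^ ℓ + R * ((1 / 2 : ℝ≥0∞) ^ ℓ *
      ((1 / 2 : ℝ≥0∞) ^ ℓ * ∑ v, ∑' k : ℕ, ((2 ^ ℓ - M : ℕ) : ℝ≥0∞) ^ k *
        (c k v * ((1 / 2 : ℝ≥0∞) ^ ℓ) ^ k))) := by
  rw [Summable.tsum_sum ENNReal.summable ENNReal.summable]
  congr 1
  · rw [tsum_fintype, Finset.sum_mul]
    exact Finset.sum_congr rfl fun u _ => hl u
  · rw [ENNReal.tsum_prod', tsum_fintype]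
    have h1 : ∀ u : Slow ℓ R, ∑' p : List (Fast ℓ M) × Slow ℓ M, f (.inr (u, p)) =
        (1 / 2 : ℝ≥0∞) ^ ℓ *
      ((1 / 2 : ℝ≥0∞) ^ ℓ * ∑ v, ∑' k : ℕ, ((2 ^ ℓ - M : ℕ) : ℝ≥0∞) ^ k *
        (c k v * ((1 / 2 : ℝ≥0∞) ^ ℓ) ^ k)) := by
      intro u
      rw [ENNReal.tsum_prod', ENNReal.tsum_comm, tsum_fintype]
      simp_rw [hr, ENNReal.tsum_mul_left]
      rw [← Finset.mul_sum, ← Finset.mul_sum]
      congr 2
      refine Finset.sum_congr rfl fun v _ => ?_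
      rw [tsum_list (fun k => c k v * ((1 / 2 : ℝ≥0∞) ^ ℓ) ^ k), card_fast ℓ M hM]
    simp_rw [h1]
    rw [Finset.sum_const, Finset.card_univ, card_slow ℓ R hR, nsmul_eq_mul]

theorem geo (hM : M ≤ 2 ^ ℓ) :
    ∑' k : ℕ, ((2 ^ ℓ - M : ℕ) : ℝ≥0∞) ^ k * ((1 / 2 : ℝ≥0∞) ^ ℓ) ^ k =
      (M * (1 / 2 : ℝ≥0∞) ^ ℓ)⁻¹ := by
  rw [← one_sub_rho ℓ M hM, ← ENNReal.tsum_geometric]
  exact tsum_congr fun k => by rw [mul_pow]

theorem geo1 (hM : M ≤ 2 ^ ℓ) :
    ∑' k : ℕ, ((k + 1 : ℕ) : ℝ≥0∞) * (((2 ^ ℓ - M : ℕ) : ℝ≥0∞) ^ k * ((1 / 2 : ℝ≥0∞) ^ ℓ) ^ k) =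
      (M * (1 / 2 : ℝ≥0∞) ^ ℓ)⁻¹ * (M * (1 / 2 : ℝ≥0∞) ^ ℓ)⁻¹ := by
  rw [← one_sub_rho ℓ M hM, ← tsum_geom_succ]
  exact tsum_congr fun k => by rw [mul_pow]

theorem q_mul_inv :
    (1 / 2 : ℝ≥0∞) ^ ℓ * (M * (1 / 2 : ℝ≥0∞) ^ ℓ)⁻¹ = (M : ℝ≥0∞)⁻¹ := by
  rw [ENNReal.mul_inv (Or.inr (q_ne_top ℓ)) (Or.inr (q_ne_zero ℓ)), mul_comm, mul_assoc,
    ENNReal.inv_mul_cancel (q_ne_zero ℓ) (q_ne_top ℓ), mul_one]

theorem card_filter_slow (h : ℕ → ℤ) (y : ℤ) (hM : M ≤ 2 ^ ℓ) :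
    ∑ v : Slow ℓ M, (if h v.1 = y then (1 : ℝ≥0∞) else 0) =
      ((Finset.range M).filter fun v => h v = y).card := by
  rw [Finset.sum_ite, Finset.sum_const_zero, add_zero, Finset.sum_const, nsmul_eq_mul, mul_one]
  congr 1
  refine Finset.card_bij (fun u _ => (u.1 : ℕ)) ?_ ?_ ?_
  · intro u hu
    have := u.2
    simp only [Finset.mem_filter, Finset.mem_univ, true_and] at hu
    simp [hu, this]
  · intro u _ v _ h; exact Subtype.ext (Fin.ext h)
  · intro u hu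
    simp only [Finset.mem_filter, Finset.mem_range] at hu
    exact ⟨⟨⟨u, by omega⟩, hu.1⟩, by simpa using hu.2, rfl⟩

theorem card_filter_fast (g : ℕ → ℤ) (y : ℤ) :
    ∑ v : Fast ℓ R, (if g v.1 = y then (1 : ℝ≥0∞) else 0) =
      ((Finset.range (2 ^ ℓ)).filter fun u => R ≤ u ∧ g u = y).card := by
  rw [Finset.sum_ite, Finset.sum_const_zero, add_zero, Finset.sum_const, nsmul_eq_mul, mul_one]
  congr 1
  refine Finset.card_bij (fun u _ => (u.1 : ℕ)) ?_ ?_ ?_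
  · intro u hu
    have := u.2
    simp only [Finset.mem_filter, Finset.mem_univ, true_and] at hu
    simp only [Finset.mem_filter, Finset.mem_range]
    exact ⟨u.1.2, this, hu⟩
  · intro u _ v _ h; exact Subtype.ext (Fin.ext h)
  · intro u hu
    simp only [Finset.mem_filter, Finset.mem_range] at hu
    exact ⟨⟨⟨u, hu.1⟩, hu.2.1⟩, by simpa using hu.2.2, rfl⟩

theorem flips_pow (i : Idx ℓ R M) : (1 / 2 : ℝ≥0∞) ^ (flips ℓ R M i).length = match i with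
    | .inl _ => (1 / 2 : ℝ≥0∞) ^ ℓ
    | .inr p => (1 / 2 : ℝ≥0∞) ^ ℓ * ((1 / 2 : ℝ≥0∞) ^ ℓ *
        ((1 / 2 : ℝ≥0∞) ^ ℓ) ^ p.2.1.length) := by
  rw [flips_length]
  rcases i with u | ⟨u, rej, v⟩
  · rfl
  · simp only
    rw [pow_add, pow_add, ← pow_mul, mul_comm ℓ rej.length]
    ring

end

end LawAux

open LawAux

theorem law {P : List Instr} {x : List ℤ} (ℓ R M B1 B2 : ℕ) (g h : ℕ → ℤ) (hR : R ≤ 2 ^ ℓ)
    (hM0 : 0 < M) (hM : M ≤ 2 ^ ℓ)
    (hfast : ∀ β : List Bool, β.length = ℓ → R ≤ val β → ∃ T ≤ B1, HaltsOn P x β T (g (val β)))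
    (hslow : ∀ β : List Bool, β.length = ℓ → val β < R → ∀ rej : List (List Bool),
      (∀ γ ∈ rej, γ.length = ℓ ∧ M ≤ val γ) → ∀ acc : List Bool, acc.length = ℓ → val acc < M →
      ∃ T ≤ B2 + (rej.length + 1) * B1,
        HaltsOn P x (β ++ (rej.flatten ++ acc)) T (h (val acc))) :
    (∀ y : ℤ, outProb P x y =
      ((((Finset.range (2 ^ ℓ)).filter fun u => R ≤ u ∧ g u = y).card : ℝ≥0∞) +
        (R : ℝ≥0∞) / M * ((Finset.range M).filter fun v => h v = y).card) / 2 ^ ℓ) ∧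
    expCost P x ≤ B1 + (R : ℝ≥0∞) / 2 ^ ℓ * (B2 + (2 ^ ℓ : ℝ≥0∞) / M * B1) := by
  have hrun : ∀ i : Idx ℓ R M, ∃ T : ℕ, (T ≤ match i with
      | .inl _ => B1
      | .inr p => B2 + (p.2.1.length + 1) * B1) ∧ HaltsOn P x (flips ℓ R M i) T (match i with
      | .inl u => g u.1
      | .inr p => h p.2.2.1) := by
    intro i
    rcases i with u | ⟨u, rej, v⟩
    · obtain ⟨T, h1, h2⟩ := hfast (bits ℓ u.1) (bits_length _ _) (by
        rw [val_bits u.1.2]; exact u.2)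
      rw [val_bits u.1.2] at h2
      exact ⟨T, h1, h2⟩
    · obtain ⟨T, h1, h2⟩ := hslow (bits ℓ u.1) (bits_length _ _) (by
        rw [val_bits u.1.2]; exact u.2) (rej.map fun w => bits ℓ w.1) (by
        intro γ hγ
        obtain ⟨w, _, rfl⟩ := List.mem_map.mp hγ
        exact ⟨bits_length _ _, by rw [val_bits w.1.2]; exact w.2⟩) (bits ℓ v.1)
        (bits_length _ _) (by rw [val_bits v.1.2]; exact v.2)
      rw [val_bits v.1.2] at h2
      rw [List.length_map] at h1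
      exact ⟨T, h1, h2⟩
  choose T hT hH using hrun
  have hM0' : (M : ℝ≥0∞) ≠ 0 := by exact_mod_cast hM0.ne'
  have hMt : (M : ℝ≥0∞) ≠ ⊤ := by simp
  have hq : ((2 : ℝ≥0∞) ^ ℓ)⁻¹ = (1 / 2 : ℝ≥0∞) ^ ℓ := by
    rw [one_div, ENNReal.inv_pow]
  have hcard : ∑ u : Fast ℓ R, (1 : ℝ≥0∞) = ((2 ^ ℓ - R : ℕ) : ℝ≥0∞) := by
    rw [Finset.sum_const, Finset.card_univ, card_fast ℓ R hR]; simp
  have hsum : ∑' i, (1 / 2 : ℝ≥0∞) ^ (flips ℓ R M i).length = 1 := by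
    rw [tsum_idx ℓ R M hR hM (fun _ => 1) (fun _ _ => 1) _ (fun u => by rw [flips_pow]; simp)
      (fun u rej v => by rw [flips_pow]; simp)]
    simp_rw [one_mul]
    rw [geo ℓ M hM, hcard, Finset.sum_const, Finset.card_univ, card_slow ℓ M hM, nsmul_eq_mul]
    have h1 : (1 / 2 : ℝ≥0∞) ^ ℓ * ((M : ℝ≥0∞) * (M * (1 / 2 : ℝ≥0∞) ^ ℓ)⁻¹) = 1 := by
      rw [mul_left_comm, q_mul_inv ℓ M, ENNReal.mul_inv_cancel hM0' hMt]
    rw [h1, mul_one, ← add_mul, ← Nat.cast_add, Nat.sub_add_cancel hR]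
    push_cast
    rw [mul_comm]
    exact q_mul ℓ
  constructor
  · intro y
    rw [outProb_eq (flips_inj ℓ R M) hH hsum y]
    rw [tsum_idx ℓ R M hR hM (fun u => if g u.1 = y then 1 else 0)
      (fun _ v => if h v.1 = y then 1 else 0) _
      (fun u => by rw [flips_pow]; simp) (fun u rej v => by rw [flips_pow]; simp)]
    have h1 : ∀ v : Slow ℓ M, ∑' k : ℕ, ((2 ^ ℓ - M : ℕ) : ℝ≥0∞) ^ k *
        ((if h v.1 = y then 1 else 0) * ((1 / 2 : ℝ≥0∞) ^ ℓ) ^ k) =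
        (if h v.1 = y then 1 else 0) * (M * (1 / 2 : ℝ≥0∞) ^ ℓ)⁻¹ := by
      intro v
      rw [← geo ℓ M hM, ← ENNReal.tsum_mul_left]
      exact tsum_congr fun k => by ring
    simp_rw [h1]
    rw [← Finset.sum_mul, card_filter_slow ℓ M h y hM, card_filter_fast ℓ R g y]
    rw [mul_left_comm ((1 / 2 : ℝ≥0∞) ^ ℓ) (Finset.card _ : ℝ≥0∞), q_mul_inv ℓ M]
    rw [div_eq_mul_inv (_ + _) ((2 : ℝ≥0∞) ^ ℓ), div_eq_mul_inv (R : ℝ≥0∞) M, hq]
    ring
  · refine (expCost_le (flips_inj ℓ R M) hH hT hsum).trans ?_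
    rw [tsum_idx ℓ R M hR hM (fun u => (B1 : ℝ≥0∞))
      (fun k v => B2 + ((k + 1 : ℕ) : ℝ≥0∞) * B1) _
      (fun u => by rw [flips_pow]) (fun u rej v => by
        rw [flips_pow]
        push_cast
        ring)]
    have h1 : ∑' k : ℕ, ((2 ^ ℓ - M : ℕ) : ℝ≥0∞) ^ k *
        ((B2 + ((k + 1 : ℕ) : ℝ≥0∞) * B1) * ((1 / 2 : ℝ≥0∞) ^ ℓ) ^ k) =
        B2 * (M * (1 / 2 : ℝ≥0∞) ^ ℓ)⁻¹ +
          B1 * ((M * (1 / 2 : ℝ≥0∞) ^ ℓ)⁻¹ * (M * (1 / 2 : ℝ≥0∞) ^ ℓ)⁻¹) := by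
      rw [← geo1 ℓ M hM, ← geo ℓ M hM, ← ENNReal.tsum_mul_left, ← ENNReal.tsum_mul_left,
        ← ENNReal.tsum_add]
      exact tsum_congr fun k => by ring
    simp_rw [h1]
    have h0 : ∀ c : ℝ≥0∞, ∑ _v : Slow ℓ M, c = M * c := fun c => by
      rw [Finset.sum_const, Finset.card_univ, card_slow ℓ M hM, nsmul_eq_mul]
    rw [h0]
    have h2 : (1 / 2 : ℝ≥0∞) ^ ℓ * ((M : ℝ≥0∞) * (B2 * (M * (1 / 2 : ℝ≥0∞) ^ ℓ)⁻¹ +
        B1 * ((M * (1 / 2 : ℝ≥0∞) ^ ℓ)⁻¹ * (M * (1 / 2 : ℝ≥0∞) ^ ℓ)⁻¹))) =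
        B2 + (2 ^ ℓ : ℝ≥0∞) / M * B1 := by
      have h3 : (1 / 2 : ℝ≥0∞) ^ ℓ * ((M : ℝ≥0∞) * (M * (1 / 2 : ℝ≥0∞) ^ ℓ)⁻¹) = 1 := by
        rw [mul_left_comm, q_mul_inv ℓ M, ENNReal.mul_inv_cancel hM0' hMt]
      have h4 : (M * (1 / 2 : ℝ≥0∞) ^ ℓ)⁻¹ = (2 ^ ℓ : ℝ≥0∞) / M := by
        rw [← hq, ENNReal.mul_inv (Or.inl hM0') (Or.inl hMt), inv_inv, div_eq_mul_inv, mul_comm]
      calc _ = ((1 / 2 : ℝ≥0∞) ^ ℓ * ((M : ℝ≥0∞) * (M * (1 / 2 : ℝ≥0∞) ^ ℓ)⁻¹)) *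
            (B2 + B1 * (M * (1 / 2 : ℝ≥0∞) ^ ℓ)⁻¹) := by ring
        _ = _ := by rw [h3, h4]; ring
    rw [h2]
    refine add_le_add ?_ ?_
    · rw [Finset.sum_const, Finset.card_univ, card_fast ℓ R hR, nsmul_eq_mul,
        mul_comm _ (B1 : ℝ≥0∞), mul_assoc]
      calc (B1 : ℝ≥0∞) * (((2 ^ ℓ - R : ℕ) : ℝ≥0∞) * (1 / 2) ^ ℓ)
          ≤ B1 * (((2 ^ ℓ : ℕ) : ℝ≥0∞) * (1 / 2) ^ ℓ) := by
            gcongr
            exact Nat.sub_le _ _
        _ = B1 := by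
            push_cast
            rw [mul_comm (2 ^ ℓ : ℝ≥0∞), q_mul, mul_one]
    · rw [div_eq_mul_inv (R : ℝ≥0∞) (2 ^ ℓ), hq, mul_assoc]

end Pool.Agent.Lib.MP_d8fb5e_lc
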