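import Pool.Agent.Lib.MP_d8fb5e_lc.Model

namespace Pool.Agent.Lib.MP_d8fb5e_lc

namespace TreesAux

/-- the number with given binary digits -/
theorem mask_succ {N : ℕ} (p : Fin (N + 1) → Prop) [DecidablePred p] :
    (∑ i : Fin (N + 1), if p i then 2 ^ (i : ℕ) else 0) =
      (∑ i : Fin N, if p i.castSucc then 2 ^ (i : ℕ) else 0) +
        if p (Fin.last N) then 2 ^ N else 0 := by
  rw [Fin.sum_univ_castSucc]
  simp

theorem mask_lt : ∀ {N : ℕ} (p : Fin N → Prop) [DecidablePred p],
    (∑ i : Fin N, if p i then 2 ^ (i : ℕ) else 0) < 2 ^ N := by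
  intro N
  induction N with
  | zero => intro p _; simp
  | succ N ih =>
    intro p _
    rw [mask_succ]
    have := ih (fun i => p i.castSucc)
    rw [pow_succ]
    split_ifs <;> omega

theorem mask_testBit : ∀ {N : ℕ} (p : Fin N → Prop) [DecidablePred p] (j : Fin N),
    (∑ i : Fin N, if p i then 2 ^ (i : ℕ) else 0).testBit j = decide (p j) := by
  intro N
  induction N with
  | zero => intro p _ j; exact j.elim0
  | succ N ih =>
    intro p _ j
    rw [mask_succ]
    have hlt := mask_lt (fun i : Fin N => p i.castSucc)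
    induction j using Fin.lastCases with
    | last =>
      split_ifs with h
      · rw [add_comm, Fin.val_last, Nat.testBit_two_pow_add_eq, Nat.testBit_eq_false_of_lt hlt]
        simp [h]
      · rw [add_zero, Fin.val_last, Nat.testBit_eq_false_of_lt hlt]
        simp [h]
    | cast j =>
      have := ih (fun i => p i.castSucc) j
      rw [Fin.val_castSucc]
      split_ifs with h
      · rw [add_comm, Nat.testBit_two_pow_add_gt j.2, this]
      · rw [add_zero, this]

theorem mask_of_testBit {N : ℕ} {z : ℕ} (hz : z < 2 ^ N) :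
    (∑ i : Fin N, if z.testBit i = true then 2 ^ (i : ℕ) else 0) = z := by
  apply Nat.eq_of_testBit_eq
  intro i
  by_cases hi : i < N
  · have := mask_testBit (fun i : Fin N => z.testBit i = true) ⟨i, hi⟩
    simp only at this
    rw [this]
    simp
  · rw [Nat.testBit_eq_false_of_lt, Nat.testBit_eq_false_of_lt]
    · exact hz.trans_le (Nat.pow_le_pow_right (by norm_num) (not_lt.1 hi))
    · exact (mask_lt _).trans_le (Nat.pow_le_pow_right (by norm_num) (not_lt.1 hi))

section lin

variable (n : ℕ) (A : ℕ → ℕ → ℤ)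

/-- the columns -/
def cv (j : Fin n) : Fin n → ℚ := fun i => (A i j : ℚ)

/-- the set coded by `z` -/
def bits (z : ℕ) : Set (Fin n) := {j | z.testBit j = true}

theorem indepM_iff (z : ℕ) : indepM n A z = true ↔ LinearIndepOn ℚ (cv n A) (bits n z) := by
  unfold indepM
  rw [runCols_ok_iff]
  rfl

theorem pop_eq (z : ℕ) : pop n z = Finset.card (Finset.univ.filter
    fun j : Fin n => z.testBit (j : ℕ) = true) := by
  unfold pop
  have h1 : (List.range n).filter (fun j => z.testBit j) =
      (((List.finRange n).filter fun j : Fin n => z.testBit j).map Fin.val) := by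
    conv_lhs => rw [← List.map_coe_finRange_eq_range]
    rw [List.filter_map]
    rfl
  rw [h1, List.length_map]
  rw [← List.toFinset_card_of_nodup ((List.nodup_finRange n).filter _)]
  apply congrArg
  ext j
  simp

theorem pop_eq_finrank (z : ℕ) (h : LinearIndepOn ℚ (cv n A) (bits n z)) :
    pop n z = Module.finrank ℚ (Submodule.span ℚ (cv n A '' bits n z)) := by
  classical
  have h1 := finrank_span_eq_card (R := ℚ) (b := fun j : bits n z => cv n A j) h
  rw [show Set.range (fun j : bits n z => cv n A j) = cv n A '' bits n z by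
    rw [Set.image_eq_range]] at h1
  rw [h1, pop_eq]
  rw [Fintype.card_subtype]
  apply congrArg
  ext j
  rw [Finset.mem_filter, Finset.mem_filter]
  rfl

theorem greedy_spec (j : ℕ) (hj : j ≤ n) : greedy n A j < 2 ^ j ∧
    LinearIndepOn ℚ (cv n A) (bits n (greedy n A j)) ∧
    Submodule.span ℚ (cv n A '' bits n (greedy n A j)) =
      Submodule.span ℚ (cv n A '' {i : Fin n | (i : ℕ) < j}) := by
  induction j with
  | zero =>
    simp [greedy, bits]
  | succ j ih =>
    obtain ⟨h1, h2, h3⟩ := ih (by omega)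
    set g := greedy n A j with hg
    have hjn : j < n := by omega
    have hbits : bits n (g + 2 ^ j) = insert ⟨j, hjn⟩ (bits n g) := by
      ext i
      simp only [bits, Set.mem_ofPred_eq, Set.mem_insert_iff, Fin.ext_iff]
      rw [add_comm]
      rcases lt_trichotomy (i : ℕ) j with h | h | h
      · rw [Nat.testBit_two_pow_add_gt h]
        simp [h.ne]
      · rw [h, Nat.testBit_two_pow_add_eq, Nat.testBit_eq_false_of_lt h1]
        simp
      · rw [Nat.testBit_eq_false_of_lt, Nat.testBit_eq_false_of_lt]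
        · simp [h.ne']
        · exact h1.trans_le (Nat.pow_le_pow_right (by norm_num) h.le)
        · calc 2 ^ j + g < 2 ^ j + 2 ^ j := by omega
            _ = 2 ^ (j + 1) := by rw [pow_succ]; ring
            _ ≤ _ := Nat.pow_le_pow_right (by norm_num) h
    have hnot : (⟨j, hjn⟩ : Fin n) ∉ bits n g := by
      simp only [bits, Set.mem_ofPred_eq]
      rw [Nat.testBit_eq_false_of_lt h1]
      simp
    have hset : {i : Fin n | (i : ℕ) < j + 1} = insert ⟨j, hjn⟩ {i : Fin n | (i : ℕ) < j} := by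
      ext i
      simp only [Set.mem_ofPred_eq, Set.mem_insert_iff, Fin.ext_iff]
      omega
    have hgr : greedy n A (j + 1) = if indepM n A (g + 2 ^ j) then g + 2 ^ j else g := rfl
    rw [hgr]
    by_cases hi : indepM n A (g + 2 ^ j) = true
    · rw [if_pos hi]
      refine ⟨by rw [pow_succ]; omega, (indepM_iff n A _).1 hi, ?_⟩
      rw [hbits, hset, Set.image_insert_eq, Set.image_insert_eq, Submodule.span_insert,
        Submodule.span_insert, h3]
    · rw [if_neg hi]
      refine ⟨by rw [pow_succ]; omega, h2, ?_⟩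
      rw [hset, Set.image_insert_eq, Submodule.span_insert, ← h3]
      rw [indepM_iff, hbits, linearIndepOn_insert hnot] at hi
      push Not at hi
      have := hi h2
      symm
      rw [sup_eq_right, Submodule.span_singleton_le_iff_mem]
      exact this

theorem isBasis_iff (z : ℕ) : isBasis n A z = true ↔ LinearIndepOn ℚ (cv n A) (bits n z) ∧
    Submodule.span ℚ (cv n A '' bits n z) = Submodule.span ℚ (Set.range (cv n A)) := by
  obtain ⟨h1, h2, h3⟩ := greedy_spec n A n le_rfl
  have hset : {i : Fin n | (i : ℕ) < n} = Set.univ := by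
    ext i
    simp
  rw [hset, Set.image_univ] at h3
  unfold isBasis
  rw [Bool.and_eq_true, indepM_iff, beq_iff_eq]
  refine and_congr_right fun hz => ?_
  rw [pop_eq_finrank n A z hz]
  have hb : pop n (base0 n A) = Module.finrank ℚ (Submodule.span ℚ (Set.range (cv n A))) := by
    rw [← h3]
    exact pop_eq_finrank n A _ h2
  rw [hb]
  constructor
  · intro h
    apply Submodule.eq_of_le_of_finrank_eq _ h
    apply Submodule.span_mono
    exact Set.image_subset_range _ _
  · intro h
    rw [h]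

end lin

section cx

variable (Δ : SComplex) (d : ℕ)

/-- restriction of the coordinates to faces -/
def restr : (Finset (Fin Δ.V) → ℚ) →ₗ[ℚ] (Fin Δ.faces.length → ℚ) where
  toFun f := fun i => f Δ.faces[i]
  map_add' _ _ := rfl
  map_smul' _ _ := rfl

theorem cv_eq (j : Fin Δ.faces.length) : cv Δ.faces.length (Δ.mat d) j =
    if Δ.faces[j].card = d + 1 then restr Δ (bdry Δ.faces[j]) else 0 := by
  ext i
  unfold cv SComplex.mat
  rw [dif_pos ⟨i.2, j.2⟩]
  by_cases h : Δ.faces[j].card = d + 1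
  · rw [if_pos h, if_pos (show (Δ.faces[(j : ℕ)]).card = d + 1 from h)]
    simp only [restr, bdry, LinearMap.coe_mk, AddHom.coe_mk, Fin.getElem_fin]
    push_cast
    apply Finset.sum_congr rfl
    intro v _
    split_ifs <;> simp
  · rw [if_neg h, if_neg (show ¬ (Δ.faces[(j : ℕ)]).card = d + 1 from h)]
    simp

/-- the span of the boundaries of the `d`-faces -/
def WW : Submodule ℚ (Finset (Fin Δ.V) → ℚ) :=
  Submodule.span ℚ (bdry '' {s : Finset (Fin Δ.V) | s ∈ Δ.faces ∧ s.card = d + 1})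

theorem WW_supp (hd : 1 ≤ d) (f : Finset (Fin Δ.V) → ℚ) (hf : f ∈ WW Δ d)
    (t : Finset (Fin Δ.V)) (ht : t ∉ Δ.faces) : f t = 0 := by
  unfold WW at hf
  induction hf using Submodule.span_induction with
  | mem x hx =>
    obtain ⟨s, ⟨hs1, hs2⟩, rfl⟩ := hx
    unfold bdry
    apply Finset.sum_eq_zero
    intro v hv
    rw [if_neg]
    rintro rfl
    apply ht
    apply Δ.down s hs1 _ (Finset.erase_subset _ _)
    rw [← Finset.card_pos, Finset.card_erase_of_mem hv]
    omega
  | zero => rfl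
  | add x y _ _ hx hy => rw [Pi.add_apply, hx, hy, add_zero]
  | smul a x _ hx => rw [Pi.smul_apply, hx, smul_zero]

theorem restr_injOn (hd : 1 ≤ d) : Set.InjOn (restr Δ) (WW Δ d : Set _) := by
  intro f hf g hg h
  ext t
  by_cases ht : t ∈ Δ.faces
  · obtain ⟨i, hi, rfl⟩ := List.getElem_of_mem ht
    exact congrFun h ⟨i, hi⟩
  · rw [WW_supp Δ d hd f hf t ht, WW_supp Δ d hd g hg t ht]

theorem faces_inj : Function.Injective (fun i : Fin Δ.faces.length => Δ.faces[i]) := by
  intro i j h
  have := (List.Nodup.getElem_inj_iff Δ.nodup).1 h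
  exact Fin.ext this

theorem map_restr_span (S : Set (Fin Δ.faces.length)) (hS : ∀ j ∈ S, Δ.faces[j].card = d + 1) :
    Submodule.map (restr Δ)
      (Submodule.span ℚ (bdry '' ((fun i : Fin Δ.faces.length => Δ.faces[i]) '' S))) =
      Submodule.span ℚ (cv Δ.faces.length (Δ.mat d) '' S) := by
  rw [Submodule.map_span, Set.image_image, Set.image_image]
  congr 1
  apply Set.image_congr
  intro j hj
  rw [cv_eq, if_pos (hS j hj)]

theorem span_cv : Submodule.span ℚ (Set.range (cv Δ.faces.length (Δ.mat d))) =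
    Submodule.map (restr Δ) (WW Δ d) := by
  unfold WW
  have h1 : {s : Finset (Fin Δ.V) | s ∈ Δ.faces ∧ s.card = d + 1} =
      (fun i : Fin Δ.faces.length => Δ.faces[i]) '' {i | Δ.faces[i].card = d + 1} := by
    ext s
    constructor
    · rintro ⟨hs, hc⟩
      obtain ⟨i, hi, rfl⟩ := List.getElem_of_mem hs
      exact ⟨⟨i, hi⟩, hc, rfl⟩
    · rintro ⟨i, hi, rfl⟩
      exact ⟨List.getElem_mem _, hi⟩
  rw [h1, map_restr_span Δ d {i | Δ.faces[i].card = d + 1} (fun j hj => hj)]
  apply le_antisymm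
  · rw [Submodule.span_le]
    rintro _ ⟨j, rfl⟩
    by_cases hj : Δ.faces[j].card = d + 1
    · exact Submodule.subset_span ⟨j, hj, rfl⟩
    · rw [SetLike.mem_coe, cv_eq, if_neg hj]
      exact Submodule.zero_mem _
  · apply Submodule.span_mono
    exact Set.image_subset_range _ _

theorem span_le_WW (S : Set (Fin Δ.faces.length)) (hS : ∀ j ∈ S, Δ.faces[j].card = d + 1) :
    Submodule.span ℚ (bdry '' ((fun i : Fin Δ.faces.length => Δ.faces[i]) '' S)) ≤ WW Δ d := by
  apply Submodule.span_mono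
  rintro _ ⟨_, ⟨j, hj, rfl⟩, rfl⟩
  exact ⟨_, ⟨List.getElem_mem _, hS j hj⟩, rfl⟩

theorem indep_iff (hd : 1 ≤ d) (S : Set (Fin Δ.faces.length))
    (hS : ∀ j ∈ S, Δ.faces[j].card = d + 1) :
    LinearIndepOn ℚ (cv Δ.faces.length (Δ.mat d)) S ↔
      LinearIndepOn ℚ bdry ((fun i : Fin Δ.faces.length => Δ.faces[i]) '' S) := by
  have h1 : LinearIndepOn ℚ (cv Δ.faces.length (Δ.mat d)) S ↔
      LinearIndepOn ℚ (restr Δ ∘ (bdry ∘ fun i : Fin Δ.faces.length => Δ.faces[i])) S := by
    apply linearIndepOn_congr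
    intro j hj
    rw [cv_eq, if_pos (hS j hj)]
    rfl
  rw [h1, LinearMap.linearIndepOn_iff_of_injOn]
  · constructor
    · intro h
      exact LinearIndepOn.image_of_comp _ _ h
    · intro h
      exact h.comp_of_image (faces_inj Δ).injOn
  · apply (restr_injOn Δ d hd).mono
    rw [Set.image_comp]
    exact span_le_WW Δ d S hS

theorem span_iff (hd : 1 ≤ d) (S : Set (Fin Δ.faces.length))
    (hS : ∀ j ∈ S, Δ.faces[j].card = d + 1) :
    Submodule.span ℚ (cv Δ.faces.length (Δ.mat d) '' S) =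
      Submodule.span ℚ (Set.range (cv Δ.faces.length (Δ.mat d))) ↔
    Submodule.span ℚ (bdry '' ((fun i : Fin Δ.faces.length => Δ.faces[i]) '' S)) = WW Δ d := by
  rw [span_cv, ← map_restr_span Δ d S hS]
  constructor
  · intro h
    apply le_antisymm (span_le_WW Δ d S hS)
    intro f hf
    have : restr Δ f ∈ Submodule.map (restr Δ) (WW Δ d) := Submodule.mem_map_of_mem hf
    rw [← h] at this
    obtain ⟨g, hg, hgf⟩ := this
    rw [← restr_injOn Δ d hd (span_le_WW Δ d S hS hg) hf hgf]
    exact hg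
  · intro h
    rw [h]

/-- the set of faces belonging to a mask -/
def toY (z : ℕ) : Finset (Finset (Fin Δ.V)) :=
  (Finset.univ.filter fun i : Fin Δ.faces.length =>
    Δ.faces[i].card ≤ d ∨ z.testBit (i : ℕ) = true).image fun i => Δ.faces[i]

/-- the mask of a set of faces -/
def toZ (Υ : Finset (Finset (Fin Δ.V))) : ℕ :=
  ∑ i : Fin Δ.faces.length, if Δ.faces[i] ∈ Υ ∧ Δ.faces[i].card = d + 1 then 2 ^ (i : ℕ) else 0

theorem toZ_testBit (Υ : Finset (Finset (Fin Δ.V))) (j : Fin Δ.faces.length) :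
    (toZ Δ d Υ).testBit j = true ↔ Δ.faces[j] ∈ Υ ∧ Δ.faces[j].card = d + 1 := by
  unfold toZ
  rw [mask_testBit (fun i : Fin Δ.faces.length => Δ.faces[i] ∈ Υ ∧ Δ.faces[i].card = d + 1) j]
  simp

theorem mem_toY (z : ℕ) (i : Fin Δ.faces.length) :
    Δ.faces[i] ∈ toY Δ d z ↔ Δ.faces[i].card ≤ d ∨ z.testBit (i : ℕ) = true := by
  unfold toY
  rw [Finset.mem_image]
  constructor
  · rintro ⟨j, hj, hji⟩
    rw [Finset.mem_filter] at hj
    have := faces_inj Δ hji
    subst this
    exact hj.2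
  · intro h
    exact ⟨i, Finset.mem_filter.2 ⟨Finset.mem_univ _, h⟩, rfl⟩

/-- the columns in an independent set are `d`-faces -/
theorem card_of_indep (z : ℕ) (h : LinearIndepOn ℚ (cv Δ.faces.length (Δ.mat d))
    (bits Δ.faces.length z)) : ∀ j ∈ bits Δ.faces.length z, Δ.faces[j].card = d + 1 := by
  intro j hj
  by_contra hne
  have h1 := h.ne_zero hj
  rw [cv_eq, if_neg hne] at h1
  exact h1 rfl

theorem isTree_iff (hd : 1 ≤ d) (Υ : Finset (Finset (Fin Δ.V))) (z : ℕ)
    (h1 : ∀ s ∈ Υ, s ∈ Δ.faces) (h2 : ∀ s ∈ Δ.faces, s.card ≤ d → s ∈ Υ)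
    (h3 : ∀ j : Fin Δ.faces.length, z.testBit (j : ℕ) = true ↔
      Δ.faces[j] ∈ Υ ∧ Δ.faces[j].card = d + 1) :
    Δ.IsTree d Υ ↔ isBasis Δ.faces.length (Δ.mat d) z = true := by
  have hS : ∀ j ∈ bits Δ.faces.length z, Δ.faces[j].card = d + 1 := fun j hj => ((h3 j).1 hj).2
  have hset : (fun i : Fin Δ.faces.length => Δ.faces[i]) '' bits Δ.faces.length z =
      {s : Finset (Fin Δ.V) | s ∈ Υ ∧ s.card = d + 1} := by
    ext s
    constructor
    · rintro ⟨j, hj, rfl⟩
      exact (h3 j).1 hj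
    · rintro ⟨hs1, hs2⟩
      obtain ⟨i, hi, rfl⟩ := List.getElem_of_mem (h1 s hs1)
      exact ⟨⟨i, hi⟩, (h3 ⟨i, hi⟩).2 ⟨hs1, hs2⟩, rfl⟩
  rw [isBasis_iff, indep_iff Δ d hd _ hS, span_iff Δ d hd _ hS, hset]
  unfold SComplex.IsTree
  constructor
  · rintro ⟨_, _, h5, h6⟩
    exact ⟨h5, h6⟩
  · rintro ⟨h5, h6⟩
    exact ⟨h1, h2, h5, h6⟩

end cx

end TreesAux

open TreesAux in
theorem trees_equiv (Δ : SComplex) (d : ℕ) (hd : 1 ≤ d) (hdim : Δ.HasDim d) :
    ∃ e : {z : ℕ // z < 2 ^ Δ.faces.length ∧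
        isBasis Δ.faces.length (Δ.mat d) z = true} ≃ {Υ // Δ.IsTree d Υ},
      ∀ z, Δ.out (e z).1 = (Δ.low d : ℤ) + (z.1 : ℤ) := by
  have hY : ∀ z : ℕ, isBasis Δ.faces.length (Δ.mat d) z = true → Δ.IsTree d (toY Δ d z) := by
    intro z hz
    have hli := ((isBasis_iff _ _ z).1 hz).1
    refine (isTree_iff Δ d hd _ z ?_ ?_ ?_).2 hz
    · intro s hs
      unfold toY at hs
      rw [Finset.mem_image] at hs
      obtain ⟨j, _, rfl⟩ := hs
      exact List.getElem_mem _
    · intro s hs hc
      obtain ⟨i, hi, rfl⟩ := List.getElem_of_mem hs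
      exact (mem_toY Δ d z ⟨i, hi⟩).2 (Or.inl hc)
    · intro j
      rw [mem_toY]
      constructor
      · intro h
        exact ⟨Or.inr h, card_of_indep Δ d z hli j h⟩
      · rintro ⟨h | h, h'⟩
        · omega
        · exact h
  have hZ : ∀ Υ, Δ.IsTree d Υ → isBasis Δ.faces.length (Δ.mat d) (toZ Δ d Υ) = true := by
    intro Υ hΥ
    exact (isTree_iff Δ d hd Υ _ hΥ.1 hΥ.2.1 (toZ_testBit Δ d Υ)).1 hΥ
  refine ⟨⟨fun z => ⟨toY Δ d z.1, hY z.1 z.2.2⟩,
    fun Υ => ⟨toZ Δ d Υ.1, mask_lt _, hZ Υ.1 Υ.2⟩, ?_, ?_⟩, ?_⟩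
  · rintro ⟨z, hz1, hz2⟩
    apply Subtype.ext
    have hli := ((isBasis_iff _ _ z).1 hz2).1
    refine Eq.trans ?_ (mask_of_testBit hz1)
    show TreesAux.toZ Δ d (toY Δ d z) = _
    unfold TreesAux.toZ
    apply Finset.sum_congr rfl
    intro i _
    have : (Δ.faces[i] ∈ toY Δ d z ∧ Δ.faces[i].card = d + 1) ↔ z.testBit (i : ℕ) = true := by
      rw [mem_toY]
      constructor
      · rintro ⟨h | h, h'⟩
        · omega
        · exact h
      · intro h
        exact ⟨Or.inr h, card_of_indep Δ d z hli i h⟩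
    simp only [this]
  · rintro ⟨Υ, hΥ⟩
    apply Subtype.ext
    ext s
    constructor
    · intro hs
      have hs' := hs
      unfold toY at hs
      rw [Finset.mem_image] at hs
      obtain ⟨j, _, rfl⟩ := hs
      rw [mem_toY, toZ_testBit] at hs'
      rcases hs' with h | h
      · exact hΥ.2.1 _ (List.getElem_mem _) h
      · exact h.1
    · intro hs
      obtain ⟨i, hi, rfl⟩ := List.getElem_of_mem (hΥ.1 s hs)
      refine (mem_toY Δ d _ ⟨i, hi⟩).2 ?_
      rw [toZ_testBit]
      have := hdim.2 _ (List.getElem_mem hi)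
      rcases Nat.lt_or_ge d (Δ.faces[i].card) with h | h
      · right
        refine ⟨hs, ?_⟩
        have h2 : (Δ.faces[(⟨i, hi⟩ : Fin Δ.faces.length)]).card ≤ d + 1 := this
        have h3 : d < (Δ.faces[(⟨i, hi⟩ : Fin Δ.faces.length)]).card := h
        omega
      · left
        exact h
  · rintro ⟨z, hz1, hz2⟩
    have hli := ((isBasis_iff _ _ z).1 hz2).1
    show Δ.out (toY Δ d z) = (Δ.low d : ℤ) + (z : ℤ)
    have hz : (z : ℤ) = ((∑ i : Fin Δ.faces.length,
      if z.testBit i = true then 2 ^ (i : ℕ) else 0 : ℕ) : ℤ) := by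
      rw [mask_of_testBit hz1]
    rw [hz]
    unfold SComplex.out SComplex.low
    push_cast
    rw [← Finset.sum_add_distrib]
    apply Finset.sum_congr rfl
    intro i _
    simp only [mem_toY]
    by_cases h1 : Δ.faces[i].card ≤ d
    · have h2 : ¬ z.testBit (i : ℕ) = true := by
        intro h
        have := card_of_indep Δ d z hli i h
        omega
      rw [if_pos (Or.inl h1), if_pos h1, if_neg h2, add_zero]
    · by_cases h2 : z.testBit (i : ℕ) = true
      · rw [if_pos (Or.inr h2), if_neg h1, if_pos h2, zero_add]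
      · rw [if_neg (by tauto), if_neg h1, if_neg h2, zero_add]

end Pool.Agent.Lib.MP_d8fb5e_lc
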