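import Pool.Agent.Lib.MP_d8fb5e_lc.Bounds
import Pool.Agent.Lib.MP_d8fb5e_lc.Law
import Pool.Agent.Lib.MP_d8fb5e_lc.Trees

namespace Pool.Agent.Lib.MP_d8fb5e_lc

open Pool.Agent.Lib.PRam
open scoped ENNReal

def mainC : Cmd := .seq setupC tailC

def prog : List Instr := compC 60 0 mainC

theorem mainC_vars : mainC.vars 60 := by
  simp only [mainC, setupC, tailC, fastC, slowC, drawC, drawBody, s1C, s2C, s3C, s4C, s5C, s6C, s7C,
    s8C, s3Body, s4Body, s8Body, entBody, vxBody, cardC, cardBody, incE, searchC, searchBody, wtE,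
    countC, testC, moveC, candE, elimC, initTab, initUsed, colBody, colStep, pivotC, bufBody,
    copyBody, newE, colE, rowcolE, curE, rowE, findC, findBody, tabE, bitE, pwE, dpC, dpStep,
    addBody, modE, chainC, chainBody, forDo, Cmd.vars, Expr.vars]
  norm_num

theorem numT_card (n : ℕ) (A : ℕ → ℕ → ℤ) :
    Nat.card {z : ℕ // z < 2 ^ n ∧ isBasis n A z = true} = numT n A := by
  have h : ((Finset.range (2 ^ n)).filter fun z => isBasis n A z = true) =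
      {z : ℕ | z < 2 ^ n ∧ isBasis n A z = true} := by ext z; simp
  unfold numT
  rw [← Set.ncard_coe_finset, h]
  rfl

theorem main : ∃ C : ℕ, ∀ (Δ : SComplex) (d : ℕ), 1 ≤ d → Δ.HasDim d →
    (∀ Υ, Δ.IsTree d Υ → outProb prog Δ.code (Δ.out Υ) =
      1 / (Nat.card {Υ // Δ.IsTree d Υ} : ℝ≥0∞)) ∧
    expCost prog Δ.code ≤ (C * (Δ.faces.length + 1) ^ C : ℕ) := by
  obtain ⟨gS, hgS, hgS'⟩ := eb_tSlow
  have hPB : PB fun n => 2 * ((tSetup n + tFast n (ellF n) + 20) * (1 + (wF n + 1)) ^ 2) +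
      (tSetup n + gS n + tDraw (ellF n)) * (1 + (wF n + 1)) ^ 2 := by
    have hs : PB fun n => (1 + (wF n + 1)) ^ 2 := by
      simp only [pow_two]
      exact ((PB.const 1).add (pb_wF.add (PB.const 1))).mul
        ((PB.const 1).add (pb_wF.add (PB.const 1)))
    exact ((PB.const 2).mul (((pb_tSetup.add pb_tFast).add (PB.const 20)).mul hs)).add
      (((pb_tSetup.add hgS).add pb_tDraw).mul hs)
  obtain ⟨C, hC⟩ := hPB
  refine ⟨C, fun Δ d hd hdim => ?_⟩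
  obtain ⟨n, hn⟩ : ∃ n, Δ.faces.length = n := ⟨_, rfl⟩
  have hn0 : 0 < n := by
    obtain ⟨⟨s, hs, -⟩, -⟩ := hdim
    rw [← hn]
    exact List.length_pos_of_mem hs
  have hV : Δ.V ≤ n := hn ▸ V_le Δ
  have hlen := code_length Δ
  have hcle := code_le Δ
  have hset := setup_run (W := 2 ^ wF n) Δ d hdim (by rw [hn]; exact wall hV hn0)
  have htr := trees_equiv Δ d hd hdim
  rw [hn] at hlen hcle hset htr
  set A := Δ.mat d with hA
  set K := Kof n with hK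
  set low := Δ.low d with hlow
  obtain ⟨e, he⟩ := htr
  obtain ⟨hin1, hin2⟩ := input_le (V := Δ.V) hV
  have hlen' : Δ.code.length ≤ 2 ^ wF n := by rw [hlen]; exact hin1
  have hcle' : ∀ a ∈ Δ.code, a.natAbs ≤ 2 ^ wF n := fun a ha => (hcle a ha).trans hin2
  set s2 := (1 + (wF n + 1)) ^ 2 with hs2
  have hsize : (1 + Nat.size (2 ^ wF n)) ^ 2 = s2 := by rw [size_wF]
  set ℓ := ellF n with hℓ
  have hℓe : 2 ^ n * rng n K = 2 ^ ℓ := ellF_eq n
  have hKpos : 0 < K := Kof_pos n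
  have hRpos := rng_pos' (n := n) hKpos
  have hTpos := numT_pos n A
  have hTle : numT n A ≤ 2 ^ n := numT_le n A
  have hlaw := law (P := prog) (x := Δ.code) ℓ (rng n K) (numT n A * rng n K)
    ((tSetup n + tFast n ℓ + 20) * s2) ((tSetup n + tSlow n + tDraw ℓ) * s2)
    (fun u => ((low + chain n A K (u % rng n K) (steps n K) : ℕ) : ℤ))
    (fun v => ((low + pick n A K v : ℕ) : ℤ)) ?_ ?_ ?_ ?_ ?_
  rotate_left
  · rw [← hℓe]; exact Nat.le_mul_of_pos_left _ (by positivity)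
  · exact Nat.mul_pos hTpos hRpos
  · rw [← hℓe]; exact Nat.mul_le_mul_right _ hTle
  · intro β hβ hval
    have hrun : Run (2 ^ wF n) mainC (init Δ.code) β (tSetup n + tFast n ℓ) (fun σ' =>
        σ'.reg 0 = ((low + chain n A K (val β % rng n K) (steps n K) : ℕ) : ℤ)) :=
      Run.seqL (hset.mono le_rfl fun σ hR => fast_run hR β hβ hval) le_rfl
    obtain ⟨T', σ', h1, h2, h3⟩ := hrun.halts (K := 60) (by omega) (wF_pos n) mainC_vars hlen' hcle'
    rw [h3] at h2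
    rw [hsize] at h1
    exact ⟨T', h1.trans (Nat.mul_le_mul_right _ (by omega)), h2⟩
  · intro β hβ hval rej hrej acc hacc hacc2
    have hrun : Run (2 ^ wF n) mainC (init Δ.code) (β ++ (rej.flatten ++ acc))
        (tSetup n + (tSlow n + (rej.length + 1) * (tDraw ℓ + 20) + tDraw ℓ)) (fun σ' =>
        σ'.reg 0 = ((low + pick n A K (val acc) : ℕ) : ℤ)) :=
      Run.seqL (hset.mono le_rfl fun σ hR => slow_run hR β hβ hval rej hrej acc hacc hacc2) le_rfl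
    obtain ⟨T', σ', h1, h2, h3⟩ := hrun.halts (K := 60) (by omega) (wF_pos n) mainC_vars hlen' hcle'
    rw [h3] at h2
    rw [hsize] at h1
    refine ⟨T', h1.trans ?_, h2⟩
    rw [← mul_assoc, ← add_mul]
    refine Nat.mul_le_mul_right _ ?_
    have h4 : (rej.length + 1) * (tDraw ℓ + 20) ≤
        (rej.length + 1) * (tSetup n + tFast n ℓ + 20) := by
      refine Nat.mul_le_mul_left _ ?_
      simp only [tFast]
      omega
    omega
  obtain ⟨hout, hcost⟩ := hlaw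
  constructor
  · intro Υ hΥ
    obtain ⟨⟨z, hz1, hz2⟩, hz⟩ := e.surjective ⟨Υ, hΥ⟩
    have hoz : Δ.out Υ = ((low + z : ℕ) : ℤ) := by
      have := he ⟨z, hz1, hz2⟩
      rw [hz] at this
      rw [this]; push_cast; rfl
    have hcard : Nat.card {Υ // Δ.IsTree d Υ} = numT n A := by
      rw [← numT_card]
      exact (Nat.card_congr e).symm
    rw [hout, hcard, hoz]
    have hex := exact n A K hn0 (le_Kof n) z hz2 hz1
    rw [← hex, hℓe]
    have : ((2 ^ ℓ : ℕ) : ℝ≥0∞) = 2 ^ ℓ := by push_cast; rfl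
    rw [this]
    simp only [Nat.cast_inj, Nat.add_left_cancel_iff]
  · refine hcost.trans ?_
    rw [hn]
    have hCn := hC n
    simp only at hCn
    rw [← hs2, ← hℓ] at hCn
    set b1 := (tSetup n + tFast n ℓ + 20) * s2 with hb1
    set b2 := (tSetup n + tSlow n + tDraw ℓ) * s2 with hb2
    set b3 := (tSetup n + gS n + tDraw ℓ) * s2 with hb3
    set R := rng n K with hR
    set M := numT n A * R with hM
    have hb : b2 ≤ 2 ^ n * b3 := by
      rw [hb2, hb3, ← mul_assoc]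
      refine Nat.mul_le_mul_right _ ?_
      have h1 := hgS' n
      have h2 : 1 * (tSetup n + tDraw ℓ) ≤ 2 ^ n * (tSetup n + tDraw ℓ) :=
        Nat.mul_le_mul_right _ Nat.one_le_two_pow
      have h3 : 2 ^ n * (tSetup n + gS n + tDraw ℓ) =
          2 ^ n * gS n + 2 ^ n * (tSetup n + tDraw ℓ) := by ring
      omega
    have h2ℓ : ((2 : ℝ≥0∞) ^ ℓ) = ((2 ^ ℓ : ℕ) : ℝ≥0∞) := by push_cast; rfl
    have h0 : ((2 : ℝ≥0∞) ^ ℓ) ≠ 0 := by rw [h2ℓ]; exact_mod_cast (by positivity)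
    have ht : ((2 : ℝ≥0∞) ^ ℓ) ≠ ⊤ := by rw [h2ℓ]; exact ENNReal.natCast_ne_top _
    have hRM : (R : ℝ≥0∞) / M ≤ 1 := by
      refine ENNReal.div_le_of_le_mul ?_
      rw [one_mul]
      exact_mod_cast Nat.le_mul_of_pos_left _ hTpos
    have e1 : (R : ℝ≥0∞) / 2 ^ ℓ * b2 ≤ b3 := by
      rw [mul_comm, ← mul_div_assoc, ENNReal.div_le_iff h0 ht, h2ℓ, ← hℓe]
      have : b2 * R ≤ b3 * (2 ^ n * R) := by
        calc b2 * R ≤ (2 ^ n * b3) * R := Nat.mul_le_mul_right _ hb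
          _ = b3 * (2 ^ n * R) := by ring
      exact_mod_cast this
    have e2 : (R : ℝ≥0∞) / 2 ^ ℓ * ((2 : ℝ≥0∞) ^ ℓ / M * b1) ≤ b1 := by
      calc (R : ℝ≥0∞) / 2 ^ ℓ * ((2 : ℝ≥0∞) ^ ℓ / M * b1)
          = (R : ℝ≥0∞) / M * (((2 : ℝ≥0∞) ^ ℓ)⁻¹ * 2 ^ ℓ) * b1 := by
            simp only [div_eq_mul_inv]; ring
        _ = (R : ℝ≥0∞) / M * b1 := by rw [ENNReal.inv_mul_cancel h0 ht, mul_one]
        _ ≤ 1 * b1 := mul_le_mul_left hRM _
        _ = b1 := one_mul _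
    calc (b1 : ℝ≥0∞) + (R : ℝ≥0∞) / 2 ^ ℓ * (b2 + (2 : ℝ≥0∞) ^ ℓ / M * b1)
        = b1 + ((R : ℝ≥0∞) / 2 ^ ℓ * b2 + (R : ℝ≥0∞) / 2 ^ ℓ * ((2 : ℝ≥0∞) ^ ℓ / M * b1)) := by
          rw [mul_add]
      _ ≤ b1 + (b3 + b1) := by gcongr
      _ = ((2 * b1 + b3 : ℕ) : ℝ≥0∞) := by push_cast; ring
      _ ≤ _ := by exact_mod_cast hCn

end Pool.Agent.Lib.MP_d8fb5e_lc
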