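import Pool.Agent.Lib.MP_d8fb5e_lc.Elim3

namespace Pool.Agent.Lib.MP_d8fb5e_lc

open Pool.Agent.Lib.PRam

variable {W : ℕ} {σ : St}

/-- the standing assumptions about the word size -/
structure WOk (n bS W : ℕ) : Prop where
  h1 : bS + 2 * (n * n) + n + 1 ≤ W
  h2 : 2 * (n.factorial * n.factorial) ≤ W
  h3 : 2 * 2 ^ n ≤ W

def candE : Expr := .add (.sub (.var 33) (pwE 36)) (pwE 37)

def moveC : Cmd :=
  .seq (.assign 35 (.var 33)) (.seq (.assign 37 (.div (.var 34) (.var 11)))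
  (.seq (.assign 36 (.sub (.var 34) (.mul (.var 37) (.var 11))))
  (.ifpos (.sub (.var 2) (.var 36)) (.ifpos (.sub (.var 2) (.var 37))
    (.ite (bitE 33 36) (.ite (bitE 33 37) .skip (.seq (.assign 42 candE)
      (.seq elimC (.ite (.var 40) (.assign 35 candE) .skip)))) .skip) .skip) .skip)))

def tMove (n : ℕ) : ℕ := tElim n + 150

theorem move_run {n bA bW bS K x p : ℕ} {A : ℕ → ℕ → ℤ} (hE : Env n A bA bW bS σ)
    (hWk : WOk n bS W) (hA : ∀ g < n, ∀ h < n, |A g h| ≤ 1)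
    (h11 : σ.reg 11 = K) (h33 : σ.reg 33 = x) (h34 : σ.reg 34 = p) (hx : x < 2 ^ n)
    (hp : p ≤ W) :
    Run W moveC σ [] (tMove n) (fun σ' => Fr 35 bS (bS + 2 * (n * n) + n) σ σ' ∧
      σ'.reg 35 = move n A K x p) := by
  obtain ⟨w1, w2, w3⟩ := hWk
  have hdm : p / K * K + p % K = p := Nat.div_add_mod' p K
  refine Run.seqL (T₁ := 4) (T₂ := tElim n + 140) (Run.assign (e := .var 33) trivial ?_)
    (by simp only [tMove]; omega)
  refine Run.seqL (T₁ := 7) (T₂ := tElim n + 130)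
    (Run.assign (e := .div (.var 34) (.var 11)) ⟨trivial, trivial⟩ ?_) (by omega)
  have e1 : (Expr.var 33).eval σ = x := h33
  rw [e1]
  have e2 : (Expr.div (.var 34) (.var 11)).eval (σ.set 35 x) = ((p / K : ℕ) : ℤ) := by
    simp only [Expr.eval, St.set_reg]
    rw [if_neg (by omega), if_neg (by omega), h34, h11]; push_cast; rfl
  rw [e2]
  set σ₁ := (σ.set 35 x).set 37 ((p / K : ℕ) : ℤ) with hσ₁
  have k1 : ∀ r, r ≠ 35 → r ≠ 37 → σ₁.reg r = σ.reg r := fun r h1 h2 => by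
    simp only [hσ₁, St.set_reg, if_neg h1, if_neg h2]
  have k37 : σ₁.reg 37 = ((p / K : ℕ) : ℤ) := by simp [hσ₁]
  have k34 : σ₁.reg 34 = p := (k1 34 (by omega) (by omega)).trans h34
  have k11 : σ₁.reg 11 = K := (k1 11 (by omega) (by omega)).trans h11
  have hmul : ((p / K : ℕ) : ℤ) * (K : ℤ) = ((p / K * K : ℕ) : ℤ) := by push_cast; rfl
  refine Run.seqL (T₁ := 10) (T₂ := tElim n + 120) (Run.assign
    (e := .sub (.var 34) (.mul (.var 37) (.var 11))) ⟨trivial, ⟨trivial, trivial, ?_⟩, ?_⟩ ?_)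
    (by omega)
  · simp only [Expr.eval, k37, k11, hmul]; omega
  · simp only [Expr.eval, k37, k11, hmul, k34]; omega
  have e3 : (Expr.sub (.var 34) (.mul (.var 37) (.var 11))).eval σ₁ = ((p % K : ℕ) : ℤ) := by
    simp only [Expr.eval, k37, k11, hmul, k34]; omega
  rw [e3]
  set σ₂ := σ₁.set 36 ((p % K : ℕ) : ℤ) with hσ₂
  have l1 : ∀ r, r ≠ 35 → r ≠ 36 → r ≠ 37 → σ₂.reg r = σ.reg r := fun r h1 h2 h3 => by
    simp only [hσ₂, St.set_reg, if_neg h2]; exact k1 r h1 h3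
  have l35 : σ₂.reg 35 = x := by simp [hσ₂, hσ₁]
  have l36 : σ₂.reg 36 = ((p % K : ℕ) : ℤ) := by simp [hσ₂]
  have l37 : σ₂.reg 37 = ((p / K : ℕ) : ℤ) := by simp [hσ₂, hσ₁]
  have l33 : σ₂.reg 33 = x := (l1 33 (by omega) (by omega) (by omega)).trans h33
  have hfr : Fr 35 bS (bS + 2 * (n * n) + n) σ σ₂ :=
    ⟨fun r hr => l1 r (by omega) (by omega) (by omega), fun _ _ => rfl⟩
  have hE2 := hE.of_fr hfr (by omega)
  obtain ⟨e, he⟩ : ∃ e, p % K = e := ⟨_, rfl⟩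
  obtain ⟨f, hf⟩ : ∃ f, p / K = f := ⟨_, rfl⟩
  rw [he] at l36
  rw [hf] at l37
  have hew : e ≤ W := by omega
  have hfw : f ≤ W := by have := Nat.div_le_self p K; omega
  have hmove : move n A K x p = if e < n ∧ f < n ∧ x.testBit e = true ∧ x.testBit f = false ∧
      indepM n A (x - 2 ^ e + 2 ^ f) = true then x - 2 ^ e + 2 ^ f else x := by
    simp only [move, he, hf]
  refine Run.ifpos (T' := tElim n + 110) ⟨trivial, trivial, ?_⟩ (fun hp1 => ?_) (fun hn1 => ?_)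
    (by simp only [Expr.size]; omega)
  · simp only [Expr.eval, hE2.r2, l36]; exact natAbs_sub_le (by omega) (by omega)
  swap
  · have hn1 : σ₂.reg 2 - σ₂.reg 36 ≤ 0 := hn1
    rw [hE2.r2, l36] at hn1
    refine Run.skip ⟨hfr, ?_⟩
    rw [hmove, if_neg (by omega), l35]
  have hp1 : 0 < σ₂.reg 2 - σ₂.reg 36 := hp1
  rw [hE2.r2, l36] at hp1
  have hen : e < n := by omega
  refine Run.ifpos (T' := tElim n + 100) ⟨trivial, trivial, ?_⟩ (fun hp2 => ?_) (fun hn2 => ?_)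
    (by simp only [Expr.size]; omega)
  · simp only [Expr.eval, hE2.r2, l37]; exact natAbs_sub_le (by omega) (by omega)
  swap
  · have hn2 : σ₂.reg 2 - σ₂.reg 37 ≤ 0 := hn2
    rw [hE2.r2, l37] at hn2
    refine Run.skip ⟨hfr, ?_⟩
    rw [hmove, if_neg (by omega), l35]
  have hp2 : 0 < σ₂.reg 2 - σ₂.reg 37 := hp2
  rw [hE2.r2, l37] at hp2
  have hfn : f < n := by omega
  have hxW : x ≤ W := by omega
  have hb1 := bitE_eval hE2 l33 l36 hen.le
  have hb2 := bitE_eval hE2 l33 l37 hfn.le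
  refine Run.ite (T' := tElim n + 70) (bitE_ok hE2 l33 l36 hen.le (by omega) hxW w3)
    (fun ht1 => ?_) (fun hf1 => ?_) (by simp only [bitE, pwE, Expr.size]; omega)
  swap
  · rw [hb1] at hf1
    have hb : ¬ x.testBit e = true := by intro hc; simp [hc] at hf1
    refine Run.skip ⟨hfr, ?_⟩
    rw [hmove, if_neg (by rintro ⟨_, _, h, _⟩; exact hb h), l35]
  rw [hb1] at ht1
  have hbe : x.testBit e = true := by by_contra hc; simp [hc] at ht1
  refine Run.ite (T' := tElim n + 40) (bitE_ok hE2 l33 l37 hfn.le (by omega) hxW w3)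
    (fun ht2 => ?_) (fun hf2 => ?_) (by simp only [bitE, pwE, Expr.size]; omega)
  · rw [hb2] at ht2
    have hb : ¬ x.testBit f = false := by intro hc; simp [hc] at ht2
    refine Run.skip ⟨hfr, ?_⟩
    rw [hmove, if_neg (by rintro ⟨_, _, _, h, _⟩; exact hb h), l35]
  rw [hb2] at hf2
  have hbf : x.testBit f = false := by
    cases h : x.testBit f
    · rfl
    · simp [h] at hf2
  have hge : 2 ^ e ≤ x := Nat.ge_two_pow_of_testBit hbe
  have h2f : 2 ^ f ≤ 2 ^ n := Nat.pow_le_pow_right (by omega) hfn.le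
  have hcW : x - 2 ^ e + 2 ^ f ≤ W :=
    (Nat.add_le_add ((Nat.sub_le _ _).trans hx.le) h2f).trans (by omega)
  have hcW2 : x - 2 ^ e ≤ W := (Nat.sub_le _ _).trans hxW
  have cand_ok : ∀ σ' : St, Env n A bA bW bS σ' → σ'.reg 33 = x → σ'.reg 36 = e →
      σ'.reg 37 = f → candE.ok W σ' ∧ candE.eval σ' = ((x - 2 ^ e + 2 ^ f : ℕ) : ℤ) := by
    intro σ' hE' i33 i36 i37
    have p1 := pwE_eval hE' i36 hen.le
    have p2 := pwE_eval hE' i37 hfn.le
    have c1 : (x : ℤ) - 2 ^ e = ((x - 2 ^ e : ℕ) : ℤ) := by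
      rw [Nat.cast_sub hge]; push_cast; rfl
    have c2 : ((x - 2 ^ e : ℕ) : ℤ) + 2 ^ f = ((x - 2 ^ e + 2 ^ f : ℕ) : ℤ) := by
      rw [Nat.cast_add]; push_cast; rfl
    refine ⟨⟨⟨trivial, pwE_ok hE' i36 hen.le (by omega), ?_⟩, pwE_ok hE' i37 hfn.le (by omega),
      ?_⟩, ?_⟩
    · simp only [Expr.eval, i33, p1]; rw [c1, Int.natAbs_natCast]; exact hcW2
    · simp only [Expr.eval, i33, p1, p2]; rw [c1, c2, Int.natAbs_natCast]; exact hcW
    · simp only [candE, Expr.eval, i33, p1, p2]; rw [c1, c2]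
  obtain ⟨ho1, hv1⟩ := cand_ok σ₂ hE2 l33 l36 l37
  refine Run.seqL (T₁ := 18) (T₂ := tElim n + 22) ((Run.assign ho1 ?_).mono
    (by simp only [candE, pwE, Expr.size]; omega) (fun _ h => h)) (by omega)
  rw [hv1]
  set σ₃ := σ₂.set 42 ((x - 2 ^ e + 2 ^ f : ℕ) : ℤ) with hσ₃
  have hfr3 : Fr 35 bS (bS + 2 * (n * n) + n) σ σ₃ := hfr.set (by omega)
  have hE3 := hE.of_fr hfr3 (by omega)
  have m1 : ∀ r, r ≠ 42 → σ₃.reg r = σ₂.reg r := fun r hr => by
    simp only [hσ₃, St.set_reg, if_neg hr]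
  refine Run.seqL (T₁ := tElim n) (T₂ := 22) ((elim_run (z := x - 2 ^ e + 2 ^ f) hE3
    (by simp [hσ₃]) hcW hA w1 w2 w3).mono le_rfl ?_) (by omega)
  rintro σ₄ ⟨f1, f2, f3⟩
  have hfr4 : Fr 35 bS (bS + 2 * (n * n) + n) σ σ₄ := hfr3.trans (f1.mono (by omega) le_rfl le_rfl)
  have hE4 := hE.of_fr hfr4 (by omega)
  have n33 : σ₄.reg 33 = x := (f1.1 33 (by omega)).trans ((m1 33 (by omega)).trans l33)
  have n35 : σ₄.reg 35 = x := (f1.1 35 (by omega)).trans ((m1 35 (by omega)).trans l35)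
  have n36 : σ₄.reg 36 = e := (f1.1 36 (by omega)).trans ((m1 36 (by omega)).trans l36)
  have n37 : σ₄.reg 37 = f := (f1.1 37 (by omega)).trans ((m1 37 (by omega)).trans l37)
  obtain ⟨ho2, hv2⟩ := cand_ok σ₄ hE4 n33 n36 n37
  refine Run.ite (T' := 18) trivial (fun h => ?_) (fun h => ?_)
    (by simp only [Expr.size]; omega)
  · have h : σ₄.reg 40 ≠ 0 := h
    rw [f2] at h
    have hi : indepM n A (x - 2 ^ e + 2 ^ f) = true := by by_contra hc; simp [hc] at h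
    refine (Run.assign ho2 ?_).mono (by simp only [candE, pwE, Expr.size]; omega) (fun _ h => h)
    rw [hv2]
    refine ⟨hfr4.set (by omega), ?_⟩
    rw [hmove, if_pos ⟨hen, hfn, hbe, hbf, hi⟩]
    simp
  · have h : σ₄.reg 40 = 0 := h
    rw [f2] at h
    have hi : ¬ indepM n A (x - 2 ^ e + 2 ^ f) = true := by intro hc; simp [hc] at h
    refine Run.skip ⟨hfr4, ?_⟩
    rw [hmove, if_neg (by rintro ⟨_, _, _, _, h⟩; exact hi h), n35]

end Pool.Agent.Lib.MP_d8fb5e_lc
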