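import Mathlib

namespace Pool.Agent.Lib.MP_d8fb5e_lc

open Finset Matrix

set_option linter.unusedSectionVars false
variable {E : Type} [Fintype E] [DecidableEq E]

/-- spectral lemma -/
theorem spectral_aux (d : E → ℝ) (hd : ∀ x, 0 ≤ d x) (W : E → E → ℝ)
    (hsymm : ∀ x y, W x y = W y x) (hW0 : ∀ x y, d x = 0 → W x y = 0) (κ : ℝ)
    (hsum : ∀ x, ∑ y, W x y = κ * d x) (hD : 0 < ∑ x, d x)
    (hev : ∀ (f : E → ℝ) (μ : ℝ), 0 < μ → (∀ x, ∑ y, W x y * f y = μ * (d x * f x)) →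
      ∑ x, d x * f x = 0 → ∑ x, d x * f x ^ 2 = 0) (f : E → ℝ) :
    (∑ x, d x) * ∑ x, f x * ∑ y, W x y * f y ≤ κ * (∑ x, d x * f x) ^ 2 := by
  classical
  set D := ∑ x, d x with hDdef
  have hDne : D ≠ 0 := hD.ne'
  obtain ⟨t, ht⟩ : ∃ t : E → ℝ, t = fun x => √(d x) := ⟨_, rfl⟩
  have hts : ∀ x, t x * t x = d x := fun x => by rw [ht]; exact Real.mul_self_sqrt (hd x)
  have ht0 : ∀ x, t x = 0 → d x = 0 := fun x hx => by rw [← hts x, hx, mul_zero]
  have hWr : ∀ x y, t x * (t x)⁻¹ * W x y = W x y := by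
    intro x y
    by_cases hx : t x = 0
    · rw [hW0 x y (ht0 x hx)]; simp
    · rw [mul_inv_cancel₀ hx, one_mul]
  obtain ⟨M, hMd⟩ : ∃ M : Matrix E E ℝ, ∀ x y, M x y =
      κ / D * (t x * t y) - (t x)⁻¹ * W x y * (t y)⁻¹ := ⟨Matrix.of fun x y => _, fun x y => rfl⟩
  have hM : M.IsHermitian := by
    ext x y
    rw [Matrix.conjTranspose_apply, hMd, hMd, hsymm x y, star_trivial]; ring
  have hcol : ∀ y, ∑ x, t x * M x y = 0 := by
    intro y
    have h1 : ∀ x, t x * M x y = κ / D * t y * d x - (t y)⁻¹ * W y x := by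
      intro x
      have := hWr x y
      rw [hMd, ← hts x, hsymm y x]
      calc _ = κ / D * t y * (t x * t x) - (t y)⁻¹ * (t x * (t x)⁻¹ * W x y) := by ring
        _ = _ := by rw [this]
    rw [Finset.sum_congr rfl (fun x _ => h1 x), Finset.sum_sub_distrib, ← Finset.mul_sum,
      ← Finset.mul_sum, hsum, ← hDdef]
    have h2 : (t y)⁻¹ * (κ * d y) = κ * t y := by
      rw [← hts y]
      calc _ = κ * (t y * t y * (t y)⁻¹) := by ring
        _ = _ := by rw [mul_self_mul_inv]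
    rw [h2]; field_simp; ring
  have hPSD : M.PosSemidef := by
    rw [hM.posSemidef_iff_eigenvalues_nonneg]
    intro i
    by_contra hneg
    simp only [Pi.zero_apply, not_le] at hneg
    obtain ⟨v, hv⟩ : ∃ v : E → ℝ, v = ⇑(hM.eigenvectorBasis i) := ⟨_, rfl⟩
    have hMv := hM.mulVec_eigenvectorBasis i
    rw [← hv] at hMv
    obtain ⟨μ, hμ⟩ : ∃ μ, μ = - hM.eigenvalues i := ⟨_, rfl⟩
    have hμpos : 0 < μ := by rw [hμ]; linarith
    have hMv' : ∀ x, ∑ y, M x y * v y = - μ * v x := by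
      intro x
      have := congrFun hMv x
      simpa [Matrix.mulVec, dotProduct, hμ] using this
    have hvne : v ≠ 0 := by
      intro h0
      apply hM.eigenvectorBasis.orthonormal.ne_zero i
      ext x
      have := congrFun h0 x
      rw [hv] at this
      simpa using this
    -- orthogonality
    have h1 : ∑ x, t x * v x = 0 := by
      have h2 : ∑ x, t x * ∑ y, M x y * v y = 0 := by
        calc ∑ x, t x * ∑ y, M x y * v y = ∑ x, ∑ y, t x * M x y * v y := by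
              simp_rw [Finset.mul_sum, mul_assoc]
          _ = ∑ y, ∑ x, t x * M x y * v y := Finset.sum_comm
          _ = ∑ y, (∑ x, t x * M x y) * v y := by simp_rw [Finset.sum_mul]
          _ = 0 := by simp [hcol]
      simp_rw [hMv'] at h2
      have h3 : ∑ x, t x * (-μ * v x) = -μ * ∑ x, t x * v x := by
        rw [Finset.mul_sum]; exact Finset.sum_congr rfl (fun x _ => by ring)
      rw [h3] at h2
      rcases mul_eq_zero.mp h2 with h | h
      · linarith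
      · exact h
    -- eigen equation
    have h2 : ∀ x, (t x)⁻¹ * ∑ y, W x y * ((t y)⁻¹ * v y) = μ * v x := by
      intro x
      have h3 := hMv' x
      have h4 : ∑ y, M x y * v y = κ / D * t x * ∑ y, t y * v y -
          (t x)⁻¹ * ∑ y, W x y * ((t y)⁻¹ * v y) := by
        rw [Finset.mul_sum, Finset.mul_sum, ← Finset.sum_sub_distrib]
        exact Finset.sum_congr rfl (fun y _ => by rw [hMd]; ring)
      rw [h4, h1] at h3
      linarith
    have h3 : ∀ x, t x * ((t x)⁻¹ * v x) = v x := by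
      intro x
      by_cases hx : t x = 0
      · have := h2 x
        rw [hx] at this
        simp only [_root_.inv_zero, zero_mul] at this
        have h5 : v x = 0 := by
          rcases mul_eq_zero.mp this.symm with h | h
          · exact absurd h hμpos.ne'
          · exact h
        rw [h5]; simp
      · rw [← mul_assoc, mul_inv_cancel₀ hx, one_mul]
    have h4 : ∑ x, d x * ((t x)⁻¹ * v x) ^ 2 = 0 := by
      apply hev (fun x => (t x)⁻¹ * v x) μ hμpos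
      · intro x
        by_cases hx : t x = 0
        · have h5 : ∀ y, W x y * ((t y)⁻¹ * v y) = 0 := by
            intro y; rw [hW0 x y (ht0 x hx), zero_mul]
          simp only [h5]
          rw [ht0 x hx]; simp
        · have h6 : d x * ((t x)⁻¹ * v x) = t x * v x := by
            rw [← hts x, mul_assoc, h3 x]
          rw [h6]
          have h7 := h2 x
          calc ∑ y, W x y * ((t y)⁻¹ * v y) = t x * ((t x)⁻¹ * ∑ y, W x y * ((t y)⁻¹ * v y)) := by
                rw [← mul_assoc, mul_inv_cancel₀ hx, one_mul]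
            _ = t x * (μ * v x) := by rw [h7]
            _ = _ := by ring
      · rw [← h1]
        refine Finset.sum_congr rfl (fun x _ => ?_)
        rw [← hts x, mul_assoc, h3 x]
    apply hvne
    have h5 : ∑ x, v x ^ 2 = 0 := by
      rw [← h4]
      refine Finset.sum_congr rfl (fun x _ => ?_)
      conv_lhs => rw [← h3 x]
      rw [← hts x]; ring
    have h6 := (Finset.sum_eq_zero_iff_of_nonneg (fun x _ => sq_nonneg (v x))).mp h5
    ext x
    simpa using h6 x (Finset.mem_univ x)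
  have key := hPSD.dotProduct_mulVec_nonneg (fun x => t x * f x)
  have h1 : star (fun x => t x * f x) ⬝ᵥ M *ᵥ (fun x => t x * f x) =
      κ / D * (∑ x, d x * f x) ^ 2 - ∑ x, f x * ∑ y, W x y * f y := by
    simp only [dotProduct, Matrix.mulVec, star_trivial, Pi.star_apply]
    have h2 : ∀ x, t x * f x * ∑ y, M x y * (t y * f y) =
        κ / D * (∑ y, d y * f y) * (d x * f x) - f x * ∑ y, W x y * f y := by
      intro x
      rw [Finset.mul_sum, Finset.mul_sum, Finset.mul_sum, Finset.sum_mul, ← Finset.sum_sub_distrib]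
      refine Finset.sum_congr rfl (fun y _ => ?_)
      rw [hMd]
      have h3 := hWr x y
      have h4 := hWr y x
      rw [hsymm y x] at h4
      calc _ = κ / D * ((t y * t y) * f y) * ((t x * t x) * f x) -
            (t x * (t x)⁻¹ * (t y * (t y)⁻¹ * W x y)) * f x * f y := by ring
        _ = _ := by rw [h4, h3, hts, hts]; ring
    rw [Finset.sum_congr rfl (fun x _ => h2 x), Finset.sum_sub_distrib, ← Finset.mul_sum]
    ring
  rw [h1] at key
  have h2 : ∑ x, f x * ∑ y, W x y * f y ≤ κ / D * (∑ x, d x * f x) ^ 2 := by linarith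
  calc D * ∑ x, f x * ∑ y, W x y * f y ≤ D * (κ / D * (∑ x, d x * f x) ^ 2) :=
        mul_le_mul_of_nonneg_left h2 hD.le
    _ = κ * (∑ x, d x * f x) ^ 2 := by field_simp

/-! ## combinatorial part -/

/-- basis exchange property -/
def Exch (𝓑 : Finset (Finset E)) : Prop :=
  ∀ A ∈ 𝓑, ∀ B ∈ 𝓑, ∀ e ∈ A \ B, ∃ f ∈ B \ A, insert f (A.erase e) ∈ 𝓑

def link (x : E) (𝓑 : Finset (Finset E)) : Finset (Finset E) :=
  (𝓑.filter (fun B => x ∈ B)).image (fun B => B.erase x)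

theorem erase_injOn (x : E) (𝓑 : Finset (Finset E)) :
    Set.InjOn (fun B : Finset E => B.erase x) (𝓑.filter (fun B => x ∈ B)) := by
  intro A hA B hB h
  simp only [coe_filter, Set.mem_ofPred_eq] at hA hB
  simp only at h
  rw [← Finset.insert_erase hA.2, ← Finset.insert_erase hB.2, h]

theorem sum_link (x : E) (𝓑 : Finset (Finset E)) (h : Finset E → ℝ) :
    ∑ B ∈ link x 𝓑, h B = ∑ B ∈ 𝓑, if x ∈ B then h (B.erase x) else 0 := by
  rw [link, Finset.sum_image (erase_injOn x 𝓑), Finset.sum_filter]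

theorem card_link (x : E) (𝓑 : Finset (Finset E)) :
    ((link x 𝓑).card : ℝ) = ∑ B ∈ 𝓑, if x ∈ B then (1 : ℝ) else 0 := by
  have := sum_link x 𝓑 (fun _ => 1)
  simpa using this

theorem dc (𝓑 : Finset (Finset E)) (h : E → Finset E → ℝ) :
    ∑ x, ∑ B ∈ 𝓑, (if x ∈ B then h x B else 0) = ∑ B ∈ 𝓑, ∑ x ∈ B, h x B := by
  rw [Finset.sum_comm]
  refine Finset.sum_congr rfl (fun B _ => ?_)
  rw [Finset.sum_ite_mem, Finset.univ_inter]

theorem mem_link {x : E} {𝓑 : Finset (Finset E)} {A : Finset E} :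
    A ∈ link x 𝓑 ↔ x ∉ A ∧ insert x A ∈ 𝓑 := by
  simp only [link, Finset.mem_image, Finset.mem_filter]
  constructor
  · rintro ⟨B, ⟨hB, hx⟩, rfl⟩
    refine ⟨Finset.notMem_erase _ _, ?_⟩
    rwa [Finset.insert_erase hx]
  · rintro ⟨hx, hA⟩
    exact ⟨insert x A, ⟨hA, Finset.mem_insert_self _ _⟩, Finset.erase_insert hx⟩

theorem Exch.link {𝓑 : Finset (Finset E)} (h : Exch 𝓑) (x : E) : Exch (link x 𝓑) := by
  intro A hA B hB e he
  rw [mem_link] at hA hB
  rw [Finset.mem_sdiff] at he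
  have hex : e ≠ x := fun h => hA.1 (h ▸ he.1)
  obtain ⟨f, hf, hfm⟩ := h _ hA.2 _ hB.2 e (by
    rw [Finset.mem_sdiff]
    exact ⟨Finset.mem_insert_of_mem he.1, by simp [hex, he.2]⟩)
  rw [Finset.mem_sdiff, Finset.mem_insert, Finset.mem_insert, not_or] at hf
  have hfB : f ∈ B := hf.1.resolve_left hf.2.1
  refine ⟨f, by rw [Finset.mem_sdiff]; exact ⟨hfB, hf.2.2⟩, ?_⟩
  rw [mem_link]
  constructor
  · simp [hA.1, Ne.symm hf.2.1]
  · have : insert x (insert f (A.erase e)) = insert f ((insert x A).erase e) := by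
      rw [Finset.erase_insert_of_ne (Ne.symm hex), Finset.insert_comm]
    rw [this]; exact hfm

theorem card_of_mem_link {𝓑 : Finset (Finset E)} {k : ℕ} (h : ∀ B ∈ 𝓑, B.card = k + 1) (x : E) :
    ∀ B ∈ link x 𝓑, B.card = k := by
  intro B hB
  rw [mem_link] at hB
  have := h _ hB.2
  rw [Finset.card_insert_of_notMem hB.1] at this
  omega

/-- degrees and co-degrees -/
noncomputable def dg (𝓑 : Finset (Finset E)) (x : E) : ℝ := ∑ B ∈ 𝓑, if x ∈ B then (1 : ℝ) else 0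

noncomputable def W (𝓑 : Finset (Finset E)) (x y : E) : ℝ :=
  ∑ B ∈ 𝓑, if x ∈ B ∧ y ∈ B ∧ x ≠ y then (1 : ℝ) else 0

noncomputable def Q (𝓑 : Finset (Finset E)) (f : E → ℝ) : ℝ :=
  ∑ B ∈ 𝓑, ((∑ x ∈ B, f x) ^ 2 - ∑ x ∈ B, f x ^ 2)

theorem dg_nonneg (𝓑 : Finset (Finset E)) (x : E) : 0 ≤ dg 𝓑 x :=
  Finset.sum_nonneg (fun B _ => by split_ifs <;> norm_num)

theorem W_symm (𝓑 : Finset (Finset E)) (x y : E) : W 𝓑 x y = W 𝓑 y x := by
  unfold W
  refine Finset.sum_congr rfl (fun B _ => ?_)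
  congr 1
  simp only [eq_iff_iff]
  constructor <;> exact fun h => ⟨h.2.1, h.1, h.2.2.symm⟩

theorem dg_eq_zero {𝓑 : Finset (Finset E)} {x : E} (h : dg 𝓑 x = 0) : ∀ B ∈ 𝓑, x ∉ B := by
  intro B hB hx
  have := (Finset.sum_eq_zero_iff_of_nonneg (fun B _ => by split_ifs <;> norm_num)).mp h B hB
  simp [hx] at this

theorem W_eq_zero {𝓑 : Finset (Finset E)} {x : E} (h : dg 𝓑 x = 0) (y : E) : W 𝓑 x y = 0 := by
  unfold W
  refine Finset.sum_eq_zero (fun B hB => ?_)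
  rw [if_neg]
  exact fun h' => dg_eq_zero h B hB h'.1

theorem sum_dg (𝓑 : Finset (Finset E)) (h : E → ℝ) :
    ∑ x, dg 𝓑 x * h x = ∑ B ∈ 𝓑, ∑ x ∈ B, h x := by
  rw [← dc 𝓑 (fun x _ => h x)]
  refine Finset.sum_congr rfl (fun x _ => ?_)
  rw [dg, Finset.sum_mul]
  refine Finset.sum_congr rfl (fun B _ => ?_)
  split_ifs <;> simp

theorem W_apply (𝓑 : Finset (Finset E)) (f : E → ℝ) (x : E) :
    ∑ y, W 𝓑 x y * f y = ∑ B ∈ 𝓑, if x ∈ B then (∑ y ∈ B, f y) - f x else 0 := by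
  unfold W
  simp_rw [Finset.sum_mul]
  rw [Finset.sum_comm]
  refine Finset.sum_congr rfl (fun B _ => ?_)
  split_ifs with hx
  · rw [← Finset.sum_erase_eq_sub hx]
    rw [← Finset.univ_inter (B.erase x), ← Finset.sum_ite_mem]
    refine Finset.sum_congr rfl (fun y _ => ?_)
    by_cases hy : y ∈ B <;> by_cases hxy : x = y
    · subst hxy; simp
    · simp [hx, hy, hxy, Ne.symm hxy]
    · subst hxy; simp
    · simp [hy]
  · simp [hx]

theorem quad_eq (𝓑 : Finset (Finset E)) (f : E → ℝ) :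
    ∑ x, f x * ∑ y, W 𝓑 x y * f y = Q 𝓑 f := by
  have h1 : ∀ x, f x * ∑ y, W 𝓑 x y * f y =
      ∑ B ∈ 𝓑, if x ∈ B then f x * ((∑ y ∈ B, f y) - f x) else 0 := by
    intro x
    rw [W_apply, Finset.mul_sum]
    refine Finset.sum_congr rfl (fun B _ => ?_)
    split_ifs <;> simp
  simp_rw [h1]
  rw [dc 𝓑 (fun x B => f x * ((∑ y ∈ B, f y) - f x)), Q]
  refine Finset.sum_congr rfl (fun B _ => ?_)
  rw [sq, Finset.sum_mul, ← Finset.sum_sub_distrib]
  exact Finset.sum_congr rfl (fun x _ => by ring)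

theorem W_sum (𝓑 : Finset (Finset E)) {k : ℕ} (hcard : ∀ B ∈ 𝓑, B.card = k) (x : E) :
    ∑ y, W 𝓑 x y = ((k : ℝ) - 1) * dg 𝓑 x := by
  have := W_apply 𝓑 (fun _ => (1 : ℝ)) x
  simp only [mul_one] at this
  rw [this, dg, Finset.mul_sum]
  refine Finset.sum_congr rfl (fun B hB => ?_)
  rw [Finset.sum_const, hcard B hB]
  split_ifs <;> simp

/-- connectivity -/
theorem const_of_exch {𝓑 : Finset (Finset E)} (hex : Exch 𝓑) {k : ℕ} (hk : 2 ≤ k)
    (hcard : ∀ B ∈ 𝓑, B.card = k) (f : E → ℝ)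
    (hf : ∀ B ∈ 𝓑, ∀ x ∈ B, ∀ y ∈ B, f x = f y) :
    ∃ c, ∀ B ∈ 𝓑, ∀ x ∈ B, f x = c := by
  rcases 𝓑.eq_empty_or_nonempty with h0 | ⟨A, hA⟩
  · exact ⟨0, by simp [h0]⟩
  have hAc := hcard A hA
  obtain ⟨a, ha, b, hb, hab⟩ := Finset.one_lt_card.mp (show 1 < A.card by omega)
  refine ⟨f a, fun B hB x hx => ?_⟩
  by_cases haB : a ∈ B
  · exact hf B hB x hx a haB
  obtain ⟨g, hg, hgm⟩ := hex A hA B hB a (Finset.mem_sdiff.mpr ⟨ha, haB⟩)
  rw [Finset.mem_sdiff] at hg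
  have h1 : f x = f g := hf B hB x hx g hg.1
  have h2 : f g = f b := hf _ hgm g (Finset.mem_insert_self _ _) b
    (Finset.mem_insert_of_mem (Finset.mem_erase.mpr ⟨hab.symm, hb⟩))
  rw [h1, h2]
  exact hf A hA b hb a ha


/-- link inequality for the co-degree operator -/
theorem Q_link (𝓑 : Finset (Finset E)) (f : E → ℝ) (x : E) :
    Q (link x 𝓑) f = ∑ B ∈ 𝓑, if x ∈ B then
      (((∑ y ∈ B, f y) - f x) ^ 2 - ((∑ y ∈ B, f y ^ 2) - f x ^ 2)) else 0 := by
  rw [Q, sum_link]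
  refine Finset.sum_congr rfl (fun B _ => ?_)
  split_ifs with hx
  · rw [Finset.sum_erase_eq_sub hx, Finset.sum_erase_eq_sub hx]
  · rfl

theorem S_link (𝓑 : Finset (Finset E)) (f : E → ℝ) (x : E) :
    ∑ B ∈ link x 𝓑, ∑ y ∈ B, f y = ∑ y, W 𝓑 x y * f y := by
  rw [W_apply, sum_link]
  refine Finset.sum_congr rfl (fun B _ => ?_)
  split_ifs with hx
  · rw [Finset.sum_erase_eq_sub hx]
  · rfl

theorem sum_Q_link (𝓑 : Finset (Finset E)) {k : ℕ} (hcard : ∀ B ∈ 𝓑, B.card = k) (f : E → ℝ) :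
    ∑ x, Q (link x 𝓑) f = ((k : ℝ) - 2) * Q 𝓑 f := by
  simp_rw [Q_link]
  rw [dc 𝓑 (fun x B => ((∑ y ∈ B, f y) - f x) ^ 2 - ((∑ y ∈ B, f y ^ 2) - f x ^ 2)), Q,
    Finset.mul_sum]
  refine Finset.sum_congr rfl (fun B hB => ?_)
  have h1 : ∀ x ∈ B, ((∑ y ∈ B, f y) - f x) ^ 2 - ((∑ y ∈ B, f y ^ 2) - f x ^ 2) =
      ((∑ y ∈ B, f y) ^ 2 - ∑ y ∈ B, f y ^ 2) - 2 * (∑ y ∈ B, f y) * f x + 2 * f x ^ 2 := by
    intro x _; ring
  rw [Finset.sum_congr rfl h1, Finset.sum_add_distrib, Finset.sum_sub_distrib, Finset.sum_const,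
    ← Finset.mul_sum, ← Finset.mul_sum, hcard B hB, nsmul_eq_mul]
  ring

theorem sum_pairs (B : Finset E) (f : E → ℝ) :
    ∑ x ∈ B, ∑ y ∈ B, (f x - f y) ^ 2 = 2 * (B.card : ℝ) * (∑ x ∈ B, f x ^ 2)
      - 2 * (∑ x ∈ B, f x) ^ 2 := by
  have h1 : ∀ x ∈ B, ∑ y ∈ B, (f x - f y) ^ 2 =
      (B.card : ℝ) * f x ^ 2 - 2 * (∑ y ∈ B, f y) * f x + ∑ y ∈ B, f y ^ 2 := by
    intro x _
    have h2 : ∀ y ∈ B, (f x - f y) ^ 2 = f x ^ 2 - 2 * f x * f y + f y ^ 2 := fun y _ => by ring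
    rw [Finset.sum_congr rfl h2, Finset.sum_add_distrib, Finset.sum_sub_distrib,
      Finset.sum_const, nsmul_eq_mul, ← Finset.mul_sum]
    ring
  rw [Finset.sum_congr rfl h1, Finset.sum_add_distrib, Finset.sum_sub_distrib,
      Finset.sum_const, nsmul_eq_mul, ← Finset.mul_sum, ← Finset.mul_sum]
  ring

/-- the trickle-down step -/
theorem trickle (k : ℕ) (hk : 3 ≤ k) (𝓑 : Finset (Finset E)) (hex : Exch 𝓑)
    (hcard : ∀ B ∈ 𝓑, B.card = k)
    (hlink : ∀ x, ∀ f : E → ℝ, ((k : ℝ) - 1) * ((link x 𝓑).card : ℝ) * Q (link x 𝓑) f ≤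
      ((k : ℝ) - 2) * (∑ B ∈ link x 𝓑, ∑ y ∈ B, f y) ^ 2) (f : E → ℝ) :
    (k : ℝ) * (𝓑.card : ℝ) * Q 𝓑 f ≤ ((k : ℝ) - 1) * (∑ B ∈ 𝓑, ∑ x ∈ B, f x) ^ 2 := by
  rcases 𝓑.eq_empty_or_nonempty with h0 | hne
  · simp [h0]
  have hkR : (3 : ℝ) ≤ k := by exact_mod_cast hk
  have hNpos : (0 : ℝ) < 𝓑.card := by exact_mod_cast hne.card_pos
  have hsumd : ∑ x, dg 𝓑 x = (k : ℝ) * 𝓑.card := by
    have := sum_dg 𝓑 (fun _ => (1 : ℝ))
    simp only [mul_one] at this
    rw [this]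
    have h1 : ∀ B ∈ 𝓑, ∑ x ∈ B, (1 : ℝ) = k := by
      intro B hB; simp [hcard B hB]
    rw [Finset.sum_congr rfl h1]; simp [mul_comm]
  have key := spectral_aux (dg 𝓑) (dg_nonneg 𝓑) (W 𝓑) (W_symm 𝓑) (fun x y h => W_eq_zero h y)
    ((k : ℝ) - 1) (W_sum 𝓑 hcard) (by rw [hsumd]; positivity) ?_ f
  · rw [hsumd, quad_eq, sum_dg] at key
    exact key
  -- eigenvector analysis
  intro f μ hμ hev hs
  by_contra hR
  have hRdef : ∑ x, dg 𝓑 x * f x ^ 2 = ∑ B ∈ 𝓑, ∑ x ∈ B, f x ^ 2 := sum_dg 𝓑 (fun x => f x ^ 2)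
  have hRnn : 0 ≤ ∑ x, dg 𝓑 x * f x ^ 2 :=
    Finset.sum_nonneg (fun x _ => mul_nonneg (dg_nonneg 𝓑 x) (sq_nonneg _))
  have hRpos : 0 < ∑ x, dg 𝓑 x * f x ^ 2 := lt_of_le_of_ne hRnn (Ne.symm hR)
  set R := ∑ x, dg 𝓑 x * f x ^ 2 with hRd
  have hQ : Q 𝓑 f = μ * R := by
    rw [← quad_eq, hRd, Finset.mul_sum]
    refine Finset.sum_congr rfl (fun x _ => ?_)
    rw [hev x]; ring
  -- sum of link inequalities
  have h1 : ∀ x, ((k : ℝ) - 1) * Q (link x 𝓑) f ≤ ((k : ℝ) - 2) * (μ ^ 2 * (dg 𝓑 x * f x ^ 2)) := by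
    intro x
    have h2 := hlink x f
    rw [S_link, hev x, card_link] at h2
    change ((k : ℝ) - 1) * dg 𝓑 x * Q (link x 𝓑) f ≤ _ at h2
    rcases (dg_nonneg 𝓑 x).eq_or_lt with h3 | h3
    · have h4 : Q (link x 𝓑) f = 0 := by
        rw [Q_link]
        refine Finset.sum_eq_zero (fun B hB => ?_)
        rw [if_neg (dg_eq_zero h3.symm B hB)]
      rw [h4, ← h3]; simp
    · refine le_of_mul_le_mul_left ?_ h3
      calc dg 𝓑 x * (((k : ℝ) - 1) * Q (link x 𝓑) f) = ((k : ℝ) - 1) * dg 𝓑 x * Q (link x 𝓑) f := by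
            ring
        _ ≤ _ := h2
        _ = _ := by ring
  have h2 : ((k : ℝ) - 1) * (((k : ℝ) - 2) * Q 𝓑 f) ≤ ((k : ℝ) - 2) * (μ ^ 2 * R) := by
    rw [← sum_Q_link 𝓑 hcard, hRd, Finset.mul_sum, Finset.mul_sum, Finset.mul_sum]
    exact Finset.sum_le_sum (fun x _ => h1 x)
  rw [hQ] at h2
  have h3 : (k : ℝ) - 1 ≤ μ := by
    have h4 : 0 < ((k : ℝ) - 2) * μ * R := by
      have : 0 < (k : ℝ) - 2 := by linarith
      positivity
    refine le_of_mul_le_mul_left ?_ h4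
    nlinarith [h2]
  have h4 : ∑ B ∈ 𝓑, ∑ x ∈ B, ∑ y ∈ B, (f x - f y) ^ 2 ≤ 0 := by
    have h5 : ∀ B ∈ 𝓑, ∑ x ∈ B, ∑ y ∈ B, (f x - f y) ^ 2 =
        2 * ((k : ℝ) - 1) * (∑ x ∈ B, f x ^ 2)
          - 2 * ((∑ x ∈ B, f x) ^ 2 - ∑ x ∈ B, f x ^ 2) := by
      intro B hB
      rw [sum_pairs, hcard B hB]; ring
    rw [Finset.sum_congr rfl h5, Finset.sum_sub_distrib, ← Finset.mul_sum, ← Finset.mul_sum,
      ← hRdef]
    change 2 * ((k : ℝ) - 1) * R - 2 * Q 𝓑 f ≤ 0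
    rw [hQ]
    nlinarith [mul_le_mul_of_nonneg_right h3 hRpos.le]
  have h5 : ∀ B ∈ 𝓑, ∀ x ∈ B, ∀ y ∈ B, f x = f y := by
    intro B hB x hx y hy
    have h6 : ∑ B ∈ 𝓑, ∑ x ∈ B, ∑ y ∈ B, (f x - f y) ^ 2 = 0 :=
      le_antisymm h4 (Finset.sum_nonneg (fun B _ => Finset.sum_nonneg (fun x _ =>
        Finset.sum_nonneg (fun y _ => sq_nonneg _))))
    have h7 := (Finset.sum_eq_zero_iff_of_nonneg (fun B _ => Finset.sum_nonneg (fun x _ =>
        Finset.sum_nonneg (fun y _ => sq_nonneg _)))).mp h6 B hB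
    have h8 := (Finset.sum_eq_zero_iff_of_nonneg (fun x _ =>
        Finset.sum_nonneg (fun y _ => sq_nonneg _))).mp h7 x hx
    have h9 := (Finset.sum_eq_zero_iff_of_nonneg (fun y _ => sq_nonneg _)).mp h8 y hy
    exact sub_eq_zero.mp (pow_eq_zero_iff (two_ne_zero) |>.mp h9)
  obtain ⟨c, hc⟩ := const_of_exch hex (by omega) hcard f h5
  have h6 : ∑ x, dg 𝓑 x * f x = c * (k * 𝓑.card) := by
    rw [sum_dg]
    have : ∀ B ∈ 𝓑, ∑ x ∈ B, f x = c * k := by
      intro B hB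
      rw [Finset.sum_congr rfl (hc B hB), Finset.sum_const, hcard B hB, nsmul_eq_mul]; ring
    rw [Finset.sum_congr rfl this, Finset.sum_const, nsmul_eq_mul]; ring
  rw [hs] at h6
  have h7 : c = 0 := by
    rcases mul_eq_zero.mp h6.symm with h | h
    · exact h
    · exfalso
      have : (0 : ℝ) < k * 𝓑.card := mul_pos (by linarith) hNpos
      linarith
  apply hRpos.ne'
  rw [hRdef]
  refine Finset.sum_eq_zero (fun B hB => Finset.sum_eq_zero (fun x hx => ?_))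
  rw [hc B hB x hx, h7]; norm_num

/-- rank two, on a hyperplane -/
theorem base2_neg (𝓑 : Finset (Finset E)) (hex : Exch 𝓑)
    (hcard : ∀ B ∈ 𝓑, B.card = 2) (f : E → ℝ) (hf : ∑ x ∈ 𝓑.biUnion id, f x = 0) :
    Q 𝓑 f ≤ 0 := by
  classical
  set L := 𝓑.biUnion id with hL
  have hmemL : ∀ x, x ∈ L ↔ ∃ B ∈ 𝓑, x ∈ B := by intro x; simp [hL]
  let r : E → E → Prop := fun x y => x = y ∨ ({x, y} : Finset E) ∉ 𝓑
  have hrsymm : ∀ x y, r x y → r y x := by
    intro x y h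
    rcases h with h | h
    · exact Or.inl h.symm
    · right; rwa [Finset.pair_comm]
  have hrtrans : ∀ x y z, y ∈ L → r x y → r y z → r x z := by
    intro x y z hy hxy hyz
    by_cases h1 : x = y
    · rwa [h1]
    by_cases h2 : y = z
    · rwa [← h2]
    have h3 := hxy.resolve_left h1
    have h4 := hyz.resolve_left h2
    by_cases h5 : x = z
    · exact Or.inl h5
    right
    intro h6
    obtain ⟨B, hB, hyB⟩ := (hmemL y).mp hy
    obtain ⟨w, hw⟩ : ∃ w, w ∈ B.erase y := by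
      apply Finset.card_pos.mp
      rw [Finset.card_erase_of_mem hyB, hcard B hB]; norm_num
    have hBe : B.erase w = {y} := by
      have h7 : (B.erase w).card = 1 := by
        rw [Finset.card_erase_of_mem (Finset.mem_of_mem_erase hw), hcard B hB]
      obtain ⟨u, hu⟩ := Finset.card_eq_one.mp h7
      have h8 : y ∈ B.erase w := Finset.mem_erase.mpr ⟨(Finset.ne_of_mem_erase hw).symm, hyB⟩
      rw [hu, Finset.mem_singleton] at h8
      rw [hu, h8]
    have hBw : B = {y, w} := by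
      rw [← Finset.insert_erase (Finset.mem_of_mem_erase hw), hBe, Finset.pair_comm]
    have hwx : w ≠ x := by
      intro h; apply h3; rw [← h, Finset.pair_comm, ← hBw]; exact hB
    have hwz : w ≠ z := by
      intro h; apply h4; rw [← h, ← hBw]; exact hB
    obtain ⟨g, hg, hgm⟩ := hex B hB _ h6 w (by
      rw [Finset.mem_sdiff]; exact ⟨Finset.mem_of_mem_erase hw, by simp [hwx, hwz]⟩)
    rw [hBe] at hgm
    rw [Finset.mem_sdiff, Finset.mem_insert, Finset.mem_singleton] at hg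
    rcases hg.1 with h | h
    · rw [h] at hgm; exact h3 hgm
    · rw [h, Finset.pair_comm] at hgm; exact h4 hgm
  let cl : E → Finset E := fun x => L.filter (fun y => r x y)
  have hcl : ∀ x ∈ L, ∀ y ∈ L, cl y = cl x ↔ r x y := by
    intro x hx y hy
    constructor
    · intro h
      have : y ∈ cl y := Finset.mem_filter.mpr ⟨hy, Or.inl rfl⟩
      rw [h] at this
      exact (Finset.mem_filter.mp this).2
    · intro h
      ext z
      simp only [cl, Finset.mem_filter]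
      constructor
      · exact fun hz => ⟨hz.1, hrtrans x y z hy h hz.2⟩
      · exact fun hz => ⟨hz.1, hrtrans y x z hx (hrsymm _ _ h) hz.2⟩
  have hW : ∀ x ∈ L, ∀ y ∈ L, W 𝓑 x y = 1 - if cl y = cl x then (1 : ℝ) else 0 := by
    intro x hx y hy
    by_cases h : r x y
    · rw [if_pos ((hcl x hx y hy).mpr h), sub_self]
      unfold W
      refine Finset.sum_eq_zero (fun B hB => ?_)
      rw [if_neg]
      rintro ⟨h1, h2, h3⟩
      apply h.resolve_left h3
      have : ({x, y} : Finset E) = B := by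
        apply Finset.eq_of_subset_of_card_le
        · intro z hz
          rw [Finset.mem_insert, Finset.mem_singleton] at hz
          rcases hz with rfl | rfl <;> assumption
        · rw [hcard B hB, Finset.card_pair h3]
      rwa [this]
    · rw [if_neg (fun h' => h ((hcl x hx y hy).mp h')), sub_zero]
      have h1 : x ≠ y := fun h' => h (Or.inl h')
      have h2 : ({x, y} : Finset E) ∈ 𝓑 := by
        by_contra h'; exact h (Or.inr h')
      unfold W
      rw [Finset.sum_eq_single_of_mem _ h2]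
      · simp [h1]
      · intro B hB hBne
        rw [if_neg]
        rintro ⟨h3, h4, _⟩
        apply hBne
        symm
        apply Finset.eq_of_subset_of_card_le
        · intro z hz
          rw [Finset.mem_insert, Finset.mem_singleton] at hz
          rcases hz with rfl | rfl <;> assumption
        · rw [hcard B hB, Finset.card_pair h1]
  have hWx0 : ∀ x, x ∉ L → ∀ y, W 𝓑 x y = 0 := by
    intro x hx y
    apply W_eq_zero
    unfold dg
    refine Finset.sum_eq_zero (fun B hB => ?_)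
    rw [if_neg]
    exact fun h => hx ((hmemL x).mpr ⟨B, hB, h⟩)
  have h1 : Q 𝓑 f = ∑ x ∈ L, f x * ∑ y ∈ L, W 𝓑 x y * f y := by
    rw [← quad_eq]
    symm
    have h2 : ∀ x ∈ L, f x * ∑ y ∈ L, W 𝓑 x y * f y = f x * ∑ y, W 𝓑 x y * f y := by
      intro x _
      congr 1
      apply Finset.sum_subset (Finset.subset_univ _)
      intro y _ hy
      rw [W_symm, hWx0 y hy, zero_mul]
    rw [Finset.sum_congr rfl h2]
    apply Finset.sum_subset (Finset.subset_univ _)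
    intro x _ hx
    simp [hWx0 x hx]
  have h2 : Q 𝓑 f = (∑ x ∈ L, f x) ^ 2 - ∑ x ∈ L, f x * ∑ y ∈ L with cl y = cl x, f y := by
    rw [h1, sq, Finset.sum_mul, ← Finset.sum_sub_distrib]
    refine Finset.sum_congr rfl (fun x hx => ?_)
    rw [← mul_sub]
    congr 1
    rw [Finset.sum_filter, ← Finset.sum_sub_distrib]
    refine Finset.sum_congr rfl (fun y hy => ?_)
    rw [hW x hx y hy]
    split_ifs <;> ring
  have h3 : ∑ x ∈ L, f x * ∑ y ∈ L with cl y = cl x, f y =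
      ∑ c ∈ L.image cl, (∑ x ∈ L with cl x = c, f x) ^ 2 := by
    rw [← Finset.sum_fiberwise_of_maps_to (g := cl) (t := L.image cl)
      (fun x hx => Finset.mem_image_of_mem _ hx)]
    refine Finset.sum_congr rfl (fun c _ => ?_)
    rw [sq, Finset.sum_mul]
    refine Finset.sum_congr rfl (fun x hx => ?_)
    rw [(Finset.mem_filter.mp hx).2]
  rw [h2, h3, hf]
  have h4 : 0 ≤ ∑ c ∈ L.image cl, (∑ x ∈ L with cl x = c, f x) ^ 2 :=
    Finset.sum_nonneg (fun c _ => sq_nonneg _)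
  nlinarith

theorem base2 (𝓑 : Finset (Finset E)) (hex : Exch 𝓑)
    (hcard : ∀ B ∈ 𝓑, B.card = 2) (f : E → ℝ) :
    2 * (𝓑.card : ℝ) * Q 𝓑 f ≤ (∑ B ∈ 𝓑, ∑ x ∈ B, f x) ^ 2 := by
  rcases 𝓑.eq_empty_or_nonempty with h0 | hne
  · simp [h0]
  set L := 𝓑.biUnion id with hL
  have hLpos : (0 : ℝ) < L.card := by
    have : L.Nonempty := by
      obtain ⟨B, hB⟩ := hne
      obtain ⟨x, hx⟩ := Finset.card_pos.mp (show 0 < B.card by rw [hcard B hB]; norm_num)
      exact ⟨x, by simp only [hL, Finset.mem_biUnion, id]; exact ⟨B, hB, hx⟩⟩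
    exact_mod_cast this.card_pos
  set l := (∑ x ∈ L, f x) / L.card with hl
  have h1 := base2_neg 𝓑 hex hcard (fun x => f x - l) (by
    rw [← hL, Finset.sum_sub_distrib, Finset.sum_const, nsmul_eq_mul, hl]; field_simp; ring)
  have h2 : Q 𝓑 (fun x => f x - l) = Q 𝓑 f - 2 * l * (∑ B ∈ 𝓑, ∑ x ∈ B, f x) +
      2 * l ^ 2 * 𝓑.card := by
    have h3 : 2 * l ^ 2 * (𝓑.card : ℝ) = ∑ B ∈ 𝓑, 2 * l ^ 2 := by
      rw [Finset.sum_const, nsmul_eq_mul]; ring
    rw [h3, Finset.mul_sum, Q, Q, ← Finset.sum_sub_distrib, ← Finset.sum_add_distrib]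
    refine Finset.sum_congr rfl (fun B hB => ?_)
    have h4 : ∑ x ∈ B, (f x - l) = ∑ x ∈ B, f x - 2 * l := by
      rw [Finset.sum_sub_distrib, Finset.sum_const, hcard B hB, nsmul_eq_mul]; norm_num
    have h5 : ∑ x ∈ B, (f x - l) ^ 2 = ∑ x ∈ B, f x ^ 2 - 2 * l * ∑ x ∈ B, f x + 2 * l ^ 2 := by
      have : ∀ x ∈ B, (f x - l) ^ 2 = f x ^ 2 - 2 * l * f x + l ^ 2 := fun x _ => by ring
      rw [Finset.sum_congr rfl this, Finset.sum_add_distrib, Finset.sum_sub_distrib,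
        ← Finset.mul_sum, Finset.sum_const, hcard B hB, nsmul_eq_mul]; norm_num
    rw [h4, h5]; ring
  rw [h2] at h1
  have hNpos : (0 : ℝ) < 𝓑.card := by exact_mod_cast hne.card_pos
  nlinarith [mul_le_mul_of_nonneg_left h1 hNpos.le,
    sq_nonneg ((∑ B ∈ 𝓑, ∑ x ∈ B, f x) - 2 * l * 𝓑.card)]

theorem claim1 (k : ℕ) : ∀ (𝓑 : Finset (Finset E)), Exch 𝓑 → (∀ B ∈ 𝓑, B.card = k) →
    ∀ f : E → ℝ, (k : ℝ) * (𝓑.card : ℝ) * Q 𝓑 f ≤ ((k : ℝ) - 1) * (∑ B ∈ 𝓑, ∑ x ∈ B, f x) ^ 2 := by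
  induction k with
  | zero =>
    intro 𝓑 hex hcard f
    have h1 : ∑ B ∈ 𝓑, ∑ x ∈ B, f x = 0 := by
      refine Finset.sum_eq_zero (fun B hB => ?_)
      rw [Finset.card_eq_zero.mp (hcard B hB)]; simp
    rw [h1]; simp
  | succ k ih =>
    intro 𝓑 hex hcard f
    rcases k with _ | _ | k
    · have h1 : Q 𝓑 f = 0 := by
        refine Finset.sum_eq_zero (fun B hB => ?_)
        obtain ⟨x, hx⟩ := Finset.card_eq_one.mp (hcard B hB)
        rw [hx]; simp
      rw [h1]; simp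
    · have := base2 𝓑 hex hcard f
      norm_num
      exact this
    · apply trickle (k + 1 + 1 + 1) (by omega) 𝓑 hex hcard
      intro x f
      have := ih (link x 𝓑) (hex.link x) (card_of_mem_link hcard x) f
      push_cast at this ⊢
      have e1 : (k : ℝ) + 1 + 1 + 1 - 1 = k + 1 + 1 := by ring
      have e2 : (k : ℝ) + 1 + 1 + 1 - 2 = k + 1 + 1 - 1 := by ring
      rw [e1, e2]; exact this

/-- variance step -/
theorem var_step (k : ℕ) (hk : 1 ≤ k) (𝓑 : Finset (Finset E)) (hex : Exch 𝓑)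
    (hcard : ∀ B ∈ 𝓑, B.card = k) (φ : Finset E → ℝ) (h0 : ∑ B ∈ 𝓑, φ B = 0) :
    ∑ x, (∑ B ∈ 𝓑, if x ∈ B then φ B else 0) ^ 2 / dg 𝓑 x ≤ ∑ B ∈ 𝓑, φ B ^ 2 := by
  rcases 𝓑.eq_empty_or_nonempty with he | hne
  · simp [he]
  have hkpos : (0 : ℝ) < k := by exact_mod_cast hk
  have hNpos : (0 : ℝ) < 𝓑.card := by exact_mod_cast hne.card_pos
  obtain ⟨a, ha⟩ : ∃ a : E → ℝ, ∀ x, a x = ∑ B ∈ 𝓑, if x ∈ B then φ B else 0 :=
    ⟨_, fun x => rfl⟩
  obtain ⟨f, hf⟩ : ∃ f : E → ℝ, ∀ x, f x = a x / dg 𝓑 x := ⟨_, fun x => rfl⟩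
  simp_rw [← ha]
  have ha0 : ∀ x, dg 𝓑 x = 0 → a x = 0 := by
    intro x hx
    rw [ha]
    exact Finset.sum_eq_zero (fun B hB => if_neg (dg_eq_zero hx B hB))
  have hdf : ∀ x, dg 𝓑 x * f x = a x := by
    intro x
    rw [hf]
    by_cases hx : dg 𝓑 x = 0
    · rw [hx, ha0 x hx]; simp
    · field_simp
  have hZ1 : ∑ x, a x ^ 2 / dg 𝓑 x = ∑ x, dg 𝓑 x * f x ^ 2 := by
    refine Finset.sum_congr rfl (fun x _ => ?_)
    rw [hf]
    by_cases hx : dg 𝓑 x = 0
    · rw [hx, ha0 x hx]; simp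
    · field_simp
  have hZ2 : ∑ x, dg 𝓑 x * f x ^ 2 = ∑ B ∈ 𝓑, φ B * ∑ x ∈ B, f x := by
    have h1 : ∀ x, dg 𝓑 x * f x ^ 2 = ∑ B ∈ 𝓑, if x ∈ B then φ B * f x else 0 := by
      intro x
      rw [sq, ← mul_assoc, hdf, ha, Finset.sum_mul]
      refine Finset.sum_congr rfl (fun B _ => ?_)
      split_ifs <;> simp
    simp_rw [h1]
    rw [dc 𝓑 (fun x B => φ B * f x)]
    simp_rw [Finset.mul_sum]
  have hS : ∑ B ∈ 𝓑, ∑ x ∈ B, f x = 0 := by
    rw [← sum_dg]
    simp_rw [hdf, ha]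
    rw [dc 𝓑 (fun x B => φ B)]
    have : ∀ B ∈ 𝓑, ∑ x ∈ B, φ B = k * φ B := by
      intro B hB; rw [Finset.sum_const, hcard B hB, nsmul_eq_mul]
    rw [Finset.sum_congr rfl this, ← Finset.mul_sum, h0, mul_zero]
  have hQ : Q 𝓑 f ≤ 0 := by
    have h1 := claim1 k 𝓑 hex hcard f
    rw [hS] at h1
    have h2 : 0 < (k : ℝ) * 𝓑.card := mul_pos hkpos hNpos
    by_contra h3
    push Not at h3
    nlinarith [mul_pos h2 h3]
  set Z := ∑ x, dg 𝓑 x * f x ^ 2 with hZ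
  have hZnn : 0 ≤ Z :=
    Finset.sum_nonneg (fun x _ => mul_nonneg (dg_nonneg 𝓑 x) (sq_nonneg _))
  have hF : ∑ B ∈ 𝓑, (∑ x ∈ B, f x) ^ 2 ≤ Z := by
    have h1 : ∑ B ∈ 𝓑, (∑ x ∈ B, f x) ^ 2 = Q 𝓑 f + Z := by
      rw [hZ, sum_dg 𝓑 (fun x => f x ^ 2), Q, ← Finset.sum_add_distrib]
      exact Finset.sum_congr rfl (fun B _ => by ring)
    linarith
  have hCS : Z ^ 2 ≤ (∑ B ∈ 𝓑, φ B ^ 2) * ∑ B ∈ 𝓑, (∑ x ∈ B, f x) ^ 2 := by
    rw [hZ2]
    exact Finset.sum_mul_sq_le_sq_mul_sq 𝓑 φ (fun B => ∑ x ∈ B, f x)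
  have hφnn : 0 ≤ ∑ B ∈ 𝓑, φ B ^ 2 := Finset.sum_nonneg (fun B _ => sq_nonneg _)
  rw [hZ1]
  by_contra hlt
  push Not at hlt
  have hZpos : 0 < Z := lt_of_le_of_lt hφnn hlt
  nlinarith [mul_le_mul_of_nonneg_left hF hφnn, mul_pos hZpos hZpos]

theorem card_eq_aux (𝓑 : Finset (Finset E)) (hex : Exch 𝓑) : ∀ n : ℕ, ∀ A ∈ 𝓑, ∀ B ∈ 𝓑,
    (A \ B).card = n → A.card = B.card := by
  intro n
  induction n with
  | zero =>
    intro A hA B hB h
    have h1 : A ⊆ B := by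
      rw [← Finset.sdiff_eq_empty_iff_subset]; exact Finset.card_eq_zero.mp h
    have h2 : B ⊆ A := by
      intro e he
      by_contra heA
      obtain ⟨f, hf, _⟩ := hex B hB A hA e (Finset.mem_sdiff.mpr ⟨he, heA⟩)
      rw [Finset.mem_sdiff] at hf
      exact hf.2 (h1 hf.1)
    rw [Finset.Subset.antisymm h1 h2]
  | succ n ih =>
    intro A hA B hB h
    obtain ⟨e, he⟩ := Finset.card_pos.mp (show 0 < (A \ B).card by omega)
    obtain ⟨f, hf, hfm⟩ := hex A hA B hB e he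
    rw [Finset.mem_sdiff] at hf
    have heA := (Finset.mem_sdiff.mp he).1
    have h1 : (insert f (A.erase e)).card = A.card := by
      rw [Finset.card_insert_of_notMem (fun h => hf.2 (Finset.mem_of_mem_erase h)),
        Finset.card_erase_of_mem heA]
      have := Finset.card_pos.mpr ⟨e, heA⟩
      omega
    have h2 : insert f (A.erase e) \ B = (A \ B).erase e := by
      ext z
      simp only [Finset.mem_sdiff, Finset.mem_insert, Finset.mem_erase]
      constructor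
      · rintro ⟨rfl | hz, hzB⟩
        · exact absurd hf.1 hzB
        · exact ⟨hz.1, hz.2, hzB⟩
      · rintro ⟨hz1, hz2, hz3⟩
        exact ⟨Or.inr ⟨hz1, hz2⟩, hz3⟩
    have h3 := ih _ hfm B hB (by rw [h2, Finset.card_erase_of_mem he, h]; omega)
    rw [← h1, h3]

noncomputable def En (𝓑 : Finset (Finset E)) (φ : Finset E → ℝ) : ℝ :=
  ∑ B ∈ 𝓑, ∑ B' ∈ 𝓑, if (B \ B').card = 1 then (φ B - φ B') ^ 2 else 0

theorem En_nonneg (𝓑 : Finset (Finset E)) (φ : Finset E → ℝ) : 0 ≤ En 𝓑 φ :=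
  Finset.sum_nonneg (fun B _ => Finset.sum_nonneg (fun B' _ => by
    split_ifs
    · exact sq_nonneg _
    · exact le_rfl))

theorem var_of_zero (𝓑 : Finset (Finset E))
    (h : ∀ φ : Finset E → ℝ, ∑ B ∈ 𝓑, φ B = 0 → 4 * ∑ B ∈ 𝓑, φ B ^ 2 ≤ En 𝓑 φ)
    (φ : Finset E → ℝ) :
    4 * (∑ B ∈ 𝓑, φ B ^ 2 - (∑ B ∈ 𝓑, φ B) ^ 2 / (𝓑.card : ℝ)) ≤ En 𝓑 φ := by
  rcases 𝓑.eq_empty_or_nonempty with he | hne
  · simp [he, En]
  have hNpos : (0 : ℝ) < 𝓑.card := by exact_mod_cast hne.card_pos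
  set m := (∑ B ∈ 𝓑, φ B) / 𝓑.card with hm
  have h1 := h (fun B => φ B - m) (by
    rw [Finset.sum_sub_distrib, Finset.sum_const, nsmul_eq_mul, hm]; field_simp; ring)
  have h2 : En 𝓑 (fun B => φ B - m) = En 𝓑 φ := by
    unfold En
    simp
  have h3 : ∑ B ∈ 𝓑, (φ B - m) ^ 2 =
      ∑ B ∈ 𝓑, φ B ^ 2 - (∑ B ∈ 𝓑, φ B) ^ 2 / (𝓑.card : ℝ) := by
    have h4 : ∀ B ∈ 𝓑, (φ B - m) ^ 2 = φ B ^ 2 - 2 * m * φ B + m ^ 2 := fun B _ => by ring
    rw [Finset.sum_congr rfl h4, Finset.sum_add_distrib, Finset.sum_sub_distrib,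
      Finset.sum_const, nsmul_eq_mul, ← Finset.mul_sum, hm]
    field_simp
    ring
  rw [h2, h3] at h1
  exact h1

theorem poincare_aux (k : ℕ) : ∀ (𝓑 : Finset (Finset E)), Exch 𝓑 → (∀ B ∈ 𝓑, B.card = k) →
    ∀ φ : Finset E → ℝ, ∑ B ∈ 𝓑, φ B = 0 → 4 * ∑ B ∈ 𝓑, φ B ^ 2 ≤ En 𝓑 φ := by
  induction k with
  | zero =>
    intro 𝓑 hex hcard φ h0
    have h1 : ∑ B ∈ 𝓑, φ B ^ 2 = 0 := by
      refine Finset.sum_eq_zero (fun B hB => ?_)
      have h2 : 𝓑 = {B} := by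
        rw [Finset.eq_singleton_iff_unique_mem]
        refine ⟨hB, fun C hC => ?_⟩
        rw [Finset.card_eq_zero.mp (hcard C hC), Finset.card_eq_zero.mp (hcard B hB)]
      rw [h2] at h0
      simp at h0
      rw [h0]; norm_num
    rw [h1, mul_zero]; exact En_nonneg _ _
  | succ k ih =>
    intro 𝓑 hex hcard φ h0
    rcases k with _ | k
    · -- rank one
      have h1 : En 𝓑 φ = 2 * 𝓑.card * ∑ B ∈ 𝓑, φ B ^ 2 - 2 * (∑ B ∈ 𝓑, φ B) ^ 2 := by
        have h2 : En 𝓑 φ = ∑ B ∈ 𝓑, ∑ B' ∈ 𝓑, (φ B - φ B') ^ 2 := by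
          unfold En
          refine Finset.sum_congr rfl (fun B hB => Finset.sum_congr rfl (fun B' hB' => ?_))
          by_cases hBB : B = B'
          · subst hBB; simp
          · obtain ⟨x, rfl⟩ := Finset.card_eq_one.mp (hcard B hB)
            obtain ⟨y, rfl⟩ := Finset.card_eq_one.mp (hcard B' hB')
            rw [if_pos]
            have hxy : x ≠ y := fun h => hBB (by rw [h])
            rw [Finset.sdiff_singleton_eq_erase, Finset.erase_eq_of_notMem (by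
              rw [Finset.mem_singleton]; exact hxy.symm), Finset.card_singleton]
        rw [h2]
        have h3 : ∀ B ∈ 𝓑, ∑ B' ∈ 𝓑, (φ B - φ B') ^ 2 =
            (𝓑.card : ℝ) * φ B ^ 2 - 2 * (∑ B' ∈ 𝓑, φ B') * φ B + ∑ B' ∈ 𝓑, φ B' ^ 2 := by
          intro B _
          have h4 : ∀ B' ∈ 𝓑, (φ B - φ B') ^ 2 = φ B ^ 2 - 2 * φ B * φ B' + φ B' ^ 2 :=
            fun B' _ => by ring
          rw [Finset.sum_congr rfl h4, Finset.sum_add_distrib, Finset.sum_sub_distrib,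
            Finset.sum_const, nsmul_eq_mul, ← Finset.mul_sum]
          ring
        rw [Finset.sum_congr rfl h3, Finset.sum_add_distrib, Finset.sum_sub_distrib,
            Finset.sum_const, nsmul_eq_mul, ← Finset.mul_sum, ← Finset.mul_sum]
        ring
      rw [h1, h0]
      have hnn : 0 ≤ ∑ B ∈ 𝓑, φ B ^ 2 := Finset.sum_nonneg (fun B _ => sq_nonneg _)
      by_cases h2 : 2 ≤ 𝓑.card
      · have h3 : (2 : ℝ) ≤ 𝓑.card := by exact_mod_cast h2
        nlinarith [mul_le_mul_of_nonneg_right h3 hnn]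
      · have h3 : ∑ B ∈ 𝓑, φ B ^ 2 = 0 := by
          refine Finset.sum_eq_zero (fun B hB => ?_)
          have h4 : 𝓑 = {B} := by
            rw [Finset.eq_singleton_iff_unique_mem]
            refine ⟨hB, fun C hC => ?_⟩
            by_contra hne
            exact h2 (Finset.one_lt_card.mpr ⟨C, hC, B, hB, hne⟩)
          rw [h4] at h0
          simp at h0
          rw [h0]; norm_num
        rw [h3]; norm_num
    · -- step
      have hvar := var_step (k + 1 + 1) (by omega) 𝓑 hex hcard φ h0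
      have h1 : ∀ x, 4 * ((∑ B ∈ 𝓑, if x ∈ B then φ B ^ 2 else 0) -
          (∑ B ∈ 𝓑, if x ∈ B then φ B else 0) ^ 2 / dg 𝓑 x) ≤
          ∑ B ∈ 𝓑, if x ∈ B then (∑ B' ∈ 𝓑, if x ∈ B' then
            (if (B \ B').card = 1 then (φ B - φ B') ^ 2 else 0) else 0) else 0 := by
        intro x
        have h2 := var_of_zero (link x 𝓑) (ih (link x 𝓑) (hex.link x) (card_of_mem_link hcard x))
          (fun B => φ (insert x B))
        rw [card_link, sum_link, sum_link, En, sum_link] at h2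
        have h3 : ∀ (ψ : ℝ → ℝ), (∑ B ∈ 𝓑, if x ∈ B then ψ (φ (insert x (B.erase x))) else 0) =
            ∑ B ∈ 𝓑, if x ∈ B then ψ (φ B) else 0 := by
          intro ψ
          refine Finset.sum_congr rfl (fun B _ => ?_)
          split_ifs with hx
          · rw [Finset.insert_erase hx]
          · rfl
        have h4 := h3 (fun t => t ^ 2)
        have h5 := h3 (fun t => t)
        rw [h4, h5] at h2
        refine h2.trans (le_of_eq ?_)
        refine Finset.sum_congr rfl (fun B _ => ?_)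
        split_ifs with hx
        · rw [sum_link]
          refine Finset.sum_congr rfl (fun B' _ => ?_)
          by_cases hx' : x ∈ B'
          · rw [if_pos hx', if_pos hx', Finset.insert_erase hx, Finset.insert_erase hx']
            have h6 : B.erase x \ B'.erase x = B \ B' := by
              ext z
              simp only [Finset.mem_sdiff, Finset.mem_erase]
              constructor
              · rintro ⟨⟨hz1, hz2⟩, hz3⟩
                exact ⟨hz2, fun h => hz3 ⟨hz1, h⟩⟩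
              · rintro ⟨hz1, hz2⟩
                exact ⟨⟨fun h => hz2 (h ▸ hx'), hz1⟩, fun h => hz2 h.2⟩
            rw [h6]
          · rw [if_neg hx', if_neg hx']
        · rfl
      have h2 := Finset.sum_le_sum (fun x (_ : x ∈ (Finset.univ : Finset E)) => h1 x)
      rw [← Finset.mul_sum, Finset.sum_sub_distrib, dc 𝓑 (fun x B => φ B ^ 2),
        dc 𝓑 (fun x B => ∑ B' ∈ 𝓑, if x ∈ B' then
            (if (B \ B').card = 1 then (φ B - φ B') ^ 2 else 0) else 0)] at h2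
      have h3 : ∑ B ∈ 𝓑, ∑ x ∈ B, φ B ^ 2 = ((k : ℝ) + 2) * ∑ B ∈ 𝓑, φ B ^ 2 := by
        rw [Finset.mul_sum]
        refine Finset.sum_congr rfl (fun B hB => ?_)
        rw [Finset.sum_const, hcard B hB, nsmul_eq_mul]; push_cast; ring
      have h4 : (∑ B ∈ 𝓑, ∑ x ∈ B, ∑ B' ∈ 𝓑, if x ∈ B' then
            (if (B \ B').card = 1 then (φ B - φ B') ^ 2 else 0) else 0) =
          ((k : ℝ) + 1) * En 𝓑 φ := by
        unfold En
        rw [Finset.mul_sum]
        refine Finset.sum_congr rfl (fun B hB => ?_)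
        rw [Finset.sum_comm, Finset.mul_sum]
        refine Finset.sum_congr rfl (fun B' hB' => ?_)
        rw [Finset.sum_ite_mem]
        rw [Finset.sum_const, nsmul_eq_mul]
        by_cases h5 : (B \ B').card = 1
        · have h6 : (B ∩ B').card = k + 1 := by
            have := Finset.card_sdiff_add_card_inter B B'
            rw [h5, hcard B hB] at this
            omega
          rw [h6]; push_cast; ring
        · rw [if_neg h5]; simp
      rw [h3, h4] at h2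
      have hk1 : (0 : ℝ) < (k : ℝ) + 1 := by positivity
      refine le_of_mul_le_mul_left ?_ hk1
      nlinarith [h2, hvar]

/-- **Poincaré inequality for matroid basis graphs** (second Laplacian eigenvalue at least `2`). -/
theorem basisGraph_poincare {E : Type} [Fintype E] [DecidableEq E] (𝓑 : Finset (Finset E))
    (hex : ∀ A ∈ 𝓑, ∀ B ∈ 𝓑, ∀ e ∈ A \ B, ∃ f ∈ B \ A, insert f (A.erase e) ∈ 𝓑)
    (φ : Finset E → ℝ) (h0 : ∑ B ∈ 𝓑, φ B = 0) :
    4 * ∑ B ∈ 𝓑, φ B ^ 2 ≤ ∑ B ∈ 𝓑, ∑ B' ∈ 𝓑,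
      if (B \ B').card = 1 then (φ B - φ B') ^ 2 else 0 := by
  rcases 𝓑.eq_empty_or_nonempty with he | ⟨A, hA⟩
  · simp [he]
  exact poincare_aux A.card 𝓑 hex (fun B hB => card_eq_aux 𝓑 hex _ B hB A hA rfl) φ h0

end Pool.Agent.Lib.MP_d8fb5e_lc
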