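import Pool.Agent.Lib.MP_d8fb5e_lc.Dp

namespace Pool.Agent.Lib.MP_d8fb5e_lc

open Pool.Agent.Lib.PRam

variable {W : ℕ} {σ : St}

def testC : Cmd :=
  .seq (.assign 42 (.var 26)) (.seq elimC (.ite (.var 40) (.ite (.sub (.var 41) (.var 19))
    (.assign 29 (.lit 0)) (.assign 29 (.lit 1))) (.assign 29 (.lit 0))))

def tTest (n : ℕ) : ℕ := tElim n + 30

theorem pop_le (n z : ℕ) : pop n z ≤ n := cntUpTo_le z n

theorem test_run {n bA bW bS K z : ℕ} {A : ℕ → ℕ → ℤ} (hE : Env n A bA bW bS σ)
    (hE2 : Env2 n A K (bS + 2 * (n * n) + n) σ) (hWk : WOk n bS W)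
    (hA : ∀ g < n, ∀ h < n, |A g h| ≤ 1) (h26 : σ.reg 26 = z) (hz : z < 2 ^ n) :
    Run W testC σ [] (tTest n) (fun σ' => Fr 29 bS (bS + 2 * (n * n) + n) σ σ' ∧
      σ'.reg 29 = if isBasis n A z then 1 else 0) := by
  obtain ⟨w1, w2, w3⟩ := hWk
  refine Run.seqL (T₁ := 4) (T₂ := tElim n + 26) (Run.assign (e := .var 26) trivial ?_)
    (by simp only [tTest]; omega)
  have e1 : (Expr.var 26).eval σ = z := h26
  rw [e1]
  have hfr : Fr 40 bS (bS + 2 * (n * n) + n) σ (σ.set 42 z) := (Fr.refl σ).set (by omega)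
  refine Run.seqL (T₁ := tElim n) (T₂ := 26) ((elim_run (z := z) (hE.of_fr hfr (by omega))
    (by simp) (by omega) hA w1 w2 w3).mono le_rfl ?_) (by omega)
  rintro σ₁ ⟨f1, f2, f3⟩
  have hfr1 : Fr 29 bS (bS + 2 * (n * n) + n) σ σ₁ := (hfr.trans f1).mono (by omega) le_rfl le_rfl
  have hE21 := hE2.of_fr hfr1 (by omega)
  have hp1 := pop_le n z
  have hp2 := pop_le n (base0 n A)
  refine Run.ite (T' := 15) trivial (fun h => ?_) (fun h => ?_) (by simp only [Expr.size]; omega)
  · have h : σ₁.reg 40 ≠ 0 := h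
    rw [f2] at h
    have hi : indepM n A z = true := by by_contra hc; simp [hc] at h
    refine Run.ite (T' := 3) ⟨trivial, trivial, ?_⟩ (fun h' => ?_) (fun h' => ?_)
      (by simp only [Expr.size]; omega)
    · simp only [Expr.eval, f3, hE21.r19]; exact natAbs_sub_le (by omega) (by omega)
    · have h' : σ₁.reg 41 - σ₁.reg 19 ≠ 0 := h'
      rw [f3, hE21.r19] at h'
      refine Run.assign (e := .lit 0) (by show (0 : ℤ).natAbs ≤ W; omega) ⟨hfr1.set le_rfl, ?_⟩
      have : isBasis n A z = false := by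
        simp only [isBasis, hi, Bool.true_and, beq_eq_false_iff_ne]
        intro hc; rw [hc] at h'; simp at h'
      simp [this, Expr.eval]
    · have h' : σ₁.reg 41 - σ₁.reg 19 = 0 := h'
      rw [f3, hE21.r19] at h'
      refine Run.assign (e := .lit 1) (by show (1 : ℤ).natAbs ≤ W; omega) ⟨hfr1.set le_rfl, ?_⟩
      have : isBasis n A z = true := by
        simp only [isBasis, hi, Bool.true_and, beq_iff_eq]
        omega
      simp [this, Expr.eval]
  · have h : σ₁.reg 40 = 0 := h
    rw [f2] at h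
    have hi : indepM n A z = false := by
      cases hh : indepM n A z
      · rfl
      · simp [hh] at h
    refine (Run.assign (e := .lit 0) (by show (0 : ℤ).natAbs ≤ W; omega)
      ⟨hfr1.set le_rfl, ?_⟩).mono (by show 3 ≤ _; omega) (fun _ h => h)
    have : isBasis n A z = false := by simp [isBasis, hi]
    simp [this, Expr.eval]

/-! ### number of bases -/

def countC : Cmd :=
  .seq (.assign 21 (.lit 0)) (forDo 26 15 (.seq testC (.assign 21 (.add (.var 21) (.var 29)))))

def cntB (n : ℕ) (A : ℕ → ℕ → ℤ) (z : ℕ) : ℕ :=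
  ((Finset.range z).filter fun z => isBasis n A z = true).card

theorem cntB_succ (n : ℕ) (A : ℕ → ℕ → ℤ) (z : ℕ) :
    cntB n A (z + 1) = cntB n A z + if isBasis n A z then 1 else 0 := by
  unfold cntB
  rw [Finset.range_add_one, Finset.filter_insert]
  split_ifs with h
  · rw [Finset.card_insert_of_notMem (by simp)]
  · simp

theorem cntB_le (n : ℕ) (A : ℕ → ℕ → ℤ) (z : ℕ) : cntB n A z ≤ z := by
  unfold cntB
  exact (Finset.card_filter_le _ _).trans (by simp)

theorem numT_le (n : ℕ) (A : ℕ → ℕ → ℤ) : numT n A ≤ 2 ^ n := cntB_le n A (2 ^ n)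

def tCount (n : ℕ) : ℕ := 3 + forT (2 ^ n) (tTest n + 10)

theorem count_run {n bA bW bS K : ℕ} {A : ℕ → ℕ → ℤ} (hE : Env n A bA bW bS σ)
    (hE2 : Env2 n A K (bS + 2 * (n * n) + n) σ) (hWk : WOk n bS W)
    (hA : ∀ g < n, ∀ h < n, |A g h| ≤ 1) :
    Run W countC σ [] (tCount n) (fun σ' => Fr 21 bS (bS + 2 * (n * n) + n) σ σ' ∧
      σ'.reg 21 = numT n A) := by
  have h2 : (2 : ℕ) ^ n + 1 ≤ W := by
    have : 1 ≤ 2 ^ n := Nat.one_le_two_pow
    have := hWk.h3
    omega
  refine Run.seqL (T₁ := 3) (Run.assign (e := .lit 0) (by show (0 : ℤ).natAbs ≤ W; omega) ?_) le_rfl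
  have l0 : (Expr.lit 0).eval σ = 0 := rfl
  rw [l0]
  refine (Run.forC (N := 2 ^ n) (B := tTest n + 10) (fun z σ' => σ'.reg 26 = z ∧
    Fr 21 bS (bS + 2 * (n * n) + n) σ σ' ∧ σ'.reg 21 = cntB n A z) h2 le_rfl ?_ ?_ ?_).mono
    le_rfl ?_
  · refine ⟨by simp, ((Fr.refl σ).set le_rfl).set (by omega), by simp [cntB]⟩
  · rintro z hz σ' ⟨h1, h2, h3⟩
    exact ⟨(h2.1 15 (by omega)).trans hE2.r15, h1⟩
  · rintro z hz σ' ⟨h1, h2, h3⟩
    refine Run.seqL (T₁ := tTest n) (T₂ := 7) ((test_run (hE.of_fr h2 (by omega))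
      (hE2.of_fr h2 (by omega)) hWk hA h1 hz).mono le_rfl ?_) (by omega)
    rintro σ'' ⟨g1, g2⟩
    have e21 : σ''.reg 21 = cntB n A z := (g1.1 21 (by omega)).trans h3
    have hcl := cntB_le n A z
    have hev : (Expr.add (.var 21) (.var 29)).eval σ'' = ((cntB n A (z + 1) : ℕ) : ℤ) := by
      simp only [Expr.eval, e21, g2, cntB_succ]
      split_ifs <;> push_cast <;> rfl
    refine Run.assign (e := .add (.var 21) (.var 29)) ⟨trivial, trivial, ?_⟩ ?_
    · have : (Expr.var 21).eval σ'' + (Expr.var 29).eval σ'' = ((cntB n A (z + 1) : ℕ) : ℤ) := hev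
      rw [this, Int.natAbs_natCast]
      have := cntB_le n A (z + 1)
      omega
    · rw [hev]
      refine ⟨?_, by simp, ?_, by simp⟩
      · simp only [St.set_reg]; rw [if_neg (by omega), g1.1 26 (by omega), h1]
      · exact ((h2.trans (g1.mono (by omega) le_rfl le_rfl)).set le_rfl).set (by omega)
  · rintro σ' ⟨-, h2, h3⟩
    exact ⟨h2, h3⟩

/-! ### the search -/

def wtE : Expr := .sub (.var 16) (.mul (.mul (.sub (.var 15) (.lit 1))
  (.load (.add (.var 9) (.var 26)))) (.var 21))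

def searchBody : Cmd :=
  .seq testC (.ite (.var 29) (.ifpos (.add (.var 23) (.lit 1))
    (.seq (.assign 23 (.sub (.var 23) wtE)) (.assign 28 (.var 26))) .skip) .skip)

def searchC : Cmd := .seq (.assign 28 (.lit 0)) (forDo 26 15 searchBody)

def tSearch (n : ℕ) : ℕ := 3 + forT (2 ^ n) (tTest n + 60)

theorem search_le {n K : ℕ} {A : ℕ → ℕ → ℤ}
    (hwt : ∀ z < 2 ^ n, isBasis n A z = true → 0 ≤ wt n A K z) (v : ℤ) :
    ∀ z ≤ 2 ^ n, (search n A K v z).1 ≤ v
  | 0, _ => le_rfl
  | z + 1, hz => by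
    have ih := search_le hwt v z (by omega)
    unfold search
    split_ifs with h
    · have := hwt z hz h.1
      show (search n A K v z).1 - wt n A K z ≤ v
      omega
    · exact ih

theorem wt_le (n : ℕ) (A : ℕ → ℕ → ℤ) (K z : ℕ) : wt n A K z ≤ ((2 ^ n * rng n K : ℕ) : ℤ) := by
  unfold wt
  have h1 : (0 : ℤ) ≤ 2 ^ n - 1 := by
    have : (1 : ℤ) ≤ 2 ^ n := one_le_pow₀ (by norm_num)
    omega
  have : 0 ≤ ((2 : ℤ) ^ n - 1) * (dp n A K (steps n K) z : ℤ) * (numT n A : ℤ) := by positivity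
  push_cast
  omega

theorem search_ge {n K : ℕ} {A : ℕ → ℕ → ℤ} (v : ℕ) :
    ∀ z, -((2 ^ n * rng n K : ℕ) : ℤ) ≤ (search n A K v z).1
  | 0 => by
    show -((2 ^ n * rng n K : ℕ) : ℤ) ≤ (v : ℤ)
    omega
  | z + 1 => by
    have ih := search_ge (n := n) (K := K) (A := A) v z
    unfold search
    split_ifs with h
    · have := wt_le n A K z
      show _ ≤ (search n A K v z).1 - wt n A K z
      omega
    · exact ih

theorem search_run {n bA bW bS K v : ℕ} {A : ℕ → ℕ → ℤ} (hE : Env n A bA bW bS σ)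
    (hE2 : Env2 n A K (bS + 2 * (n * n) + n) σ) (hWk : WOk2 n K bS W)
    (hA : ∀ g < n, ∀ h < n, |A g h| ≤ 1)
    (hwt : ∀ z < 2 ^ n, isBasis n A z = true → 0 ≤ wt n A K z)
    (hdp : ∀ z, dp n A K (steps n K) z ≤ rng n K)
    (hArr : ∀ z < 2 ^ n, σ.mem (bS + 2 * (n * n) + n + z) = dp n A K (steps n K) z)
    (h21 : σ.reg 21 = numT n A) (h23 : σ.reg 23 = v) (hv : v ≤ 2 ^ n * rng n K) :
    Run W searchC σ [] (tSearch n) (fun σ' => Fr 23 bS (bS + 2 * (n * n) + n) σ σ' ∧
      σ'.reg 28 = pick n A K v) := by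
  have h2 : (2 : ℕ) ^ n + 1 ≤ W := by
    have : 1 ≤ 2 ^ n := Nat.one_le_two_pow
    have := hWk.h.h3
    omega
  have h7 := hWk.h7
  have hN1 := hWk.N1_le
  have h4 := hWk.h4
  refine Run.seqL (T₁ := 3) (Run.assign (e := .lit 0) (by show (0 : ℤ).natAbs ≤ W; omega) ?_) le_rfl
  have l0 : (Expr.lit 0).eval σ = 0 := rfl
  rw [l0]
  refine (Run.forC (N := 2 ^ n) (B := tTest n + 60) (fun z σ' => σ'.reg 26 = z ∧
    Fr 23 bS (bS + 2 * (n * n) + n) σ σ' ∧ σ'.reg 23 = (search n A K v z).1 ∧
    σ'.reg 28 = (search n A K v z).2) h2 le_rfl ?_ ?_ ?_).mono le_rfl ?_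
  · refine ⟨by simp, ((Fr.refl σ).set (by omega)).set (by omega), ?_, by simp [search]⟩
    simp [search, h23]
  · rintro z hz σ' ⟨g1, g2, g3, g4⟩
    exact ⟨(g2.1 15 (by omega)).trans hE2.r15, g1⟩
  · rintro z hz σ' ⟨g1, g2, g3, g4⟩
    have hsv := search_le hwt v z hz.le
    have hsg := search_ge (n := n) (K := K) (A := A) v z
    refine (Run.seqL (T₁ := tTest n) (T₂ := 60) (Q := fun σ'' => σ''.reg 26 = z ∧
      Fr 23 bS (bS + 2 * (n * n) + n) σ σ'' ∧ σ''.reg 23 = (search n A K v (z + 1)).1 ∧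
      σ''.reg 28 = (search n A K v (z + 1)).2) ((test_run (hE.of_fr g2 (by omega))
      (hE2.of_fr g2 (by omega)) hWk.h hA g1 hz).mono le_rfl ?_) le_rfl).mono le_rfl ?_
    · rintro σ₁ ⟨f1, f2⟩
      have hfr1 : Fr 23 bS (bS + 2 * (n * n) + n) σ σ₁ :=
        g2.trans (f1.mono (by omega) le_rfl le_rfl)
      have e26 : σ₁.reg 26 = z := (f1.1 26 (by omega)).trans g1
      have e23 : σ₁.reg 23 = (search n A K v z).1 := (f1.1 23 (by omega)).trans g3
      have e28 : σ₁.reg 28 = (search n A K v z).2 := (f1.1 28 (by omega)).trans g4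
      have e21 : σ₁.reg 21 = numT n A := (hfr1.1 21 (by omega)).trans h21
      have hE21 := hE2.of_fr hfr1 (by omega)
      refine Run.ite (T' := 50) trivial (fun h => ?_) (fun h => ?_)
        (by simp only [Expr.size]; omega)
      swap
      · have h : σ₁.reg 29 = 0 := h
        rw [f2] at h
        have hb : ¬ isBasis n A z = true := by intro hc; simp [hc] at h
        have : search n A K v (z + 1) = search n A K v z := by
          rw [search, if_neg (by rintro ⟨h, _⟩; exact hb h)]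
        rw [this]
        exact Run.skip ⟨e26, hfr1, e23, e28⟩
      have h : σ₁.reg 29 ≠ 0 := h
      rw [f2] at h
      have hb : isBasis n A z = true := by by_contra hc; simp [hc] at h
      obtain ⟨s, hs⟩ : ∃ s, (search n A K v z).1 = s := ⟨_, rfl⟩
      rw [hs] at e23 hsv hsg
      -- a lower bound for the current value
      by_cases hneg : s < 0
      · -- nothing happens
        have : search n A K v (z + 1) = search n A K v z := by
          rw [search, if_neg (by rintro ⟨_, h⟩; rw [hs] at h; omega)]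
        rw [this, hs]
        have hbd : (s + 1).natAbs ≤ W := by omega
        refine Run.ifpos (T' := 40) ⟨trivial, by show (1 : ℤ).natAbs ≤ W; omega, ?_⟩
          (fun h => ?_) (fun h => ?_) (by simp only [Expr.size]; omega)
        · simp only [Expr.eval, e23]; exact hbd
        · have h : 0 < σ₁.reg 23 + 1 := h
          rw [e23] at h; omega
        · exact Run.skip ⟨e26, hfr1, e23, e28⟩
      · have hnext : search n A K v (z + 1) = (s - wt n A K z, z) := by
          rw [search, if_pos ⟨hb, by rw [hs]; omega⟩, hs]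
        rw [hnext]
        have hdz := hdp z
        have hT := numT_le n A
        have hwz := hwt z hz hb
        have hwl := wt_le n A K z
        have h1n : (1 : ℕ) ≤ 2 ^ n := Nat.one_le_two_pow
        have m1 : (2 ^ n - 1) * dp n A K (steps n K) z ≤ 2 ^ n * rng n K :=
          Nat.mul_le_mul (by omega) hdz
        have m2 : (2 ^ n - 1) * dp n A K (steps n K) z * numT n A ≤
            2 ^ n * rng n K * 2 ^ n := Nat.mul_le_mul m1 hT
        have m3 : 2 ^ n * rng n K * 2 ^ n = 2 ^ n * (2 ^ n * rng n K) := by ring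
        have c1 : ((2 ^ n : ℕ) : ℤ) - 1 = ((2 ^ n - 1 : ℕ) : ℤ) := by
          rw [Nat.cast_sub h1n]; rfl
        have e9 : (Expr.load (.add (.var 9) (.var 26))).eval σ₁ = dp n A K (steps n K) z := by
          have : (Expr.load (.add (.var 9) (.var 26))).eval σ₁ =
              σ₁.mem (((bS + 2 * (n * n) + n : ℕ) : ℤ) + (z : ℤ)).toNat := by
            simp only [Expr.eval, hE21.r9, e26]
          rw [this, ← Nat.cast_add, Int.toNat_natCast, hfr1.2 _ (by omega)]
          exact hArr z hz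
        have d1 : (Expr.sub (.var 15) (.lit 1)).eval σ₁ = ((2 ^ n - 1 : ℕ) : ℤ) := by
          simp only [Expr.eval, hE21.r15]; exact c1
        have d2 : (Expr.mul (.sub (.var 15) (.lit 1)) (.load (.add (.var 9) (.var 26)))).eval σ₁ =
            (((2 ^ n - 1) * dp n A K (steps n K) z : ℕ) : ℤ) := by
          rw [Nat.cast_mul, ← d1, ← e9]; rfl
        have d3 : (Expr.mul (.mul (.sub (.var 15) (.lit 1)) (.load (.add (.var 9) (.var 26))))
            (.var 21)).eval σ₁ =
            (((2 ^ n - 1) * dp n A K (steps n K) z * numT n A : ℕ) : ℤ) := by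
          rw [Nat.cast_mul, ← d2, ← e21]; rfl
        have d4 : wtE.eval σ₁ = wt n A K z := by
          have : wtE.eval σ₁ = σ₁.reg 16 - (Expr.mul (.mul (.sub (.var 15) (.lit 1))
            (.load (.add (.var 9) (.var 26)))) (.var 21)).eval σ₁ := rfl
          rw [this, d3, hE21.r16, wt, Nat.cast_mul, Nat.cast_mul ((2 ^ n - 1) * _),
            Nat.cast_mul (2 ^ n - 1), ← c1]
          push_cast; ring
        have o4 : wtE.ok W σ₁ := by
          refine ⟨trivial, ⟨⟨⟨trivial, by show (1 : ℤ).natAbs ≤ W; omega, ?_⟩, ⟨trivial, trivial,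
            ?_⟩, ?_⟩, trivial, ?_⟩, ?_⟩
          · have : (Expr.var 15).eval σ₁ - (Expr.lit 1).eval σ₁ = ((2 ^ n - 1 : ℕ) : ℤ) := d1
            rw [this, Int.natAbs_natCast]; omega
          · simp only [Expr.eval, hE21.r9, e26]
            rw [← Nat.cast_add, Int.natAbs_natCast]; omega
          · have : (Expr.sub (.var 15) (.lit 1)).eval σ₁ *
              (Expr.load (.add (.var 9) (.var 26))).eval σ₁ =
              (((2 ^ n - 1) * dp n A K (steps n K) z : ℕ) : ℤ) := d2
            rw [this, Int.natAbs_natCast]; omega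
          · have : (Expr.mul (.sub (.var 15) (.lit 1)) (.load (.add (.var 9) (.var 26)))).eval σ₁ *
              (Expr.var 21).eval σ₁ =
              (((2 ^ n - 1) * dp n A K (steps n K) z * numT n A : ℕ) : ℤ) := d3
            rw [this, Int.natAbs_natCast]; omega
          · have : (Expr.var 16).eval σ₁ - (Expr.mul (.mul (.sub (.var 15) (.lit 1))
              (.load (.add (.var 9) (.var 26)))) (.var 21)).eval σ₁ = wt n A K z := d4
            rw [this]; omega
        refine Run.ifpos (T' := 40) ⟨trivial, by show (1 : ℤ).natAbs ≤ W; omega, ?_⟩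
          (fun h => ?_) (fun h => ?_) (by simp only [Expr.size]; omega)
        · simp only [Expr.eval, e23]; omega
        · refine Run.seqL (T₁ := 28) (T₂ := 4) ((Run.assign (e := .sub (.var 23) wtE)
            ⟨trivial, o4, ?_⟩ ?_).mono (by simp only [wtE, Expr.size]; omega)
            (fun _ h => h)) (by omega)
          · simp only [Expr.eval, e23]; rw [d4]; omega
          · have e5 : (Expr.sub (.var 23) wtE).eval σ₁ = s - wt n A K z := by
              simp only [Expr.eval, e23, d4]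
            rw [e5]
            refine Run.assign (e := .var 26) trivial ?_
            have e6 : (Expr.var 26).eval (σ₁.set 23 (s - wt n A K z)) = z := by
              simp only [Expr.eval, St.set_reg]; rw [if_neg (by omega)]; exact e26
            rw [e6]
            refine ⟨?_, (hfr1.set le_rfl).set (by omega), by simp, by simp⟩
            simp only [St.set_reg]; rw [if_neg (by omega), if_neg (by omega)]; exact e26
        · have h : σ₁.reg 23 + 1 ≤ 0 := h
          rw [e23] at h; omega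
    · rintro σ₁ ⟨f1, f2, f3, f4⟩
      refine ⟨f1, by simp, f2.set (by omega), ?_, ?_⟩
      · simp only [St.set_reg]; rw [if_neg (by omega)]; exact f3
      · simp only [St.set_reg]; rw [if_neg (by omega)]; exact f4
  · rintro σ' ⟨-, g2, g3, g4⟩
    exact ⟨g2, g4⟩

end Pool.Agent.Lib.MP_d8fb5e_lc
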