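import Pool.Agent.Lib.MP_d8fb5e_lc.Tail
import Pool.Agent.Lib.MP_d8fb5e_lc.Input

namespace Pool.Agent.Lib.MP_d8fb5e_lc

open Pool.Agent.Lib.PRam

variable {W : ℕ} {σ : St}

theorem ok0 : (0 : ℤ).natAbs ≤ W := by omega

theorem ok1 (h : 1 ≤ W) : (1 : ℤ).natAbs ≤ W := by omega

theorem ok2 (h : 2 ≤ W) : (2 : ℤ).natAbs ≤ W := by omega

/-- addresses -/
def aA (V n : ℕ) : ℕ := 2 + n * V
def aW (V n : ℕ) : ℕ := aA V n + n * n
def aS (V n : ℕ) : ℕ := aW V n + n + 1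

structure Base1 (V n : ℕ) (inc : ℕ → ℕ → Bool) (σ : St) : Prop where
  r1 : σ.reg 1 = V
  r2 : σ.reg 2 = n
  r4 : σ.reg 4 = aA V n
  r5 : σ.reg 5 = aW V n
  r6 : σ.reg 6 = aS V n
  r7 : σ.reg 7 = (aS V n + n * n : ℕ)
  r8 : σ.reg 8 = (aS V n + 2 * (n * n) : ℕ)
  r9 : σ.reg 9 = (aS V n + 2 * (n * n) + n : ℕ)
  r20 : σ.reg 20 = (n * n : ℕ)
  mI : ∀ f < n, ∀ v < V, σ.mem (2 + (f * V + v)) = if inc f v = true then 1 else 0

theorem Base1.of_same {V n : ℕ} {inc : ℕ → ℕ → Bool} {σ σ' : St} (h : Base1 V n inc σ)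
    (h1 : ∀ r, (r = 1 ∨ r = 2 ∨ (4 ≤ r ∧ r ≤ 9) ∨ r = 20) → σ'.reg r = σ.reg r)
    (h2 : ∀ a < aA V n, σ'.mem a = σ.mem a) : Base1 V n inc σ' := by
  refine ⟨?_, ?_, ?_, ?_, ?_, ?_, ?_, ?_, ?_, fun f hf v hv => ?_⟩
  · rw [h1 1 (by omega)]; exact h.r1
  · rw [h1 2 (by omega)]; exact h.r2
  · rw [h1 4 (by omega)]; exact h.r4
  · rw [h1 5 (by omega)]; exact h.r5
  · rw [h1 6 (by omega)]; exact h.r6
  · rw [h1 7 (by omega)]; exact h.r7
  · rw [h1 8 (by omega)]; exact h.r8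
  · rw [h1 9 (by omega)]; exact h.r9
  · rw [h1 20 (by omega)]; exact h.r20
  · have h3 : (f + 1) * V ≤ n * V := Nat.mul_le_mul_right _ (by omega)
    have h4 : (f + 1) * V = f * V + V := by ring
    rw [h2 _ (by unfold aA; omega)]
    exact h.mI f hf v hv

/-! ### stage 1: the header -/

def s1C : Cmd :=
  .seq (.assign 1 (.load (.lit 0)))
  (.seq (.assign 2 (.load (.lit 1)))
  (.seq (.assign 20 (.mul (.var 2) (.var 2)))
  (.seq (.assign 4 (.var 0))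
  (.seq (.assign 5 (.add (.var 4) (.var 20)))
  (.seq (.assign 6 (.add (.add (.var 5) (.var 2)) (.lit 1)))
  (.seq (.assign 7 (.add (.var 6) (.var 20)))
  (.seq (.assign 8 (.add (.var 7) (.var 20)))
  (.assign 9 (.add (.var 8) (.var 2))))))))))

theorem s1_run {V n : ℕ} {inc : ℕ → ℕ → Bool} (h0 : σ.reg 0 = (2 + n * V : ℕ))
    (hm0 : σ.mem 0 = V) (hm1 : σ.mem 1 = n)
    (hI : ∀ f < n, ∀ v < V, σ.mem (2 + (f * V + v)) = if inc f v = true then 1 else 0)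
    (hW : aS V n + 2 * (n * n) + n + 1 ≤ W) :
    Run W s1C σ [] 100 (fun σ' => Base1 V n inc σ' ∧ σ'.mem = σ.mem) := by
  refine (Term.run (Q := fun σ' => Base1 V n inc σ' ∧ σ'.mem = σ.mem) ?_
    (by refine ⟨?_, ?_, ?_, ?_, ?_, ?_, ?_, ?_, ?_⟩ <;> trivial)).mono
    (by simp only [s1C, Cmd.cost, Expr.size]; omega) (fun _ h => h)
  unfold aS aW aA at hW
  refine Term.seqL (Term.assign (e := .load (.lit 0)) ok0 ?_)
  have e1 : (Expr.load (.lit 0)).eval σ = V := hm0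
  rw [e1]
  set σ₁ := σ.set 1 V with hσ₁
  refine Term.seqL (Term.assign (e := .load (.lit 1)) (ok1 (by omega)) ?_)
  have e2 : (Expr.load (.lit 1)).eval σ₁ = n := hm1
  rw [e2]
  set σ₂ := σ₁.set 2 n with hσ₂
  have a2 : σ₂.reg 2 = n := by simp [hσ₂]
  have e3 : (Expr.mul (.var 2) (.var 2)).eval σ₂ = ((n * n : ℕ) : ℤ) := by
    simp only [Expr.eval, a2]; push_cast; rfl
  refine Term.seqL (Term.assign ⟨trivial, trivial, ?_⟩ ?_)
  · have : (Expr.var 2).eval σ₂ * (Expr.var 2).eval σ₂ = ((n * n : ℕ) : ℤ) := e3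
    rw [this, Int.natAbs_natCast]; omega
  rw [e3]
  set σ₃ := σ₂.set 20 ((n * n : ℕ) : ℤ) with hσ₃
  have b0 : σ₃.reg 0 = (2 + n * V : ℕ) := by simp [hσ₃, hσ₂, hσ₁, h0]
  have e4 : (Expr.var 0).eval σ₃ = ((2 + n * V : ℕ) : ℤ) := b0
  refine Term.seqL (Term.assign trivial ?_)
  rw [e4]
  set σ₄ := σ₃.set 4 ((2 + n * V : ℕ) : ℤ) with hσ₄
  have c4 : σ₄.reg 4 = (2 + n * V : ℕ) := by simp [hσ₄]
  have c20 : σ₄.reg 20 = (n * n : ℕ) := by simp [hσ₄, hσ₃]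
  have e5 : (Expr.add (.var 4) (.var 20)).eval σ₄ = ((2 + n * V + n * n : ℕ) : ℤ) := by
    simp only [Expr.eval, c4, c20]; push_cast; rfl
  refine Term.seqL (Term.assign ⟨trivial, trivial, ?_⟩ ?_)
  · have : (Expr.var 4).eval σ₄ + (Expr.var 20).eval σ₄ = ((2 + n * V + n * n : ℕ) : ℤ) := e5
    rw [this, Int.natAbs_natCast]; omega
  rw [e5]
  set σ₅ := σ₄.set 5 ((2 + n * V + n * n : ℕ) : ℤ) with hσ₅
  have d5 : σ₅.reg 5 = (2 + n * V + n * n : ℕ) := by simp [hσ₅]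
  have d2 : σ₅.reg 2 = n := by simp [hσ₅, hσ₄, hσ₃, a2]
  have e6' : (Expr.add (.var 5) (.var 2)).eval σ₅ = ((2 + n * V + n * n + n : ℕ) : ℤ) := by
    simp only [Expr.eval, d5, d2]; push_cast; rfl
  have e6 : (Expr.add (.add (.var 5) (.var 2)) (.lit 1)).eval σ₅ =
      ((2 + n * V + n * n + n + 1 : ℕ) : ℤ) := by
    simp only [Expr.eval, d5, d2]; push_cast; rfl
  refine Term.seqL (Term.assign ⟨⟨trivial, trivial, ?_⟩, ok1 (by omega), ?_⟩ ?_)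
  · have : (Expr.var 5).eval σ₅ + (Expr.var 2).eval σ₅ =
      ((2 + n * V + n * n + n : ℕ) : ℤ) := e6'
    rw [this, Int.natAbs_natCast]; omega
  · have : (Expr.add (.var 5) (.var 2)).eval σ₅ + (Expr.lit 1).eval σ₅ =
      ((2 + n * V + n * n + n + 1 : ℕ) : ℤ) := e6
    rw [this, Int.natAbs_natCast]; omega
  rw [e6]
  set σ₆ := σ₅.set 6 ((2 + n * V + n * n + n + 1 : ℕ) : ℤ) with hσ₆
  have f6 : σ₆.reg 6 = (2 + n * V + n * n + n + 1 : ℕ) := by simp [hσ₆]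
  have f20 : σ₆.reg 20 = (n * n : ℕ) := by simp [hσ₆, hσ₅, c20]
  have e7 : (Expr.add (.var 6) (.var 20)).eval σ₆ =
      ((2 + n * V + n * n + n + 1 + n * n : ℕ) : ℤ) := by
    simp only [Expr.eval, f6, f20]; push_cast; rfl
  refine Term.seqL (Term.assign ⟨trivial, trivial, ?_⟩ ?_)
  · have : (Expr.var 6).eval σ₆ + (Expr.var 20).eval σ₆ =
      ((2 + n * V + n * n + n + 1 + n * n : ℕ) : ℤ) := e7
    rw [this, Int.natAbs_natCast]; omega
  rw [e7]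
  set σ₇ := σ₆.set 7 ((2 + n * V + n * n + n + 1 + n * n : ℕ) : ℤ) with hσ₇
  have g7 : σ₇.reg 7 = (2 + n * V + n * n + n + 1 + n * n : ℕ) := by simp [hσ₇]
  have g20 : σ₇.reg 20 = (n * n : ℕ) := by simp [hσ₇, f20]
  have e8 : (Expr.add (.var 7) (.var 20)).eval σ₇ =
      ((2 + n * V + n * n + n + 1 + 2 * (n * n) : ℕ) : ℤ) := by
    simp only [Expr.eval, g7, g20]; push_cast; ring
  refine Term.seqL (Term.assign ⟨trivial, trivial, ?_⟩ ?_)
  · have : (Expr.var 7).eval σ₇ + (Expr.var 20).eval σ₇ =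
      ((2 + n * V + n * n + n + 1 + 2 * (n * n) : ℕ) : ℤ) := e8
    rw [this, Int.natAbs_natCast]; omega
  rw [e8]
  set σ₈ := σ₇.set 8 ((2 + n * V + n * n + n + 1 + 2 * (n * n) : ℕ) : ℤ) with hσ₈
  have k8 : σ₈.reg 8 = (2 + n * V + n * n + n + 1 + 2 * (n * n) : ℕ) := by simp [hσ₈]
  have k2 : σ₈.reg 2 = n := by simp [hσ₈, hσ₇, hσ₆, d2]
  have e9 : (Expr.add (.var 8) (.var 2)).eval σ₈ =
      ((2 + n * V + n * n + n + 1 + 2 * (n * n) + n : ℕ) : ℤ) := by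
    simp only [Expr.eval, k8, k2]; push_cast; rfl
  refine Term.assign ⟨trivial, trivial, ?_⟩ ?_
  · have : (Expr.var 8).eval σ₈ + (Expr.var 2).eval σ₈ =
      ((2 + n * V + n * n + n + 1 + 2 * (n * n) + n : ℕ) : ℤ) := e9
    rw [this, Int.natAbs_natCast]; omega
  rw [e9]
  refine ⟨⟨?_, ?_, ?_, ?_, ?_, ?_, ?_, ?_, ?_, hI⟩, rfl⟩
  · simp [hσ₈, hσ₇, hσ₆, hσ₅, hσ₄, hσ₃, hσ₂, hσ₁]
  · simp [k2]
  · simp [hσ₈, hσ₇, hσ₆, hσ₅, c4, aA]
  · simp [hσ₈, hσ₇, hσ₆, d5, aW, aA]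
  · simp [hσ₈, hσ₇, f6, aS, aW, aA]
  · simp [hσ₈, g7, aS, aW, aA]
  · simp [k8, aS, aW, aA]
  · simp [aS, aW, aA]
  · simp [hσ₈, g20]

/-! ### stage 2: powers of two -/

def s2C : Cmd :=
  .seq (.assign 15 (.lit 1))
  (.seq (forDo 26 2 (.seq (.store (.add (.var 5) (.var 26)) (.var 15))
    (.assign 15 (.mul (.lit 2) (.var 15)))))
  (.seq (.store (.add (.var 5) (.var 2)) (.var 15)) (.assign 10 (.add (.var 9) (.var 15)))))

def t2 (n : ℕ) : ℕ := 60 + forT n 30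

structure Base2 (V n : ℕ) (inc : ℕ → ℕ → Bool) (σ : St) : Prop where
  b : Base1 V n inc σ
  r10 : σ.reg 10 = (aS V n + 2 * (n * n) + n + 2 ^ n : ℕ)
  r15 : σ.reg 15 = (2 ^ n : ℕ)
  mW : ∀ j ≤ n, σ.mem (aW V n + j) = 2 ^ j

theorem s2_run {V n : ℕ} {inc : ℕ → ℕ → Bool} (hB : Base1 V n inc σ)
    (hW : aS V n + 2 * (n * n) + n + 2 ^ n + 1 ≤ W) (hW2 : 2 * 2 ^ n ≤ W) :
    Run W s2C σ [] (t2 n) (fun σ' => Base2 V n inc σ') := by
  have haS : aS V n = aW V n + n + 1 := rfl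
  have haW : aW V n = aA V n + n * n := rfl
  have h1n : 1 ≤ 2 ^ n := Nat.one_le_two_pow
  refine Run.seqL (T₁ := 3) (T₂ := 50 + forT n 30) (Run.assign (e := .lit 1)
    (ok1 (by omega)) ?_) (by simp only [t2]; omega)
  have l1 : (Expr.lit 1).eval σ = 1 := rfl
  rw [l1]
  refine Run.seqL (T₁ := forT n 30) (T₂ := 50) ((Run.forC (N := n) (B := 30) (fun i σ' =>
    σ'.reg 26 = i ∧ σ'.reg 15 = ((2 ^ i : ℕ) : ℤ) ∧ (∀ r, r ≠ 15 → r ≠ 26 → σ'.reg r = σ.reg r) ∧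
    (∀ j < i, σ'.mem (aW V n + j) = 2 ^ j) ∧ ∀ a, a < aW V n → σ'.mem a = σ.mem a)
    (by omega) le_rfl ?_ ?_ ?_).mono le_rfl ?_) (by omega)
  · refine ⟨by simp, by simp, fun r h1 h2 => by simp [h1, h2],
      fun j hj => absurd hj (Nat.not_lt_zero j), fun _ _ => rfl⟩
  · rintro i hi σ' ⟨h1, -, h3, -, -⟩
    exact ⟨(h3 2 (by omega) (by omega)).trans hB.r2, h1⟩
  · rintro i hi σ' ⟨h1, h2, h3, h4, h5⟩
    have h2i : 2 ^ i ≤ 2 ^ n := Nat.pow_le_pow_right (by omega) hi.le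
    have r5 : σ'.reg 5 = aW V n := (h3 5 (by omega) (by omega)).trans hB.r5
    refine Run.seqL (T₁ := 8) (T₂ := 6) ((Run.store (a := .add (.var 5) (.var 26)) (v := .var 15)
      (m := aW V n + i) (z := ((2 ^ i : ℕ) : ℤ)) ⟨trivial, trivial, ?_⟩ trivial ?_ h2).mono
      (by simp only [Expr.size]; omega) ?_) (by omega)
    · simp only [Expr.eval, r5, h1]
      rw [← Nat.cast_add, Int.natAbs_natCast]; omega
    · simp only [Expr.eval, r5, h1]; push_cast; rfl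
    rintro σ₁ ⟨g1, g2⟩
    have g15 : σ₁.reg 15 = ((2 ^ i : ℕ) : ℤ) := by rw [g1]; exact h2
    have e : (Expr.mul (.lit 2) (.var 15)).eval σ₁ = ((2 ^ (i + 1) : ℕ) : ℤ) := by
      simp only [Expr.eval, g15, pow_succ]; push_cast; ring
    refine Run.assign (e := .mul (.lit 2) (.var 15)) ⟨ok2 (by omega), trivial, ?_⟩ ?_
    · have : (Expr.lit 2).eval σ₁ * (Expr.var 15).eval σ₁ = ((2 ^ (i + 1) : ℕ) : ℤ) := e
      rw [this, Int.natAbs_natCast, pow_succ]; omega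
    rw [e]
    refine ⟨by simp [g1, h1], by simp, by simp, fun r hr1 hr2 => ?_, fun j hj => ?_,
      fun a ha => ?_⟩
    · simp only [St.set_reg]; rw [if_neg hr2, if_neg hr1, g1]; exact h3 r hr1 hr2
    · simp only [St.set_mem, g2, Function.update_apply]
      by_cases hji : j = i
      · rw [if_pos (by omega), hji]; push_cast; rfl
      · rw [if_neg (by omega)]; exact h4 j (by omega)
    · simp only [St.set_mem, g2, Function.update_apply]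
      rw [if_neg (by omega)]; exact h5 a ha
  rintro σ₁ ⟨-, h2, h3, h4, h5⟩
  have r5 : σ₁.reg 5 = aW V n := (h3 5 (by omega) (by omega)).trans hB.r5
  have r2 : σ₁.reg 2 = n := (h3 2 (by omega) (by omega)).trans hB.r2
  have r9 : σ₁.reg 9 = (aS V n + 2 * (n * n) + n : ℕ) := (h3 9 (by omega) (by omega)).trans hB.r9
  refine Run.seqL (T₁ := 8) (T₂ := 7) ((Run.store (a := .add (.var 5) (.var 2)) (v := .var 15)
    (m := aW V n + n) (z := ((2 ^ n : ℕ) : ℤ)) ⟨trivial, trivial, ?_⟩ trivial ?_ h2).mono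
    (by simp only [Expr.size]; omega) ?_) (by omega)
  · simp only [Expr.eval, r5, r2]
    rw [← Nat.cast_add, Int.natAbs_natCast]; omega
  · simp only [Expr.eval, r5, r2]; push_cast; rfl
  rintro σ₂ ⟨g1, g2⟩
  have g15 : σ₂.reg 15 = ((2 ^ n : ℕ) : ℤ) := by rw [g1]; exact h2
  have g9 : σ₂.reg 9 = (aS V n + 2 * (n * n) + n : ℕ) := by rw [g1]; exact r9
  have e : (Expr.add (.var 9) (.var 15)).eval σ₂ =
      ((aS V n + 2 * (n * n) + n + 2 ^ n : ℕ) : ℤ) := by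
    simp only [Expr.eval, g15, g9]; push_cast; rfl
  refine Run.assign (e := .add (.var 9) (.var 15)) ⟨trivial, trivial, ?_⟩ ?_
  · have : (Expr.var 9).eval σ₂ + (Expr.var 15).eval σ₂ =
      ((aS V n + 2 * (n * n) + n + 2 ^ n : ℕ) : ℤ) := e
    rw [this, Int.natAbs_natCast]; omega
  rw [e]
  refine ⟨hB.of_same (fun r hr => ?_) (fun a ha => ?_), by simp, ?_, fun j hj => ?_⟩
  · simp only [St.set_reg]; rw [if_neg (by omega), g1]; exact h3 r (by omega) (by omega)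
  · simp only [St.set_mem, g2, Function.update_apply]
    rw [if_neg (by omega)]; exact h5 a (by omega)
  · simp only [St.set_reg]; rw [if_neg (by omega)]; exact g15
  · simp only [St.set_mem, g2, Function.update_apply]
    by_cases hjn : j = n
    · rw [if_pos (by omega), hjn]; push_cast; rfl
    · rw [if_neg (by omega)]; exact h4 j (by omega)

end Pool.Agent.Lib.MP_d8fb5e_lc
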