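import Pool.Agent.Lib.MP_d8fb5e_lc.Setup

namespace Pool.Agent.Lib.MP_d8fb5e_lc

open Pool.Agent.Lib.PRam

variable {W : ℕ} {σ : St}

/-- incidence bit of vertex `reg b` in face `reg a` -/
def incE (a b : ℕ) : Expr := .load (.add (.lit 2) (.add (.mul (.var a) (.var 1)) (.var b)))

theorem incE_eval {V n a b f v : ℕ} {inc : ℕ → ℕ → Bool} (hB : Base1 V n inc σ)
    (ha : σ.reg a = f) (hb : σ.reg b = v) (hf : f < n) (hv : v < V) :
    (incE a b).eval σ = if inc f v = true then 1 else 0 := by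
  have h1 : (incE a b).eval σ = σ.mem ((2 : ℤ) + ((f : ℤ) * (V : ℤ) + (v : ℤ))).toNat := by
    simp only [incE, Expr.eval, hB.r1, ha, hb]
  rw [h1, show ((2 : ℤ) + ((f : ℤ) * (V : ℤ) + (v : ℤ))) = ((2 + (f * V + v) : ℕ) : ℤ) by
    push_cast; ring, Int.toNat_natCast]
  exact hB.mI f hf v hv

theorem inc_idx {V n f v : ℕ} (hf : f < n) (hv : v < V) : 2 + (f * V + v) < aA V n := by
  have h3 : (f + 1) * V ≤ n * V := Nat.mul_le_mul_right _ (by omega)
  have h4 : (f + 1) * V = f * V + V := by ring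
  unfold aA; omega

theorem incE_ok {V n a b f v : ℕ} {inc : ℕ → ℕ → Bool} (hB : Base1 V n inc σ)
    (ha : σ.reg a = f) (hb : σ.reg b = v) (hf : f < n) (hv : v < V) (hW : aA V n ≤ W) :
    (incE a b).ok W σ := by
  have h1 := inc_idx hf hv
  have h2 : ((f : ℤ) * (V : ℤ)) = ((f * V : ℕ) : ℤ) := by push_cast; rfl
  refine ⟨ok2 (by omega), ⟨⟨trivial, trivial, ?_⟩, trivial, ?_⟩, ?_⟩
  · simp only [Expr.eval, hB.r1, ha, h2]; omega
  · simp only [Expr.eval, hB.r1, ha, hb, h2]; omega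
  · simp only [Expr.eval, hB.r1, ha, hb, h2]; omega

def cardBody (rf : ℕ) : Cmd := .assign 46 (.add (.var 46) (incE rf 45))
def cardC (rf : ℕ) : Cmd := .seq (.assign 46 (.lit 0)) (forDo 45 1 (cardBody rf))

def tCard (n : ℕ) : ℕ := 3 + forT n 20

theorem crd_succ (m : ℕ) (I : ℕ → Bool) :
    crd (m + 1) I = crd m I + if I m = true then 1 else 0 := by
  unfold crd; rw [Finset.sum_range_succ]

theorem crd_le (m : ℕ) (I : ℕ → Bool) : crd m I ≤ m := by
  induction m with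
  | zero => simp [crd]
  | succ m ih => rw [crd_succ]; split_ifs <;> omega

theorem card_run {V n rf f : ℕ} {inc : ℕ → ℕ → Bool} (hB : Base1 V n inc σ)
    (hrf : rf ≠ 45) (hrf' : rf ≠ 46) (hf : σ.reg rf = f) (hfn : f < n) (hVn : V ≤ n)
    (hW : aA V n + n + 1 ≤ W) :
    Run W (cardC rf) σ [] (tCard n) (fun σ' => σ'.reg 46 = crd V (inc f) ∧
      (∀ r, r ≠ 45 → r ≠ 46 → σ'.reg r = σ.reg r) ∧ σ'.mem = σ.mem) := by
  refine Run.seqL (T₁ := 3) (Run.assign (e := .lit 0) ok0 ?_) le_rfl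
  have l0 : (Expr.lit 0).eval σ = 0 := rfl
  rw [l0]
  refine (Run.forC (N := V) (B := 20) (fun i σ' => σ'.reg 45 = i ∧ σ'.reg 46 = crd i (inc f) ∧
    (∀ r, r ≠ 45 → r ≠ 46 → σ'.reg r = σ.reg r) ∧ σ'.mem = σ.mem) (by omega) hVn ?_ ?_ ?_).mono
    le_rfl ?_
  · refine ⟨by simp, by simp [crd], fun r h1 h2 => by simp [h1, h2], rfl⟩
  · rintro i hi σ' ⟨h1, h2, h3, h4⟩
    exact ⟨(h3 1 (by omega) (by omega)).trans hB.r1, h1⟩
  · rintro i hi σ' ⟨h1, h2, h3, h4⟩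
    have hB' : Base1 V n inc σ' := hB.of_same (fun r hr => h3 r (by omega) (by omega))
      (fun a _ => by rw [h4])
    have hrf2 : σ'.reg rf = f := (h3 rf hrf hrf').trans hf
    have hev := incE_eval hB' hrf2 h1 hfn hi
    have hc := crd_le (i + 1) (inc f)
    have hev2 : (Expr.add (.var 46) (incE rf 45)).eval σ' = ((crd (i + 1) (inc f) : ℕ) : ℤ) := by
      simp only [Expr.eval, h2, hev, crd_succ]
      split_ifs <;> push_cast <;> rfl
    refine (Run.assign (e := .add (.var 46) (incE rf 45)) ⟨trivial, incE_ok hB' hrf2 h1 hfn hi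
      (by omega), ?_⟩ ?_).mono (by simp only [incE, Expr.size]; omega) (fun _ h => h)
    · have : (Expr.var 46).eval σ' + (incE rf 45).eval σ' = ((crd (i + 1) (inc f) : ℕ) : ℤ) := hev2
      rw [this, Int.natAbs_natCast]; omega
    rw [hev2]
    refine ⟨by simp [h1], by simp, by simp, fun r hr1 hr2 => ?_, h4⟩
    simp only [St.set_reg]; rw [if_neg hr1, if_neg hr2]; exact h3 r hr1 hr2
  · rintro σ' ⟨-, h2, h3, h4⟩
    exact ⟨h2, h3, h4⟩

/-! ### stage 3: the dimension -/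

def mxc (V : ℕ) (inc : ℕ → ℕ → Bool) : ℕ → ℕ
  | 0 => 0
  | f + 1 => max (mxc V inc f) (crd V (inc f))

theorem mxc_le {V D n : ℕ} {inc : ℕ → ℕ → Bool} (h : ∀ f < n, crd V (inc f) ≤ D) :
    ∀ m ≤ n, mxc V inc m ≤ D
  | 0, _ => Nat.zero_le _
  | m + 1, hm => max_le (mxc_le h m (by omega)) (h m hm)

theorem le_mxc {V : ℕ} {inc : ℕ → ℕ → Bool} {f : ℕ} : ∀ n, f < n → crd V (inc f) ≤ mxc V inc n
  | 0, h => absurd h (Nat.not_lt_zero f)
  | n + 1, h => by
    rcases Nat.lt_succ_iff_lt_or_eq.mp h with h | h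
    · exact (le_mxc n h).trans (le_max_left _ _)
    · rw [h]; exact le_max_right _ _

def s3Body : Cmd := .seq (cardC 26) (.ifpos (.sub (.var 46) (.var 3)) (.assign 3 (.var 46)) .skip)
def s3C : Cmd := .seq (.assign 3 (.lit 0)) (forDo 26 2 s3Body)

def t3 (n : ℕ) : ℕ := 3 + forT n (tCard n + 20)

/-- only register `x` and registers from `26` on have changed -/
def FrX (x : ℕ) (σ σ' : St) : Prop := (∀ r < 26, r ≠ x → σ'.reg r = σ.reg r) ∧ σ'.mem = σ.mem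

theorem mxc_le_V {V : ℕ} {inc : ℕ → ℕ → Bool} (m : ℕ) : mxc V inc m ≤ V :=
  mxc_le (n := m) (fun f _ => crd_le V (inc f)) m le_rfl

theorem s3_run {V n : ℕ} {inc : ℕ → ℕ → Bool} (hB : Base1 V n inc σ) (hVn : V ≤ n)
    (hW : aA V n + n + 1 ≤ W) :
    Run W s3C σ [] (t3 n) (fun σ' => σ'.reg 3 = mxc V inc n ∧ FrX 3 σ σ') := by
  refine Run.seqL (T₁ := 3) (Run.assign (e := .lit 0) ok0 ?_) le_rfl
  have l0 : (Expr.lit 0).eval σ = 0 := rfl
  rw [l0]
  refine (Run.forC (N := n) (B := tCard n + 20) (fun i σ' => σ'.reg 26 = i ∧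
    σ'.reg 3 = mxc V inc i ∧ FrX 3 σ σ') (by omega) le_rfl ?_ ?_ ?_).mono le_rfl ?_
  · refine ⟨by simp, by simp [mxc], fun r h1 h2 => ?_, rfl⟩
    simp only [St.set_reg]; rw [if_neg (by omega), if_neg h2]
  · rintro i hi σ' ⟨h1, h2, h3, h4⟩
    exact ⟨(h3 2 (by omega) (by omega)).trans hB.r2, h1⟩
  · rintro i hi σ' ⟨h1, h2, h3, h4⟩
    have hB' : Base1 V n inc σ' := hB.of_same (fun r hr => h3 r (by omega) (by omega))
      (fun a _ => by rw [h4])
    refine Run.seqL (T₁ := tCard n) (T₂ := 20) ((card_run (rf := 26) hB' (by omega) (by omega) h1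
      hi hVn hW).mono le_rfl ?_) le_rfl
    rintro σ₁ ⟨c1, c2, c3⟩
    have e3 : σ₁.reg 3 = mxc V inc i := (c2 3 (by omega) (by omega)).trans h2
    have m1 := mxc_le_V (V := V) (inc := inc) i
    have m2 := crd_le V (inc i)
    have base : ∀ σ₂ : St, σ₂.reg 3 = mxc V inc (i + 1) → (∀ r, r ≠ 3 → σ₂.reg r = σ₁.reg r) →
        σ₂.mem = σ₁.mem → σ₂.reg 26 = i ∧ (σ₂.set 26 ((i + 1 : ℕ) : ℤ)).reg 26 = ((i + 1 : ℕ) : ℤ) ∧
        (σ₂.set 26 ((i + 1 : ℕ) : ℤ)).reg 3 = mxc V inc (i + 1) ∧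
        FrX 3 σ (σ₂.set 26 ((i + 1 : ℕ) : ℤ)) := by
      intro σ₂ q1 q2 q3
      refine ⟨?_, by simp, by simp [q1], fun r hr1 hr2 => ?_, ?_⟩
      · rw [q2 26 (by omega), c2 26 (by omega) (by omega), h1]
      · simp only [St.set_reg]
        rw [if_neg (by omega), q2 r hr2, c2 r (by omega) (by omega)]; exact h3 r hr1 hr2
      · rw [St.set_mem, q3, c3, h4]
    refine Run.ifpos (T' := 4) ⟨trivial, trivial, ?_⟩ (fun hp => ?_) (fun hp => ?_)
      (by simp only [Expr.size]; omega)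
    · simp only [Expr.eval, c1, e3]; exact natAbs_sub_le (by omega) (by omega)
    · have hp : 0 < σ₁.reg 46 - σ₁.reg 3 := hp
      rw [c1, e3] at hp
      refine Run.assign (e := .var 46) trivial (base _ ?_ (fun r hr => ?_) rfl)
      · simp only [St.set_reg, if_true, Expr.eval, c1, mxc]
        rw [max_eq_right (by omega)]
      · simp only [St.set_reg]; rw [if_neg hr]
    · have hp : σ₁.reg 46 - σ₁.reg 3 ≤ 0 := hp
      rw [c1, e3] at hp
      refine Run.skip (base _ ?_ (fun r hr => rfl) rfl)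
      rw [e3, mxc, max_eq_left (by omega)]
  · rintro σ' ⟨-, h2, h3⟩
    exact ⟨h2, h3⟩

/-! ### stage 4: the mask of the low-dimensional faces -/

def lowF (V : ℕ) (inc : ℕ → ℕ → Bool) (D n : ℕ) : ℕ :=
  ∑ f ∈ Finset.range n, if crd V (inc f) < D then 2 ^ f else 0

theorem lowF_succ (V : ℕ) (inc : ℕ → ℕ → Bool) (D n : ℕ) :
    lowF V inc D (n + 1) = lowF V inc D n + if crd V (inc n) < D then 2 ^ n else 0 := by
  simp [lowF, Finset.sum_range_succ]

theorem lowF_lt (V : ℕ) (inc : ℕ → ℕ → Bool) (D n : ℕ) : lowF V inc D n < 2 ^ n := by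
  induction n with
  | zero => simp [lowF]
  | succ n ih =>
    rw [lowF_succ, pow_succ]
    split_ifs <;> omega

def s4Body : Cmd := .seq (cardC 26) (.ifpos (.sub (.var 3) (.var 46))
  (.assign 17 (.add (.var 17) (pwE 26))) .skip)
def s4C : Cmd := .seq (.assign 17 (.lit 0)) (forDo 26 2 s4Body)

def t4 (n : ℕ) : ℕ := 3 + forT n (tCard n + 30)

theorem pwE_eval2 {V n rj j : ℕ} {inc : ℕ → ℕ → Bool} (hB : Base2 V n inc σ)
    (hj : σ.reg rj = j) (hjn : j ≤ n) : (pwE rj).eval σ = ((2 ^ j : ℕ) : ℤ) := by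
  have h1 : (pwE rj).eval σ = σ.mem ((aW V n : ℤ) + (j : ℤ)).toNat := by
    simp only [pwE, Expr.eval, hB.b.r5, hj]
  rw [h1, ← Nat.cast_add, Int.toNat_natCast, hB.mW j hjn]
  push_cast; rfl

theorem pwE_ok2 {V n rj j : ℕ} {inc : ℕ → ℕ → Bool} (hB : Base2 V n inc σ)
    (hj : σ.reg rj = j) (hjn : j ≤ n) (hW : aW V n + n ≤ W) : (pwE rj).ok W σ := by
  refine ⟨trivial, trivial, ?_⟩
  simp only [Expr.eval, hB.b.r5, hj]
  rw [← Nat.cast_add, Int.natAbs_natCast]; omega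

theorem Base2.of_same {V n : ℕ} {inc : ℕ → ℕ → Bool} {σ σ' : St} (h : Base2 V n inc σ)
    (h1 : ∀ r, (r = 1 ∨ r = 2 ∨ (4 ≤ r ∧ r ≤ 10) ∨ r = 15 ∨ r = 20) → σ'.reg r = σ.reg r)
    (h2 : ∀ a, (a < aA V n ∨ (aW V n ≤ a ∧ a < aS V n)) → σ'.mem a = σ.mem a) :
    Base2 V n inc σ' := by
  have haS : aS V n = aW V n + n + 1 := rfl
  refine ⟨h.b.of_same (fun r hr => h1 r (by omega)) (fun a ha => h2 a (by omega)), ?_, ?_,
    fun j hj => ?_⟩
  · rw [h1 10 (by omega)]; exact h.r10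
  · rw [h1 15 (by omega)]; exact h.r15
  · rw [h2 _ (by omega)]; exact h.mW j hj

theorem s4_run {V n D : ℕ} {inc : ℕ → ℕ → Bool} (hB : Base2 V n inc σ) (hVn : V ≤ n)
    (h3D : σ.reg 3 = D) (hDn : D ≤ n) (hW : aS V n + n + 1 ≤ W) (hW2 : 2 * 2 ^ n ≤ W) :
    Run W s4C σ [] (t4 n) (fun σ' => σ'.reg 17 = lowF V inc D n ∧ FrX 17 σ σ') := by
  have haS : aS V n = aW V n + n + 1 := rfl
  have haW : aW V n = aA V n + n * n := rfl
  refine Run.seqL (T₁ := 3) (Run.assign (e := .lit 0) ok0 ?_) le_rfl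
  have l0 : (Expr.lit 0).eval σ = 0 := rfl
  rw [l0]
  refine (Run.forC (N := n) (B := tCard n + 30) (fun i σ' => σ'.reg 26 = i ∧
    σ'.reg 17 = lowF V inc D i ∧ FrX 17 σ σ') (by omega) le_rfl ?_ ?_ ?_).mono le_rfl ?_
  · refine ⟨by simp, by simp [lowF], fun r h1 h2 => ?_, rfl⟩
    simp only [St.set_reg]; rw [if_neg (by omega), if_neg h2]
  · rintro i hi σ' ⟨h1, h2, h3, h4⟩
    exact ⟨(h3 2 (by omega) (by omega)).trans hB.b.r2, h1⟩
  · rintro i hi σ' ⟨h1, h2, h3, h4⟩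
    have hB' : Base2 V n inc σ' := hB.of_same (fun r hr => h3 r (by omega) (by omega))
      (fun a _ => by rw [h4])
    refine Run.seqL (T₁ := tCard n) (T₂ := 30) ((card_run (rf := 26) hB'.b (by omega) (by omega)
      h1 hi hVn (by omega)).mono le_rfl ?_) le_rfl
    rintro σ₁ ⟨c1, c2, c3⟩
    have hB1 : Base2 V n inc σ₁ := hB'.of_same (fun r hr => c2 r (by omega) (by omega))
      (fun a _ => by rw [c3])
    have e3 : σ₁.reg 3 = D := by
      rw [c2 3 (by omega) (by omega), h3 3 (by omega) (by omega)]; exact h3D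
    have e17 : σ₁.reg 17 = lowF V inc D i := (c2 17 (by omega) (by omega)).trans h2
    have e26 : σ₁.reg 26 = i := (c2 26 (by omega) (by omega)).trans h1
    have m2 := crd_le V (inc i)
    have base : ∀ σ₂ : St, σ₂.reg 17 = lowF V inc D (i + 1) → (∀ r, r ≠ 17 → σ₂.reg r = σ₁.reg r) →
        σ₂.mem = σ₁.mem → σ₂.reg 26 = i ∧ (σ₂.set 26 ((i + 1 : ℕ) : ℤ)).reg 26 = ((i + 1 : ℕ) : ℤ) ∧
        (σ₂.set 26 ((i + 1 : ℕ) : ℤ)).reg 17 = lowF V inc D (i + 1) ∧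
        FrX 17 σ (σ₂.set 26 ((i + 1 : ℕ) : ℤ)) := by
      intro σ₂ q1 q2 q3
      refine ⟨?_, by simp, by simp [q1], fun r hr1 hr2 => ?_, ?_⟩
      · rw [q2 26 (by omega), e26]
      · simp only [St.set_reg]
        rw [if_neg (by omega), q2 r hr2, c2 r (by omega) (by omega)]; exact h3 r hr1 hr2
      · rw [St.set_mem, q3, c3, h4]
    have hl := lowF_lt V inc D (i + 1)
    have h2i : 2 ^ (i + 1) ≤ 2 ^ n := Nat.pow_le_pow_right (by omega) hi
    refine Run.ifpos (T' := 15) ⟨trivial, trivial, ?_⟩ (fun hp => ?_) (fun hp => ?_)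
      (by simp only [Expr.size]; omega)
    · simp only [Expr.eval, c1, e3]; exact natAbs_sub_le (by omega) (by omega)
    · have hp : 0 < σ₁.reg 3 - σ₁.reg 46 := hp
      rw [c1, e3] at hp
      have hev : (Expr.add (.var 17) (pwE 26)).eval σ₁ = ((lowF V inc D (i + 1) : ℕ) : ℤ) := by
        have hpw := pwE_eval2 hB1 e26 hi.le
        simp only [Expr.eval, e17, hpw, lowF_succ]
        rw [if_pos (by omega)]; push_cast; rfl
      refine (Run.assign (e := .add (.var 17) (pwE 26)) ⟨trivial, pwE_ok2 hB1 e26 hi.le (by omega),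
        ?_⟩ ?_).mono (by simp only [pwE, Expr.size]; omega) (fun _ h => h)
      · have : (Expr.var 17).eval σ₁ + (pwE 26).eval σ₁ = ((lowF V inc D (i + 1) : ℕ) : ℤ) := hev
        rw [this, Int.natAbs_natCast]; omega
      rw [hev]
      refine base _ (by simp) (fun r hr => ?_) rfl
      simp only [St.set_reg]; rw [if_neg hr]
    · have hp : σ₁.reg 3 - σ₁.reg 46 ≤ 0 := hp
      rw [c1, e3] at hp
      refine Run.skip (base _ ?_ (fun r hr => rfl) rfl)
      rw [e17, lowF_succ, if_neg (by omega), add_zero]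
  · rintro σ' ⟨-, h2, h3⟩
    exact ⟨h2, h3⟩

end Pool.Agent.Lib.MP_d8fb5e_lc
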