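import Pool.Agent.Lib.MP_d8fb5e_lc.Setup2

namespace Pool.Agent.Lib.MP_d8fb5e_lc

open Pool.Agent.Lib.PRam

variable {W : ℕ} {σ : St}

/-! ### stage 5: the matrix -/

/-- one vertex: registers `27, 28` the two faces, `45` the vertex; `46, 47, 48, 49` the number of
vertices of face `28` so far, the number of differences, the signed count and the sign -/
def vxBody : Cmd :=
  .seq (.assign 50 (incE 28 45))
  (.seq (.assign 51 (incE 27 45))
  (.seq (.assign 48 (.add (.var 48) (.mul (.var 49) (.mul (.var 50) (.sub (.lit 1) (.var 51))))))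
  (.seq (.assign 47 (.add (.var 47) (.mul (.sub (.var 50) (.var 51)) (.sub (.var 50) (.var 51)))))
  (.seq (.assign 49 (.mul (.var 49) (.sub (.lit 1) (.mul (.lit 2) (.var 50)))))
  (.assign 46 (.add (.var 46) (.var 50)))))))

theorem dff_succ (m : ℕ) (I J : ℕ → Bool) :
    dff (m + 1) I J = dff m I J + if I m = J m then 0 else 1 := by
  unfold dff; rw [Finset.sum_range_succ]

theorem sac_succ (m : ℕ) (I J : ℕ → Bool) :
    sac (m + 1) I J = sac m I J + if I m = true ∧ J m = false then (-1) ^ crd m I else 0 := by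
  unfold sac; rw [Finset.sum_range_succ]

theorem dff_le (m : ℕ) (I J : ℕ → Bool) : dff m I J ≤ m := by
  induction m with
  | zero => simp [dff]
  | succ m ih => rw [dff_succ]; split_ifs <;> omega

theorem neg_one_cases (k : ℕ) : ((-1 : ℤ) ^ k = 1) ∨ ((-1 : ℤ) ^ k = -1) := by
  rcases Nat.even_or_odd k with h | h
  · left; exact h.neg_one_pow
  · right; exact h.neg_one_pow

theorem sac_le (m : ℕ) (I J : ℕ → Bool) : (sac m I J).natAbs ≤ m := by
  induction m with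
  | zero => simp [sac]
  | succ m ih =>
    rw [sac_succ]
    rcases neg_one_cases (crd m I) with h | h <;> rw [h] <;> split_ifs <;> omega

/-- the registers after the first `v` vertices -/
structure VX (inc : ℕ → ℕ → Bool) (g h v : ℕ) (σ : St) : Prop where
  r46 : σ.reg 46 = crd v (inc h)
  r47 : σ.reg 47 = dff v (inc h) (inc g)
  r48 : σ.reg 48 = sac v (inc h) (inc g)
  r49 : σ.reg 49 = (-1) ^ crd v (inc h)

theorem vx_run {V n g h v : ℕ} {inc : ℕ → ℕ → Bool} (hB : Base1 V n inc σ) (hV : VX inc g h v σ)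
    (h27 : σ.reg 27 = g) (h28 : σ.reg 28 = h) (h45 : σ.reg 45 = v) (hg : g < n) (hh : h < n)
    (hv : v < V) (hW : aA V n + V + 4 ≤ W) :
    Run W vxBody σ [] 120 (fun σ' => VX inc g h (v + 1) σ' ∧ (∀ r < 46, σ'.reg r = σ.reg r) ∧
      σ'.mem = σ.mem) := by
  have hcost : vxBody.cost ≤ 120 := by
    simp only [vxBody, incE, Cmd.cost, Expr.size]; omega
  refine (Term.run ?_ (by refine ⟨?_, ?_, ?_, ?_, ?_, ?_⟩ <;> trivial)).mono hcost (fun _ h => h)
  obtain ⟨a, ha⟩ : ∃ a : ℤ, (if inc h v = true then (1 : ℤ) else 0) = a := ⟨_, rfl⟩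
  obtain ⟨b, hb⟩ : ∃ b : ℤ, (if inc g v = true then (1 : ℤ) else 0) = b := ⟨_, rfl⟩
  have ha01 : a = 0 ∨ a = 1 := by rw [← ha]; split_ifs <;> simp
  have hb01 : b = 0 ∨ b = 1 := by rw [← hb]; split_ifs <;> simp
  have c1 := crd_le v (inc h)
  have c2 := dff_le v (inc h) (inc g)
  have c3 := sac_le v (inc h) (inc g)
  have c4 := neg_one_cases (crd v (inc h))
  refine Term.seqL (Term.assign (incE_ok hB h28 h45 hh hv (by omega)) ?_)
  rw [incE_eval hB h28 h45 hh hv, ha]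
  set σ₁ := σ.set 50 a with hσ₁
  have hB1 : Base1 V n inc σ₁ := hB.of_same (fun r hr => by
    simp only [hσ₁, St.set_reg]; rw [if_neg (by omega)]) (fun _ _ => rfl)
  have d27 : σ₁.reg 27 = g := by simp [hσ₁, h27]
  have d45 : σ₁.reg 45 = v := by simp [hσ₁, h45]
  refine Term.seqL (Term.assign (incE_ok hB1 d27 d45 hg hv (by omega)) ?_)
  rw [incE_eval hB1 d27 d45 hg hv, hb]
  set σ₂ := σ₁.set 51 b with hσ₂
  have e50 : σ₂.reg 50 = a := by simp [hσ₂, hσ₁]
  have e51 : σ₂.reg 51 = b := by simp [hσ₂]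
  have e48 : σ₂.reg 48 = sac v (inc h) (inc g) := by simp [hσ₂, hσ₁, hV.r48]
  have e47 : σ₂.reg 47 = dff v (inc h) (inc g) := by simp [hσ₂, hσ₁, hV.r47]
  have e49 : σ₂.reg 49 = (-1) ^ crd v (inc h) := by simp [hσ₂, hσ₁, hV.r49]
  have e46 : σ₂.reg 46 = crd v (inc h) := by simp [hσ₂, hσ₁, hV.r46]
  have hsac : sac (v + 1) (inc h) (inc g) = sac v (inc h) (inc g) +
      (-1) ^ crd v (inc h) * (a * (1 - b)) := by
    rw [sac_succ, ← ha, ← hb]
    cases inc h v <;> cases inc g v <;> simp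
  have hdff : ((dff (v + 1) (inc h) (inc g) : ℕ) : ℤ) = (dff v (inc h) (inc g) : ℤ) +
      (a - b) * (a - b) := by
    rw [dff_succ, ← ha, ← hb]
    cases inc h v <;> cases inc g v <;> simp
  have hsgn : ((-1 : ℤ)) ^ crd (v + 1) (inc h) = (-1) ^ crd v (inc h) * (1 - 2 * a) := by
    rw [crd_succ, ← ha]
    cases inc h v <;> simp [pow_succ]
  have hcrd : ((crd (v + 1) (inc h) : ℕ) : ℤ) = (crd v (inc h) : ℤ) + a := by
    rw [crd_succ, ← ha]
    cases inc h v <;> simp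
  obtain ⟨s, hs⟩ : ∃ s : ℤ, (-1 : ℤ) ^ crd v (inc h) = s := ⟨_, rfl⟩
  rw [hs] at c4 hsac hsgn e49
  have hc3' := sac_le (v + 1) (inc h) (inc g)
  have hc2' := dff_le (v + 1) (inc h) (inc g)
  have hc1' := crd_le (v + 1) (inc h)
  have hc4' := neg_one_cases (crd (v + 1) (inc h))
  refine Term.seqL (Term.assign ⟨trivial, ⟨trivial, ⟨trivial, ⟨ok1 (by omega), trivial, ?_⟩, ?_⟩,
    ?_⟩, ?_⟩ ?_)
  · simp only [Expr.eval, e51]; omega
  · simp only [Expr.eval, e51, e50]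
    rcases ha01 with h | h <;> rcases hb01 with h' | h' <;> simp [h, h'] <;> omega
  · simp only [Expr.eval, e51, e50, e49]
    rcases ha01 with h | h <;> rcases hb01 with h' | h' <;> rcases c4 with h'' | h'' <;>
      simp [h, h', h''] <;> omega
  · simp only [Expr.eval, e51, e50, e49, e48]
    rw [← hsac]; omega
  have f48 : (Expr.add (.var 48) (.mul (.var 49) (.mul (.var 50)
      (.sub (.lit 1) (.var 51))))).eval σ₂ = sac (v + 1) (inc h) (inc g) := by
    simp only [Expr.eval, e51, e50, e49, e48]; exact hsac.symm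
  rw [f48]
  set σ₃ := σ₂.set 48 (sac (v + 1) (inc h) (inc g)) with hσ₃
  have g50 : σ₃.reg 50 = a := by simp [hσ₃, e50]
  have g51 : σ₃.reg 51 = b := by simp [hσ₃, e51]
  have g47 : σ₃.reg 47 = dff v (inc h) (inc g) := by simp [hσ₃, e47]
  have f47 : (Expr.add (.var 47) (.mul (.sub (.var 50) (.var 51)) (.sub (.var 50)
      (.var 51)))).eval σ₃ = ((dff (v + 1) (inc h) (inc g) : ℕ) : ℤ) := by
    simp only [Expr.eval, g50, g51, g47]; exact hdff.symm
  refine Term.seqL (Term.assign ⟨trivial, ⟨⟨trivial, trivial, ?_⟩, ⟨trivial, trivial, ?_⟩, ?_⟩,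
    ?_⟩ ?_)
  · simp only [Expr.eval, g50, g51]; omega
  · simp only [Expr.eval, g50, g51]; omega
  · simp only [Expr.eval, g50, g51]
    rcases ha01 with h | h <;> rcases hb01 with h' | h' <;> simp [h, h'] <;> omega
  · have : (Expr.var 47).eval σ₃ + (Expr.mul (.sub (.var 50) (.var 51)) (.sub (.var 50)
      (.var 51))).eval σ₃ = ((dff (v + 1) (inc h) (inc g) : ℕ) : ℤ) := f47
    rw [this, Int.natAbs_natCast]; omega
  rw [f47]
  set σ₄ := σ₃.set 47 ((dff (v + 1) (inc h) (inc g) : ℕ) : ℤ) with hσ₄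
  have k50 : σ₄.reg 50 = a := by simp [hσ₄, g50]
  have k49 : σ₄.reg 49 = s := by simp [hσ₄, hσ₃, e49]
  have f49 : (Expr.mul (.var 49) (.sub (.lit 1) (.mul (.lit 2) (.var 50)))).eval σ₄ =
      (-1) ^ crd (v + 1) (inc h) := by
    simp only [Expr.eval, k49, k50]; exact hsgn.symm
  refine Term.seqL (Term.assign ⟨trivial, ⟨ok1 (by omega), ⟨ok2 (by omega), trivial, ?_⟩, ?_⟩,
    ?_⟩ ?_)
  · simp only [Expr.eval, k50]; omega
  · simp only [Expr.eval, k50]; omega
  · have : (Expr.var 49).eval σ₄ * (Expr.sub (.lit 1) (.mul (.lit 2) (.var 50))).eval σ₄ =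
      (-1) ^ crd (v + 1) (inc h) := f49
    rw [this]; omega
  rw [f49]
  set σ₅ := σ₄.set 49 ((-1) ^ crd (v + 1) (inc h)) with hσ₅
  have m50 : σ₅.reg 50 = a := by simp [hσ₅, k50]
  have m46 : σ₅.reg 46 = crd v (inc h) := by simp [hσ₅, hσ₄, hσ₃, e46]
  have f46 : (Expr.add (.var 46) (.var 50)).eval σ₅ = ((crd (v + 1) (inc h) : ℕ) : ℤ) := by
    simp only [Expr.eval, m50, m46]; exact hcrd.symm
  refine Term.assign ⟨trivial, trivial, ?_⟩ ?_
  · have : (Expr.var 46).eval σ₅ + (Expr.var 50).eval σ₅ =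
      ((crd (v + 1) (inc h) : ℕ) : ℤ) := f46
    rw [this, Int.natAbs_natCast]; omega
  rw [f46]
  refine ⟨⟨by simp, ?_, ?_, ?_⟩, fun r hr => ?_, rfl⟩
  · simp [hσ₅, hσ₄]
  · simp [hσ₅, hσ₄, hσ₃]
  · simp [hσ₅]
  · simp only [hσ₅, hσ₄, hσ₃, hσ₂, hσ₁, St.set_reg]
    rw [if_neg (by omega), if_neg (by omega), if_neg (by omega), if_neg (by omega),
      if_neg (by omega), if_neg (by omega)]

/-- the matrix entry -/
def ent (V D : ℕ) (inc : ℕ → ℕ → Bool) (g h : ℕ) : ℤ :=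
  if crd V (inc h) = D ∧ dff V (inc h) (inc g) = 1 then sac V (inc h) (inc g) else 0

def entBody : Cmd :=
  .seq (.assign 27 (.div (.var 26) (.var 2)))
  (.seq (.assign 28 (modE 26 2))
  (.seq (.assign 46 (.lit 0)) (.seq (.assign 47 (.lit 0)) (.seq (.assign 48 (.lit 0))
  (.seq (.assign 49 (.lit 1))
  (.seq (forDo 45 1 vxBody)
  (.ite (.sub (.var 46) (.var 3)) (.store (.add (.var 4) (.var 26)) (.lit 0))
    (.ite (.sub (.var 47) (.lit 1)) (.store (.add (.var 4) (.var 26)) (.lit 0))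
      (.store (.add (.var 4) (.var 26)) (.var 48))))))))))

def tEnt (n : ℕ) : ℕ := 100 + forT n 120

theorem ent_run {V n D q : ℕ} {inc : ℕ → ℕ → Bool} (hB : Base1 V n inc σ) (hVn : V ≤ n)
    (h3 : σ.reg 3 = D) (hD : D ≤ n) (h26 : σ.reg 26 = q) (hq : q < n * n)
    (hW : aA V n + n * n + n + 4 ≤ W) :
    Run W entBody σ [] (tEnt n) (fun σ' => (∀ r < 27, σ'.reg r = σ.reg r) ∧
      σ'.mem = Function.update σ.mem (aA V n + q) (ent V D inc (q / n) (q % n))) := by
  have hn0 : 0 < n := by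
    rcases Nat.eq_zero_or_pos n with h | h
    · rw [h] at hq; simp at hq
    · exact h
  have hg : q / n < n := by rw [Nat.div_lt_iff_lt_mul hn0]; exact hq
  have hh : q % n < n := Nat.mod_lt _ hn0
  refine Run.seqL (T₁ := 7) (T₂ := 90 + forT n 120) (Run.assign (e := .div (.var 26) (.var 2))
    ⟨trivial, trivial⟩ ?_) (by simp only [tEnt]; omega)
  have e1 : (Expr.div (.var 26) (.var 2)).eval σ = ((q / n : ℕ) : ℤ) := by
    simp only [Expr.eval, h26, hB.r2]; push_cast; rfl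
  rw [e1]
  set σ₁ := σ.set 27 ((q / n : ℕ) : ℤ) with hσ₁
  have a26 : σ₁.reg 26 = q := by simp [hσ₁, h26]
  have a2 : σ₁.reg 2 = n := by simp [hσ₁, hB.r2]
  refine Run.seqL (T₁ := 13) (T₂ := 75 + forT n 120) ((Run.assign (e := modE 26 2)
    (modE_ok a26 a2 (by omega)) ?_).mono (by simp only [modE, Expr.size]; omega)
    (fun _ h => h)) (by omega)
  rw [modE_eval a26 a2]
  refine Run.seqL (T₁ := 3) (T₂ := 72 + forT n 120) (Run.assign (e := .lit 0) ok0 ?_) (by omega)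
  refine Run.seqL (T₁ := 3) (T₂ := 69 + forT n 120) (Run.assign (e := .lit 0) ok0 ?_) (by omega)
  refine Run.seqL (T₁ := 3) (T₂ := 66 + forT n 120) (Run.assign (e := .lit 0) ok0 ?_) (by omega)
  refine Run.seqL (T₁ := 3) (T₂ := 63 + forT n 120) (Run.assign (e := .lit 1) (ok1 (by omega)) ?_)
    (by omega)
  have l1 : ∀ σ : St, (Expr.lit 1).eval σ = 1 := fun _ => rfl
  have l0 : ∀ σ : St, (Expr.lit 0).eval σ = 0 := fun _ => rfl
  rw [l0, l0, l0, l1]
  set σ₂ := ((((σ₁.set 28 ((q % n : ℕ) : ℤ)).set 46 0).set 47 0).set 48 0).set 49 1 with hσ₂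
  have b1 : ∀ r < 27, σ₂.reg r = σ.reg r := by
    intro r hr
    simp only [hσ₂, hσ₁, St.set_reg]
    rw [if_neg (by omega), if_neg (by omega), if_neg (by omega), if_neg (by omega),
      if_neg (by omega), if_neg (by omega)]
  have hB2 : Base1 V n inc σ₂ := hB.of_same (fun r hr => b1 r (by omega)) (fun _ _ => rfl)
  refine Run.seqL (T₁ := forT n 120) (T₂ := 60) ((Run.forC (N := V) (B := 120) (fun v σ' =>
    σ'.reg 45 = v ∧ VX inc (q / n) (q % n) v σ' ∧ (∀ r < 45, σ'.reg r = σ₂.reg r) ∧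
    σ'.mem = σ.mem) (by omega) hVn ?_ ?_ ?_).mono le_rfl ?_) (by omega)
  · refine ⟨by simp, ⟨?_, ?_, ?_, ?_⟩, fun r hr => ?_, rfl⟩
    · simp [hσ₂, crd]
    · simp [hσ₂, dff]
    · simp [hσ₂, sac]
    · simp [hσ₂, crd]
    · simp only [St.set_reg]; rw [if_neg (by omega)]
  · rintro v hv σ' ⟨h1, h2, h3, h4⟩
    exact ⟨(h3 1 (by omega)).trans hB2.r1, h1⟩
  · rintro v hv σ' ⟨h1, h2, h3, h4⟩
    have hB' : Base1 V n inc σ' := hB2.of_same (fun r hr => h3 r (by omega)) (fun a _ => by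
      rw [h4]; rfl)
    refine (vx_run hB' h2 ?_ ?_ h1 hg hh hv (by omega)).mono le_rfl ?_
    · rw [h3 27 (by omega)]; simp [hσ₂, hσ₁]
    · rw [h3 28 (by omega)]; simp [hσ₂, hσ₁]
    rintro σ'' ⟨g1, g2, g3⟩
    refine ⟨(g2 45 (by omega)).trans h1, by simp, ⟨?_, ?_, ?_, ?_⟩, fun r hr => ?_, ?_⟩
    · simp [g1.r46]
    · simp [g1.r47]
    · simp [g1.r48]
    · simp [g1.r49]
    · simp only [St.set_reg]; rw [if_neg (by omega), g2 r (by omega)]; exact h3 r hr
    · rw [St.set_mem, g3, h4]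
  rintro σ₃ ⟨-, c2, c3, c4⟩
  have r3 : σ₃.reg 3 = D := by rw [c3 3 (by omega), b1 3 (by omega)]; exact h3
  have r4 : σ₃.reg 4 = aA V n := by rw [c3 4 (by omega), b1 4 (by omega)]; exact hB.r4
  have r26 : σ₃.reg 26 = q := by rw [c3 26 (by omega), b1 26 (by omega)]; exact h26
  have rlow : ∀ r < 27, σ₃.reg r = σ.reg r := fun r hr => (c3 r (by omega)).trans (b1 r hr)
  have m1 := crd_le V (inc (q % n))
  have m2 := dff_le V (inc (q % n)) (inc (q / n))
  have hst : ∀ (e : Expr) (z : ℤ), e.ok W σ₃ → e.eval σ₃ = z → e.size ≤ 2 →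
      z = ent V D inc (q / n) (q % n) →
      Run W (.store (.add (.var 4) (.var 26)) e) σ₃ [] 10 (fun σ' =>
        (∀ r < 27, σ'.reg r = σ.reg r) ∧
        σ'.mem = Function.update σ.mem (aA V n + q) (ent V D inc (q / n) (q % n))) := by
    intro e z ho hz hsz hzz
    refine (Run.store (a := .add (.var 4) (.var 26)) (m := aA V n + q) ⟨trivial, trivial, ?_⟩ ho
      ?_ hz).mono (by simp only [Expr.size]; omega) ?_
    · simp only [Expr.eval, r4, r26]
      rw [← Nat.cast_add, Int.natAbs_natCast]; omega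
    · simp only [Expr.eval, r4, r26]; rw [← Nat.cast_add]
    · rintro σ' ⟨g1, g2⟩
      exact ⟨fun r hr => by rw [g1]; exact rlow r hr, by rw [g2, c4, hzz]⟩
  refine Run.ite (T' := 20) ⟨trivial, trivial, ?_⟩ (fun hne => ?_) (fun heq => ?_)
    (by simp only [Expr.size]; omega)
  · simp only [Expr.eval, c2.r46, r3]; exact natAbs_sub_le (by omega) (by omega)
  · have hne : σ₃.reg 46 - σ₃.reg 3 ≠ 0 := hne
    rw [c2.r46, r3] at hne
    refine (hst (.lit 0) 0 ok0 (l0 _) (by decide) ?_).mono (by omega) (fun _ h => h)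
    rw [ent, if_neg (by rintro ⟨h, _⟩; rw [h] at hne; simp at hne)]
  · have heq : σ₃.reg 46 - σ₃.reg 3 = 0 := heq
    rw [c2.r46, r3] at heq
    refine Run.ite (T' := 10) ⟨trivial, ok1 (by omega), ?_⟩ (fun hne => ?_) (fun heq2 => ?_)
      (by simp only [Expr.size]; omega)
    · simp only [Expr.eval, c2.r47]; omega
    · have hne : σ₃.reg 47 - 1 ≠ 0 := hne
      rw [c2.r47] at hne
      refine hst (.lit 0) 0 ok0 (l0 _) (by decide) ?_
      rw [ent, if_neg (by rintro ⟨_, h⟩; rw [h] at hne; simp at hne)]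
    · have heq2 : σ₃.reg 47 - 1 = 0 := heq2
      rw [c2.r47] at heq2
      refine hst (.var 48) (σ₃.reg 48) trivial rfl (by decide) ?_
      rw [c2.r48, ent, if_pos ⟨by omega, by omega⟩]

def s5C : Cmd := forDo 26 20 entBody

def t5 (n : ℕ) : ℕ := forT (n * n) (tEnt n)

theorem s5_run {V n D : ℕ} {inc : ℕ → ℕ → Bool} (hB : Base1 V n inc σ) (hVn : V ≤ n)
    (h3 : σ.reg 3 = D) (hD : D ≤ n) (hW : aA V n + n * n + n + 4 ≤ W) :
    Run W s5C σ [] (t5 n) (fun σ' => (∀ r < 26, σ'.reg r = σ.reg r) ∧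
      (∀ q < n * n, σ'.mem (aA V n + q) = ent V D inc (q / n) (q % n)) ∧
      ∀ a, (a < aA V n ∨ aW V n ≤ a) → σ'.mem a = σ.mem a) := by
  have haW : aW V n = aA V n + n * n := rfl
  refine (Run.forC (N := n * n) (B := tEnt n) (fun i σ' => σ'.reg 26 = i ∧
    (∀ r < 26, σ'.reg r = σ.reg r) ∧
    (∀ q < i, σ'.mem (aA V n + q) = ent V D inc (q / n) (q % n)) ∧
    ∀ a, (a < aA V n ∨ aW V n ≤ a) → σ'.mem a = σ.mem a) (by omega) le_rfl ?_ ?_ ?_).mono
    le_rfl ?_
  · refine ⟨by simp, fun r hr => ?_, fun q hq => absurd hq (Nat.not_lt_zero q), fun _ _ => rfl⟩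
    simp only [St.set_reg]; rw [if_neg (by omega)]
  · rintro i hi σ' ⟨h1, h2, h3, h4⟩
    exact ⟨(h2 20 (by omega)).trans hB.r20, h1⟩
  · rintro i hi σ' ⟨h1, h2, h4, h5⟩
    have hB' : Base1 V n inc σ' := hB.of_same (fun r hr => h2 r (by omega))
      (fun a ha => h5 a (by omega))
    refine (ent_run hB' hVn ((h2 3 (by omega)).trans h3) hD h1 hi hW).mono le_rfl ?_
    rintro σ'' ⟨g1, g2⟩
    refine ⟨(g1 26 (by omega)).trans h1, by simp, fun r hr => ?_, fun q hq => ?_, fun a ha => ?_⟩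
    · simp only [St.set_reg]; rw [if_neg (by omega), g1 r (by omega)]; exact h2 r hr
    · simp only [St.set_mem, g2, Function.update_apply]
      by_cases hqi : q = i
      · rw [if_pos (by omega), hqi]
      · rw [if_neg (by omega)]; exact h4 q (by omega)
    · simp only [St.set_mem, g2, Function.update_apply]
      rw [if_neg (by omega)]; exact h5 a ha
  · rintro σ' ⟨-, h2, h4, h5⟩
    exact ⟨h2, h4, h5⟩

end Pool.Agent.Lib.MP_d8fb5e_lc
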