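import Pool.Agent.Lib.MP_d8fb5e_lc.Setup3

namespace Pool.Agent.Lib.MP_d8fb5e_lc

open Pool.Agent.Lib.PRam

variable {W : ℕ} {σ : St}

/-- the least power of two which is at least `n` -/
def Kof (n : ℕ) : ℕ := 2 ^ Nat.clog 2 n

theorem le_Kof (n : ℕ) : n ≤ Kof n := Nat.le_pow_clog (by omega) n

theorem Kof_le {n : ℕ} (hn : 0 < n) : Kof n ≤ 2 * n := by
  unfold Kof
  rcases Nat.lt_or_ge 1 n with h | h
  · have h1 := Nat.pow_pred_clog_lt_self (b := 2) (by omega) h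
    have h2 : 0 < Nat.clog 2 n := Nat.clog_pos (by omega) h
    have h3 : 2 ^ Nat.clog 2 n = 2 * 2 ^ (Nat.clog 2 n).pred := by
      obtain ⟨m, hm⟩ : ∃ m, Nat.clog 2 n = m + 1 := ⟨Nat.clog 2 n - 1, by omega⟩
      rw [hm, Nat.pred_succ, pow_succ]; ring
    omega
  · obtain rfl : n = 1 := by omega
    simp

theorem Kof_pos (n : ℕ) : 0 < Kof n := by unfold Kof; positivity

theorem clog_le {n : ℕ} : Nat.clog 2 n ≤ n := by
  rcases Nat.eq_zero_or_pos n with h | h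
  · simp [h]
  · have h1 := Kof_le h
    have h2 : n < 2 ^ n := Nat.lt_two_pow_self
    have : 2 ^ Nat.clog 2 n < 2 ^ (n + 1) := by
      have : 2 ^ Nat.clog 2 n = Kof n := rfl
      rw [this, pow_succ]; omega
    have := (Nat.pow_lt_pow_iff_right (a := 2) (by omega)).mp this
    omega

/-! ### stage 6: `K`, `K * K` and the number of steps -/

def s6C : Cmd :=
  .seq (.assign 11 (.lit 1))
  (.seq (.whilepos (.sub (.var 2) (.var 11)) (.assign 11 (.mul (.lit 2) (.var 11))))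
  (.seq (.assign 12 (.mul (.var 11) (.var 11))) (.assign 13 (.mul (.var 2) (.var 12)))))

def t6 (n : ℕ) : ℕ := 30 + n * 20

theorem s6_run {n : ℕ} (h2 : σ.reg 2 = n) (hn : 0 < n)
    (hW : n * ((2 * n) * (2 * n)) + 4 * n + 4 ≤ W) :
    Run W s6C σ [] (t6 n) (fun σ' => σ'.reg 11 = (Kof n : ℕ) ∧ σ'.reg 12 = (Kof n * Kof n : ℕ) ∧
      σ'.reg 13 = (steps n (Kof n) : ℕ) ∧
      (∀ r, r ≠ 11 → r ≠ 12 → r ≠ 13 → σ'.reg r = σ.reg r) ∧ σ'.mem = σ.mem) := by
  refine Run.seqL (T₁ := 3) (T₂ := 27 + n * 20) (Run.assign (e := .lit 1) (ok1 (by omega)) ?_)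
    (by simp only [t6]; omega)
  have l1 : (Expr.lit 1).eval σ = 1 := rfl
  rw [l1]
  have hKn := Kof_le hn
  have hlog := clog_le (n := n)
  refine Run.seqL (T₁ := n * 14 + 7) (T₂ := 20) ((Run.whilepos (fun k σ' => ∃ i,
    i + k = Nat.clog 2 n ∧ σ'.reg 11 = ((2 ^ i : ℕ) : ℤ) ∧ (∀ r, r ≠ 11 → σ'.reg r = σ.reg r) ∧
    σ'.mem = σ.mem) 6 (Nat.clog 2 n) ?_ ?_ ?_).mono ?_ ?_) (by omega)
  · exact ⟨0, by omega, by simp, fun r hr => by simp [hr], rfl⟩
  · rintro k σ' ⟨i, hik, h11, hr, hm⟩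
    have hle : 2 ^ i ≤ Kof n := Nat.pow_le_pow_right (by omega) (by omega)
    refine ⟨trivial, trivial, ?_⟩
    simp only [Expr.eval, h11, hr 2 (by omega), h2]
    exact natAbs_sub_le (by omega) (by omega)
  · rintro k σ' ⟨i, hik, h11, hr, hm⟩ hpos
    have hpos : 0 < σ'.reg 2 - σ'.reg 11 := hpos
    rw [h11, hr 2 (by omega), h2] at hpos
    have hlt : 2 ^ i < n := by omega
    have hi : i < Nat.clog 2 n := by
      by_contra hc
      have h3 : Kof n ≤ 2 ^ i := Nat.pow_le_pow_right (by omega) (by omega)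
      have := le_Kof n
      omega
    refine ⟨k - 1, by omega, ?_⟩
    have e : (Expr.mul (.lit 2) (.var 11)).eval σ' = ((2 ^ (i + 1) : ℕ) : ℤ) := by
      simp only [Expr.eval, h11, pow_succ]; push_cast; ring
    refine Run.assign (e := .mul (.lit 2) (.var 11)) ⟨ok2 (by omega), trivial, ?_⟩ ?_
    · have : (Expr.lit 2).eval σ' * (Expr.var 11).eval σ' = ((2 ^ (i + 1) : ℕ) : ℤ) := e
      rw [this, Int.natAbs_natCast, pow_succ]; omega
    rw [e]
    refine ⟨i + 1, by omega, by simp, fun r hr' => ?_, hm⟩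
    simp only [St.set_reg]; rw [if_neg hr']; exact hr r hr'
  · have : Nat.clog 2 n * (5 + 3 + 6) ≤ n * (5 + 3 + 6) := Nat.mul_le_mul_right _ hlog
    simp only [Expr.size]; omega
  rintro σ₁ ⟨hle, k, i, hik, h11, hr, hm⟩
  have hle : σ₁.reg 2 - σ₁.reg 11 ≤ 0 := hle
  rw [h11, hr 2 (by omega), h2] at hle
  have hi : i = Nat.clog 2 n := by
    by_contra hc
    have h3 : n ≤ 2 ^ i := by omega
    have := Nat.clog_le_of_le_pow h3
    omega
  have e11 : σ₁.reg 11 = (Kof n : ℕ) := by rw [h11, hi]; rfl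
  have hKK : Kof n * Kof n ≤ (2 * n) * (2 * n) := Nat.mul_le_mul hKn hKn
  have hst : n * (Kof n * Kof n) ≤ n * ((2 * n) * (2 * n)) := Nat.mul_le_mul_left _ hKK
  have hKK2 : 1 * (Kof n * Kof n) ≤ n * (Kof n * Kof n) := Nat.mul_le_mul_right _ hn
  have e12 : (Expr.mul (.var 11) (.var 11)).eval σ₁ = ((Kof n * Kof n : ℕ) : ℤ) := by
    simp only [Expr.eval, e11]; push_cast; rfl
  refine Run.seqL (T₁ := 7) (T₂ := 7) (Run.assign (e := .mul (.var 11) (.var 11))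
    ⟨trivial, trivial, ?_⟩ ?_) (by omega)
  · have : (Expr.var 11).eval σ₁ * (Expr.var 11).eval σ₁ = ((Kof n * Kof n : ℕ) : ℤ) := e12
    rw [this, Int.natAbs_natCast]; omega
  rw [e12]
  set σ₂ := σ₁.set 12 ((Kof n * Kof n : ℕ) : ℤ) with hσ₂
  have f12 : σ₂.reg 12 = (Kof n * Kof n : ℕ) := by simp [hσ₂]
  have f2 : σ₂.reg 2 = n := by
    simp only [hσ₂, St.set_reg]; rw [if_neg (by omega), hr 2 (by omega)]; exact h2
  have e13 : (Expr.mul (.var 2) (.var 12)).eval σ₂ = ((steps n (Kof n) : ℕ) : ℤ) := by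
    simp only [Expr.eval, f2, f12, steps]; push_cast; rfl
  refine Run.assign (e := .mul (.var 2) (.var 12)) ⟨trivial, trivial, ?_⟩ ?_
  · have : (Expr.var 2).eval σ₂ * (Expr.var 12).eval σ₂ = ((steps n (Kof n) : ℕ) : ℤ) := e13
    rw [this, Int.natAbs_natCast, steps]; omega
  rw [e13]
  refine ⟨?_, ?_, by simp, fun r h1 h3 h4 => ?_, ?_⟩
  · simp only [hσ₂, St.set_reg]; rw [if_neg (by omega), if_neg (by omega)]; exact e11
  · simp only [St.set_reg]; rw [if_neg (by omega)]; exact f12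
  · simp only [hσ₂, St.set_reg]; rw [if_neg h4, if_neg h3]; exact hr r h1
  · rw [St.set_mem, hσ₂, St.set_mem, hm]

/-! ### stage 7: `rng` and the modulus of the draws -/

def s7C : Cmd :=
  .seq (.assign 14 (.lit 1))
  (.seq (forDo 26 13 (.assign 14 (.mul (.var 14) (.var 12)))) (.assign 16 (.mul (.var 15) (.var 14))))

def t7 (n : ℕ) : ℕ := 20 + forT (stepsB n) 7

theorem s7_run {n K : ℕ} (h12 : σ.reg 12 = (K * K : ℕ)) (h13 : σ.reg 13 = (steps n K : ℕ))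
    (h15 : σ.reg 15 = (2 ^ n : ℕ)) (hK0 : 0 < K) (hK : K ≤ 2 * n) (hW : steps n K + 1 ≤ W)
    (hW2 : 2 ^ n * rng n K ≤ W) :
    Run W s7C σ [] (t7 n) (fun σ' => σ'.reg 14 = (rng n K : ℕ) ∧
      σ'.reg 16 = (2 ^ n * rng n K : ℕ) ∧
      (∀ r, r ≠ 14 → r ≠ 16 → r ≠ 26 → σ'.reg r = σ.reg r) ∧ σ'.mem = σ.mem) := by
  have hrW : rng n K ≤ W := by
    have : 1 * rng n K ≤ 2 ^ n * rng n K := Nat.mul_le_mul_right _ Nat.one_le_two_pow
    omega
  have hKK : 1 ≤ K * K := Nat.mul_pos hK0 hK0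
  refine Run.seqL (T₁ := 3) (T₂ := 17 + forT (stepsB n) 7) (Run.assign (e := .lit 1)
    (ok1 (by omega)) ?_) (by simp only [t7]; omega)
  have l1 : (Expr.lit 1).eval σ = 1 := rfl
  rw [l1]
  refine Run.seqL (T₁ := forT (stepsB n) 7) (T₂ := 7) ((Run.forC (N := steps n K) (B := 7)
    (fun i σ' => σ'.reg 26 = i ∧ σ'.reg 14 = (((K * K) ^ i : ℕ) : ℤ) ∧
    (∀ r, r ≠ 14 → r ≠ 26 → σ'.reg r = σ.reg r) ∧ σ'.mem = σ.mem) hW (steps_le hK)
    ?_ ?_ ?_).mono le_rfl ?_) (by omega)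
  · exact ⟨by simp, by simp, fun r h1 h2 => by simp [h1, h2], rfl⟩
  · rintro i hi σ' ⟨h1, h2, h3, h4⟩
    exact ⟨(h3 13 (by omega) (by omega)).trans h13, h1⟩
  · rintro i hi σ' ⟨h1, h2, h3, h4⟩
    have hle : (K * K) ^ (i + 1) ≤ rng n K := Nat.pow_le_pow_right hKK hi
    have e : (Expr.mul (.var 14) (.var 12)).eval σ' = (((K * K) ^ (i + 1) : ℕ) : ℤ) := by
      simp only [Expr.eval, h2, h3 12 (by omega) (by omega), h12, pow_succ]
      rw [← Nat.cast_mul]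
    refine Run.assign (e := .mul (.var 14) (.var 12)) ⟨trivial, trivial, ?_⟩ ?_
    · have : (Expr.var 14).eval σ' * (Expr.var 12).eval σ' = (((K * K) ^ (i + 1) : ℕ) : ℤ) := e
      rw [this, Int.natAbs_natCast]; omega
    rw [e]
    refine ⟨by simp [h1], by simp, by simp, fun r h5 h6 => ?_, h4⟩
    simp only [St.set_reg]; rw [if_neg h6, if_neg h5]; exact h3 r h5 h6
  rintro σ₁ ⟨-, g1, g2, g3⟩
  have g14 : σ₁.reg 14 = (rng n K : ℕ) := g1
  have g15 : σ₁.reg 15 = (2 ^ n : ℕ) := (g2 15 (by omega) (by omega)).trans h15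
  have e : (Expr.mul (.var 15) (.var 14)).eval σ₁ = ((2 ^ n * rng n K : ℕ) : ℤ) := by
    simp only [Expr.eval, g14, g15]; rw [← Nat.cast_mul]
  refine Run.assign (e := .mul (.var 15) (.var 14)) ⟨trivial, trivial, ?_⟩ ?_
  · have : (Expr.var 15).eval σ₁ * (Expr.var 14).eval σ₁ = ((2 ^ n * rng n K : ℕ) : ℤ) := e
    rw [this, Int.natAbs_natCast]; omega
  rw [e]
  refine ⟨by simp [g14], by simp, fun r h1 h2 h3 => ?_, g3⟩
  simp only [St.set_reg]; rw [if_neg h2]; exact g2 r h1 h3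

/-! ### stage 8: the first basis and the rank -/

def s8Body : Cmd := .seq (.assign 42 (.add (.var 18) (pwE 26))) (.seq elimC
  (.ite (.var 40) (.assign 18 (.add (.var 18) (pwE 26))) .skip))

def s8C : Cmd :=
  .seq (.assign 18 (.lit 0)) (.seq (forDo 26 2 s8Body)
    (.seq (.assign 42 (.var 18)) (.seq elimC (.assign 19 (.var 41)))))

def t8 (n : ℕ) : ℕ := 30 + forT n (tElim n + 50) + tElim n

theorem s8_run {n bA bW bS : ℕ} {A : ℕ → ℕ → ℤ} (hE : Env n A bA bW bS σ) (hWk : WOk n bS W)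
    (hA : ∀ g < n, ∀ h < n, |A g h| ≤ 1) :
    Run W s8C σ [] (t8 n) (fun σ' => σ'.reg 18 = (base0 n A : ℕ) ∧
      σ'.reg 19 = (pop n (base0 n A) : ℕ) ∧ (∀ r < 26, r ≠ 18 → r ≠ 19 → σ'.reg r = σ.reg r) ∧
      ∀ a, (a < bS ∨ bS + 2 * (n * n) + n ≤ a) → σ'.mem a = σ.mem a) := by
  obtain ⟨w1, w2, w3⟩ := hWk
  have h1n : 1 ≤ 2 ^ n := Nat.one_le_two_pow
  refine Run.seqL (T₁ := 3) (T₂ := 27 + forT n (tElim n + 50) + tElim n)
    (Run.assign (e := .lit 0) ok0 ?_) (by simp only [t8]; omega)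
  have l0 : (Expr.lit 0).eval σ = 0 := rfl
  rw [l0]
  refine Run.seqL (T₁ := forT n (tElim n + 50)) (T₂ := 27 + tElim n) ((Run.forC (N := n)
    (B := tElim n + 50) (fun i σ' => σ'.reg 26 = i ∧ σ'.reg 18 = (greedy n A i : ℕ) ∧
    (∀ r < 26, r ≠ 18 → σ'.reg r = σ.reg r) ∧
    ∀ a, (a < bS ∨ bS + 2 * (n * n) + n ≤ a) → σ'.mem a = σ.mem a) (by omega) le_rfl
    ?_ ?_ ?_).mono le_rfl ?_) (by omega)
  · refine ⟨by simp, by simp [greedy], fun r h1 h2 => ?_, fun _ _ => rfl⟩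
    simp only [St.set_reg]; rw [if_neg (by omega), if_neg h2]
  · rintro i hi σ' ⟨h1, h2, h3, h4⟩
    exact ⟨(h3 2 (by omega) (by omega)).trans hE.r2, h1⟩
  · rintro i hi σ' ⟨h1, h2, h3, h4⟩
    have hE' : Env n A bA bW bS σ' := by
      refine ⟨?_, ?_, ?_, ?_, ?_, ?_, ?_, fun q hq => ?_, fun j hj => ?_, hE.hA, hE.hW⟩
      · rw [h3 2 (by omega) (by omega)]; exact hE.r2
      · rw [h3 4 (by omega) (by omega)]; exact hE.r4
      · rw [h3 5 (by omega) (by omega)]; exact hE.r5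
      · rw [h3 6 (by omega) (by omega)]; exact hE.r6
      · rw [h3 7 (by omega) (by omega)]; exact hE.r7
      · rw [h3 8 (by omega) (by omega)]; exact hE.r8
      · rw [h3 20 (by omega) (by omega)]; exact hE.r20
      · rw [h4 _ (by have := hE.hA; omega)]; exact hE.mA q hq
      · rw [h4 _ (by have := hE.hW; omega)]; exact hE.mW j hj
    have hgl : greedy n A i < 2 ^ i := greedy_lt n A i
    have h2i : 2 ^ i ≤ 2 ^ n := Nat.pow_le_pow_right (by omega) hi.le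
    have hsum : greedy n A i + 2 ^ i ≤ W := by omega
    have cand : ∀ σ₁ : St, Env n A bA bW bS σ₁ → σ₁.reg 18 = (greedy n A i : ℕ) →
        σ₁.reg 26 = i → (Expr.add (.var 18) (pwE 26)).ok W σ₁ ∧
        (Expr.add (.var 18) (pwE 26)).eval σ₁ = ((greedy n A i + 2 ^ i : ℕ) : ℤ) := by
      intro σ₁ hE₁ q18 q26
      have hp := pwE_eval hE₁ q26 hi.le
      have hev : (Expr.add (.var 18) (pwE 26)).eval σ₁ = ((greedy n A i + 2 ^ i : ℕ) : ℤ) := by
        simp only [Expr.eval, q18, hp]; push_cast; rfl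
      refine ⟨⟨trivial, pwE_ok hE₁ q26 hi.le (by omega), ?_⟩, hev⟩
      have : (Expr.var 18).eval σ₁ + (pwE 26).eval σ₁ = ((greedy n A i + 2 ^ i : ℕ) : ℤ) := hev
      rw [this, Int.natAbs_natCast]; exact hsum
    obtain ⟨o1, v1⟩ := cand σ' hE' h2 h1
    refine Run.seqL (T₁ := 11) (T₂ := tElim n + 39) ((Run.assign o1 ?_).mono
      (by simp only [pwE, Expr.size]; omega) (fun _ h => h)) (by omega)
    rw [v1]
    have hfr : Fr 40 bS (bS + 2 * (n * n) + n) σ' (σ'.set 42 ((greedy n A i + 2 ^ i : ℕ) : ℤ)) :=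
      (Fr.refl σ').set (by omega)
    refine Run.seqL (T₁ := tElim n) (T₂ := 39) ((elim_run (z := greedy n A i + 2 ^ i)
      (hE'.of_fr hfr (by omega)) (by simp) hsum hA w1 w2 w3).mono le_rfl ?_) (by omega)
    rintro σ₁ ⟨f1, f2, f3⟩
    have hfr1 := hfr.trans f1
    have hE1 := hE'.of_fr hfr1 (by omega)
    have q18 : σ₁.reg 18 = (greedy n A i : ℕ) := (hfr1.1 18 (by omega)).trans h2
    have q26 : σ₁.reg 26 = i := (hfr1.1 26 (by omega)).trans h1
    obtain ⟨o2, v2⟩ := cand σ₁ hE1 q18 q26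
    have base : ∀ σ₂ : St, σ₂.reg 18 = (greedy n A (i + 1) : ℕ) →
        (∀ r, r ≠ 18 → σ₂.reg r = σ₁.reg r) → σ₂.mem = σ₁.mem → σ₂.reg 26 = i ∧
        (σ₂.set 26 ((i + 1 : ℕ) : ℤ)).reg 26 = ((i + 1 : ℕ) : ℤ) ∧
        (σ₂.set 26 ((i + 1 : ℕ) : ℤ)).reg 18 = (greedy n A (i + 1) : ℕ) ∧
        (∀ r < 26, r ≠ 18 → (σ₂.set 26 ((i + 1 : ℕ) : ℤ)).reg r = σ.reg r) ∧
        ∀ a, (a < bS ∨ bS + 2 * (n * n) + n ≤ a) →
          (σ₂.set 26 ((i + 1 : ℕ) : ℤ)).mem a = σ.mem a := by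
      intro σ₂ p1 p2 p3
      refine ⟨(p2 26 (by omega)).trans q26, by simp, by simp [p1], fun r hr hr' => ?_,
        fun a ha => ?_⟩
      · simp only [St.set_reg]
        rw [if_neg (by omega), p2 r hr', hfr1.1 r (by omega)]; exact h3 r hr hr'
      · rw [St.set_mem, p3, hfr1.2 a ha]; exact h4 a ha
    refine Run.ite (T' := 11) trivial (fun hne => ?_) (fun heq => ?_)
      (by simp only [Expr.size]; omega)
    · have hne : σ₁.reg 40 ≠ 0 := hne
      rw [f2] at hne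
      have hi' : indepM n A (greedy n A i + 2 ^ i) = true := by by_contra hc; simp [hc] at hne
      refine (Run.assign o2 ?_).mono (by simp only [pwE, Expr.size]; omega) (fun _ h => h)
      rw [v2]
      refine base _ ?_ (fun r hr => by simp only [St.set_reg]; rw [if_neg hr]) rfl
      simp only [St.set_reg, if_true]
      rw [greedy, if_pos hi']
    · have heq : σ₁.reg 40 = 0 := heq
      rw [f2] at heq
      have hi' : ¬ indepM n A (greedy n A i + 2 ^ i) = true := by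
        intro hc; simp [hc] at heq
      refine Run.skip (base _ ?_ (fun r hr => rfl) rfl)
      rw [greedy, if_neg hi']; exact q18
  rintro σ₁ ⟨-, g1, g2, g3⟩
  have hE1 : Env n A bA bW bS σ₁ := by
    refine ⟨?_, ?_, ?_, ?_, ?_, ?_, ?_, fun q hq => ?_, fun j hj => ?_, hE.hA, hE.hW⟩
    · rw [g2 2 (by omega) (by omega)]; exact hE.r2
    · rw [g2 4 (by omega) (by omega)]; exact hE.r4
    · rw [g2 5 (by omega) (by omega)]; exact hE.r5
    · rw [g2 6 (by omega) (by omega)]; exact hE.r6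
    · rw [g2 7 (by omega) (by omega)]; exact hE.r7
    · rw [g2 8 (by omega) (by omega)]; exact hE.r8
    · rw [g2 20 (by omega) (by omega)]; exact hE.r20
    · rw [g3 _ (by have := hE.hA; omega)]; exact hE.mA q hq
    · rw [g3 _ (by have := hE.hW; omega)]; exact hE.mW j hj
  refine Run.seqL (T₁ := 4) (T₂ := 20 + tElim n) (Run.assign (e := .var 18) trivial ?_) (by omega)
  have e18 : (Expr.var 18).eval σ₁ = (base0 n A : ℕ) := g1
  rw [e18]
  have hb0 := base0_lt n A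
  have hfr : Fr 40 bS (bS + 2 * (n * n) + n) σ₁ (σ₁.set 42 (base0 n A : ℕ)) :=
    (Fr.refl σ₁).set (by omega)
  refine Run.seqL (T₁ := tElim n) (T₂ := 20) ((elim_run (z := base0 n A)
    (hE1.of_fr hfr (by omega)) (by simp) (by omega) hA w1 w2 w3).mono le_rfl ?_) (by omega)
  rintro σ₂ ⟨f1, f2, f3⟩
  have hfr1 := hfr.trans f1
  refine (Run.assign (e := .var 41) trivial ?_).mono (by show 4 ≤ 20; omega) (fun _ h => h)
  have e41 : (Expr.var 41).eval σ₂ = (pop n (base0 n A) : ℕ) := f3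
  rw [e41]
  refine ⟨?_, by simp, fun r h1 h2 h3 => ?_, fun a ha => ?_⟩
  · simp only [St.set_reg]; rw [if_neg (by omega), hfr1.1 18 (by omega)]; exact g1
  · simp only [St.set_reg]; rw [if_neg h3, hfr1.1 r (by omega)]; exact g2 r h1 h2
  · rw [St.set_mem, hfr1.2 a ha]; exact g3 a ha

end Pool.Agent.Lib.MP_d8fb5e_lc
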