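import Pool.Agent.Lib.MP_d8fb5e_lc.Setup4
import Pool.Agent.Lib.MP_d8fb5e_lc.Input2

namespace Pool.Agent.Lib.MP_d8fb5e_lc

open Pool.Agent.Lib.PRam

variable {W : ℕ} {σ : St}

def setupC : Cmd :=
  .seq s1C (.seq s2C (.seq s3C (.seq s4C (.seq s5C (.seq s6C (.seq s7C s8C))))))

def tSetup (n : ℕ) : ℕ := 100 + t2 n + t3 n + t4 n + t5 n + t6 n + t7 n + t8 n

/-- number of coin flips of one draw -/
def ellF (n : ℕ) : ℕ := n + 2 * (Nat.clog 2 n * steps n (Kof n))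

theorem ellF_eq (n : ℕ) : 2 ^ n * rng n (Kof n) = 2 ^ ellF n := by
  unfold ellF rng Kof
  rw [← pow_add, ← pow_mul, ← pow_add]
  congr 1
  ring

theorem ent_eq_mat (Δ : SComplex) (d g h : ℕ) (hg : g < Δ.faces.length) (hh : h < Δ.faces.length) :
    ent Δ.V (d + 1) Δ.inc g h = Δ.mat d g h := by
  rw [mat_eq Δ d g h hg hh]
  rfl

theorem lowF_eq (Δ : SComplex) (d : ℕ) :
    lowF Δ.V Δ.inc (d + 1) Δ.faces.length = Δ.low d := by
  rw [low_eq]
  unfold lowF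
  apply Finset.sum_congr rfl
  intro f _
  congr 1
  exact propext Nat.lt_succ_iff

/-- the assumptions on the word size -/
structure WAll (V n W : ℕ) : Prop where
  w : WOk2 n (Kof n) (aS V n) W
  h8 : n * ((2 * n) * (2 * n)) + 4 * n + 4 ≤ W

theorem setup_run (Δ : SComplex) (d : ℕ) (hdim : Δ.HasDim d)
    (hW : WAll Δ.V Δ.faces.length W) :
    Run W setupC (init Δ.code) [] (tSetup Δ.faces.length) (fun σ' =>
      Ready Δ.faces.length (Δ.mat d) (Kof Δ.faces.length) (Δ.low d)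
        (aA Δ.V Δ.faces.length) (aW Δ.V Δ.faces.length) (aS Δ.V Δ.faces.length)
        (ellF Δ.faces.length) W σ') := by
  obtain ⟨n, hn⟩ : ∃ n, Δ.faces.length = n := ⟨_, rfl⟩
  obtain ⟨f0, hf0, hf0'⟩ := dim_eq Δ d hdim
  have hdle := fun f hf => dim_le Δ d hdim f hf
  have hVn := V_le Δ
  have hlen := code_length Δ
  have hinc := fun f v hf hv => code_inc Δ f v hf hv
  have hent := fun g h hg hh => ent_eq_mat Δ d g h hg hh
  have hlowe := lowF_eq Δ d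
  have hlow := low_lt Δ d
  have hc1 := code_one Δ
  rw [hn] at hW hf0 hdle hVn hlen hinc hent hlowe hlow hc1 ⊢
  have hn0 : 0 < n := by omega
  have hmx : mxc Δ.V Δ.inc n = d + 1 := by
    apply le_antisymm (mxc_le hdle n le_rfl)
    rw [← hf0']; exact le_mxc n hf0
  have hDV : d + 1 ≤ n := by
    have := crd_le Δ.V (Δ.inc f0)
    omega
  obtain ⟨⟨⟨w1, w2, w3⟩, w4, w5, w6, w7, w8⟩, w9⟩ := hW
  have haS : aS Δ.V n = aW Δ.V n + n + 1 := rfl
  have haW : aW Δ.V n = aA Δ.V n + n * n := rfl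
  have h1n : 1 ≤ 2 ^ n := Nat.one_le_two_pow
  have hKle := Kof_le hn0
  have hKpos := Kof_pos n
  -- stage 1
  refine Run.seqL (T₁ := 100) (T₂ := t2 n + t3 n + t4 n + t5 n + t6 n + t7 n + t8 n)
    ((s1_run (V := Δ.V) (n := n) (inc := Δ.inc) ?_ ?_ ?_ ?_ (by omega)).mono le_rfl ?_)
    (by simp only [tSetup]; omega)
  · simp [hlen]
  · exact code_zero Δ
  · exact hc1
  · exact fun f hf v hv => hinc f v hf hv
  rintro σ₁ ⟨hB1, -⟩
  -- stage 2
  refine Run.seqL (T₁ := t2 n) (T₂ := t3 n + t4 n + t5 n + t6 n + t7 n + t8 n)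
    ((s2_run hB1 (by omega) w3).mono le_rfl ?_) (by omega)
  intro σ₂ hB2
  -- stage 3
  refine Run.seqL (T₁ := t3 n) (T₂ := t4 n + t5 n + t6 n + t7 n + t8 n)
    ((s3_run hB2.b hVn (by omega)).mono le_rfl ?_) (by omega)
  rintro σ₃ ⟨r3, f3, m3⟩
  rw [hmx] at r3
  have hB3 : Base2 Δ.V n Δ.inc σ₃ := hB2.of_same (fun r hr => f3 r (by omega) (by omega))
    (fun a _ => by rw [m3])
  -- stage 4
  refine Run.seqL (T₁ := t4 n) (T₂ := t5 n + t6 n + t7 n + t8 n)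
    ((s4_run (D := d + 1) hB3 hVn r3 hDV (by omega) w3).mono le_rfl ?_) (by omega)
  rintro σ₄ ⟨r17, f4, m4⟩
  rw [hlowe] at r17
  have hB4 : Base2 Δ.V n Δ.inc σ₄ := hB3.of_same (fun r hr => f4 r (by omega) (by omega))
    (fun a _ => by rw [m4])
  have r3' : σ₄.reg 3 = (d + 1 : ℕ) := (f4 3 (by omega) (by omega)).trans r3
  -- stage 5
  refine Run.seqL (T₁ := t5 n) (T₂ := t6 n + t7 n + t8 n)
    ((s5_run (D := d + 1) hB4.b hVn r3' hDV (by omega)).mono le_rfl ?_) (by omega)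
  rintro σ₅ ⟨f5, a5, m5⟩
  have hB5 : Base2 Δ.V n Δ.inc σ₅ := hB4.of_same (fun r hr => f5 r (by omega))
    (fun a ha => m5 a (by omega))
  have hA5 : ∀ q < n * n, σ₅.mem (aA Δ.V n + q) = Δ.mat d (q / n) (q % n) := by
    intro q hq
    rw [a5 q hq]
    exact hent _ _ (by rw [Nat.div_lt_iff_lt_mul hn0]; exact hq) (Nat.mod_lt _ hn0)
  have r17' : σ₅.reg 17 = (Δ.low d : ℕ) := (f5 17 (by omega)).trans r17
  -- stage 6
  refine Run.seqL (T₁ := t6 n) (T₂ := t7 n + t8 n)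
    ((s6_run hB5.b.r2 hn0 w9).mono le_rfl ?_) (by omega)
  rintro σ₆ ⟨r11, r12, r13, f6, m6⟩
  -- stage 7
  have r15 : σ₆.reg 15 = (2 ^ n : ℕ) := (f6 15 (by omega) (by omega) (by omega)).trans hB5.r15
  have hN1 : 2 ^ n * rng n (Kof n) ≤ W := by
    have : 1 * (2 ^ n * rng n (Kof n)) ≤ 2 ^ n * (2 ^ n * rng n (Kof n)) :=
      Nat.mul_le_mul_right _ h1n
    omega
  refine Run.seqL (T₁ := t7 n) (T₂ := t8 n)
    ((s7_run r12 r13 r15 hKpos hKle w6 hN1).mono le_rfl ?_) (by omega)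
  rintro σ₇ ⟨r14, r16, f7, m7⟩
  have hB7 : Base2 Δ.V n Δ.inc σ₇ := hB5.of_same
    (fun r hr => (f7 r (by omega) (by omega) (by omega)).trans
      (f6 r (by omega) (by omega) (by omega)))
    (fun a _ => by rw [m7, m6])
  have hE7 : Env n (Δ.mat d) (aA Δ.V n) (aW Δ.V n) (aS Δ.V n) σ₇ :=
    ⟨hB7.b.r2, hB7.b.r4, hB7.b.r5, hB7.b.r6, hB7.b.r7, hB7.b.r8, hB7.b.r20,
      fun q hq => by rw [m7, m6]; exact hA5 q hq, hB7.mW, by omega, by omega⟩
  have hAbs : ∀ g < n, ∀ h < n, |Δ.mat d g h| ≤ 1 := fun g _ h _ => mat_abs_le Δ d g h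
  -- stage 8
  refine (s8_run hE7 ⟨w1, w2, w3⟩ hAbs).mono le_rfl ?_
  rintro σ₈ ⟨r18, r19, f8, m8⟩
  have g : ∀ r, r < 26 → r ≠ 18 → r ≠ 19 → σ₈.reg r = σ₇.reg r := f8
  have hE8 : Env n (Δ.mat d) (aA Δ.V n) (aW Δ.V n) (aS Δ.V n) σ₈ := by
    refine ⟨?_, ?_, ?_, ?_, ?_, ?_, ?_, fun q hq => ?_, fun j hj => ?_, by omega, by omega⟩
    · rw [g 2 (by omega) (by omega) (by omega)]; exact hE7.r2
    · rw [g 4 (by omega) (by omega) (by omega)]; exact hE7.r4
    · rw [g 5 (by omega) (by omega) (by omega)]; exact hE7.r5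
    · rw [g 6 (by omega) (by omega) (by omega)]; exact hE7.r6
    · rw [g 7 (by omega) (by omega) (by omega)]; exact hE7.r7
    · rw [g 8 (by omega) (by omega) (by omega)]; exact hE7.r8
    · rw [g 20 (by omega) (by omega) (by omega)]; exact hE7.r20
    · rw [m8 _ (by omega)]; exact hE7.mA q hq
    · rw [m8 _ (by omega)]; exact hE7.mW j hj
  refine ⟨hE8, ⟨?_, ?_, ?_, ?_, ?_, ?_, ?_, ?_, r18, r19⟩, ⟨⟨w1, w2, w3⟩, w4, w5, w6, w7, w8⟩,
    hAbs, hn0, le_Kof n, hKle, ellF_eq n, ?_, hlow.le⟩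
  · rw [g 9 (by omega) (by omega) (by omega)]; exact hB7.b.r9
  · rw [g 10 (by omega) (by omega) (by omega)]; exact hB7.r10
  · rw [g 11 (by omega) (by omega) (by omega), f7 11 (by omega) (by omega) (by omega)]
    exact r11
  · rw [g 12 (by omega) (by omega) (by omega), f7 12 (by omega) (by omega) (by omega)]
    exact r12
  · rw [g 13 (by omega) (by omega) (by omega), f7 13 (by omega) (by omega) (by omega)]
    exact r13
  · rw [g 14 (by omega) (by omega) (by omega)]; exact r14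
  · rw [g 15 (by omega) (by omega) (by omega)]; exact hB7.r15
  · rw [g 16 (by omega) (by omega) (by omega)]; exact r16
  · rw [g 17 (by omega) (by omega) (by omega), f7 17 (by omega) (by omega) (by omega),
      f6 17 (by omega) (by omega) (by omega)]
    exact r17'

end Pool.Agent.Lib.MP_d8fb5e_lc
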